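import Pool.Agent.Worm.Br.Bounds

/-!
# The Borel transform of the solution of the limit problem (MP_3c4b73_an)
-/

open MeasureTheory Set Filter Metric
open scoped Real ENNReal Topology ComplexConjugate

namespace Pool.Agent.Worm

namespace Br

theorem exp_sub_integral (h : ℝ → ℂ) :
    ∫ x in Ioi (0 : ℝ), h x = ∫ l : ℝ, ((Real.exp l : ℝ) : ℂ) * h (Real.exp l) := by
  have h1 := integral_image_eq_integral_abs_deriv_smul (s := univ) (f := Real.exp) (f' := Real.exp)
    MeasurableSet.univ (fun x _ => (Real.hasDerivAt_exp x).hasDerivWithinAt)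
    Real.exp_injective.injOn h
  rw [image_univ, Real.range_exp, Measure.restrict_univ] at h1
  rw [h1]
  congr 1
  ext l
  rw [abs_of_pos (Real.exp_pos l), Complex.real_smul]

theorem exp_sub_integrable (h : ℝ → ℂ) :
    IntegrableOn h (Ioi 0) ↔ Integrable (fun l : ℝ => ((Real.exp l : ℝ) : ℂ) * h (Real.exp l)) := by
  have h1 := integrableOn_image_iff_integrableOn_abs_deriv_smul (s := univ) (f := Real.exp)
    (f' := Real.exp) MeasurableSet.univ (fun x _ => (Real.hasDerivAt_exp x).hasDerivWithinAt)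
    Real.exp_injective.injOn h
  rw [image_univ, Real.range_exp, integrableOn_univ] at h1
  rw [h1]
  refine integrable_congr (Eventually.of_forall fun l => ?_)
  simp only
  rw [abs_of_pos (Real.exp_pos l), Complex.real_smul]

/-- The conversion factor. -/
theorem conv {t : ℝ} {s ζ : ℂ} (hζ : ζ ∈ HP) (x : ℂ) :
    ((‖ζ‖ ^ (-4 : ℝ) : ℝ) : ℂ) * (x * Complex.exp (s * conj (ph t ζ))) =
      Complex.exp (-(s * (t * Complex.I))) * ((1 / conj ζ) ^ (2 + s) * (x / ζ ^ 2)) := by
  have hre := re_pos_of_HP hζ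
  have h0 := ne_zero_of_HP hζ
  have hc0 : conj ζ ≠ 0 := by simpa using h0
  have harg : (conj ζ).arg ≠ π := by
    have h1 : |(conj ζ).arg| < π / 2 :=
      Complex.abs_arg_lt_pi_div_two_iff.2 (Or.inl (by simpa using hre))
    intro h2
    rw [h2, abs_of_pos Real.pi_pos] at h1
    linarith [Real.pi_pos]
  have harg' : ζ.arg ≠ π := by
    have h1 : |ζ.arg| < π / 2 := Complex.abs_arg_lt_pi_div_two_iff.2 (Or.inl hre)
    intro h2
    rw [h2, abs_of_pos Real.pi_pos] at h1
    linarith [Real.pi_pos]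
  have h3 : conj (ph t ζ) = -(t * Complex.I) - Complex.log (conj ζ) := by
    unfold ph
    rw [map_sub, map_mul, Complex.conj_ofReal, Complex.conj_I, Complex.log_conj ζ harg']
    ring
  have h4 : (1 / conj ζ) ^ (2 + s) = (1 / conj ζ) ^ 2 * Complex.exp (-(s * Complex.log (conj ζ))) := by
    rw [Complex.cpow_add _ _ (one_div_ne_zero hc0)]
    congr 1
    · exact_mod_cast Complex.cpow_natCast (1 / conj ζ) 2
    · rw [Complex.cpow_def_of_ne_zero (one_div_ne_zero hc0), one_div, Complex.log_inv _ harg]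
      congr 1
      ring
  have h5 : ((‖ζ‖ ^ (-4 : ℝ) : ℝ) : ℂ) = (1 / conj ζ) ^ 2 / ζ ^ 2 := by
    rw [show (-4 : ℝ) = -((4 : ℕ) : ℝ) by norm_num, Real.rpow_neg (norm_nonneg _),
      Real.rpow_natCast]
    have h6 : (conj ζ) * ζ = ((‖ζ‖ ^ 2 : ℝ) : ℂ) := by
      rw [mul_comm, Complex.mul_conj, Complex.normSq_eq_norm_sq]
    have h7 : (conj ζ) ^ 2 * ζ ^ 2 = ((‖ζ‖ ^ 4 : ℝ) : ℂ) := by
      rw [← mul_pow, h6]
      push_cast
      ring
    rw [Complex.ofReal_inv, ← h7]
    field_simp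
  rw [h3, h4, h5, show s * (-(t * Complex.I) - Complex.log (conj ζ)) =
    -(s * (t * Complex.I)) + -(s * Complex.log (conj ζ)) by ring, Complex.exp_add]
  ring

/-- The Laplace formula on the disc `D(t)`. -/
theorem laplace_D0 {b : ℝ} {F : ℂ → ℂ} (h : Ok b F) {t : ℝ} (ht : |t| < b)
    (hen : en (3 / 4) (fs F t) ≠ ⊤) {σ : ℂ} (hσ : 0 < σ.re) :
    IntegrableOn (fun w => F w * Complex.exp ((σ - 1) * conj w)) (D0 t) areaM ∧
    Integrable (fun l : ℝ => Psi F (l + t * Complex.I) *
      Complex.exp (σ * (l - t * Complex.I)) * ((Real.exp (-Real.exp l) : ℝ) : ℂ)) ∧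
    Complex.Gamma (1 + σ) * ∫ w in D0 t, F w * Complex.exp ((σ - 1) * conj w) ∂areaM =
      π * ∫ l : ℝ, Psi F (l + t * Complex.I) *
        Complex.exp (σ * (l - t * Complex.I)) * ((Real.exp (-Real.exp l) : ℝ) : ℂ) := by
  have hpi : (π : ℂ) ≠ 0 := by exact_mod_cast Real.pi_ne_zero
  obtain ⟨h1, h2, h3⟩ := laplace (nice_fs h ht) hen (s := σ - 1) (by simpa using hσ)
  have h2s : 2 + (σ - 1) = 1 + σ := by ring
  have hE : ∀ ζ ∈ HP, ((‖ζ‖ ^ (-4 : ℝ) : ℝ) : ℂ) *
      (F (ph t ζ) * Complex.exp ((σ - 1) * conj (ph t ζ))) =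
      Complex.exp (-((σ - 1) * (t * Complex.I))) *
        ((1 / conj ζ) ^ (2 + (σ - 1)) * (fs F t ζ / ζ ^ 2)) := fun ζ hζ => conv hζ _
  -- the change of variables
  have h4 : ∀ l : ℝ, ((Real.exp l : ℝ) : ℂ) * (((Real.exp l : ℝ) : ℂ) ^ (2 + (σ - 1) - 1) *
      (((Real.exp (-Real.exp l) / (2 * Real.exp l) : ℝ) : ℂ) * vl (fs F t) (Real.exp l) 1)) =
      (π * Complex.exp ((σ - 1) * (t * Complex.I))) * (Psi F (l + t * Complex.I) *
      Complex.exp (σ * (l - t * Complex.I)) * ((Real.exp (-Real.exp l) : ℝ) : ℂ)) := by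
    intro l
    have him : ((l : ℂ) + t * Complex.I).im = t := by simp
    have hre : ((l : ℂ) + t * Complex.I).re = l := by simp
    unfold Psi
    rw [him, hre]
    have h5 : ((Real.exp l : ℝ) : ℂ) ^ (2 + (σ - 1) - 1) = Complex.exp (σ * l) := by
      rw [Complex.cpow_def_of_ne_zero (by exact_mod_cast (Real.exp_pos l).ne'),
        ← Complex.ofReal_log (Real.exp_pos l).le, Real.log_exp]
      congr 1
      ring
    have h6 : Complex.exp ((σ - 1) * (t * Complex.I)) * (Complex.exp (t * Complex.I) *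
        Complex.exp (σ * (l - t * Complex.I))) = Complex.exp (σ * l) := by
      rw [← Complex.exp_add, ← Complex.exp_add]
      congr 1
      ring
    have h7 : ((Real.exp l : ℝ) : ℂ) ≠ 0 := by exact_mod_cast (Real.exp_pos l).ne'
    rw [h5, ← h6]
    push_cast
    push_cast at h7
    field_simp
  refine ⟨?_, ?_, ?_⟩
  · rw [integrableOn_D0_iff]
    exact IntegrableOn.congr_fun (h1.const_mul (Complex.exp (-((σ - 1) * (t * Complex.I)))))
      (fun ζ hζ => (hE ζ hζ).symm) measurableSet_HP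
  · have h8 := (exp_sub_integrable _).1 h2
    simp only [h4] at h8
    have h9 := h8.const_mul (π * Complex.exp ((σ - 1) * (t * Complex.I)))⁻¹
    refine h9.congr (Eventually.of_forall fun l => ?_)
    simp only
    rw [inv_mul_cancel_left₀ (mul_ne_zero hpi (Complex.exp_ne_zero _))]
  · rw [integral_D0, setIntegral_congr_fun measurableSet_HP hE, integral_const_mul,
      mul_left_comm, ← h2s, h3, exp_sub_integral]
    simp only [h4]
    rw [integral_const_mul, ← mul_assoc]
    congr 1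
    rw [mul_left_comm, ← Complex.exp_add]
    simp

theorem gamma_exp {σ : ℂ} (hσ : 0 < σ.re) :
    Integrable (fun l : ℝ => Complex.exp (σ * l) * ((Real.exp (-Real.exp l) : ℝ) : ℂ)) ∧
    ∫ l : ℝ, Complex.exp (σ * l) * ((Real.exp (-Real.exp l) : ℝ) : ℂ) = Complex.Gamma σ := by
  have h1 := Complex.GammaIntegral_convergent hσ
  have h2 : ∀ l : ℝ, ((Real.exp l : ℝ) : ℂ) * (((Real.exp (-Real.exp l) : ℝ) : ℂ) *
      ((Real.exp l : ℝ) : ℂ) ^ (σ - 1)) =
      Complex.exp (σ * l) * ((Real.exp (-Real.exp l) : ℝ) : ℂ) := by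
    intro l
    have h5 : ((Real.exp l : ℝ) : ℂ) ^ (σ - 1) = Complex.exp ((σ - 1) * l) := by
      rw [Complex.cpow_def_of_ne_zero (by exact_mod_cast (Real.exp_pos l).ne'),
        ← Complex.ofReal_log (Real.exp_pos l).le, Real.log_exp]
      congr 1
      ring
    have h6 : Complex.exp (σ * l) = ((Real.exp l : ℝ) : ℂ) * Complex.exp ((σ - 1) * l) := by
      rw [Complex.ofReal_exp, ← Complex.exp_add]
      congr 1
      ring
    rw [h5, h6]
    ring
  constructor
  · have h3 := (exp_sub_integrable _).1 h1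
    simp only [h2] at h3
    exact h3
  · rw [Complex.Gamma_eq_integral hσ, Complex.GammaIntegral, exp_sub_integral]
    simp only [h2]

theorem re_lt_of_mem_S0 {b : ℝ} {w : ℂ} (hw : w ∈ S0 b) : w.re < Real.log 2 ∧ |w.im| < b + π / 2 := by
  obtain ⟨t, ht, h1, h2⟩ := hw
  constructor
  · rw [Real.lt_log_iff_exp_lt (by norm_num)]
    have := Real.cos_le_one (w.im - t)
    simp only [zero_mul, add_zero] at h2
    linarith
  · have h3 : |w.im| ≤ |w.im - t| + |t| := by
      have := abs_add_le (w.im - t) t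
      simpa using this
    linarith

theorem norm_exp_conj_le {b : ℝ} {w s : ℂ} (hw : w ∈ S0 b) :
    ‖Complex.exp (s * conj w)‖ ≤ Real.exp (|s.im| * (b + π / 2)) * Real.exp (s.re * w.re) := by
  rw [Complex.norm_exp, ← Real.exp_add]
  apply Real.exp_le_exp.2
  have h1 : (s * conj w).re = s.re * w.re + s.im * w.im := by
    simp [Complex.mul_re]
  rw [h1]
  have h2 : s.im * w.im ≤ |s.im| * (b + π / 2) := by
    calc s.im * w.im ≤ |s.im * w.im| := le_abs_self _
      _ = |s.im| * |w.im| := abs_mul _ _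
      _ ≤ _ := mul_le_mul_of_nonneg_left (re_lt_of_mem_S0 hw).2.le (abs_nonneg _)
  linarith

theorem exp_mul_le {p x : ℝ} (hp : 0 ≤ p) (hx : x < Real.log 2) : Real.exp (p * x) ≤ 2 ^ p := by
  rw [Real.rpow_def_of_pos (by norm_num)]
  apply Real.exp_le_exp.2
  rw [mul_comm (Real.log 2)]
  exact mul_le_mul_of_nonneg_left hx.le hp

theorem abs_mul_exp_le {q x : ℝ} (hq : 0 < q) (hx : x < Real.log 2) :
    |x| * Real.exp (q * x) ≤ 1 / q + 2 ^ q := by
  have h2q : (0 : ℝ) < 2 ^ q := by positivity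
  have hq1 : 0 < 1 / q := by positivity
  rcases le_total 0 x with h | h
  · rw [abs_of_nonneg h]
    have h7 : Real.exp (q * x) ≤ 2 ^ q := exp_mul_le hq.le hx
    have h8 : x ≤ 1 := by
      have := Real.log_two_lt_d9
      linarith
    have h9 : x * Real.exp (q * x) ≤ 1 * 2 ^ q :=
      mul_le_mul h8 h7 (Real.exp_pos _).le zero_le_one
    linarith
  · rw [abs_of_nonpos h]
    have h7 := Real.add_one_le_exp (-(q * x))
    have h9 : -x ≤ Real.exp (-(q * x)) / q := by
      rw [le_div_iff₀ hq]; linarith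
    have h10 : -x * Real.exp (q * x) ≤ Real.exp (-(q * x)) / q * Real.exp (q * x) := by gcongr
    have h11 : Real.exp (-(q * x)) / q * Real.exp (q * x) = 1 / q := by
      rw [div_mul_eq_mul_div, ← Real.exp_add]
      simp
    linarith

/-- integrability on the truncated worm -/
theorem integrable_conj_exp {b : ℝ} {s : ℂ} (hs : -1 < s.re) :
    Integrable (fun w => conj w * Complex.exp (s * conj w)) (mu0 b) := by
  have hm : Measurable (fun w : ℂ => conj w * Complex.exp (s * conj w)) := by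
    have h2 : Measurable (fun w : ℂ => conj w) := Complex.continuous_conj.measurable
    exact h2.mul (Complex.measurable_exp.comp (h2.const_mul s))
  set q : ℝ := s.re + 1 with hq
  have hq0 : 0 < q := by rw [hq]; linarith
  refine integrable_mu0_of_bound (C := Real.exp (|s.im| * (b + π / 2)) *
    ((1 / q + 2 ^ q) + (b + π / 2) * 2 ^ q)) hm.aestronglyMeasurable ?_
  intro w hw
  obtain ⟨h1, h2⟩ := re_lt_of_mem_S0 hw
  rw [norm_mul, RCLike.norm_conj]
  have h3 := norm_exp_conj_le (s := s) hw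
  have hb : 0 ≤ b + π / 2 := (abs_nonneg _).trans h2.le
  have h4 : ‖w‖ * Real.exp (q * w.re) ≤ (1 / q + 2 ^ q) + (b + π / 2) * 2 ^ q := by
    have h5 : ‖w‖ ≤ |w.re| + |w.im| := Complex.norm_le_abs_re_add_abs_im w
    have h6 := abs_mul_exp_le hq0 h1
    have h7 : |w.im| * Real.exp (q * w.re) ≤ (b + π / 2) * 2 ^ q :=
      mul_le_mul h2.le (exp_mul_le hq0.le h1) (Real.exp_pos _).le hb
    calc ‖w‖ * Real.exp (q * w.re) ≤ (|w.re| + |w.im|) * Real.exp (q * w.re) := by gcongr
      _ = |w.re| * Real.exp (q * w.re) + |w.im| * Real.exp (q * w.re) := by ring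
      _ ≤ _ := add_le_add h6 h7
  have h8 : Real.exp (s.re * w.re) = Real.exp (q * w.re) * Real.exp (-w.re) := by
    rw [← Real.exp_add]; congr 1; rw [hq]; ring
  calc ‖w‖ * ‖Complex.exp (s * conj w)‖
      ≤ ‖w‖ * (Real.exp (|s.im| * (b + π / 2)) * Real.exp (s.re * w.re)) := by gcongr
    _ = Real.exp (|s.im| * (b + π / 2)) * (‖w‖ * Real.exp (q * w.re)) * Real.exp (-w.re) := by
        rw [h8]; ring
    _ ≤ _ := by gcongr

theorem integrable_F_exp {b : ℝ} {F : ℂ → ℂ} (h : Ok b F) {s : ℂ} (hs : -1 < s.re) :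
    Integrable (fun w => F w * Complex.exp (s * conj w)) (mu0 b) := by
  have hFm := h.meas
  have hm : Measurable (fun w : ℂ => F w * Complex.exp (s * conj w)) := by
    have h2 : Measurable (fun w : ℂ => conj w) := Complex.continuous_conj.measurable
    exact hFm.mul (Complex.measurable_exp.comp (h2.const_mul s))
  -- the square part
  have h1 : Integrable (fun w : ℂ => ‖F w‖ ^ 2 * Real.exp (-2 * (3 / 4) * w.re)) (mu0 b) := by
    refine ⟨Measurable.aestronglyMeasurable (by fun_prop), ?_⟩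
    rw [hasFiniteIntegral_iff_ofReal (Eventually.of_forall fun w => by positivity)]
    refine lt_of_le_of_lt (le_of_eq ?_) (lt_top_iff_ne_top.2 h.fin)
    refine lintegral_congr fun w => ?_
    rw [ENNReal.ofReal_mul (by positivity), ENNReal.ofReal_pow (norm_nonneg _), ofReal_norm]
  -- the exponential part
  set q : ℝ := 2 * s.re + 3 / 2 + 1 with hq
  have hq0 : 0 < q := by rw [hq]; linarith
  have h2 : Integrable (fun w : ℂ => ((Real.exp ((2 * s.re + 3 / 2) * w.re) : ℝ) : ℂ)) (mu0 b) := by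
    refine integrable_mu0_of_bound (C := 2 ^ q)
      (Measurable.aestronglyMeasurable (by fun_prop)) ?_
    intro w hw
    rw [Complex.norm_real, Real.norm_of_nonneg (Real.exp_pos _).le]
    have h8 : Real.exp ((2 * s.re + 3 / 2) * w.re) = Real.exp (q * w.re) * Real.exp (-w.re) := by
      rw [← Real.exp_add]; congr 1; rw [hq]; ring
    rw [h8]
    exact mul_le_mul_of_nonneg_right (exp_mul_le hq0.le (re_lt_of_mem_S0 hw).1) (Real.exp_pos _).le
  have h2' : Integrable (fun w : ℂ => Real.exp ((2 * s.re + 3 / 2) * w.re)) (mu0 b) := by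
    have := h2.norm
    refine this.congr (Eventually.of_forall fun w => ?_)
    simp only
    rw [Complex.norm_real, Real.norm_of_nonneg (Real.exp_pos _).le]
  refine ((h1.add h2').const_mul (Real.exp (|s.im| * (b + π / 2)))).mono' hm.aestronglyMeasurable ?_
  filter_upwards [ae_mem_S0_sl b] with w hw
  rw [norm_mul]
  have h3 := norm_exp_conj_le (s := s) hw
  have h4 : ‖F w‖ * Real.exp (s.re * w.re) ≤
      ‖F w‖ ^ 2 * Real.exp (-2 * (3 / 4) * w.re) + Real.exp ((2 * s.re + 3 / 2) * w.re) := by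
    set x : ℝ := ‖F w‖ * Real.exp (-(3 / 4) * w.re) with hx
    set y : ℝ := Real.exp ((s.re + 3 / 4) * w.re) with hy
    have e1 : ‖F w‖ * Real.exp (s.re * w.re) = x * y := by
      rw [hx, hy, mul_assoc, ← Real.exp_add]; congr 2; ring
    have e2 : ‖F w‖ ^ 2 * Real.exp (-2 * (3 / 4) * w.re) = x ^ 2 := by
      rw [hx, mul_pow, ← Real.exp_nat_mul]; congr 2; push_cast; ring
    have e3 : Real.exp ((2 * s.re + 3 / 2) * w.re) = y ^ 2 := by
      rw [hy, ← Real.exp_nat_mul]; congr 1; push_cast; ring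
    rw [e1, e2, e3]
    nlinarith [sq_nonneg (x - y), sq_nonneg x, sq_nonneg y]
  calc ‖F w‖ * ‖Complex.exp (s * conj w)‖
      ≤ ‖F w‖ * (Real.exp (|s.im| * (b + π / 2)) * Real.exp (s.re * w.re)) := by gcongr
    _ = Real.exp (|s.im| * (b + π / 2)) * (‖F w‖ * Real.exp (s.re * w.re)) := by ring
    _ ≤ _ := by
        simp only [Pi.add_apply]
        gcongr

/-- The relation for one slice. -/
theorem slice_rel {b : ℝ} {F : ℂ → ℂ} (h : Ok b F) {σ : ℂ} (hσ : 0 < σ.re) :
    ∀ᵐ (t : ℝ) ∂(volume.restrict (Ioo (-b) b)),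
      (∫ l : ℝ, (Psi F (l + t * Complex.I) + t * Complex.I * Complex.exp (l + t * Complex.I)) *
        Complex.exp (σ * (l - t * Complex.I)) * Real.exp t * Real.exp (-Real.exp l)) =
      (Complex.Gamma (1 + σ) / π) * ((Real.exp t : ℂ) *
        ∫ w in D0 t, (F w - conj w) * Complex.exp ((σ - 1) * conj w) ∂areaM) := by
  have hpi : (π : ℂ) ≠ 0 := by exact_mod_cast Real.pi_ne_zero
  have hs : -1 < (σ - 1).re := by simpa using hσ
  have hen := ae_lt_top' (measurable_en h.meas (3 / 4)).aemeasurable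
    (lintegral_en_ne_top (b := b) h.meas h.fin)
  have hcj := (integral_mu0 (integrable_conj_exp (b := b) hs)).1
  filter_upwards [hen, hcj, ae_restrict_mem measurableSet_Ioo] with t ht hct htb
  have htb' : |t| < b := abs_lt.2 htb
  obtain ⟨h1, h2, h3⟩ := laplace_D0 h htb' ht.ne hσ
  -- the disc integral of the conjugate
  have h4 : ∫ w in D0 t, conj w * Complex.exp ((σ - 1) * conj w) ∂areaM =
      π * (-(t * Complex.I) * Complex.exp (-((σ - 1) * (t * Complex.I)))) := by
    have hmean := disc_mean t (h := fun w => w * Complex.exp (conj (σ - 1) * w))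
      (Differentiable.differentiableOn (by fun_prop)) ?_
    · have e1 : ∀ w : ℂ, conj (w * Complex.exp (conj (σ - 1) * w)) =
          conj w * Complex.exp ((σ - 1) * conj w) := by
        intro w
        rw [map_mul, ← Complex.exp_conj, map_mul, Complex.conj_conj]
      simp only [e1] at hmean
      rw [hmean]
      congr 2
      · simp
      · simp
    · have e2 : IntegrableOn (fun w => conj (conj w * Complex.exp ((σ - 1) * conj w)))
          (D0 t) areaM := by
        have := (Complex.conjCLE : ℂ →L[ℝ] ℂ).integrable_comp hct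
        exact this
      refine e2.congr_fun (fun w _ => ?_) (measurableSet_D0 t)
      simp only
      rw [map_mul, ← Complex.exp_conj, map_mul, Complex.conj_conj]
  -- the exponential part of the line integral
  obtain ⟨h5, h6⟩ := gamma_exp (σ := 1 + σ) (by simp; linarith)
  have h7 : ∀ l : ℝ, (Psi F (l + t * Complex.I) + t * Complex.I * Complex.exp (l + t * Complex.I)) *
      Complex.exp (σ * (l - t * Complex.I)) * Real.exp t * Real.exp (-Real.exp l) =
      (Real.exp t : ℂ) * (Psi F (l + t * Complex.I) *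
        Complex.exp (σ * (l - t * Complex.I)) * ((Real.exp (-Real.exp l) : ℝ) : ℂ) +
        (t * Complex.I * Complex.exp (-((σ - 1) * (t * Complex.I)))) *
          (Complex.exp ((1 + σ) * l) * ((Real.exp (-Real.exp l) : ℝ) : ℂ))) := by
    intro l
    have e3 : Complex.exp (l + t * Complex.I) * Complex.exp (σ * (l - t * Complex.I)) =
        Complex.exp (-((σ - 1) * (t * Complex.I))) * Complex.exp ((1 + σ) * l) := by
      rw [← Complex.exp_add, ← Complex.exp_add]
      congr 1
      ring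
    calc _ = (Real.exp t : ℂ) * (Psi F (l + t * Complex.I) *
        Complex.exp (σ * (l - t * Complex.I)) * ((Real.exp (-Real.exp l) : ℝ) : ℂ) +
        (t * Complex.I) * (Complex.exp (l + t * Complex.I) *
          Complex.exp (σ * (l - t * Complex.I))) * ((Real.exp (-Real.exp l) : ℝ) : ℂ)) := by ring
      _ = _ := by rw [e3]; ring
  simp only [h7]
  rw [integral_const_mul, integral_add h2 (h5.const_mul _), integral_const_mul, h6]
  have h8 : ∫ w in D0 t, (F w - conj w) * Complex.exp ((σ - 1) * conj w) ∂areaM =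
      (∫ w in D0 t, F w * Complex.exp ((σ - 1) * conj w) ∂areaM) -
      ∫ w in D0 t, conj w * Complex.exp ((σ - 1) * conj w) ∂areaM := by
    rw [← integral_sub h1 hct]
    congr 1
    ext w
    ring
  rw [h8, h4]
  have h9 : (∫ l : ℝ, Psi F (l + t * Complex.I) *
      Complex.exp (σ * (l - t * Complex.I)) * ((Real.exp (-Real.exp l) : ℝ) : ℂ)) =
      Complex.Gamma (1 + σ) / π *
        ∫ w in D0 t, F w * Complex.exp ((σ - 1) * conj w) ∂areaM := by
    field_simp
    rw [h3]
    ring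
  rw [h9]
  field_simp
  ring

/-- periodicity for almost every slice -/
theorem slice_periodic {b : ℝ} {F : ℂ → ℂ} (h : Ok b F)
    (hper : ∀ τ : ℂ, |τ.im| < b - π → Psi F (τ + π * Complex.I) = Psi F (τ - π * Complex.I)) :
    ∀ᵐ t : ℝ, |t| < b → |t + 2 * π| < b → ∀ w ∈ D0 t, F (w + 2 * π * Complex.I) = F w := by
  have hpi : (π : ℂ) ≠ 0 := by exact_mod_cast Real.pi_ne_zero
  have hen0 := ae_lt_top' (measurable_en h.meas (3 / 4)).aemeasurable
    (lintegral_en_ne_top (b := b) h.meas h.fin)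
  have hen1 : ∀ᵐ t : ℝ, t ∈ Ioo (-b) b → en (3 / 4) (fs F t) < ⊤ :=
    (ae_restrict_iff' measurableSet_Ioo).1 hen0
  have hen2 : ∀ᵐ t : ℝ, t + 2 * π ∈ Ioo (-b) b → en (3 / 4) (fs F (t + 2 * π)) < ⊤ :=
    (quasiMeasurePreserving_add_right volume (2 * π)).ae hen1
  filter_upwards [hen1, hen2] with t h1 h2 ht ht'
  have e1 := h1 (abs_lt.1 ht)
  have e2 := h2 (abs_lt.1 ht')
  set t' : ℝ := t + 2 * π with ht'def
  -- equality of the line integrals
  have hvl : ∀ lam ∈ Ioi (0 : ℝ), vl (fs F t') lam 1 = vl (fs F t) lam 1 := by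
    intro lam hlam
    have hlam' : (0 : ℝ) < lam := hlam
    have h3 := hper ((Real.log lam : ℝ) + (t + π : ℝ) * Complex.I) (by
      have : ((Real.log lam : ℝ) + (t + π : ℝ) * Complex.I : ℂ).im = t + π := by simp
      rw [this, abs_lt]
      rw [abs_lt] at ht ht'
      constructor
      · linarith [ht.1]
      · rw [ht'def] at ht'; linarith [ht'.2])
    have h4 : ((Real.log lam : ℝ) + (t + π : ℝ) * Complex.I : ℂ) + π * Complex.I =
        (Real.log lam : ℝ) + (t' : ℝ) * Complex.I := by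
      rw [ht'def]; push_cast; ring
    have h5 : ((Real.log lam : ℝ) + (t + π : ℝ) * Complex.I : ℂ) - π * Complex.I =
        (Real.log lam : ℝ) + (t : ℝ) * Complex.I := by
      push_cast; ring
    rw [h4, h5] at h3
    unfold Psi at h3
    have him : ∀ x : ℝ, ((Real.log lam : ℝ) + (x : ℝ) * Complex.I : ℂ).im = x := fun x => by simp
    have hre : ∀ x : ℝ, ((Real.log lam : ℝ) + (x : ℝ) * Complex.I : ℂ).re = Real.log lam :=
      fun x => by simp
    rw [him, him, hre, hre, Real.exp_log hlam'] at h3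
    have h6 : Complex.exp ((t' : ℝ) * Complex.I) = Complex.exp (t * Complex.I) := by
      rw [ht'def]
      push_cast
      rw [add_mul, Complex.exp_add, Complex.exp_two_pi_mul_I, mul_one]
    rw [h6] at h3
    exact mul_left_cancel₀ (div_ne_zero (Complex.exp_ne_zero _) (mul_ne_zero two_ne_zero hpi)) h3
  -- the difference
  have hmem : ∀ w ∈ D0 t, w + 2 * π * Complex.I ∈ D0 t' := by
    intro w hw
    obtain ⟨h7, h8⟩ := hw
    have h9 : (w + 2 * π * Complex.I).im = w.im + 2 * π := by simp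
    have h10 : (w + 2 * π * Complex.I).re = w.re := by simp
    have h11 : w.im + 2 * π - t' = w.im - t := by rw [ht'def]; ring
    refine ⟨?_, ?_⟩
    · rw [h9, h11]; exact h7
    · rw [h9, h10, h11]; exact h8
  have hph : ∀ ζ : ℂ, ph t ζ + 2 * π * Complex.I = ph t' ζ := by
    intro ζ
    unfold ph
    rw [ht'def]
    push_cast
    ring
  set E : ℂ → ℂ := fun w => F (w + 2 * π * Complex.I) - F w with hE
  have hEd : DifferentiableOn ℂ E (D0 t) := by
    refine DifferentiableOn.sub ?_ (h.hol.mono (D0_subset_S0 ht))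
    refine (h.hol.mono (D0_subset_S0 ht')).comp (by fun_prop) ?_
    exact hmem
  -- conversion
  have hEconv : ∀ k : ℕ, ∀ ζ ∈ HP, ((‖ζ‖ ^ (-4 : ℝ) : ℝ) : ℂ) *
      (E (ph t ζ) * Complex.exp (k * conj (ph t ζ))) =
      Complex.exp (-(k * (t * Complex.I))) *
        ((1 / conj ζ) ^ (2 + (k : ℂ)) * (fs F t' ζ / ζ ^ 2) -
          (1 / conj ζ) ^ (2 + (k : ℂ)) * (fs F t ζ / ζ ^ 2)) := by
    intro k ζ hζ
    rw [conv hζ]
    simp only [hE, hph, fs]
    ring
  have hk : ∀ k : ℕ, -1 < (k : ℂ).re := fun k => by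
    simp only [Complex.natCast_re]
    have : (0 : ℝ) ≤ k := k.cast_nonneg
    linarith
  have hEint : ∀ k : ℕ, IntegrableOn (fun w => E w * Complex.exp (k * conj w)) (D0 t) areaM := by
    intro k
    obtain ⟨a1, -, -⟩ := laplace (nice_fs h ht) e1.ne (hk k)
    obtain ⟨b1, -, -⟩ := laplace (nice_fs h ht') e2.ne (hk k)
    rw [integrableOn_D0_iff]
    exact IntegrableOn.congr_fun ((b1.sub a1).const_mul (Complex.exp (-(k * (t * Complex.I)))))
      (fun ζ hζ => (hEconv k ζ hζ).symm) measurableSet_HP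
  have hmom : ∀ k : ℕ, ∫ w in D0 t, E w * Complex.exp (k * conj w) ∂areaM = 0 := by
    intro k
    obtain ⟨a1, -, a3⟩ := laplace (nice_fs h ht) e1.ne (hk k)
    obtain ⟨b1, -, b3⟩ := laplace (nice_fs h ht') e2.ne (hk k)
    rw [integral_D0, setIntegral_congr_fun measurableSet_HP (hEconv k), integral_const_mul,
      integral_sub b1 a1]
    have h12 : Complex.Gamma (2 + (k : ℂ)) ≠ 0 :=
      Complex.Gamma_ne_zero_of_re_pos (by
        simp only [Complex.add_re, Complex.re_ofNat]
        linarith [hk k])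
    have h13 : Complex.Gamma (2 + (k : ℂ)) * ∫ ζ in HP, (1 / conj ζ) ^ (2 + (k : ℂ)) *
        (fs F t' ζ / ζ ^ 2) = Complex.Gamma (2 + (k : ℂ)) * ∫ ζ in HP,
        (1 / conj ζ) ^ (2 + (k : ℂ)) * (fs F t ζ / ζ ^ 2) := by
      rw [a3, b3]
      refine setIntegral_congr_fun measurableSet_Ioi fun lam hlam => ?_
      rw [hvl lam hlam]
    rw [mul_left_cancel₀ h12 h13]
    simp
  have hEint0 : IntegrableOn E (D0 t) areaM := by
    have := hEint 0
    simpa using this
  intro w hw
  have := disc_moments t hEd hEint0 hmom w hw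
  simp only [hE] at this
  exact sub_eq_zero.1 this

theorem all_periodic {b : ℝ} {F : ℂ → ℂ}
    (h : ∀ᵐ t : ℝ, |t| < b → |t + 2 * π| < b → ∀ w ∈ D0 t, F (w + 2 * π * Complex.I) = F w) :
    ∀ t : ℝ, |t| < b → |t + 2 * π| < b → ∀ w ∈ D0 t, F (w + 2 * π * Complex.I) = F w := by
  intro t ht ht' w hw
  set O : Set ℝ := {s | |s| < b ∧ |s + 2 * π| < b ∧ w ∈ D0 s} with hO
  have hOo : IsOpen O := by
    have h1 : IsOpen {s : ℝ | |s| < b} := isOpen_lt (by fun_prop) continuous_const
    have h2 : IsOpen {s : ℝ | |s + 2 * π| < b} := isOpen_lt (by fun_prop) continuous_const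
    have h3 : IsOpen {s : ℝ | w ∈ D0 s} := by
      have h4 : IsOpen {s : ℝ | |w.im - s| < π / 2} := isOpen_lt (by fun_prop) continuous_const
      have h5 : IsOpen {s : ℝ | Real.exp w.re + 0 * Real.exp (-w.re) <
        2 * Real.cos (w.im - s)} := isOpen_lt (by fun_prop) (by fun_prop)
      exact h4.inter h5
    exact h1.inter (h2.inter h3)
  have hpos : 0 < volume O := hOo.measure_pos volume ⟨t, ht, ht', hw⟩
  by_contra hcon
  have hsub : O ⊆ {s | ¬ (|s| < b → |s + 2 * π| < b → ∀ w ∈ D0 s,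
      F (w + 2 * π * Complex.I) = F w)} := by
    intro s hs hP
    exact hcon (hP hs.1 hs.2.1 w hs.2.2)
  have hnull : volume {s | ¬ (|s| < b → |s + 2 * π| < b → ∀ w ∈ D0 s,
      F (w + 2 * π * Complex.I) = F w)} = 0 := h
  have := measure_mono_null hsub hnull
  exact hpos.ne' this

theorem lim_congr {b : ℝ} {F F' : ℂ → ℂ} {c : ℕ → ℂ} (h : Lim b F c)
    (hFF : ∀ w ∈ S0 b, F' w = F w) : Lim b F' c := by
  refine ⟨h.hol.congr hFF, fun N r hr => ?_, fun s hs => ?_⟩
  · refine ne_of_eq_of_ne (lintegral_congr_ae ?_) (h.mem N r hr)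
    filter_upwards [ae_mem_S0_sl b] with w hw
    rw [hFF w hw]
  · rw [← h.orth s hs]
    refine integral_congr_ae ?_
    filter_upwards [ae_mem_S0_sl b] with w hw
    rw [hFF w hw]

theorem borel_meas {b : ℝ} {F : ℂ → ℂ} {c : ℕ → ℂ} (h : Lim b F c) (hm : Measurable F) :
    Borel b (Psi F) (fun j => c j * kap j) ∧
      ((∀ τ : ℂ, |τ.im| < b - π → Psi F (τ + π * Complex.I) = Psi F (τ - π * Complex.I)) →
        ∀ t : ℝ, |t| < b → |t + 2 * π| < b → ∀ w ∈ disc (fun _ => 0) t,
          F (w + 2 * π * Complex.I) = F w) := by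
  have hok : Ok b F := by
    refine ⟨hm, h.hol, ?_⟩
    have := h.mem 0 (3 / 4) (by norm_num)
    simpa using this
  refine ⟨⟨differentiableOn_Psi hok, ?_, large_bound hok, ?_⟩, fun hper =>
    all_periodic (slice_periodic hok hper)⟩
  · intro N r hr
    set r' : ℝ := max r (3 / 4) with hr'
    have hr1 : r' < N + 1 := by
      rw [hr', max_lt_iff]
      have : (0 : ℝ) ≤ N := N.cast_nonneg
      exact ⟨hr, by linarith⟩
    have hr2 : 1 / 2 < r' := lt_of_lt_of_le (by norm_num) (le_max_right _ _)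
    obtain ⟨n, h1, h2, h3, h4⟩ := small_bound hok (c := c) (N := N) hr2 (h.mem N r' hr1)
    refine ⟨n, h1, h2, h3, ?_⟩
    filter_upwards [h4] with t ht l hl
    refine (ht l hl).trans (mul_le_mul_of_nonneg_right (Real.exp_le_exp.2 ?_) (h1 t))
    exact mul_le_mul_of_nonpos_right (le_max_left _ _) hl
  · intro σ hσ
    rw [integral_congr_ae (slice_rel hok hσ), integral_const_mul]
    have hs : -1 < (σ - 1).re := by simpa using hσ
    have hint : Integrable (fun w => (F w - conj w) * Complex.exp ((σ - 1) * conj w)) (mu0 b) := by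
      refine ((integrable_F_exp hok hs).sub (integrable_conj_exp hs)).congr
        (Eventually.of_forall fun w => ?_)
      simp only [Pi.sub_apply]
      ring
    rw [← (integral_mu0 hint).2.2, h.orth _ hs, mul_zero]

end Br

theorem borel_exists {b : ℝ} (_hb : π < b) {F : ℂ → ℂ} {c : ℕ → ℂ} (h : Lim b F c) :
    ∃ Ψ γ, Borel b Ψ γ ∧
      ((∀ τ : ℂ, |τ.im| < b - π → Ψ (τ + π * Complex.I) = Ψ (τ - π * Complex.I)) →
        ∀ t : ℝ, |t| < b → |t + 2 * π| < b → ∀ w ∈ disc (fun _ => 0) t,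
          F (w + 2 * π * Complex.I) = F w) := by
  classical
  set F0 : ℂ → ℂ := (S0 b).piecewise F 0 with hF0
  have hF0eq : ∀ w ∈ S0 b, F0 w = F w := fun w hw => piecewise_eq_of_mem _ _ _ hw
  have hm : Measurable F0 :=
    h.hol.continuousOn.measurable_piecewise continuousOn_const (isOpen_S0_sl b).measurableSet
  obtain ⟨h1, h2⟩ := Br.borel_meas (Br.lim_congr h hF0eq) hm
  refine ⟨Br.Psi F0, _, h1, fun hper t ht ht' w hw => ?_⟩
  have h3 := h2 hper t ht ht' w hw
  rw [hF0eq w ⟨t, ht, hw⟩] at h3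
  rw [← h3]
  refine (hF0eq _ ⟨t + 2 * π, ht', ?_⟩).symm
  obtain ⟨h7, h8⟩ := hw
  have h9 : (w + 2 * π * Complex.I).im = w.im + 2 * π := by simp
  have h10 : (w + 2 * π * Complex.I).re = w.re := by simp
  have h11 : w.im + 2 * π - (t + 2 * π) = w.im - t := by ring
  refine ⟨?_, ?_⟩
  · rw [h9, h11]; exact h7
  · rw [h9, h10, h11]; exact h8

/-- The first half of `borel_exists`. -/
theorem borel_exists0 {b : ℝ} (hb : π < b) {F : ℂ → ℂ} {c : ℕ → ℂ} (h : Lim b F c) :
    ∃ Ψ γ, Borel b Ψ γ := by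
  obtain ⟨Ψ, γ, h1, -⟩ := borel_exists hb h
  exact ⟨Ψ, γ, h1⟩

end Pool.Agent.Worm
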