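import Mathlib

/-!
# The smooth worm domain: definitions (problem MP_3c4b73_an)

* `worm η` is the domain `{|z₁ + e^{iθ}|² < 1 - η(θ)}`, `θ = log |z₂|²`, in `ℂ²`.
* `Profile β η`: `η` smooth, even, convex, `≥ 0`, with zero set `[-(β-π/2), β-π/2]`, and `> 1` outside
  a compact interval.
* `Admissible η`: `worm η` is a bounded domain with smooth boundary which is (Levi) pseudoconvex.
* `IsLogBranch η L`: `L` is the branch of `log z₁` on `worm η` with `arg z₁` within `π/2` of `π + θ`.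
* `IsBergmanProjection Ω φ f`: `f` is the Bergman projection of `φ` on `Ω`.
* `BoundedDerivs Ω f` : all the iterated `z₁`-derivatives of `f` are bounded on `Ω`.
* `SmoothUpTo Ω f`: `f` extends from `Ω` to a `C^∞` function on `ℂ²`.
-/

open MeasureTheory Set
open scoped Real ENNReal ComplexConjugate ContDiff Topology

namespace Pool.Agent.Worm

/-- `θ = log |z₂|²`. -/
noncomputable def theta (z : ℂ × ℂ) : ℝ := Real.log (‖z.2‖ ^ 2)

/-- The worm domain with profile `η`. -/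
def worm (η : ℝ → ℝ) : Set (ℂ × ℂ) :=
  {z | z.2 ≠ 0 ∧ ‖z.1 + Complex.exp ((theta z : ℂ) * Complex.I)‖ ^ 2 < 1 - η (theta z)}

/-- The conditions on `η` in the definition of the smooth worm domain `𝓦_{β,η}`. -/
structure Profile (β : ℝ) (η : ℝ → ℝ) : Prop where
  smooth : ContDiff ℝ ∞ η
  even : ∀ t, η (-t) = η t
  convex : ConvexOn ℝ univ η
  nonneg : ∀ t, 0 ≤ η t
  zero_iff : ∀ t, η t = 0 ↔ |t| ≤ β - π / 2
  gt_one : ∃ T, ∀ t, T < |t| → 1 < η t

/-- `Ω` has a smooth boundary and is Levi pseudoconvex: near every boundary point `p` there is a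
smooth defining function `ρ` with non-zero differential whose Levi form is nonnegative on the complex
tangent space at `p` (`4 ∑ ρ_{j k̄} v_j \bar v_k = D²ρ(v,v) + D²ρ(iv,iv)`). -/
def SmoothPseudoconvex (Ω : Set (ℂ × ℂ)) : Prop :=
  ∀ p ∈ frontier Ω, ∃ U : Set (ℂ × ℂ), IsOpen U ∧ p ∈ U ∧ ∃ ρ : ℂ × ℂ → ℝ,
    ContDiffOn ℝ ∞ ρ U ∧ (∀ z ∈ U, z ∈ Ω ↔ ρ z < 0) ∧ fderiv ℝ ρ p ≠ 0 ∧
    ∀ v : ℂ × ℂ, fderiv ℝ ρ p v = 0 → fderiv ℝ ρ p (Complex.I • v) = 0 →
      0 ≤ fderiv ℝ (fderiv ℝ ρ) p v v + fderiv ℝ (fderiv ℝ ρ) p (Complex.I • v) (Complex.I • v)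

/-- The pair is admissible: `worm η` is a bounded domain with smooth boundary, and it is
pseudoconvex. -/
structure Admissible (β : ℝ) (η : ℝ → ℝ) : Prop where
  profile : Profile β η
  isOpen : IsOpen (worm η)
  isConnected : IsConnected (worm η)
  isBounded : Bornology.IsBounded (worm η)
  smoothPseudoconvex : SmoothPseudoconvex (worm η)

/-- `L` is the branch of `log z₁` on `worm η` with `arg z₁` within `π/2` of `π + θ`. -/
def IsLogBranch (η : ℝ → ℝ) (L : ℂ × ℂ → ℂ) : Prop :=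
  ∀ z ∈ worm η, Complex.exp (L z) = z.1 ∧ |(L z).im - (π + theta z)| < π / 2

/-- `f` is the Bergman projection of `φ` on `Ω`: it is holomorphic and square integrable on `Ω` and
`φ - f` is orthogonal to all square integrable holomorphic functions. -/
def IsBergmanProjection (Ω : Set (ℂ × ℂ)) (φ f : ℂ × ℂ → ℂ) : Prop :=
  DifferentiableOn ℂ f Ω ∧ MemLp f 2 (volume.restrict Ω) ∧
    ∀ g : ℂ × ℂ → ℂ, DifferentiableOn ℂ g Ω → MemLp g 2 (volume.restrict Ω) →
      ∫ z in Ω, (φ z - f z) * conj (g z) = 0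

/-- The complex derivative with respect to the first variable. -/
noncomputable def d1 (f : ℂ × ℂ → ℂ) : ℂ × ℂ → ℂ := fun z => deriv (fun ζ => f (ζ, z.2)) z.1

/-- All iterated `z₁`-derivatives of `f` are bounded on `Ω`. -/
def BoundedDerivs (Ω : Set (ℂ × ℂ)) (f : ℂ × ℂ → ℂ) : Prop :=
  ∀ k : ℕ, ∃ C : ℝ, ∀ z ∈ Ω, ‖(d1^[k] f) z‖ ≤ C

/-- `f` extends from `Ω` to a smooth function on `ℂ²`. -/
def SmoothUpTo (Ω : Set (ℂ × ℂ)) (f : ℂ × ℂ → ℂ) : Prop :=
  ∃ h : ℂ × ℂ → ℂ, ContDiff ℝ ∞ h ∧ EqOn h f Ω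

end Pool.Agent.Worm
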