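import Mathlib
import Pool.Agent.Worm.Basic

/-!
# The smooth worm domain: auxiliary definitions for the proof (problem MP_3c4b73_an)
-/

open MeasureTheory Set
open scoped Real ENNReal ComplexConjugate ContDiff Topology

namespace Pool.Agent.Worm

/-! ### One-dimensional objects.  `w = x + i y` is the logarithm of `-z₁`. -/

/-- The slice `D(t)` of the worm in the coordinate `w`: `|w.im - t| < π/2` and
`|e^w - e^{it}|² < 1 - η(t)`. -/
def disc (η : ℝ → ℝ) (t : ℝ) : Set ℂ :=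
  {w | |w.im - t| < π / 2 ∧ Real.exp w.re + η t * Real.exp (-w.re) < 2 * Real.cos (w.im - t)}

/-- The measure `e^t dt` on `ℝ`. -/
noncomputable def expM : Measure ℝ := volume.withDensity (fun t => ENNReal.ofReal (Real.exp t))

/-- The measure `e^{2x} dx dy` on `ℂ`: the pull back of the area measure by `exp`. -/
noncomputable def areaM : Measure ℂ :=
  volume.withDensity (fun w => ENNReal.ofReal (Real.exp (2 * w.re)))

/-- The region `{(t, w) : w ∈ D(t)}`. -/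
def tot (η : ℝ → ℝ) : Set (ℝ × ℂ) := {p | p.2 ∈ disc η p.1}

/-- The union of the `D(t)`. -/
def S (η : ℝ → ℝ) : Set ℂ := {w | ∃ t, w ∈ disc η t}

/-- The measure `ω(w) e^{2x} dx dy` on `ℂ`, where `ω(w) = ∫_{t : w ∈ D(t)} e^t dt`. -/
noncomputable def mu (η : ℝ → ℝ) : Measure ℂ := ((expM.prod areaM).restrict (tot η)).map Prod.snd

/-- The hypotheses on the profile used in the one-dimensional part: zero on `[-b,b]` and at least `1`
for `|t| ≥ b + δ`. -/
structure Cap (b δ : ℝ) (η : ℝ → ℝ) : Prop where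
  cont : Continuous η
  nonneg : ∀ t, 0 ≤ η t
  zero : ∀ t, |t| ≤ b → η t = 0
  mono : ∀ s t, |s| ≤ |t| → η s ≤ η t
  big : ∀ t, b + δ ≤ |t| → 1 ≤ η t

/-- `F` is the one-dimensional reduction of the Bergman projection of `conj w`, and it is smooth at
`-∞`: it has a complete asymptotic expansion in powers of `z = e^w`. -/
structure Sol (η : ℝ → ℝ) (F : ℂ → ℂ) : Prop where
  hol : DifferentiableOn ℂ F (S η)
  mem : MemLp F 2 (mu η)
  orth : ∀ g : ℂ → ℂ, DifferentiableOn ℂ g (S η) → MemLp g 2 (mu η) →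
    ∫ w, (conj w - F w) * conj (g w) ∂(mu η) = 0
  taylor : ∃ c : ℕ → ℂ, ∀ N : ℕ, ∃ C : ℝ, ∀ w ∈ S η,
    ‖F w - ∑ j ∈ Finset.range N, c j * Complex.exp (j * w)‖ ≤ C * Real.exp (N * w.re)

/-! ### The limit problem on the truncated worm `|t| < b`, `η = 0`. -/

/-- `{(t, w) : |t| < b, |y - t| < π/2, e^x < 2 cos (y - t)}`. -/
def tot0 (b : ℝ) : Set (ℝ × ℂ) := {p | |p.1| < b ∧ p.2 ∈ disc (fun _ => 0) p.1}

/-- The union of the slices `D(t)`, `|t| < b`. -/
def S0 (b : ℝ) : Set ℂ := {w | ∃ t, |t| < b ∧ w ∈ disc (fun _ => 0) t}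

/-- The measure of the truncated worm. -/
noncomputable def mu0 (b : ℝ) : Measure ℂ := ((expM.prod areaM).restrict (tot0 b)).map Prod.snd

/-- The solution of the limit problem. -/
structure Lim (b : ℝ) (F : ℂ → ℂ) (c : ℕ → ℂ) : Prop where
  hol : DifferentiableOn ℂ F (S0 b)
  mem : ∀ (N : ℕ) (r : ℝ), r < N + 1 →
    ∫⁻ w, ‖F w - ∑ j ∈ Finset.range N, c j * Complex.exp (j * w)‖ₑ ^ 2
      * ENNReal.ofReal (Real.exp (-2 * r * w.re)) ∂(mu0 b) ≠ ⊤
  orth : ∀ s : ℂ, -1 < s.re →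
    ∫ w, (F w - conj w) * Complex.exp (s * conj w) ∂(mu0 b) = 0

/-- The model strip at `-∞`: `{(t, w) : |t| < b, |y - t| < π/2}`. -/
def totI (b : ℝ) : Set (ℝ × ℂ) := {p | |p.1| < b ∧ |p.2.im - p.1| < π / 2}

/-- The measure of the model strip at `-∞`, `e^{2x} ω₀(y) dx dy`. -/
noncomputable def muI (b : ℝ) : Measure ℂ := ((expM.prod areaM).restrict (totI b)).map Prod.snd

/-! ### Coordinates on the worm. -/

/-- The `w`-coordinate of a point of the worm. -/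
noncomputable def wc (z : ℂ × ℂ) : ℂ :=
  Complex.log (-z.1 * Complex.exp (-(theta z : ℂ) * Complex.I)) + theta z * Complex.I

/-- `(α, (t, w)) ↦ (-e^w, e^{t/2 + iα})`. -/
noncomputable def coord (p : ℝ × (ℝ × ℂ)) : ℂ × ℂ :=
  (-Complex.exp p.2.2, Complex.exp ((p.2.1 / 2 : ℝ) + (p.1 : ℂ) * Complex.I))

/-! ### The Borel transform. -/

/-- The properties of the Borel transform `Ψ` (`τ = ℓ + i t = log p`). -/
structure Borel (b : ℝ) (Ψ : ℂ → ℂ) (γ : ℕ → ℂ) : Prop where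
  hol : DifferentiableOn ℂ Ψ {τ | |τ.im| < b}
  small : ∀ (N : ℕ) (r : ℝ), r < N + 1 → ∃ n : ℝ → ℝ, (∀ t, 0 ≤ n t) ∧ Measurable n ∧
    IntegrableOn (fun t => n t ^ 2) (Ioo (-b) b) ∧
    ∀ᵐ (t : ℝ) ∂(volume.restrict (Ioo (-b) b)), ∀ l : ℝ, l ≤ 0 →
      ‖Ψ (l + t * Complex.I) -
        ∑ j ∈ Finset.range N, γ j * Complex.exp ((j + 1) * (l + t * Complex.I))‖ ≤
        Real.exp (r * l) * n t
  large : ∃ n : ℝ → ℝ, (∀ t, 0 ≤ n t) ∧ Measurable n ∧
    IntegrableOn (fun t => n t ^ 2) (Ioo (-b) b) ∧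
    ∀ᵐ (t : ℝ) ∂(volume.restrict (Ioo (-b) b)), ∀ l : ℝ,
      ‖Ψ (l + t * Complex.I)‖ ≤ Real.exp (3 / 4 * Real.exp l) * n t
  rel : ∀ σ : ℂ, 0 < σ.re →
    ∫ t in Ioo (-b) b, ∫ l : ℝ,
      (Ψ (l + t * Complex.I) + t * Complex.I * Complex.exp (l + t * Complex.I)) *
        Complex.exp (σ * (l - t * Complex.I)) * Real.exp t * Real.exp (-Real.exp l) = 0

end Pool.Agent.Worm
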