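import Mathlib

/-!
# A uniqueness theorem of Carlson type in the right half plane

A holomorphic function of exponential type on the closed right half plane which decays
exponentially on the imaginary axis, in the sense that the sum of the rates of decay along the two
rays is positive, vanishes.
-/

open MeasureTheory Set Metric Filter Topology
open scoped Real ENNReal ComplexConjugate

namespace Pool.Agent.Worm

namespace Carl

/-- Twist by an exponential. -/
noncomputable def tw (f : ℂ → ℂ) (a : ℂ) (s : ℂ) : ℂ := Complex.exp (a * s) * f s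

theorem norm_tw (f : ℂ → ℂ) (a : ℂ) (s : ℂ) :
    ‖tw f a s‖ = Real.exp (a.re * s.re - a.im * s.im) * ‖f s‖ := by
  rw [tw, norm_mul, Complex.norm_exp, Complex.mul_re]

theorem tw_diff {f : ℂ → ℂ} {U : Set ℂ} (hf : DiffContOnCl ℂ f U) (a : ℂ) :
    DiffContOnCl ℂ (tw f a) U := by
  have h : Differentiable ℂ (fun s : ℂ => Complex.exp (a * s)) := by fun_prop
  exact h.diffContOnCl.smul hf

theorem tw_growth {f : ℂ → ℂ} {A C : ℝ} (h1 : ∀ s : ℂ, 0 ≤ s.re → ‖f s‖ ≤ C * Real.exp (A * ‖s‖))
    (a : ℂ) {s : ℂ} (hs : 0 ≤ s.re) : ‖tw f a s‖ ≤ C * Real.exp ((A + ‖a‖) * ‖s‖) := by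
  rw [tw, norm_mul, Complex.norm_exp]
  have h2 : (a * s).re ≤ ‖a‖ * ‖s‖ := (Complex.re_le_norm _).trans (norm_mul_le _ _)
  have h3 := h1 s hs
  have hC : 0 ≤ C * Real.exp (A * ‖s‖) := (norm_nonneg _).trans h3
  calc Real.exp (a * s).re * ‖f s‖ ≤ Real.exp (‖a‖ * ‖s‖) * (C * Real.exp (A * ‖s‖)) := by
        gcongr
    _ = _ := by
        rw [add_mul, Real.exp_add]
        ring

theorem tw_isBigO {f : ℂ → ℂ} {A C : ℝ} (h1 : ∀ s : ℂ, 0 ≤ s.re → ‖f s‖ ≤ C * Real.exp (A * ‖s‖))
    (a : ℂ) {U : Set ℂ} (hU : ∀ s ∈ U, 0 ≤ s.re) : ∃ c < (2 : ℝ), ∃ B,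
      tw f a =O[Bornology.cobounded ℂ ⊓ 𝓟 U] fun z => Real.exp (B * ‖z‖ ^ c) := by
  refine ⟨1, by norm_num, A + ‖a‖, Asymptotics.IsBigO.of_bound C ?_⟩
  refine eventually_inf_principal.2 (Eventually.of_forall fun z hz => ?_)
  rw [Real.norm_of_nonneg (Real.exp_pos _).le, Real.rpow_one]
  exact tw_growth h1 a (hU z hz)

variable {f : ℂ → ℂ} {A C c₁ c₂ : ℝ}

theorem bound_upper (hf : DiffContOnCl ℂ f {s : ℂ | 0 < s.re})
    (h1 : ∀ s : ℂ, 0 ≤ s.re → ‖f s‖ ≤ C * Real.exp (A * ‖s‖))
    (h2 : ∀ y : ℝ, 0 ≤ y → ‖f (y * Complex.I)‖ ≤ C * Real.exp (-c₁ * y)) {s : ℂ}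
    (hs : 0 ≤ s.re) (hs' : 0 ≤ s.im) : ‖f s‖ ≤ C * Real.exp (A * s.re - c₁ * s.im) := by
  have hsub : (Ioi 0 ×ℂ Ioi 0 : Set ℂ) ⊆ {s : ℂ | 0 < s.re} := fun z hz => hz.1
  have key : ‖tw f (-(A : ℂ) - c₁ * Complex.I) s‖ ≤ C := by
    apply PhragmenLindelof.quadrant_I ((tw_diff hf _).mono hsub)
      (tw_isBigO h1 _ (fun z hz => (hsub hz).le)) _ _ hs hs'
    · intro x hx
      rw [norm_tw]
      have h := h1 x (by simpa using hx)
      rw [Complex.norm_real, Real.norm_of_nonneg hx] at h
      simp only [Complex.sub_re, Complex.neg_re, Complex.ofReal_re, Complex.mul_re,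
        Complex.ofReal_im, Complex.I_re, Complex.I_im, Complex.sub_im, Complex.neg_im,
        Complex.mul_im, mul_zero, zero_mul, mul_one, sub_zero, add_zero]
      calc Real.exp (-A * x) * ‖f x‖ ≤ Real.exp (-A * x) * (C * Real.exp (A * x)) := by gcongr
        _ = C * (Real.exp (-A * x) * Real.exp (A * x)) := by ring
        _ = C := by rw [← Real.exp_add]; simp
    · intro y hy
      rw [norm_tw]
      have h := h2 y hy
      simp only [Complex.sub_re, Complex.neg_re, Complex.ofReal_re, Complex.mul_re,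
        Complex.ofReal_im, Complex.I_re, Complex.I_im, Complex.sub_im, Complex.neg_im,
        Complex.mul_im, mul_zero, zero_mul, mul_one, sub_zero, add_zero, neg_zero, zero_sub,
        zero_add]
      calc Real.exp (-(-c₁ * y)) * ‖f (y * Complex.I)‖
          ≤ Real.exp (-(-c₁ * y)) * (C * Real.exp (-c₁ * y)) := by gcongr
        _ = C * (Real.exp (-(-c₁ * y)) * Real.exp (-c₁ * y)) := by ring
        _ = C := by rw [← Real.exp_add]; simp
  rw [norm_tw] at key
  have e1 : (-(A : ℂ) - c₁ * Complex.I).re * s.re - (-(A : ℂ) - c₁ * Complex.I).im * s.im =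
      -(A * s.re - c₁ * s.im) := by
    simp
    ring
  rw [e1, Real.exp_neg, inv_mul_le_iff₀ (Real.exp_pos _)] at key
  linarith

theorem bound_lower (hf : DiffContOnCl ℂ f {s : ℂ | 0 < s.re})
    (h1 : ∀ s : ℂ, 0 ≤ s.re → ‖f s‖ ≤ C * Real.exp (A * ‖s‖))
    (h3 : ∀ y : ℝ, 0 ≤ y → ‖f (-y * Complex.I)‖ ≤ C * Real.exp (c₂ * y)) {s : ℂ}
    (hs : 0 ≤ s.re) (hs' : s.im ≤ 0) : ‖f s‖ ≤ C * Real.exp (A * s.re - c₂ * s.im) := by
  have hsub : (Ioi 0 ×ℂ Iio 0 : Set ℂ) ⊆ {s : ℂ | 0 < s.re} := fun z hz => hz.1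
  have key : ‖tw f (-(A : ℂ) - c₂ * Complex.I) s‖ ≤ C := by
    apply PhragmenLindelof.quadrant_IV ((tw_diff hf _).mono hsub)
      (tw_isBigO h1 _ (fun z hz => (hsub hz).le)) _ _ hs hs'
    · intro x hx
      rw [norm_tw]
      have h := h1 x (by simpa using hx)
      rw [Complex.norm_real, Real.norm_of_nonneg hx] at h
      simp only [Complex.sub_re, Complex.neg_re, Complex.ofReal_re, Complex.mul_re,
        Complex.ofReal_im, Complex.I_re, Complex.I_im, Complex.sub_im, Complex.neg_im,
        Complex.mul_im, mul_zero, zero_mul, mul_one, sub_zero, add_zero]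
      calc Real.exp (-A * x) * ‖f x‖ ≤ Real.exp (-A * x) * (C * Real.exp (A * x)) := by gcongr
        _ = C * (Real.exp (-A * x) * Real.exp (A * x)) := by ring
        _ = C := by rw [← Real.exp_add]; simp
    · intro y hy
      rw [norm_tw]
      have h := h3 (-y) (by linarith)
      rw [Complex.ofReal_neg, neg_neg] at h
      simp only [Complex.sub_re, Complex.neg_re, Complex.ofReal_re, Complex.mul_re,
        Complex.ofReal_im, Complex.I_re, Complex.I_im, Complex.sub_im, Complex.neg_im,
        Complex.mul_im, mul_zero, zero_mul, mul_one, sub_zero, add_zero, neg_zero, zero_sub,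
        zero_add]
      calc Real.exp (-(-c₂ * y)) * ‖f (y * Complex.I)‖
          ≤ Real.exp (-(-c₂ * y)) * (C * Real.exp (c₂ * -y)) := by gcongr
        _ = C * (Real.exp (-(-c₂ * y)) * Real.exp (c₂ * -y)) := by ring
        _ = C := by rw [← Real.exp_add]; simp
  rw [norm_tw] at key
  have e1 : (-(A : ℂ) - c₂ * Complex.I).re * s.re - (-(A : ℂ) - c₂ * Complex.I).im * s.im =
      -(A * s.re - c₂ * s.im) := by
    simp
    ring
  rw [e1, Real.exp_neg, inv_mul_le_iff₀ (Real.exp_pos _)] at key
  linarith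

/-- Superexponential decay on the real axis. -/
theorem real_decay (hf : DiffContOnCl ℂ f {s : ℂ | 0 < s.re})
    (h1 : ∀ s : ℂ, 0 ≤ s.re → ‖f s‖ ≤ C * Real.exp (A * ‖s‖))
    (h2 : ∀ y : ℝ, 0 ≤ y → ‖f (y * Complex.I)‖ ≤ C * Real.exp (-c₁ * y))
    (h3 : ∀ y : ℝ, 0 ≤ y → ‖f (-y * Complex.I)‖ ≤ C * Real.exp (c₂ * y)) (hc : c₂ < c₁)
    (M : ℝ) {x : ℝ} (hx : 0 < x) : ‖f x‖ ≤ C * Real.exp (-M * x) := by
  have hpi := Real.pi_pos
  have hC : 0 ≤ C := by
    have h := (norm_nonneg _).trans (h1 0 (by simp))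
    simpa using h
  set l : ℝ := (c₁ + c₂) / 2 with hl
  set c : ℝ := (c₁ - c₂) / 2 with hcdef
  have hc0 : 0 < c := by rw [hcdef]; linarith
  set T : ℝ := |A + M| / c + 1 with hT
  have hT0 : 0 < T := by positivity
  set θ : ℝ := Real.arctan T with hθ
  have hθ0 : 0 < θ := Real.arctan_pos.2 hT0
  have hθ1 : θ < π / 2 := Real.arctan_lt_pi_div_two T
  have hcos : 0 < Real.cos θ := Real.cos_pos_of_mem_Ioo ⟨by linarith, hθ1⟩
  have hsin : Real.sin θ = T * Real.cos θ := by
    have h := Real.tan_arctan T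
    rw [← hθ, Real.tan_eq_sin_div_cos, div_eq_iff hcos.ne'] at h
    exact h
  have hkey : (A + M) * Real.cos θ - c * Real.sin θ ≤ 0 := by
    rw [hsin]
    have h4 : c * T = |A + M| + c := by rw [hT]; field_simp
    have h5 : (A + M) - c * T ≤ 0 := by
      rw [h4]
      have := le_abs_self (A + M)
      linarith
    nlinarith
  set a : ℂ := (M : ℂ) - l * Complex.I with ha
  have are : a.re = M := by simp [ha]
  have aim : a.im = -l := by simp [ha]
  set G : ℂ → ℂ := fun w => tw f a (Complex.exp w) with hG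
  have hpos : ∀ w : ℂ, |w.im| < π / 2 → 0 < (Complex.exp w).re := by
    intro w hw
    rw [Complex.exp_re]
    have := abs_lt.1 hw
    exact mul_pos (Real.exp_pos _) (Real.cos_pos_of_mem_Ioo this)
  have hdiff : DifferentiableOn ℂ G {w : ℂ | |w.im| < π / 2} := by
    have h6 : DifferentiableOn ℂ (tw f a) {s : ℂ | 0 < s.re} := (tw_diff hf a).differentiableOn
    exact h6.comp Complex.differentiable_exp.differentiableOn fun w hw => hpos w hw
  have hopen : IsOpen {w : ℂ | |w.im| < π / 2} := isOpen_lt (by fun_prop) continuous_const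
  have hdc : DiffContOnCl ℂ G (Complex.im ⁻¹' Ioo (-θ) θ) := by
    refine ⟨hdiff.mono ?_, hdiff.continuousOn.mono ?_⟩
    · intro w hw
      have h7 : w.im ∈ Ioo (-θ) θ := hw
      have : |w.im| < θ := abs_lt.2 h7
      exact this.trans hθ1
    · have hcl : closure (Complex.im ⁻¹' Ioo (-θ) θ) ⊆ {w : ℂ | |w.im| ≤ θ} := by
        apply closure_minimal
        · intro w hw
          have h7 : w.im ∈ Ioo (-θ) θ := hw
          exact (abs_lt.2 h7).le
        · exact isClosed_le (by fun_prop) continuous_const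
      intro w hw
      exact lt_of_le_of_lt (hcl hw) hθ1
  have hgrow : ∃ c < π / (θ - (-θ)), ∃ B,
      G =O[comap (abs ∘ Complex.re) atTop ⊓ 𝓟 (Complex.im ⁻¹' Ioo (-θ) θ)]
      fun z ↦ Real.exp (B * Real.exp (c * |z.re|)) := by
    refine ⟨1, ?_, |A + ‖a‖|, Asymptotics.IsBigO.of_bound C ?_⟩
    · rw [lt_div_iff₀ (by linarith)]
      linarith
    · refine eventually_inf_principal.2 (Eventually.of_forall fun w hw => ?_)
      have h7 : w.im ∈ Ioo (-θ) θ := hw
      have h8 : |w.im| < π / 2 := (abs_lt.2 h7).trans hθ1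
      rw [Real.norm_of_nonneg (Real.exp_pos _).le]
      refine (tw_growth h1 a (hpos w h8).le).trans ?_
      gcongr
      · exact le_abs_self _
      · rw [Complex.norm_exp, one_mul]
        exact Real.exp_le_exp.2 (le_abs_self _)
  have hedge : ∀ w : ℂ, |w.im| = θ → ‖G w‖ ≤ C := by
    intro w hw
    have h8 : |w.im| < π / 2 := by rw [hw]; exact hθ1
    have hre := hpos w h8
    rw [hG]
    simp only
    rw [norm_tw, are, aim]
    rcases le_total 0 w.im with him | him
    · rw [abs_of_nonneg him] at hw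
      have him' : 0 ≤ (Complex.exp w).im := by
        rw [Complex.exp_im]
        exact mul_nonneg (Real.exp_pos _).le (Real.sin_nonneg_of_nonneg_of_le_pi him (by linarith))
      have h9 := bound_upper hf h1 h2 hre.le him'
      calc Real.exp (M * (Complex.exp w).re - -l * (Complex.exp w).im) * ‖f (Complex.exp w)‖
          ≤ Real.exp (M * (Complex.exp w).re - -l * (Complex.exp w).im) *
            (C * Real.exp (A * (Complex.exp w).re - c₁ * (Complex.exp w).im)) := by gcongr
        _ = C * Real.exp ((A + M) * (Complex.exp w).re - c * (Complex.exp w).im) := by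
            rw [mul_left_comm, ← Real.exp_add]
            congr 2
            rw [hl, hcdef]; ring
        _ ≤ C * Real.exp 0 := by
            gcongr
            rw [Complex.exp_re, Complex.exp_im, hw]
            have := Real.exp_pos w.re
            nlinarith
        _ = C := by simp
    · rw [abs_of_nonpos him] at hw
      have him' : (Complex.exp w).im ≤ 0 := by
        rw [Complex.exp_im]
        exact mul_nonpos_of_nonneg_of_nonpos (Real.exp_pos _).le
          (Real.sin_nonpos_of_nonpos_of_neg_pi_le him (by linarith))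
      have h9 := bound_lower hf h1 h3 hre.le him'
      calc Real.exp (M * (Complex.exp w).re - -l * (Complex.exp w).im) * ‖f (Complex.exp w)‖
          ≤ Real.exp (M * (Complex.exp w).re - -l * (Complex.exp w).im) *
            (C * Real.exp (A * (Complex.exp w).re - c₂ * (Complex.exp w).im)) := by gcongr
        _ = C * Real.exp ((A + M) * (Complex.exp w).re + c * (Complex.exp w).im) := by
            rw [mul_left_comm, ← Real.exp_add]
            congr 2
            rw [hl, hcdef]; ring
        _ ≤ C * Real.exp 0 := by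
            gcongr
            have h10 : w.im = -θ := by linarith
            rw [Complex.exp_re, Complex.exp_im, h10, Real.cos_neg, Real.sin_neg]
            have := Real.exp_pos w.re
            nlinarith
        _ = C := by simp
  have hfin : ‖G (Real.log x)‖ ≤ C := by
    apply PhragmenLindelof.horizontal_strip hdc hgrow
    · intro z hz
      apply hedge
      rw [hz, abs_neg, abs_of_pos hθ0]
    · intro z hz
      apply hedge
      rw [hz, abs_of_pos hθ0]
    · simp [hθ0.le]
    · simp [hθ0.le]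
  rw [hG] at hfin
  simp only at hfin
  rw [← Complex.ofReal_exp, Real.exp_log hx, norm_tw, are] at hfin
  simp only [Complex.ofReal_re, Complex.ofReal_im, mul_zero, sub_zero] at hfin
  rw [neg_mul, Real.exp_neg, ← div_eq_mul_inv, le_div_iff₀ (Real.exp_pos _)]
  linarith

end Carl

open Carl in
/-- A Carlson type uniqueness theorem. -/
theorem carlson {f : ℂ → ℂ} (hf : DiffContOnCl ℂ f {s : ℂ | 0 < s.re}) {A C c₁ c₂ : ℝ}
    (h1 : ∀ s : ℂ, 0 ≤ s.re → ‖f s‖ ≤ C * Real.exp (A * ‖s‖))
    (h2 : ∀ y : ℝ, 0 ≤ y → ‖f (y * Complex.I)‖ ≤ C * Real.exp (-c₁ * y))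
    (h3 : ∀ y : ℝ, 0 ≤ y → ‖f (-y * Complex.I)‖ ≤ C * Real.exp (c₂ * y)) (hc : c₂ < c₁) :
    ∀ s : ℂ, 0 ≤ s.re → f s = 0 := by
  have hC : 0 ≤ C := by
    have h := (norm_nonneg _).trans (h1 0 (by simp))
    simpa using h
  set l : ℝ := (c₁ + c₂) / 2 with hl
  set a : ℂ := -(l : ℂ) * Complex.I with ha
  have are : a.re = 0 := by simp [ha]
  have aim : a.im = -l := by simp [ha]
  have key : EqOn (tw f a) 0 {z : ℂ | 0 ≤ z.re} := by
    apply PhragmenLindelof.eq_zero_on_right_half_plane_of_superexponential_decay (tw_diff hf a)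
      (tw_isBigO h1 a (fun z (hz : 0 < z.re) => hz.le))
    · intro n
      have h5 : Tendsto (fun x : ℝ => C * Real.exp (-x)) atTop (𝓝 (C * 0)) :=
        (Real.tendsto_exp_neg_atTop_nhds_zero).const_mul C
      rw [mul_zero] at h5
      refine squeeze_zero' (Eventually.of_forall fun x => by positivity) ?_ h5
      filter_upwards [eventually_gt_atTop 0] with x hx
      have h6 := real_decay hf h1 h2 h3 hc (n + 1) hx
      rw [norm_tw, are]
      simp only [zero_mul, Complex.ofReal_im, mul_zero, sub_zero, Real.exp_zero, one_mul]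
      calc Real.exp x ^ n * ‖f x‖ ≤ Real.exp x ^ n * (C * Real.exp (-(n + 1) * x)) := by gcongr
        _ = C * Real.exp (-x) := by
          rw [← Real.exp_nat_mul, mul_left_comm, ← Real.exp_add]
          congr 2
          ring
    · refine ⟨C, fun y => ?_⟩
      rw [norm_tw, are, aim]
      have e1 : 0 * (↑y * Complex.I).re - -l * (↑y * Complex.I).im = l * y := by simp
      rw [e1]
      rcases le_total 0 y with hy | hy
      · calc Real.exp (l * y) * ‖f (y * Complex.I)‖
            ≤ Real.exp (l * y) * (C * Real.exp (-c₁ * y)) := by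
              gcongr
              exact h2 y hy
          _ = C * Real.exp ((l - c₁) * y) := by
              rw [mul_left_comm, ← Real.exp_add]
              congr 2
              ring
          _ ≤ C * Real.exp 0 := by
              gcongr
              rw [hl]
              nlinarith
          _ = C := by simp
      · have h4 := h3 (-y) (by linarith)
        rw [Complex.ofReal_neg, neg_neg] at h4
        calc Real.exp (l * y) * ‖f (y * Complex.I)‖
            ≤ Real.exp (l * y) * (C * Real.exp (c₂ * -y)) := by gcongr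
          _ = C * Real.exp ((l - c₂) * y) := by
              rw [mul_left_comm, ← Real.exp_add]
              congr 2
              ring
          _ ≤ C * Real.exp 0 := by
              gcongr
              rw [hl]
              nlinarith
          _ = C := by simp
  intro s hs
  have h := key (show s ∈ {z : ℂ | 0 ≤ z.re} from hs)
  rw [tw] at h
  simpa [Complex.exp_ne_zero] using h

end Pool.Agent.Worm
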