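import Mathlib
import Pool.Agent.Worm.Defs
import Pool.Agent.Worm.BC.Rel
import Pool.Agent.Worm.Carlson

/-! The final contradiction for all `b > π`. -/

open MeasureTheory Set Metric Filter Topology
open scoped Real ENNReal

namespace Pool.Agent.Worm.BC

open Pool.Agent.Worm.B2

/-- The domain. -/
def UU : Set ℂ := {σ | σ.re < 3 / 2}

theorem isOpen_UU : IsOpen UU := isOpen_lt Complex.continuous_re continuous_const

theorem preconn_UU : IsPreconnected UU := by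
  have h : Convex ℝ UU := by
    have : UU = Complex.reLm ⁻¹' (Iio (3 / 2)) := by
      ext τ
      simp [UU]
    rw [this]
    exact (convex_Iio _).linear_preimage _
  exact h.isPreconnected

/-- The series in `W`. -/
noncomputable def DD (Ψ : ℂ → ℂ) (w : ℝ) (σ : ℂ) : ℂ :=
  ∑' j : ℕ, gg Ψ (j + 1) * rC σ (j + 1) * Complex.exp (Complex.I * w * (j + 2)) /
    (kap σ + Complex.I * (j + 2))

/-- The two functions `P` (`w = b`) and `Q` (`w = -b`). -/
noncomputable def WW (Ψ : ℂ → ℂ) (w : ℝ) (σ : ℂ) : ℂ :=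
  (kap σ + Complex.I) * gg Ψ 0 * Complex.exp (Complex.I * w) +
    (kap σ + Complex.I) ^ 2 * DD Ψ w σ +
    Complex.I * Complex.exp (Complex.I * w) * (w * (kap σ + Complex.I) - 1)

theorem kap_im (σ : ℂ) (j : ℕ) : (kap σ + Complex.I * (j + 2)).im = j + 2 - σ.re := by
  simp [kap]
  ring

theorem norm_kap_ge {σ : ℂ} (hσ : σ ∈ UU) (j : ℕ) :
    1 / 2 ≤ ‖kap σ + Complex.I * (j + 2)‖ := by
  refine le_trans ?_ (Complex.abs_im_le_norm _)
  rw [kap_im]
  refine le_trans ?_ (le_abs_self _)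
  have h1 : σ.re < 3 / 2 := hσ
  have h2 : (0 : ℝ) ≤ j := by positivity
  linarith

theorem kap_ne {σ : ℂ} (hσ : σ ∈ UU) (j : ℕ) : kap σ + Complex.I * (j + 2) ≠ 0 := by
  have := norm_kap_ge hσ j
  rw [← norm_pos_iff]
  linarith

theorem norm_exp_I (w : ℝ) (j : ℕ) : ‖Complex.exp (Complex.I * w * (j + 2))‖ = 1 := by
  rw [Complex.norm_exp]
  simp

theorem term_le {Ψ : ℂ → ℂ} {C : ℝ} (hC : ∀ (j : ℕ) (σ : ℂ),
    ‖gg Ψ j * rC σ j‖ ≤ C * (14 : ℝ) ^ ‖σ‖ * (7 / 8) ^ j) (w : ℝ) {σ : ℂ} (hσ : σ ∈ UU) (j : ℕ) :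
    ‖gg Ψ (j + 1) * rC σ (j + 1) * Complex.exp (Complex.I * w * (j + 2)) /
      (kap σ + Complex.I * (j + 2))‖ ≤ 2 * C * (14 : ℝ) ^ ‖σ‖ * (7 / 8) ^ j := by
  rw [norm_div, norm_mul _ (Complex.exp _), norm_exp_I, mul_one]
  have h1 := norm_kap_ge hσ j
  rw [div_le_iff₀ (by linarith)]
  have h2 := hC (j + 1) σ
  have h3 : 0 ≤ C * (14 : ℝ) ^ ‖σ‖ := by
    have := (norm_nonneg _).trans (hC 0 σ)
    simpa using this
  have h4 : 0 ≤ C * (14 : ℝ) ^ ‖σ‖ * (7 / 8) ^ j := by positivity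
  rw [pow_succ] at h2
  nlinarith

theorem summable_geo (A : ℝ) : Summable fun j : ℕ => A * (7 / 8 : ℝ) ^ j :=
  (summable_geometric_of_lt_one (by norm_num) (by norm_num)).mul_left _

theorem summable_term {Ψ : ℂ → ℂ} {C : ℝ} (hC : ∀ (j : ℕ) (σ : ℂ),
    ‖gg Ψ j * rC σ j‖ ≤ C * (14 : ℝ) ^ ‖σ‖ * (7 / 8) ^ j) (w : ℝ) {σ : ℂ} (hσ : σ ∈ UU) :
    Summable fun j : ℕ => gg Ψ (j + 1) * rC σ (j + 1) * Complex.exp (Complex.I * w * (j + 2)) /
      (kap σ + Complex.I * (j + 2)) :=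
  Summable.of_norm_bounded (summable_geo _) (term_le hC w hσ)

theorem norm_DD_le {Ψ : ℂ → ℂ} {C : ℝ} (hC : ∀ (j : ℕ) (σ : ℂ),
    ‖gg Ψ j * rC σ j‖ ≤ C * (14 : ℝ) ^ ‖σ‖ * (7 / 8) ^ j) (w : ℝ) {σ : ℂ} (hσ : σ ∈ UU) :
    ‖DD Ψ w σ‖ ≤ 16 * C * (14 : ℝ) ^ ‖σ‖ := by
  have h1 := tsum_of_norm_bounded (summable_geo (2 * C * (14 : ℝ) ^ ‖σ‖)).hasSum
    (term_le hC w hσ)
  rw [tsum_mul_left, tsum_geometric_of_lt_one (by norm_num) (by norm_num)] at h1
  refine h1.trans (le_of_eq ?_)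
  norm_num
  ring

theorem differentiableOn_DD {Ψ : ℂ → ℂ} {C : ℝ} (hC0 : 0 ≤ C) (hC : ∀ (j : ℕ) (σ : ℂ),
    ‖gg Ψ j * rC σ j‖ ≤ C * (14 : ℝ) ^ ‖σ‖ * (7 / 8) ^ j) (w : ℝ) :
    DifferentiableOn ℂ (DD Ψ w) UU := by
  intro σ₀ hσ₀
  set V : Set ℂ := UU ∩ ball 0 (‖σ₀‖ + 1) with hV
  have hVo : IsOpen V := isOpen_UU.inter isOpen_ball
  have hm : σ₀ ∈ V := ⟨hσ₀, by simp⟩
  have h1 : DifferentiableOn ℂ (DD Ψ w) V := by
    unfold DD
    apply Complex.differentiableOn_tsum_of_summable_norm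
      (summable_geo (2 * C * (14 : ℝ) ^ (‖σ₀‖ + 1)))
    · intro j
      apply DifferentiableOn.div
      · apply Differentiable.differentiableOn
        exact ((differentiable_rC (j + 1)).const_mul _).mul_const _
      · apply Differentiable.differentiableOn
        unfold kap
        fun_prop
      · intro σ hσ
        exact kap_ne hσ.1 j
    · exact hVo
    · intro j σ hσ
      refine (term_le hC w hσ.1 j).trans ?_
      have h2 : ‖σ‖ ≤ ‖σ₀‖ + 1 := by
        have := hσ.2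
        rw [mem_ball, dist_zero_right] at this
        exact this.le
      have h3 : (14 : ℝ) ^ ‖σ‖ ≤ (14 : ℝ) ^ (‖σ₀‖ + 1) :=
        Real.rpow_le_rpow_of_exponent_le (by norm_num) h2
      gcongr
  exact (h1.differentiableAt (hVo.mem_nhds hm)).differentiableWithinAt

theorem differentiableOn_WW {Ψ : ℂ → ℂ} {C : ℝ} (hC0 : 0 ≤ C) (hC : ∀ (j : ℕ) (σ : ℂ),
    ‖gg Ψ j * rC σ j‖ ≤ C * (14 : ℝ) ^ ‖σ‖ * (7 / 8) ^ j) (w : ℝ) :
    DifferentiableOn ℂ (WW Ψ w) UU := by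
  have hk : Differentiable ℂ fun σ => kap σ + Complex.I := by
    unfold kap
    fun_prop
  unfold WW
  apply DifferentiableOn.add
  · apply DifferentiableOn.add
    · exact ((hk.mul_const _).mul_const _).differentiableOn
    · exact (hk.pow 2).differentiableOn.mul (differentiableOn_DD hC0 hC w)
  · apply Differentiable.differentiableOn
    exact ((hk.const_mul _).sub_const _).const_mul _

theorem exists_WW_bound {Ψ : ℂ → ℂ} {C : ℝ} (hC0 : 0 ≤ C) (hC : ∀ (j : ℕ) (σ : ℂ),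
    ‖gg Ψ j * rC σ j‖ ≤ C * (14 : ℝ) ^ ‖σ‖ * (7 / 8) ^ j) (w : ℝ) :
    ∃ K : ℝ, 0 < K ∧ ∀ σ ∈ UU, ‖WW Ψ w σ‖ ≤ K * Real.exp (3 * ‖σ‖) := by
  have hlog : Real.log 14 < 3 := by
    rw [Real.log_lt_iff_lt_exp (by norm_num)]
    have h1 := Real.exp_one_gt_d9
    have h2 : Real.exp 3 = Real.exp 1 ^ 3 := by
      rw [← Real.exp_nat_mul]
      norm_num
    rw [h2]
    calc (14 : ℝ) < 2.7182818283 ^ 3 := by norm_num
      _ ≤ _ := by gcongr
  set δ : ℝ := 3 - Real.log 14 with hδ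
  have hδ0 : 0 < δ := by linarith
  set K₁ : ℝ := ‖gg Ψ 0‖ + 16 * C + |w| + 1 with hK₁
  have hK₁0 : 0 < K₁ := by positivity
  refine ⟨K₁ * (2 / δ ^ 2 * Real.exp (δ * 2)), by positivity, ?_⟩
  intro σ hσ
  have h1 : ‖kap σ + Complex.I‖ ≤ 2 + ‖σ‖ := by
    unfold kap
    calc ‖1 - Complex.I * σ + Complex.I‖ ≤ ‖(1 : ℂ)‖ + ‖Complex.I * σ‖ + ‖Complex.I‖ :=
          (norm_add_le _ _).trans (add_le_add (norm_sub_le _ _) le_rfl)
      _ = _ := by
          rw [norm_mul, Complex.norm_I, norm_one]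
          ring
  have h2 := norm_DD_le hC w hσ
  have h3 : ‖Complex.exp (Complex.I * w)‖ = 1 := by
    rw [Complex.norm_exp]
    simp
  have h4 : (1 : ℝ) ≤ (14 : ℝ) ^ ‖σ‖ := Real.one_le_rpow (by norm_num) (norm_nonneg _)
  have h5 : 0 ≤ ‖σ‖ := norm_nonneg σ
  have h6 : ‖WW Ψ w σ‖ ≤ (2 + ‖σ‖) * ‖gg Ψ 0‖ + (2 + ‖σ‖) ^ 2 * (16 * C * (14 : ℝ) ^ ‖σ‖) +
      (|w| * (2 + ‖σ‖) + 1) := by
    unfold WW
    refine (norm_add_le _ _).trans (add_le_add ((norm_add_le _ _).trans (add_le_add ?_ ?_)) ?_)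
    · rw [norm_mul, norm_mul, h3, mul_one]
      gcongr
    · rw [norm_mul, norm_pow]
      gcongr
    · rw [norm_mul, norm_mul, h3, Complex.norm_I, one_mul, one_mul]
      refine (norm_sub_le _ _).trans ?_
      rw [norm_mul, Complex.norm_real, norm_one, Real.norm_eq_abs]
      gcongr
  have h7 : (2 + ‖σ‖) * ‖gg Ψ 0‖ + (2 + ‖σ‖) ^ 2 * (16 * C * (14 : ℝ) ^ ‖σ‖) +
      (|w| * (2 + ‖σ‖) + 1) ≤ K₁ * ((2 + ‖σ‖) ^ 2 * (14 : ℝ) ^ ‖σ‖) := by
    have a1 : (2 + ‖σ‖) ≤ (2 + ‖σ‖) ^ 2 * (14 : ℝ) ^ ‖σ‖ := by nlinarith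
    have a2 : 1 ≤ (2 + ‖σ‖) ^ 2 * (14 : ℝ) ^ ‖σ‖ := by nlinarith
    rw [hK₁]
    nlinarith [norm_nonneg (gg Ψ 0), abs_nonneg w]
  have h8 : (2 + ‖σ‖) ^ 2 ≤ 2 / δ ^ 2 * Real.exp (δ * 2) * Real.exp (δ * ‖σ‖) := by
    have := Real.pow_div_factorial_le_exp (δ * (2 + ‖σ‖)) (by positivity) 2
    rw [div_le_iff₀ (by positivity)] at this
    rw [mul_assoc, ← Real.exp_add, ← mul_add]
    rw [div_mul_eq_mul_div, le_div_iff₀ (by positivity)]
    norm_num [Nat.factorial] at this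
    nlinarith
  have h9 : (14 : ℝ) ^ ‖σ‖ = Real.exp (Real.log 14 * ‖σ‖) := Real.rpow_def_of_pos (by norm_num) _
  have h10 : Real.exp (δ * ‖σ‖) * (14 : ℝ) ^ ‖σ‖ = Real.exp (3 * ‖σ‖) := by
    rw [h9, ← Real.exp_add, hδ]
    congr 1
    ring
  calc ‖WW Ψ w σ‖ ≤ K₁ * ((2 + ‖σ‖) ^ 2 * (14 : ℝ) ^ ‖σ‖) := h6.trans h7
    _ ≤ K₁ * ((2 / δ ^ 2 * Real.exp (δ * 2) * Real.exp (δ * ‖σ‖)) * (14 : ℝ) ^ ‖σ‖) := by
        gcongr
    _ = _ := by
        rw [← h10]
        ring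

theorem mm_eq {b : ℝ} (hb : 0 ≤ b) {p : ℂ} (hp : p ≠ 0) :
    mm b p = (Complex.exp (b * p) - Complex.exp (-(b * p))) / p := by
  rw [mm, ← integral_Ioc_eq_integral_Ioo, ← intervalIntegral.integral_of_le (by linarith)]
  have h1 := integral_exp_mul_complex (a := -b) (b := b) hp
  have e : ∀ t : ℝ, Complex.exp ((t : ℂ) * p) = Complex.exp (p * t) := fun t => by rw [mul_comm]
  simp_rw [e]
  rw [h1]
  congr 2
  rw [mul_comm]
  congr 1
  push_cast
  ring

theorem Lint_eq {b : ℝ} (hb : 0 ≤ b) {p : ℂ} (hp : p ≠ 0) :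
    Lint b p = (Complex.exp (b * p) * (b * p - 1) - Complex.exp (-(b * p)) * (-(b * p) - 1)) /
      p ^ 2 := by
  rw [Lint, ← integral_Ioc_eq_integral_Ioo, ← intervalIntegral.integral_of_le (by linarith)]
  have hd : ∀ t : ℝ, HasDerivAt (fun t : ℝ => Complex.exp (t * p) * (t * p - 1) / p ^ 2)
      ((t : ℂ) * Complex.exp (t * p)) t := by
    intro t
    have h0 : HasDerivAt (fun t : ℝ => (t : ℂ) * p) p t := by
      simpa using (Complex.ofRealCLM.hasDerivAt (x := t)).mul_const p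
    have h1 := h0.cexp
    have h2 := (h1.fun_mul (h0.sub_const 1)).div_const (p ^ 2)
    refine h2.congr_deriv ?_
    field_simp
    ring
  rw [intervalIntegral.integral_eq_sub_of_hasDerivAt (fun t _ => hd t)
    (Continuous.intervalIntegrable (by fun_prop) _ _)]
  push_cast
  rw [← sub_div]
  congr 2
  congr 2
  · congr 1
    ring
  · ring

/-- `e^{bκ} P = e^{-bκ} Q` away from `κ' = 0`. -/
theorem PQ_eq {b : ℝ} (hb : π < b) {Ψ : ℂ → ℂ} {γ : ℕ → ℂ} (h : Borel b Ψ γ)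
    (hper : ∀ τ : ℂ, |τ.im| < b - π → Ψ (τ + π * Complex.I) = Ψ (τ - π * Complex.I))
    {C : ℝ} (hC : ∀ (j : ℕ) (σ : ℂ), ‖gg Ψ j * rC σ j‖ ≤ C * (14 : ℝ) ^ ‖σ‖ * (7 / 8) ^ j)
    {σ : ℂ} (hσ : 0 < σ.re) (hσ2 : σ ∈ UU) (hk : kap σ + Complex.I ≠ 0) :
    Complex.exp (b * kap σ) * WW Ψ b σ = Complex.exp (-(b * kap σ)) * WW Ψ (-b) σ := by
  have hb0 : 0 ≤ b := by linarith [Real.pi_pos]
  have h1 := relation hb h hper hσ
  have h2 := (hasSum_nat_add_iff' 1).2 h1
  simp only [Finset.range_one, Finset.sum_singleton, Nat.cast_zero, zero_add, mul_one] at h2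
  have hrC0 : rC σ 0 = 1 := by simp [rC]
  rw [hrC0, mul_one] at h2
  have s1 := ((summable_term hC b hσ2).hasSum.mul_left (Complex.exp (b * kap σ))).sub
    ((summable_term hC (-b) hσ2).hasSum.mul_left (Complex.exp (-(b * kap σ))))
  have h3 : (fun j : ℕ => gg Ψ (j + 1) * rC σ (j + 1) *
      mm b (kap σ + Complex.I * (((j + 1 : ℕ) : ℂ) + 1))) = fun j : ℕ =>
      Complex.exp (b * kap σ) * (gg Ψ (j + 1) * rC σ (j + 1) *
        Complex.exp (Complex.I * b * (j + 2)) / (kap σ + Complex.I * (j + 2))) -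
      Complex.exp (-(b * kap σ)) * (gg Ψ (j + 1) * rC σ (j + 1) *
        Complex.exp (Complex.I * ((-b : ℝ) : ℂ) * (j + 2)) / (kap σ + Complex.I * (j + 2))) := by
    funext j
    have e1 : (((j + 1 : ℕ) : ℂ) + 1) = j + 2 := by
      push_cast
      ring
    rw [e1, mm_eq hb0 (kap_ne hσ2 j)]
    have e2 : Complex.exp (b * (kap σ + Complex.I * (j + 2))) = Complex.exp (b * kap σ) *
        Complex.exp (Complex.I * b * (j + 2)) := by
      rw [← Complex.exp_add]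
      congr 1
      ring
    have e3 : Complex.exp (-(b * (kap σ + Complex.I * (j + 2)))) = Complex.exp (-(b * kap σ)) *
        Complex.exp (Complex.I * ((-b : ℝ) : ℂ) * (j + 2)) := by
      rw [← Complex.exp_add]
      congr 1
      push_cast
      ring
    rw [e2, e3]
    ring
  rw [h3] at h2
  have h4 := s1.unique h2
  have e2 : Complex.exp (b * (kap σ + Complex.I)) = Complex.exp (b * kap σ) *
      Complex.exp (Complex.I * b) := by
    rw [← Complex.exp_add]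
    congr 1
    ring
  have e3 : Complex.exp (-(b * (kap σ + Complex.I))) = Complex.exp (-(b * kap σ)) *
      Complex.exp (Complex.I * ((-b : ℝ) : ℂ)) := by
    rw [← Complex.exp_add]
    congr 1
    push_cast
    ring
  rw [mm_eq hb0 hk, Lint_eq hb0 hk, e2, e3] at h4
  have h5 : ∀ w : ℝ, ∑' j : ℕ, gg Ψ (j + 1) * rC σ (j + 1) *
      Complex.exp (Complex.I * w * (j + 2)) / (kap σ + Complex.I * (j + 2)) = DD Ψ w σ :=
    fun w => rfl
  rw [h5, h5] at h4
  unfold WW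
  set k := kap σ + Complex.I with hkdef
  set A := Complex.exp (b * kap σ)
  set B := Complex.exp (-(b * kap σ))
  set X := Complex.exp (Complex.I * b)
  set Y := Complex.exp (Complex.I * ((-b : ℝ) : ℂ))
  have h6 : k ^ 2 * (A * DD Ψ b σ - B * DD Ψ (-b) σ) =
      -(Complex.I * (A * X * (b * k - 1) - B * Y * (-(b * k) - 1))) -
        k * gg Ψ 0 * (A * X - B * Y) := by
    rw [h4]
    field_simp
  push_cast
  linear_combination h6

end Pool.Agent.Worm.BC

namespace Pool.Agent.Worm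

open Pool.Agent.Worm.BC

theorem borel_contra {b : ℝ} (hb : π < b) {Ψ : ℂ → ℂ} {γ : ℕ → ℂ} (h : Borel b Ψ γ)
    (hper : ∀ τ : ℂ, |τ.im| < b - π → Ψ (τ + π * Complex.I) = Ψ (τ - π * Complex.I)) :
    False := by
  obtain ⟨C, hC0, hC⟩ := rC_bound hb h hper
  have hb3 : 3 < b := Real.pi_gt_three.trans hb
  have hb0 : 0 < b := by linarith
  have dP := differentiableOn_WW hC0.le hC b
  have dQ := differentiableOn_WW hC0.le hC (-b)
  obtain ⟨KP, hKP0, hKP⟩ := exists_WW_bound hC0.le hC b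
  obtain ⟨KQ, hKQ0, hKQ⟩ := exists_WW_bound hC0.le hC (-b)
  have hkap : Differentiable ℂ kap := by
    unfold kap
    fun_prop
  have h1U : (1 : ℂ) ∈ UU := by
    show (1 : ℂ).re < 3 / 2
    norm_num
  -- the relation on the whole half-plane
  have hPQ : EqOn (fun σ => Complex.exp (b * kap σ) * WW Ψ b σ)
      (fun σ => Complex.exp (-(b * kap σ)) * WW Ψ (-b) σ) UU := by
    have d1 : DifferentiableOn ℂ (fun σ => Complex.exp (b * kap σ) * WW Ψ b σ) UU :=
      ((hkap.const_mul _).cexp).differentiableOn.mul dP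
    have d2 : DifferentiableOn ℂ (fun σ => Complex.exp (-(b * kap σ)) * WW Ψ (-b) σ) UU :=
      ((hkap.const_mul _).neg.cexp).differentiableOn.mul dQ
    refine AnalyticOnNhd.eqOn_of_preconnected_of_eventuallyEq (d1.analyticOnNhd isOpen_UU)
      (d2.analyticOnNhd isOpen_UU) preconn_UU h1U ?_
    have e1 : ∀ᶠ σ : ℂ in 𝓝 1, 0 < σ.re :=
      continuousAt_const.eventually_lt Complex.continuous_re.continuousAt (by norm_num)
    have e2 : ∀ᶠ σ : ℂ in 𝓝 1, σ ∈ UU := isOpen_UU.mem_nhds h1U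
    have e3 : ∀ᶠ σ : ℂ in 𝓝 1, kap σ + Complex.I ≠ 0 := by
      have hc : Continuous fun σ => kap σ + Complex.I := hkap.continuous.add continuous_const
      apply (isOpen_ne.preimage hc).mem_nhds
      simp [kap]
    filter_upwards [e1, e2, e3] with σ h1 h2 h3
    exact PQ_eq hb h hper hC h1 h2 h3
  -- the Carlson argument
  set f : ℂ → ℂ := fun s => WW Ψ (-b) (-s) with hf
  set K : ℝ := (KP + KQ) * Real.exp (2 * b) with hK
  have hexp : 1 ≤ Real.exp (2 * b) := Real.one_le_exp (by linarith)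
  have hKQK : KQ ≤ K := by nlinarith
  have hKPK : KP * Real.exp (2 * b) ≤ K := by nlinarith
  have hmem : ∀ s : ℂ, 0 ≤ s.re → -s ∈ UU := by
    intro s hs
    show (-s).re < 3 / 2
    rw [Complex.neg_re]
    linarith
  have hfd : DiffContOnCl ℂ f {s : ℂ | 0 < s.re} := by
    apply DifferentiableOn.diffContOnCl
    rw [Complex.closure_setOf_lt_re]
    exact dQ.comp (Differentiable.differentiableOn (by fun_prop)) fun s hs => hmem s hs
  have hz := carlson hfd (A := 3) (C := K) (c₁ := 2 * b - 3) (c₂ := 3) (by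
      intro s hs
      have h1 := hKQ (-s) (hmem s hs)
      rw [norm_neg] at h1
      exact h1.trans (mul_le_mul_of_nonneg_right hKQK (Real.exp_pos _).le)) (by
      intro y hy
      have hm := hmem (y * Complex.I) (by simp)
      have h1 := hKP _ hm
      have h2 := hPQ hm
      simp only at h2
      have h3 : WW Ψ (-b) (-(y * Complex.I)) = Complex.exp (2 * (b * kap (-(y * Complex.I)))) *
          WW Ψ b (-(y * Complex.I)) := by
        have e1 : Complex.exp (2 * (b * kap (-(y * Complex.I)))) =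
            Complex.exp (b * kap (-(y * Complex.I))) * Complex.exp (b * kap (-(y * Complex.I))) := by
          rw [← Complex.exp_add]
          congr 1
          ring
        rw [e1, mul_assoc, h2, ← mul_assoc, ← Complex.exp_add]
        simp
      have h4 : ‖Complex.exp (2 * (b * kap (-(y * Complex.I))))‖ =
          Real.exp (2 * b) * Real.exp (-(2 * b) * y) := by
        rw [Complex.norm_exp, ← Real.exp_add]
        congr 1
        simp [kap]
        ring
      have h5 : ‖-((y : ℂ) * Complex.I)‖ = y := by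
        simp [abs_of_nonneg hy]
      rw [h5] at h1
      show ‖WW Ψ (-b) (-(y * Complex.I))‖ ≤ _
      rw [h3, norm_mul, h4]
      have h6 : Real.exp (-(2 * b - 3) * y) = Real.exp (-(2 * b) * y) * Real.exp (3 * y) := by
        rw [← Real.exp_add]
        congr 1
        ring
      rw [h6]
      calc Real.exp (2 * b) * Real.exp (-(2 * b) * y) * ‖WW Ψ b (-(y * Complex.I))‖
          ≤ Real.exp (2 * b) * Real.exp (-(2 * b) * y) * (KP * Real.exp (3 * y)) := by
            gcongr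
        _ = (KP * Real.exp (2 * b)) * (Real.exp (-(2 * b) * y) * Real.exp (3 * y)) := by ring
        _ ≤ K * (Real.exp (-(2 * b) * y) * Real.exp (3 * y)) := by
            gcongr) (by
      intro y hy
      have hm := hmem (-y * Complex.I) (by simp)
      have h1 := hKQ _ hm
      have h5 : ‖-(-(y : ℂ) * Complex.I)‖ = y := by
        simp [abs_of_nonneg hy]
      rw [h5] at h1
      exact h1.trans (mul_le_mul_of_nonneg_right hKQK (Real.exp_pos _).le)) (by linarith)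
  -- `Q = 0` on the half-plane
  have hQ : EqOn (WW Ψ (-b)) (fun _ => 0) UU := by
    have hm : (-1 : ℂ) ∈ UU := by
      show (-1 : ℂ).re < 3 / 2
      norm_num
    refine AnalyticOnNhd.eqOn_of_preconnected_of_eventuallyEq (dQ.analyticOnNhd isOpen_UU)
      analyticOnNhd_const preconn_UU hm ?_
    have e1 : ∀ᶠ σ : ℂ in 𝓝 (-1), σ.re < 0 :=
      Complex.continuous_re.continuousAt.eventually_lt continuousAt_const (by norm_num)
    filter_upwards [e1] with σ hσ
    have := hz (-σ) (by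
      rw [Complex.neg_re]
      linarith)
    simpa [hf] using this
  have hm : (1 - Complex.I) ∈ UU := by
    show (1 - Complex.I).re < 3 / 2
    norm_num
  have h1 := hQ hm
  have h2 : kap (1 - Complex.I) + Complex.I = 0 := by
    unfold kap
    linear_combination Complex.I_sq
  simp only [WW, h2] at h1
  simp at h1

end Pool.Agent.Worm
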