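import Mathlib
import Pool.Agent.Worm.Defs
import Pool.Agent.Worm.B2.Conv

/-!
# Module B2 (problem MP_3c4b73_an): the Borel transform is periodic

Continuation of the relation to `Re σ = -R_N`, `L²` estimates by Plancherel, geometric growth of the
coefficients of the asymptotic expansion, convergence, periodicity.
-/

open MeasureTheory Set
open scoped Real ENNReal ComplexConjugate ContDiff Topology

namespace Pool.Agent.Worm

theorem borel_periodic {b κ : ℝ} (hb : π < b) (hκ : 0 < κ) (R : ℕ → ℝ)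
    (hR1 : ∀ N : ℕ, N + κ ≤ R N) (hR2 : ∀ N : ℕ, R N ≤ N + 1 - κ)
    (hR3 : ∀ N : ℕ, κ ≤ |Real.sin (2 * R N * b)|)
    {Ψ : ℂ → ℂ} {γ : ℕ → ℂ} (h : Borel b Ψ γ) :
    ∀ τ : ℂ, |τ.im| < b - π → Ψ (τ + π * Complex.I) = Ψ (τ - π * Complex.I) := by
  have hpi := Real.pi_pos
  have hb0 : 0 < b := by linarith
  have hκ2 : κ ≤ 1 / 2 := by
    have h1 := hR1 0
    have h2 := hR2 0
    push_cast at h1 h2
    linarith
  set q : ℝ := Real.log (κ / (12 * (1 + b))) with hq
  have harg : 0 < κ / (12 * (1 + b)) := by positivity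
  have harg1 : κ / (12 * (1 + b)) < 1 := by
    rw [div_lt_one (by positivity)]
    nlinarith
  have hq0 : q < 0 := Real.log_neg harg harg1
  have hq2 : Real.exp q ≤ κ / (12 * (1 + b)) := by
    rw [hq, Real.exp_log harg]
  have hdata := B2.Data.of_borel hb0 hq0 h
  obtain ⟨C, hC, hX⟩ := B2.nrm_aN_le hdata hκ hq2
  have hX' : ∀ N : ℕ, B2.nrm (fun x => ‖B2.aN q Ψ γ N (R N) x‖ₑ) ≤
      ENNReal.ofReal (C * Real.exp (-(R N) * q) * B2.sN q γ N) := fun N =>
    hX N (R N) (hR1 N) (hR2 N) (hR3 N)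
  obtain ⟨Λ, hΛ, hs⟩ := B2.growth hdata hκ hC R hR1 hR2 hX'
  exact B2.periodic_of_eq hb hdata.hol (B2.differentiableOn_SS hΛ hs)
    (fun x hx => B2.eq_SS_real hdata hκ hC hΛ R hR1 hR2 hX' hs hx)

end Pool.Agent.Worm
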