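import Pool.Agent.Worm.Profile

/-!
# The worm has a smooth boundary and is Levi pseudoconvex
-/

open MeasureTheory Set Filter
open scoped Real ENNReal ComplexConjugate ContDiff Topology

namespace Pool.Agent.Worm

/-- First and second derivatives along lines. -/
theorem second_line {E : Type*} [NormedAddCommGroup E] [NormedSpace ℝ E] {f : E → ℝ} {p v : E}
    {g1 : ℝ → ℝ} {g2 : ℝ} (hf : ContDiffAt ℝ 2 f p)
    (h1 : ∀ᶠ s in 𝓝 (0:ℝ), HasDerivAt (fun s : ℝ => f (p + s • v)) (g1 s) s)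
    (h2 : HasDerivAt g1 g2 0) :
    fderiv ℝ f p v = g1 0 ∧ fderiv ℝ (fderiv ℝ f) p v v = g2 := by
  have hline : ∀ s : ℝ, HasDerivAt (fun s : ℝ => p + s • v) v s := by
    intro s
    have := ((hasDerivAt_id s).smul_const v).const_add p
    simpa using this
  have hcont : Tendsto (fun s : ℝ => p + s • v) (𝓝 0) (𝓝 p) := by
    have := (hline 0).continuousAt
    unfold ContinuousAt at this
    simpa using this
  have hd : ∀ᶠ s in 𝓝 (0:ℝ), DifferentiableAt ℝ f (p + s • v) := by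
    have : ∀ᶠ x in 𝓝 p, ContDiffAt ℝ 2 f x := hf.eventually (by simp)
    exact (hcont.eventually this).mono fun s hs => hs.differentiableAt (by norm_num)
  have heq : ∀ᶠ s in 𝓝 (0:ℝ), fderiv ℝ f (p + s • v) v = g1 s := by
    filter_upwards [hd, h1] with s hs h1s
    exact (hs.hasFDerivAt.comp_hasDerivAt s (hline s)).unique h1s
  have hdd : DifferentiableAt ℝ (fderiv ℝ f) p := by
    have : ContDiffAt ℝ 1 (fderiv ℝ f) p := hf.fderiv_right (by norm_num)
    exact this.differentiableAt (by norm_num)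
  refine ⟨by simpa using heq.self_of_nhds, ?_⟩
  have h3 : HasFDerivAt (fderiv ℝ f) (fderiv ℝ (fderiv ℝ f) p) (p + (0:ℝ) • v) := by
    simpa using hdd.hasFDerivAt
  have h4 := h3.comp_hasDerivAt (0:ℝ) (hline 0)
  have h5 : HasDerivAt (fun s : ℝ => fderiv ℝ f (p + s • v) v)
      (fderiv ℝ (fderiv ℝ f) p v v) 0 := by
    have := h4.clm_apply (hasDerivAt_const (0:ℝ) v)
    simpa [Function.comp_def] using this
  exact (h5.congr_of_eventuallyEq (heq.mono fun s hs => hs.symm)).unique h2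

/-- the defining function -/
noncomputable def rho (η : ℝ → ℝ) (z : ℂ × ℂ) : ℝ :=
  ‖z.1 + Complex.exp ((theta z : ℂ) * Complex.I)‖ ^ 2 - 1 + η (theta z)

theorem mem_worm_iff {η : ℝ → ℝ} {z : ℂ × ℂ} (hz : z.2 ≠ 0) : z ∈ worm η ↔ rho η z < 0 := by
  unfold worm rho
  constructor
  · rintro ⟨_, h⟩; linarith
  · intro h; exact ⟨hz, by linarith⟩

theorem contDiffOn_theta : ContDiffOn ℝ ∞ theta {z : ℂ × ℂ | z.2 ≠ 0} := by
  unfold theta
  refine ContDiffOn.log (ContDiffOn.norm_sq ℝ contDiffOn_snd) ?_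
  intro z hz
  have : ‖z.2‖ ≠ 0 := norm_ne_zero_iff.2 hz
  positivity

theorem contDiffOn_rho {η : ℝ → ℝ} (h : ContDiff ℝ ∞ η) :
    ContDiffOn ℝ ∞ (rho η) {z : ℂ × ℂ | z.2 ≠ 0} := by
  unfold rho
  have h1 := contDiffOn_theta
  have h2 : ContDiffOn ℝ ∞ (fun z : ℂ × ℂ => η (theta z)) {z : ℂ × ℂ | z.2 ≠ 0} :=
    h.comp_contDiffOn h1
  have h3 : ContDiffOn ℝ ∞ (fun z : ℂ × ℂ => (theta z : ℂ)) {z : ℂ × ℂ | z.2 ≠ 0} :=
    Complex.ofRealCLM.contDiff.comp_contDiffOn h1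
  have h4 : ContDiffOn ℝ ∞ (fun z : ℂ × ℂ => Complex.exp ((theta z : ℂ) * Complex.I))
      {z : ℂ × ℂ | z.2 ≠ 0} := (h3.mul contDiffOn_const).cexp
  have h5 := ContDiffOn.norm_sq ℝ (contDiffOn_fst.add h4)
  exact (h5.sub contDiffOn_const).add h2

theorem rho_eq (η : ℝ → ℝ) (z : ℂ × ℂ) : rho η z = z.1.re ^ 2 + z.1.im ^ 2 +
    2 * (z.1.re * Real.cos (theta z) + z.1.im * Real.sin (theta z)) + η (theta z) := by
  unfold rho
  rw [← Complex.normSq_eq_norm_sq, Complex.normSq_apply]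
  have h := Real.sin_sq_add_cos_sq (theta z)
  simp only [Complex.add_re, Complex.add_im, Complex.exp_ofReal_mul_I_re,
    Complex.exp_ofReal_mul_I_im]
  nlinarith

/-- the first derivative of `theta` along a line -/
noncomputable def T1 (p v : ℂ × ℂ) (s : ℝ) : ℝ :=
  2 * ((p.2.re + s * v.2.re) * v.2.re + (p.2.im + s * v.2.im) * v.2.im) /
    ((p.2.re + s * v.2.re) ^ 2 + (p.2.im + s * v.2.im) ^ 2)

theorem theta_line (p v : ℂ × ℂ) (s : ℝ) : theta (p + s • v) =
    Real.log ((p.2.re + s * v.2.re) ^ 2 + (p.2.im + s * v.2.im) ^ 2) := by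
  unfold theta
  rw [← Complex.normSq_eq_norm_sq, Complex.normSq_apply]
  simp only [Prod.snd_add, Prod.smul_snd, Complex.add_re, Complex.add_im, Complex.real_smul,
    Complex.re_ofReal_mul, Complex.im_ofReal_mul]
  ring_nf

theorem line_ne {p v : ℂ × ℂ} {s : ℝ} (h : (p + s • v).2 ≠ 0) :
    (p.2.re + s * v.2.re) ^ 2 + (p.2.im + s * v.2.im) ^ 2 ≠ 0 := by
  have : 0 < Complex.normSq (p + s • v).2 := Complex.normSq_pos.2 h
  rw [Complex.normSq_apply] at this
  simp only [Prod.snd_add, Prod.smul_snd, Complex.add_re, Complex.add_im, Complex.real_smul,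
    Complex.re_ofReal_mul, Complex.im_ofReal_mul] at this
  nlinarith

theorem hasDerivAt_theta_line {p v : ℂ × ℂ} {s : ℝ} (h : (p + s • v).2 ≠ 0) :
    HasDerivAt (fun s : ℝ => theta (p + s • v)) (T1 p v s) s := by
  have hne := line_ne h
  have h1 : HasDerivAt (fun s : ℝ => p.2.re + s * v.2.re) v.2.re s := by
    simpa using ((hasDerivAt_id s).mul_const v.2.re).const_add p.2.re
  have h2 : HasDerivAt (fun s : ℝ => p.2.im + s * v.2.im) v.2.im s := by
    simpa using ((hasDerivAt_id s).mul_const v.2.im).const_add p.2.im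
  have h3 := ((h1.pow 2).add (h2.pow 2)).log hne
  have h4 : (fun s : ℝ => theta (p + s • v)) = fun s =>
      Real.log ((p.2.re + s * v.2.re) ^ 2 + (p.2.im + s * v.2.im) ^ 2) :=
    funext fun s => theta_line p v s
  rw [h4]
  refine h3.congr_deriv ?_
  unfold T1
  congr 1
  norm_num
  ring

theorem hasDerivAt_T1 {p v : ℂ × ℂ} (h : p.2 ≠ 0) :
    HasDerivAt (T1 p v) (2 * (v.2.re ^ 2 + v.2.im ^ 2) / (p.2.re ^ 2 + p.2.im ^ 2) -
      (2 * (p.2.re * v.2.re + p.2.im * v.2.im) / (p.2.re ^ 2 + p.2.im ^ 2)) ^ 2) 0 := by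
  have hne : p.2.re ^ 2 + p.2.im ^ 2 ≠ 0 := by
    have := line_ne (p := p) (v := v) (s := 0) (by simpa using h)
    simpa using this
  have h1 : HasDerivAt (fun s : ℝ => p.2.re + s * v.2.re) v.2.re 0 := by
    simpa using ((hasDerivAt_id (0:ℝ)).mul_const v.2.re).const_add p.2.re
  have h2 : HasDerivAt (fun s : ℝ => p.2.im + s * v.2.im) v.2.im 0 := by
    simpa using ((hasDerivAt_id (0:ℝ)).mul_const v.2.im).const_add p.2.im
  have h3 := ((((h1.mul_const v.2.re).add (h2.mul_const v.2.im)).const_mul 2).div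
    ((h1.pow 2).add (h2.pow 2)) (by simpa using hne))
  refine h3.congr_deriv ?_
  simp only [zero_mul, add_zero, Pi.add_apply, Pi.pow_apply]
  field_simp
  ring

/-- the first derivative of `rho` along a line -/
noncomputable def G1 (η : ℝ → ℝ) (p v : ℂ × ℂ) (s : ℝ) : ℝ :=
  2 * ((p.1.re + s * v.1.re) * v.1.re + (p.1.im + s * v.1.im) * v.1.im) +
  2 * ((v.1.re * Real.cos (theta (p + s • v)) + v.1.im * Real.sin (theta (p + s • v))) +
    T1 p v s * (-(p.1.re + s * v.1.re) * Real.sin (theta (p + s • v)) +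
      (p.1.im + s * v.1.im) * Real.cos (theta (p + s • v)))) +
  deriv η (theta (p + s • v)) * T1 p v s

theorem hasDerivAt_rho_line {η : ℝ → ℝ} (hη : Differentiable ℝ η) {p v : ℂ × ℂ} {s : ℝ}
    (h : (p + s • v).2 ≠ 0) :
    HasDerivAt (fun s : ℝ => rho η (p + s • v)) (G1 η p v s) s := by
  have h1 : HasDerivAt (fun s : ℝ => p.1.re + s * v.1.re) v.1.re s := by
    simpa using ((hasDerivAt_id s).mul_const v.1.re).const_add p.1.re
  have h2 : HasDerivAt (fun s : ℝ => p.1.im + s * v.1.im) v.1.im s := by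
    simpa using ((hasDerivAt_id s).mul_const v.1.im).const_add p.1.im
  have hT := hasDerivAt_theta_line h
  have h3 := hT.cos
  have h4 := hT.sin
  have h5 := (hη (theta (p + s • v))).hasDerivAt.comp s hT
  have h6 := (((h1.pow 2).add (h2.pow 2)).add
    (((h1.mul h3).add (h2.mul h4)).const_mul 2)).add h5
  have h7 : (fun s : ℝ => rho η (p + s • v)) = fun s : ℝ =>
      (p.1.re + s * v.1.re) ^ 2 + (p.1.im + s * v.1.im) ^ 2 +
      2 * ((p.1.re + s * v.1.re) * Real.cos (theta (p + s • v)) +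
        (p.1.im + s * v.1.im) * Real.sin (theta (p + s • v))) + η (theta (p + s • v)) := by
    funext s
    rw [rho_eq]
    simp only [Prod.fst_add, Prod.smul_fst, Complex.add_re, Complex.add_im, Complex.real_smul,
      Complex.re_ofReal_mul, Complex.im_ofReal_mul]
  rw [h7]
  refine h6.congr_deriv ?_
  unfold G1
  ring

/-- the second derivative of `rho` along a line -/
theorem hasDerivAt_G1 {η : ℝ → ℝ} (hη : Differentiable ℝ (deriv η)) {p v : ℂ × ℂ}
    (h : p.2 ≠ 0) {t1 t2 : ℝ}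
    (ht1 : t1 = 2 * (p.2.re * v.2.re + p.2.im * v.2.im) / (p.2.re ^ 2 + p.2.im ^ 2))
    (ht2 : t2 = 2 * (v.2.re ^ 2 + v.2.im ^ 2) / (p.2.re ^ 2 + p.2.im ^ 2) - t1 ^ 2) :
    HasDerivAt (G1 η p v) (2 * (v.1.re ^ 2 + v.1.im ^ 2) +
      4 * t1 * (-v.1.re * Real.sin (theta p) + v.1.im * Real.cos (theta p)) +
      2 * t2 * (-p.1.re * Real.sin (theta p) + p.1.im * Real.cos (theta p)) -
      2 * t1 ^ 2 * (p.1.re * Real.cos (theta p) + p.1.im * Real.sin (theta p)) +
      deriv (deriv η) (theta p) * t1 ^ 2 + deriv η (theta p) * t2) 0 := by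
  have h1 : HasDerivAt (fun s : ℝ => p.1.re + s * v.1.re) v.1.re 0 := by
    simpa using ((hasDerivAt_id (0:ℝ)).mul_const v.1.re).const_add p.1.re
  have h2 : HasDerivAt (fun s : ℝ => p.1.im + s * v.1.im) v.1.im 0 := by
    simpa using ((hasDerivAt_id (0:ℝ)).mul_const v.1.im).const_add p.1.im
  have h0 : (p + (0:ℝ) • v).2 ≠ 0 := by simpa using h
  have hT := hasDerivAt_theta_line h0
  have hT1 := hasDerivAt_T1 (v := v) h
  have h3 := hT.cos
  have h4 := hT.sin
  have h5 := (hη (theta (p + (0:ℝ) • v))).hasDerivAt.comp 0 hT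
  have hA := ((h1.mul_const v.1.re).add (h2.mul_const v.1.im)).const_mul 2
  have hB := ((h3.const_mul v.1.re).add (h4.const_mul v.1.im)).add
    (hT1.mul ((h1.neg.mul h4).add (h2.mul h3)))
  have hC := h5.mul hT1
  have hD := (hA.add (hB.const_mul 2)).add hC
  have e1 : T1 p v 0 = t1 := by
    rw [ht1]; unfold T1; simp
  refine hD.congr_deriv ?_
  simp only [Pi.add_apply, Pi.mul_apply, Pi.neg_apply, Function.comp_apply, zero_smul, add_zero,
    zero_mul, e1, ← ht1, ← ht2]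
  ring

/-- The algebraic inequality behind pseudoconvexity. -/
theorem levi_ineq {B1 B2 V1 V2 k1 k2 e1 e2 n : ℝ} (hn : n = B1 ^ 2 + B2 ^ 2) (hn1 : n ≤ 1)
    (he2 : 0 ≤ e2) (h0 : n = 0 → e1 ≠ 0)
    (E1 : B1 * V1 + B2 * V2 + k1 * (e1 + 2 * B2) = 0)
    (E2 : B2 * V1 - B1 * V2 - k2 * (e1 + 2 * B2) = 0) :
    0 ≤ V1 ^ 2 + V2 ^ 2 + 2 * (k1 * V2 - k2 * V1) - 2 * (k1 ^ 2 + k2 ^ 2) * (B1 - 1) +
      e2 * (k1 ^ 2 + k2 ^ 2) := by
  have hnn : 0 ≤ n := by rw [hn]; positivity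
  rcases hnn.eq_or_lt with h | h
  · have hB1 : B1 = 0 := by nlinarith [sq_nonneg B1, sq_nonneg B2]
    have hB2 : B2 = 0 := by nlinarith [sq_nonneg B1, sq_nonneg B2]
    have he1 := h0 h.symm
    subst hB1 hB2
    have hk1 : k1 = 0 := by
      have : k1 * e1 = 0 := by linarith
      exact (mul_eq_zero.1 this).resolve_right he1
    have hk2 : k2 = 0 := by
      have : k2 * e1 = 0 := by linarith
      exact (mul_eq_zero.1 this).resolve_right he1
    subst hk1 hk2
    nlinarith [sq_nonneg V1, sq_nonneg V2]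
  · set m := e1 + 2 * B2 with hm
    have hV1 : n * V1 = -(m * (k1 * B1 - k2 * B2)) := by
      rw [hn]; linear_combination B1 * E1 + B2 * E2
    have hV2 : n * V2 = -(m * (k1 * B2 + k2 * B1)) := by
      rw [hn]; linear_combination B2 * E1 - B1 * E2
    have key : n ^ 2 * (V1 ^ 2 + V2 ^ 2 + 2 * (k1 * V2 - k2 * V1) -
        2 * (k1 ^ 2 + k2 ^ 2) * (B1 - 1) + e2 * (k1 ^ 2 + k2 ^ 2)) =
        n * (k1 ^ 2 + k2 ^ 2) * ((e1 + B2) ^ 2 + (n - 2 * n * B1 + B1 ^ 2) + e2 * n) := by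
      have h1 : n ^ 2 * (V1 ^ 2 + V2 ^ 2 + 2 * (k1 * V2 - k2 * V1) -
        2 * (k1 ^ 2 + k2 ^ 2) * (B1 - 1) + e2 * (k1 ^ 2 + k2 ^ 2)) =
        (n * V1) ^ 2 + (n * V2) ^ 2 + 2 * n * (k1 * (n * V2) - k2 * (n * V1)) +
          n ^ 2 * ((k1 ^ 2 + k2 ^ 2) * (2 - 2 * B1 + e2)) := by ring
      rw [h1, hV1, hV2]
      have h2 : (-(m * (k1 * B1 - k2 * B2))) ^ 2 + (-(m * (k1 * B2 + k2 * B1))) ^ 2 =
          m ^ 2 * (k1 ^ 2 + k2 ^ 2) * n := by rw [hn]; ring
      have h3 : k1 * -(m * (k1 * B2 + k2 * B1)) - k2 * -(m * (k1 * B1 - k2 * B2)) =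
          -(m * B2 * (k1 ^ 2 + k2 ^ 2)) := by ring
      rw [h2, h3, hm]
      have h4 : B2 ^ 2 = n - B1 ^ 2 := by rw [hn]; ring
      linear_combination (-(n * (k1 ^ 2 + k2 ^ 2))) * h4
    have hpos : 0 ≤ n - 2 * n * B1 + B1 ^ 2 := by
      rcases le_or_gt B1 0 with hB | hB
      · nlinarith [sq_nonneg B1]
      · nlinarith [sq_nonneg (n - B1)]
    have h5 : 0 ≤ n * (k1 ^ 2 + k2 ^ 2) *
        ((e1 + B2) ^ 2 + (n - 2 * n * B1 + B1 ^ 2) + e2 * n) := by positivity
    rw [← key] at h5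
    exact nonneg_of_mul_nonneg_right h5 (by positivity)

theorem snd_ne_of_mem_closure {β : ℝ} {η : ℝ → ℝ} (h : Profile β η) {p : ℂ × ℂ}
    (hp : p ∈ closure (worm η)) : p.2 ≠ 0 := by
  obtain ⟨T, hT⟩ := theta_le_of_mem h
  have h1 : worm η ⊆ {z : ℂ × ℂ | Real.exp (-T) ≤ ‖z.2‖ ^ 2} := by
    intro z hz
    have h2 := norm_snd_eq hz.1
    show Real.exp (-T) ≤ ‖z.2‖ ^ 2
    rw [h2]
    exact Real.exp_le_exp.2 (by have := (abs_le.1 (hT z hz)).1; linarith)
  have h2 : IsClosed {z : ℂ × ℂ | Real.exp (-T) ≤ ‖z.2‖ ^ 2} :=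
    isClosed_le continuous_const (by fun_prop)
  have h3 : Real.exp (-T) ≤ ‖p.2‖ ^ 2 := closure_minimal h1 h2 hp
  intro h4
  rw [h4] at h3
  have := Real.exp_pos (-T)
  simp at h3
  linarith

theorem smoothPseudoconvex_worm {β : ℝ} {η : ℝ → ℝ} (hβ : π / 2 < β) (h : Profile β η) :
    SmoothPseudoconvex (worm η) := by
  intro p hp
  have hp2 : p.2 ≠ 0 := snd_ne_of_mem_closure h (frontier_subset_closure hp)
  have hsm := contDiffOn_rho h.smooth
  have hat : ContDiffAt ℝ ∞ (rho η) p := hsm.contDiffAt (isOpen_ne.mem_nhds hp2)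
  have hρ0 : rho η p = 0 := by
    have hopen := isOpen_worm h.smooth.continuous
    have h1 : p ∉ worm η := by
      rw [hopen.frontier_eq] at hp
      exact hp.2
    have h2 : 0 ≤ rho η p := not_lt.1 fun hlt => h1 ((mem_worm_iff hp2).2 hlt)
    refine le_antisymm (not_lt.1 fun hlt => ?_) h2
    have h3 : ∀ᶠ z in 𝓝 p, 0 < rho η z := hat.continuousAt.eventually (lt_mem_nhds hlt)
    have h4 : ∀ᶠ z : ℂ × ℂ in 𝓝 p, z.2 ≠ 0 := isOpen_ne.mem_nhds hp2
    have h5 : ∃ᶠ z in 𝓝 p, z ∈ worm η :=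
      mem_closure_iff_frequently.1 (frontier_subset_closure hp)
    obtain ⟨z, hz, hz3, hz4⟩ := (h5.and_eventually (h3.and h4)).exists
    exact absurd ((mem_worm_iff hz4).1 hz) (not_lt.2 hz3.le)
  set θ := theta p with hθ
  have hη1 : Differentiable ℝ η := h.smooth.differentiable (by simp)
  have hη2 : Differentiable ℝ (deriv η) :=
    ((contDiff_infty_iff_deriv.1 h.smooth).2).differentiable (by simp)
  have hmono : Monotone (deriv η) := by
    have := h.convex.monotoneOn_deriv (fun x _ => hη1 x)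
    exact monotoneOn_univ.1 this
  have he2 : 0 ≤ deriv (deriv η) θ := hmono.deriv_nonneg
  -- notation
  set A1 := p.1.re * Real.cos θ + p.1.im * Real.sin θ with hA1
  set A2 := -p.1.re * Real.sin θ + p.1.im * Real.cos θ with hA2
  have hcs := Real.sin_sq_add_cos_sq θ
  set N := p.2.re ^ 2 + p.2.im ^ 2 with hN
  have hN0 : N ≠ 0 := by
    have := line_ne (p := p) (v := 0) (s := 0) (by simpa using hp2)
    simpa using this
  have hn : (A1 + 1) ^ 2 + A2 ^ 2 = 1 - η θ := by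
    rw [rho_eq] at hρ0
    have h1 : A1 ^ 2 + A2 ^ 2 = p.1.re ^ 2 + p.1.im ^ 2 := by
      rw [hA1, hA2]
      linear_combination (p.1.re ^ 2 + p.1.im ^ 2) * hcs
    rw [← hθ] at hρ0
    linarith
  have hderiv0 : 1 - η θ = 0 → deriv η θ ≠ 0 := by
    intro h1
    have h2 : η θ = 1 := by linarith
    have h3 : η 0 = 0 := (h.zero_iff 0).2 (by rw [abs_zero]; linarith)
    rcases lt_trichotomy θ 0 with h4 | h4 | h4
    · have h5 := h.convex.deriv_le_slope (mem_univ _) (mem_univ _) h4 (hη1 θ)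
      rw [slope_def_field, h2, h3] at h5
      have : (0 - 1) / (0 - θ) < 0 := div_neg_of_neg_of_pos (by norm_num) (by linarith)
      linarith
    · rw [h4, h3] at h2; norm_num at h2
    · have h5 := h.convex.slope_le_deriv (mem_univ _) (mem_univ _) h4 (hη1 θ)
      rw [slope_def_field, h2, h3] at h5
      have : 0 < (1 - 0) / (θ - 0) := by positivity
      have : 0 < (1 - 0) / (θ - 0) := div_pos (by norm_num) (by linarith)
      linarith
  -- first and second derivatives along lines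
  have hev : ∀ v : ℂ × ℂ, ∀ᶠ s in 𝓝 (0:ℝ), (p + s • v).2 ≠ 0 := by
    intro v
    have hc : Continuous (fun s : ℝ => (p + s • v).2) := by fun_prop
    have : Tendsto (fun s : ℝ => (p + s • v).2) (𝓝 0) (𝓝 p.2) := by
      have := hc.tendsto 0
      simpa using this
    exact this.eventually_ne hp2
  have key : ∀ v : ℂ × ℂ, ∀ t1 t2 : ℝ,
      t1 = 2 * (p.2.re * v.2.re + p.2.im * v.2.im) / N →
      t2 = 2 * (v.2.re ^ 2 + v.2.im ^ 2) / N - t1 ^ 2 →
      fderiv ℝ (rho η) p v = 2 * (p.1.re * v.1.re + p.1.im * v.1.im) +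
        2 * (v.1.re * Real.cos θ + v.1.im * Real.sin θ) + t1 * (2 * A2 + deriv η θ) ∧
      fderiv ℝ (fderiv ℝ (rho η)) p v v = 2 * (v.1.re ^ 2 + v.1.im ^ 2) +
        4 * t1 * (-v.1.re * Real.sin θ + v.1.im * Real.cos θ) + 2 * t2 * A2 -
        2 * t1 ^ 2 * A1 + deriv (deriv η) θ * t1 ^ 2 + deriv η θ * t2 := by
    intro v t1 t2 ht1 ht2
    obtain ⟨k1, k2⟩ := second_line (f := rho η) (p := p) (v := v) (hat.of_le (WithTop.coe_le_coe.2 le_top))
      ((hev v).mono fun s hs => hasDerivAt_rho_line hη1 hs) (hasDerivAt_G1 hη2 hp2 ht1 ht2)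
    refine ⟨?_, k2⟩
    rw [k1]
    have e1 : T1 p v 0 = t1 := by rw [ht1]; unfold T1; simp [hN]
    unfold G1
    rw [e1]
    simp only [zero_mul, add_zero, zero_smul, ← hθ]
    ring
  refine ⟨{z : ℂ × ℂ | z.2 ≠ 0}, isOpen_ne, hp2, rho η, hsm,
    fun z hz => mem_worm_iff hz, ?_, ?_⟩
  · -- the differential does not vanish
    intro hzero
    by_cases hn0 : 1 - η θ = 0
    · have h1 := (key (0, p.2) 2 (2 - 4) (by
        simp only
        field_simp
        rw [hN]) (by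
        simp only
        rw [← hN]
        field_simp
        norm_num)).1
      rw [hzero] at h1
      have hA2' : A2 = 0 := by nlinarith [sq_nonneg (A1 + 1), sq_nonneg A2]
      simp [hA2'] at h1
      exact hderiv0 hn0 h1
    · have h1 := (key (((A1 + 1) * Real.cos θ - A2 * Real.sin θ : ℝ) +
        ((A1 + 1) * Real.sin θ + A2 * Real.cos θ : ℝ) * Complex.I, 0) 0 0
        (by simp) (by simp)).1
      rw [hzero] at h1
      simp only [Complex.add_re, Complex.add_im, Complex.ofReal_re, Complex.ofReal_im,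
        Complex.mul_re, Complex.mul_im, Complex.I_re, Complex.I_im, mul_zero, mul_one, zero_mul,
        sub_zero, zero_add, add_zero, ContinuousLinearMap.zero_apply] at h1
      have h2 : (A1 + 1) ^ 2 + A2 ^ 2 = 0 := by
        have h3 : p.1.re * ((A1 + 1) * Real.cos θ - A2 * Real.sin θ) +
            p.1.im * ((A1 + 1) * Real.sin θ + A2 * Real.cos θ) = A1 * (A1 + 1) + A2 * A2 := by
          rw [hA1, hA2]; ring
        have h4 : ((A1 + 1) * Real.cos θ - A2 * Real.sin θ) * Real.cos θ +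
            ((A1 + 1) * Real.sin θ + A2 * Real.cos θ) * Real.sin θ = A1 + 1 := by
          linear_combination (A1 + 1) * hcs
        rw [h3, h4] at h1
        linarith
      exact hn0 (by linarith)
  · -- the Levi form
    intro v hv hiv
    set K1 := (p.2.re * v.2.re + p.2.im * v.2.im) / N with hK1
    set K2 := (p.2.re * v.2.im - p.2.im * v.2.re) / N with hK2
    have hKK : (v.2.re ^ 2 + v.2.im ^ 2) / N = K1 ^ 2 + K2 ^ 2 := by
      rw [hK1, hK2, div_pow, div_pow, ← add_div]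
      rw [div_eq_div_iff hN0 (pow_ne_zero 2 hN0), hN]
      ring
    obtain ⟨a1, a2⟩ := key v (2 * K1) (2 * (K2 ^ 2 - K1 ^ 2)) (by rw [hK1]; ring) (by
      have : 2 * (v.2.re ^ 2 + v.2.im ^ 2) / N = 2 * (K1 ^ 2 + K2 ^ 2) := by
        rw [← hKK]; ring
      rw [this]; ring)
    obtain ⟨b1, b2⟩ := key (Complex.I • v) (-(2 * K2)) (2 * (K1 ^ 2 - K2 ^ 2)) (by
      simp only [Prod.smul_snd, smul_eq_mul, Complex.mul_re, Complex.mul_im, Complex.I_re,
        Complex.I_im]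
      rw [hK2]; ring) (by
      simp only [Prod.smul_snd, smul_eq_mul, Complex.mul_re, Complex.mul_im, Complex.I_re,
        Complex.I_im]
      have : 2 * ((0 * v.2.re - 1 * v.2.im) ^ 2 + (0 * v.2.im + 1 * v.2.re) ^ 2) / N =
          2 * (K1 ^ 2 + K2 ^ 2) := by
        rw [← hKK]; ring
      rw [this]; ring)
    simp only [Prod.smul_fst, smul_eq_mul, Complex.mul_re, Complex.mul_im, Complex.I_re,
        Complex.I_im] at b1 b2
    rw [hv] at a1
    rw [hiv] at b1
    rw [a2, b2]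
    set V1 := v.1.re * Real.cos θ + v.1.im * Real.sin θ with hV1
    set V2 := -v.1.re * Real.sin θ + v.1.im * Real.cos θ with hV2
    have hVV : v.1.re ^ 2 + v.1.im ^ 2 = V1 ^ 2 + V2 ^ 2 := by
      rw [hV1, hV2]
      linear_combination (-(v.1.re ^ 2 + v.1.im ^ 2)) * hcs
    have hxv : p.1.re * v.1.re + p.1.im * v.1.im = A1 * V1 + A2 * V2 := by
      rw [hV1, hV2, hA1, hA2]
      linear_combination (-(p.1.re * v.1.re + p.1.im * v.1.im)) * hcs
    have hxiv : p.1.re * (0 * v.1.re - 1 * v.1.im) + p.1.im * (0 * v.1.im + 1 * v.1.re) =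
        A2 * V1 - A1 * V2 := by
      rw [hV1, hV2, hA1, hA2]
      linear_combination (-(-p.1.re * v.1.im + p.1.im * v.1.re)) * hcs
    have E1 : (A1 + 1) * V1 + A2 * V2 + K1 * (deriv η θ + 2 * A2) = 0 := by
      rw [hxv] at a1
      linarith
    have hiV : (0 * v.1.re - 1 * v.1.im) * Real.cos θ + (0 * v.1.im + 1 * v.1.re) * Real.sin θ =
        -V2 := by rw [hV2]; ring
    have hiV2 : -(0 * v.1.re - 1 * v.1.im) * Real.sin θ + (0 * v.1.im + 1 * v.1.re) * Real.cos θ =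
        V1 := by rw [hV1]; ring
    have E2 : A2 * V1 - (A1 + 1) * V2 - K2 * (deriv η θ + 2 * A2) = 0 := by
      rw [hxiv, hiV] at b1
      linarith
    have hfin := levi_ineq (n := 1 - η θ) (hn.symm) (by linarith [h.nonneg θ]) he2 hderiv0 E1 E2
    rw [hiV2, hVV]
    have hVV' : (0 * v.1.re - 1 * v.1.im) ^ 2 + (0 * v.1.im + 1 * v.1.re) ^ 2 =
        V1 ^ 2 + V2 ^ 2 := by rw [← hVV]; ring
    rw [hVV']
    nlinarith [hfin]

end Pool.Agent.Worm
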