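import Mathlib

/-!
# Auxiliary analysis lemmas: a sequential Montel theorem, windows and exponential weights,
weak convergence from a.e. convergence and an `L²` bound
-/

open MeasureTheory Set Metric Filter Topology
open scoped Real ENNReal ComplexConjugate

namespace Pool.Agent.Worm

/-- local equi-Lipschitz bound -/
theorem lip_of_ball {w₀ : ℂ} {ρ M : ℝ} (hρ : 0 < ρ) (hM : 0 ≤ M) {F : ℂ → ℂ}
    (hd : DifferentiableOn ℂ F (ball w₀ ρ)) (hb : ∀ z ∈ ball w₀ ρ, ‖F z‖ ≤ M)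
    {x y : ℂ} (hx : x ∈ ball w₀ (ρ / 2)) (hy : y ∈ ball x (ρ / 2)) :
    dist (F y) (F x) ≤ (2 * M + 1) / (ρ / 2) * dist y x := by
  have hsub : ball x (ρ / 2) ⊆ ball w₀ ρ := by
    intro z hz
    rw [mem_ball] at *
    calc dist z w₀ ≤ dist z x + dist x w₀ := dist_triangle _ _ _
      _ < ρ / 2 + ρ / 2 := add_lt_add hz hx
      _ = ρ := by ring
  apply Complex.dist_le_div_mul_dist_of_mapsTo_ball (hd.mono hsub) _ hy
  intro z hz
  rw [mem_closedBall, dist_eq_norm]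
  have h1 := hb z (hsub hz)
  have h2 := hb x (hsub (mem_ball_self (by positivity)))
  have h3 := norm_sub_le (F z) (F x)
  linarith

theorem montel_seq {Ω : Set ℂ} (hΩ : IsOpen Ω) {F : ℕ → ℂ → ℂ}
    (hF : ∀ w₀ ∈ Ω, ∃ ρ > 0, ∃ M : ℝ, ∃ k₀ : ℕ, ∀ k ≥ k₀,
      DifferentiableOn ℂ (F k) (ball w₀ ρ) ∧ ∀ z ∈ ball w₀ ρ, ‖F k z‖ ≤ M) :
    ∃ f : ℂ → ℂ, ∃ φ : ℕ → ℕ, StrictMono φ ∧ DifferentiableOn ℂ f Ω ∧
      TendstoLocallyUniformlyOn (fun k => F (φ k)) f atTop Ω := by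
  classical
  -- normalise the local data
  have hF' : ∀ w₀ ∈ Ω, ∃ ρ > 0, ∃ M : ℝ, 0 ≤ M ∧ ∃ k₀ : ℕ, ∀ k ≥ k₀,
      DifferentiableOn ℂ (F k) (ball w₀ ρ) ∧ ∀ z ∈ ball w₀ ρ, ‖F k z‖ ≤ M := by
    intro w₀ hw₀
    obtain ⟨ρ, hρ, M, k₀, h⟩ := hF w₀ hw₀
    refine ⟨ρ, hρ, M, ?_, k₀, h⟩
    exact (norm_nonneg _).trans ((h k₀ le_rfl).2 w₀ (mem_ball_self hρ))
  obtain ⟨s, hsc, hsd⟩ := TopologicalSpace.exists_countable_dense ℂ
  let I := {d : ℂ // d ∈ s ∩ Ω}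
  have : Countable I := (hsc.mono inter_subset_left).to_subtype
  have hbd : ∀ d : I, ∃ R : ℝ, ∀ k, F k d.1 ∈ closedBall (0 : ℂ) R := by
    intro d
    obtain ⟨ρ, hρ, M, hM, k₀, h⟩ := hF' d.1 d.2.2
    refine ⟨M + ∑ k ∈ Finset.range k₀, ‖F k d.1‖, fun k => ?_⟩
    rw [mem_closedBall, dist_zero_right]
    rcases lt_or_ge k k₀ with hk | hk
    · have h1 : ‖F k d.1‖ ≤ ∑ k ∈ Finset.range k₀, ‖F k d.1‖ :=
        Finset.single_le_sum (f := fun k => ‖F k d.1‖) (fun i _ => norm_nonneg _)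
          (Finset.mem_range.2 hk)
      linarith
    · have h1 := (h k hk).2 d.1 (mem_ball_self hρ)
      have h2 : 0 ≤ ∑ k ∈ Finset.range k₀, ‖F k d.1‖ :=
        Finset.sum_nonneg (fun i _ => norm_nonneg _)
      linarith
  choose R hR using hbd
  have hcomp : IsCompact (Set.pi Set.univ (fun d : I => closedBall (0 : ℂ) (R d))) :=
    isCompact_univ_pi (fun d => isCompact_closedBall _ _)
  obtain ⟨g, -, φ, hφ, hg⟩ := hcomp.tendsto_subseq (x := fun k => fun d : I => F k d.1)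
    (fun k d _ => hR d k)
  rw [tendsto_pi_nhds] at hg
  have hg' : ∀ d : I, Tendsto (fun k => F (φ k) d.1) atTop (𝓝 (g d)) := hg
  -- pointwise convergence
  have hpt : ∀ z ∈ Ω, ∃ v : ℂ, Tendsto (fun k => F (φ k) z) atTop (𝓝 v) := by
    intro z hz
    apply cauchySeq_tendsto_of_complete
    obtain ⟨ρ, hρ, M, hM, k₀, h⟩ := hF' z hz
    rw [Metric.cauchySeq_iff']
    intro ε hε
    set C : ℝ := (2 * M + 1) / (ρ / 2) with hC
    have hC0 : 0 < C := by positivity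
    set r : ℝ := min (ρ / 2) (ε / (6 * C)) with hr
    have hr0 : 0 < r := by positivity
    obtain ⟨d, hd, hds⟩ := hsd.exists_mem_open (isOpen_ball.inter hΩ)
      (⟨z, mem_ball_self hr0, hz⟩ : (ball z r ∩ Ω).Nonempty)
    have hc := (hg' ⟨d, hd, hds.2⟩).cauchySeq
    rw [Metric.cauchySeq_iff'] at hc
    obtain ⟨N, hN⟩ := hc (ε / 3) (by positivity)
    refine ⟨max N k₀, fun n hn => ?_⟩
    have hdz : d ∈ ball z (ρ / 2) := ball_subset_ball (min_le_left _ _) hds.1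
    have hdr : dist d z < ε / (6 * C) := lt_of_lt_of_le (mem_ball.1 hds.1) (min_le_right _ _)
    have key : ∀ n ≥ max N k₀, dist (F (φ n) d) (F (φ n) z) ≤ ε / 6 := by
      intro n hn
      have hφn : φ n ≥ k₀ := (le_max_right _ _).trans (hn.trans (hφ.id_le n))
      have h1 := lip_of_ball hρ hM (h (φ n) hφn).1 (h (φ n) hφn).2
        (mem_ball_self (by positivity)) hdz
      refine h1.trans ?_
      rw [← hC]
      calc C * dist d z ≤ C * (ε / (6 * C)) := by gcongr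
        _ = ε / 6 := by field_simp
    have h1 := key n hn
    have h2 := key (max N k₀) le_rfl
    have h3 := hN n ((le_max_left _ _).trans hn)
    have h4 := hN (max N k₀) (le_max_left _ _)
    have h5 : dist (F (φ n) d) (F (φ (max N k₀)) d) < ε / 3 + ε / 3 :=
      (dist_triangle_right _ _ _).trans_lt (add_lt_add h3 h4)
    calc dist (F (φ n) z) (F (φ (max N k₀)) z)
        ≤ dist (F (φ n) z) (F (φ n) d) + dist (F (φ n) d) (F (φ (max N k₀)) d)
          + dist (F (φ (max N k₀)) d) (F (φ (max N k₀)) z) := dist_triangle4 _ _ _ _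
      _ < ε / 6 + (ε / 3 + ε / 3) + ε / 6 := by
          rw [dist_comm (F (φ n) z)]
          exact add_lt_add_of_lt_of_le (add_lt_add_of_le_of_lt h1 h5) h2
      _ = ε := by ring
  set f : ℂ → ℂ := fun z => if h : z ∈ Ω then (hpt z h).choose else 0 with hf
  have hfs : ∀ z ∈ Ω, Tendsto (fun k => F (φ k) z) atTop (𝓝 (f z)) := by
    intro z hz
    simp only [hf, dif_pos hz]
    exact (hpt z hz).choose_spec
  have hconv : TendstoLocallyUniformlyOn (fun k => F (φ k)) f atTop Ω := by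
    rw [Metric.tendstoLocallyUniformlyOn_iff]
    intro ε hε z₀ hz₀
    obtain ⟨ρ, hρ, M, hM, k₀, h⟩ := hF' z₀ hz₀
    set C : ℝ := (2 * M + 1) / (ρ / 2) with hC
    have hC0 : 0 < C := by positivity
    have hLip : ∀ k ≥ k₀, ∀ y ∈ ball z₀ (ρ / 2), dist (F (φ k) y) (F (φ k) z₀) ≤ C * dist y z₀ := by
      intro k hk y hy
      have hφn : φ k ≥ k₀ := hk.trans (hφ.id_le k)
      exact lip_of_ball hρ hM (h (φ k) hφn).1 (h (φ k) hφn).2 (mem_ball_self (by positivity)) hy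
    have hfLip : ∀ y ∈ ball z₀ (ρ / 2), y ∈ Ω → dist (f y) (f z₀) ≤ C * dist y z₀ := by
      intro y hy hyΩ
      have h1 : Tendsto (fun k => dist (F (φ k) y) (F (φ k) z₀)) atTop (𝓝 (dist (f y) (f z₀))) :=
        (hfs y hyΩ).dist (hfs z₀ hz₀)
      apply le_of_tendsto h1
      filter_upwards [eventually_ge_atTop k₀] with k hk
      exact hLip k hk y hy
    set δ : ℝ := min (ρ / 2) (ε / (3 * C)) with hδ
    have hδ0 : 0 < δ := by positivity
    refine ⟨ball z₀ δ ∩ Ω, mem_nhdsWithin_of_mem_nhds ((isOpen_ball.inter hΩ).mem_nhds ⟨mem_ball_self hδ0, hz₀⟩), ?_⟩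
    have h1 : ∀ᶠ k in atTop, dist (f z₀) (F (φ k) z₀) < ε / 3 := by
      have := hfs z₀ hz₀
      rw [Metric.tendsto_nhds] at this
      filter_upwards [this (ε / 3) (by positivity)] with i hi
      rwa [dist_comm]
    filter_upwards [h1, eventually_ge_atTop k₀] with k hi hk y hy
    have hyρ : y ∈ ball z₀ (ρ / 2) := ball_subset_ball (min_le_left _ _) hy.1
    have hyC : C * dist y z₀ < ε / 3 := by
      have h2 : dist y z₀ < ε / (3 * C) := lt_of_lt_of_le (mem_ball.1 hy.1) (min_le_right _ _)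
      calc C * dist y z₀ < C * (ε / (3 * C)) := by gcongr
        _ = ε / 3 := by field_simp
    calc dist (f y) (F (φ k) y)
        ≤ dist (f y) (f z₀) + dist (f z₀) (F (φ k) z₀) + dist (F (φ k) z₀) (F (φ k) y) :=
          dist_triangle4 _ _ _ _
      _ < ε / 3 + ε / 3 + ε / 3 := by
          have a1 := hfLip y hyρ hy.2
          have a2 := hLip k hk y hyρ
          rw [dist_comm (F (φ k) z₀)]
          linarith
      _ = ε := by ring
  refine ⟨f, φ, hφ, ?_, hconv⟩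
  intro z₀ hz₀
  obtain ⟨ρ, hρ, M, hM, k₀, h⟩ := hF' z₀ hz₀
  have hU : IsOpen (ball z₀ ρ ∩ Ω) := isOpen_ball.inter hΩ
  have h1 : DifferentiableOn ℂ f (ball z₀ ρ ∩ Ω) := by
    apply (hconv.mono inter_subset_right).differentiableOn _ hU
    filter_upwards [eventually_ge_atTop k₀] with k hk
    exact (h (φ k) (hk.trans (hφ.id_le k))).1.mono inter_subset_left
  exact (h1.differentiableAt (hU.mem_nhds ⟨mem_ball_self hρ, hz₀⟩)).differentiableWithinAt

/-- windows of length 2 control exponential weights -/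
theorem window_bound (a : ℝ) (ha : 0 < a) : ∃ K : ℝ≥0∞, K ≠ ⊤ ∧ ∀ (ν : Measure ℂ) [SFinite ν]
    (M : ℝ≥0∞), (∀ X : ℝ, ν {w : ℂ | |w.re - X| ≤ 1} ≤ M) → ∀ X : ℝ,
      ∫⁻ w, ENNReal.ofReal (Real.exp (-a * |w.re - X|)) ∂ν ≤ K * M := by
  have hsum : Summable (fun k : ℤ => Real.exp a * Real.exp (-a * |(k : ℝ)|)) := by
    apply Summable.mul_left
    have hgeo : Summable (fun n : ℕ => Real.exp (-a * (n : ℝ))) := by
      have h1 : (fun n : ℕ => Real.exp (-a * (n : ℝ))) = fun n : ℕ => (Real.exp (-a)) ^ n := by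
        ext n
        rw [← Real.exp_nat_mul]
        congr 1; ring
      rw [h1]
      apply summable_geometric_of_lt_one (Real.exp_pos _).le
      rw [Real.exp_lt_one_iff]
      linarith
    apply Summable.of_nat_of_neg
    · simpa using hgeo
    · simpa using hgeo
  refine ⟨∑' k : ℤ, ENNReal.ofReal (Real.exp a * Real.exp (-a * |(k : ℝ)|)), hsum.tsum_ofReal_ne_top,
    fun ν _ M hM X => ?_⟩
  have hmeas : ∀ k : ℤ, MeasurableSet {w : ℂ | |w.re - (X + k)| ≤ 1} := by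
    intro k
    apply measurableSet_le _ measurable_const
    exact (Complex.measurable_re.sub_const _).abs
  have hpt : ∀ w : ℂ, ENNReal.ofReal (Real.exp (-a * |w.re - X|)) ≤
      ∑' k : ℤ, {w : ℂ | |w.re - (X + k)| ≤ 1}.indicator
        (fun _ => ENNReal.ofReal (Real.exp a * Real.exp (-a * |(k : ℝ)|))) w := by
    intro w
    refine le_trans ?_ (ENNReal.le_tsum (round (w.re - X)))
    have h1 : |w.re - X - round (w.re - X)| ≤ 1 / 2 := abs_sub_round _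
    have h2 : w ∈ {v : ℂ | |v.re - (X + (round (w.re - X) : ℤ))| ≤ 1} := by
      have h3 : w.re - (X + (round (w.re - X) : ℤ)) = w.re - X - round (w.re - X) := by ring
      show |w.re - (X + (round (w.re - X) : ℤ))| ≤ 1
      rw [h3]
      linarith
    rw [indicator_of_mem h2]
    apply ENNReal.ofReal_le_ofReal
    rw [← Real.exp_add]
    apply Real.exp_le_exp.2
    have h4 : |((round (w.re - X) : ℤ) : ℝ)| ≤ |w.re - X| + 1 / 2 := by
      have h5 : ((round (w.re - X) : ℤ) : ℝ) = (w.re - X) - (w.re - X - round (w.re - X)) := by ring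
      rw [h5]
      exact (abs_sub _ _).trans (by linarith)
    nlinarith
  calc ∫⁻ w, ENNReal.ofReal (Real.exp (-a * |w.re - X|)) ∂ν
      ≤ ∫⁻ w, ∑' k : ℤ, {w : ℂ | |w.re - (X + k)| ≤ 1}.indicator
        (fun _ => ENNReal.ofReal (Real.exp a * Real.exp (-a * |(k : ℝ)|))) w ∂ν :=
        lintegral_mono hpt
    _ = ∑' k : ℤ, ∫⁻ w, {w : ℂ | |w.re - (X + k)| ≤ 1}.indicator
        (fun _ => ENNReal.ofReal (Real.exp a * Real.exp (-a * |(k : ℝ)|))) w ∂ν := by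
        apply lintegral_tsum
        intro k
        exact (measurable_const.indicator (hmeas k)).aemeasurable
    _ = ∑' k : ℤ, ENNReal.ofReal (Real.exp a * Real.exp (-a * |(k : ℝ)|)) *
          ν {w : ℂ | |w.re - (X + k)| ≤ 1} := by
        congr 1
        ext k
        rw [lintegral_indicator_const (hmeas k)]
    _ ≤ ∑' k : ℤ, ENNReal.ofReal (Real.exp a * Real.exp (-a * |(k : ℝ)|)) * M := by
        apply ENNReal.tsum_le_tsum
        intro k
        gcongr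
        exact hM _
    _ = (∑' k : ℤ, ENNReal.ofReal (Real.exp a * Real.exp (-a * |(k : ℝ)|))) * M :=
        ENNReal.tsum_mul_right

theorem ennreal_split (h ψ T : ℝ≥0∞) (hT : T ≠ 0) (hT' : T ≠ ⊤) :
    h * ψ ≤ min h (T * ψ) * ψ + h ^ 2 / T := by
  rcases le_total h (T * ψ) with hle | hle
  · rw [min_eq_left hle]
    exact le_self_add
  · have h1 : ψ ≤ h / T := by
      rw [ENNReal.le_div_iff_mul_le (Or.inl hT) (Or.inl hT'), mul_comm]
      exact hle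
    calc h * ψ ≤ h * (h / T) := by gcongr
      _ = h ^ 2 / T := by rw [sq, mul_div_assoc]
      _ ≤ _ := le_add_self

/-- weak convergence from a.e. convergence and a bound in `L²` -/
theorem tendsto_integral_of_bounded {α : Type*} [MeasurableSpace α] {ν : Measure α}
    {f : ℕ → α → ℂ} {g ψ : α → ℂ} (hf : ∀ k, AEStronglyMeasurable (f k) ν) (hψ : MemLp ψ 2 ν)
    {C : ℝ≥0∞} (hC : C ≠ ⊤) (hb : ∀ k, ∫⁻ x, ‖f k x‖ₑ ^ 2 ∂ν ≤ C)
    (hlim : ∀ᵐ x ∂ν, Tendsto (fun k => f k x) atTop (𝓝 (g x))) :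
    ∫⁻ x, ‖g x‖ₑ ^ 2 ∂ν ≤ C ∧
      Tendsto (fun k => ∫ x, f k x * ψ x ∂ν) atTop (𝓝 (∫ x, g x * ψ x ∂ν)) := by
  have hg : AEStronglyMeasurable g ν := aestronglyMeasurable_of_tendsto_ae atTop hf hlim
  have hgC : ∫⁻ x, ‖g x‖ₑ ^ 2 ∂ν ≤ C := by
    calc ∫⁻ x, ‖g x‖ₑ ^ 2 ∂ν = ∫⁻ x, liminf (fun k => ‖f k x‖ₑ ^ 2) atTop ∂ν := by
          apply lintegral_congr_ae
          filter_upwards [hlim] with x hx
          have h1 : Tendsto (fun k => ‖f k x‖ₑ ^ 2) atTop (𝓝 (‖g x‖ₑ ^ 2)) :=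
            ((ENNReal.continuous_pow 2).tendsto _).comp (hx.enorm)
          exact h1.liminf_eq.symm
      _ ≤ liminf (fun k => ∫⁻ x, ‖f k x‖ₑ ^ 2 ∂ν) atTop :=
          lintegral_liminf_le' (fun k => (hf k).enorm.pow_const 2)
      _ ≤ C := by
          refine (liminf_le_limsup ?_ ?_).trans (limsup_le_of_le ?_ (Eventually.of_forall hb)) <;>
            isBoundedDefault
  refine ⟨hgC, ?_⟩
  have hmem : ∀ u : α → ℂ, AEStronglyMeasurable u ν → ∫⁻ x, ‖u x‖ₑ ^ 2 ∂ν ≤ C → MemLp u 2 ν := by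
    intro u hu hle
    refine ⟨hu, ?_⟩
    rw [eLpNorm_lt_top_iff_lintegral_rpow_enorm_lt_top two_ne_zero ENNReal.ofNat_ne_top]
    simp only [ENNReal.toReal_ofNat, ENNReal.rpow_ofNat]
    exact lt_of_le_of_lt hle hC.lt_top
  have hint : ∀ u : α → ℂ, AEStronglyMeasurable u ν → ∫⁻ x, ‖u x‖ₑ ^ 2 ∂ν ≤ C →
      Integrable (fun x => u x * ψ x) ν := fun u hu hle => (hmem u hu hle).integrable_mul hψ
  apply tendsto_integral_of_L1 _ (hint g hg hgC).1
    (Eventually.of_forall (fun k => hint (f k) (hf k) (hb k)))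
  -- the differences
  set h : ℕ → α → ℂ := fun k x => f k x - g x with hh
  have hhm : ∀ k, AEStronglyMeasurable (h k) ν := fun k => (hf k).sub hg
  have hh2 : ∀ k, ∫⁻ x, ‖h k x‖ₑ ^ 2 ∂ν ≤ 4 * C := by
    intro k
    calc ∫⁻ x, ‖h k x‖ₑ ^ 2 ∂ν ≤ ∫⁻ x, (2 * ‖f k x‖ₑ ^ 2 + 2 * ‖g x‖ₑ ^ 2) ∂ν := by
          apply lintegral_mono
          intro x
          have h1 : ‖h k x‖ₑ ≤ ‖f k x‖ₑ + ‖g x‖ₑ := enorm_sub_le
          calc ‖h k x‖ₑ ^ 2 ≤ (‖f k x‖ₑ + ‖g x‖ₑ) ^ 2 := by gcongr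
            _ ≤ 2 * ‖f k x‖ₑ ^ 2 + 2 * ‖g x‖ₑ ^ 2 := by
              have := ENNReal.rpow_add_le_mul_rpow_add_rpow (‖f k x‖ₑ) (‖g x‖ₑ) (p := 2) one_le_two
              norm_num at this
              rw [← mul_add]; exact this
      _ = 2 * ∫⁻ x, ‖f k x‖ₑ ^ 2 ∂ν + 2 * ∫⁻ x, ‖g x‖ₑ ^ 2 ∂ν := by
          rw [lintegral_add_left' (((hf k).enorm.pow_const 2).const_mul 2),
            lintegral_const_mul'' _ ((hf k).enorm.pow_const 2),
            lintegral_const_mul'' _ (hg.enorm.pow_const 2)]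
      _ ≤ 2 * C + 2 * C := by gcongr; exact hb k
      _ = 4 * C := by ring
  have hψ2 : ∫⁻ x, ‖ψ x‖ₑ ^ 2 ∂ν ≠ ⊤ := by
    have := hψ.2
    rw [eLpNorm_lt_top_iff_lintegral_rpow_enorm_lt_top two_ne_zero ENNReal.ofNat_ne_top] at this
    simp only [ENNReal.toReal_ofNat, ENNReal.rpow_ofNat] at this
    exact this.ne
  rw [ENNReal.tendsto_nhds_zero]
  intro ε hε
  -- choose T
  obtain ⟨T, hT0, hTε⟩ : ∃ T : ℕ, T ≠ 0 ∧ 4 * C / (T : ℝ≥0∞) ≤ ε / 2 := by
    have h1 : Tendsto (fun n : ℕ => 4 * C / (n : ℝ≥0∞)) atTop (𝓝 0) := by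
      have h2 := ENNReal.Tendsto.const_mul ENNReal.tendsto_inv_nat_nhds_zero
        (Or.inr (ENNReal.mul_ne_top ENNReal.ofNat_ne_top hC) : (0 : ℝ≥0∞) ≠ 0 ∨ 4 * C ≠ ⊤)
      simpa [div_eq_mul_inv] using h2
    have h3 := (ENNReal.tendsto_nhds_zero.1 h1) (ε / 2) (ENNReal.half_pos hε.ne')
    obtain ⟨T, hT, hT1⟩ := (h3.and (eventually_ge_atTop 1)).exists
    exact ⟨T, by omega, hT⟩
  have hTne : (T : ℝ≥0∞) ≠ 0 := by exact_mod_cast hT0
  have hTt : (T : ℝ≥0∞) ≠ ⊤ := ENNReal.natCast_ne_top T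
  have hdct : Tendsto (fun k => ∫⁻ x, min (‖h k x‖ₑ) (T * ‖ψ x‖ₑ) * ‖ψ x‖ₑ ∂ν) atTop (𝓝 0) := by
    have h0 : (0 : ℝ≥0∞) = ∫⁻ x, (0 : ℝ≥0∞) ∂ν := by simp
    rw [h0]
    apply tendsto_lintegral_of_dominated_convergence' (fun x => T * ‖ψ x‖ₑ ^ 2)
    · intro k
      exact ((hhm k).enorm.min (hψ.1.enorm.const_mul _)).mul hψ.1.enorm
    · intro k
      filter_upwards with x
      calc min (‖h k x‖ₑ) (T * ‖ψ x‖ₑ) * ‖ψ x‖ₑ ≤ (T * ‖ψ x‖ₑ) * ‖ψ x‖ₑ := by
            gcongr; exact min_le_right _ _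
        _ = T * ‖ψ x‖ₑ ^ 2 := by ring
    · rw [lintegral_const_mul'' _ (hψ.1.enorm.pow_const 2)]
      exact ENNReal.mul_ne_top hTt hψ2
    · filter_upwards [hlim] with x hx
      have h1 : Tendsto (fun k => ‖h k x‖ₑ) atTop (𝓝 0) := by
        have h2 : Tendsto (fun k => h k x) atTop (𝓝 0) := by
          have := hx.sub_const (g x)
          simpa [hh] using this
        have h3 := h2.enorm
        simpa using h3
      have h2 : Tendsto (fun k => min (‖h k x‖ₑ) (T * ‖ψ x‖ₑ)) atTop (𝓝 0) :=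
        tendsto_of_tendsto_of_tendsto_of_le_of_le tendsto_const_nhds h1 (fun k => zero_le)
          (fun k => min_le_left _ _)
      have h3 := ENNReal.Tendsto.mul_const h2
        (Or.inr enorm_ne_top : (0 : ℝ≥0∞) ≠ 0 ∨ ‖ψ x‖ₑ ≠ ⊤)
      simpa using h3
  have h4 := (ENNReal.tendsto_nhds_zero.1 hdct) (ε / 2) (ENNReal.half_pos hε.ne')
  filter_upwards [h4] with k hk
  calc ∫⁻ x, ‖f k x * ψ x - g x * ψ x‖ₑ ∂ν = ∫⁻ x, ‖h k x‖ₑ * ‖ψ x‖ₑ ∂ν := by
        congr 1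
        ext x
        rw [← sub_mul, enorm_mul]
    _ ≤ ∫⁻ x, (min (‖h k x‖ₑ) (T * ‖ψ x‖ₑ) * ‖ψ x‖ₑ + ‖h k x‖ₑ ^ 2 / T) ∂ν :=
        lintegral_mono (fun x => ennreal_split _ _ _ hTne hTt)
    _ = ∫⁻ x, min (‖h k x‖ₑ) (T * ‖ψ x‖ₑ) * ‖ψ x‖ₑ ∂ν + ∫⁻ x, ‖h k x‖ₑ ^ 2 / T ∂ν := by
        apply lintegral_add_left'
        exact ((hhm k).enorm.min (hψ.1.enorm.const_mul _)).mul hψ.1.enorm
    _ ≤ ε / 2 + 4 * C / T := by
        gcongr
        simp only [div_eq_mul_inv]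
        rw [lintegral_mul_const'' _ ((hhm k).enorm.pow_const 2)]
        gcongr
        exact hh2 k
    _ ≤ ε / 2 + ε / 2 := by gcongr
    _ = ε := ENNReal.add_halves ε

end Pool.Agent.Worm
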