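import Mathlib
import Pool.Agent.Worm.Defs

/-!
# Definitions for the a priori estimate
-/

open MeasureTheory Set Metric Filter Topology
open scoped Real ENNReal ComplexConjugate

namespace Pool.Agent.Worm

/-- `Sol` with given Taylor coefficients. -/
structure SolC (η : ℝ → ℝ) (F : ℂ → ℂ) (c : ℕ → ℂ) : Prop where
  hol : DifferentiableOn ℂ F (S η)
  mem : MemLp F 2 (mu η)
  orth : ∀ g : ℂ → ℂ, DifferentiableOn ℂ g (S η) → MemLp g 2 (mu η) →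
    ∫ w, (conj w - F w) * conj (g w) ∂(mu η) = 0
  taylor : ∀ N : ℕ, ∃ C : ℝ, ∀ w ∈ S η,
    ‖F w - ∑ j ∈ Finset.range N, c j * Complex.exp (j * w)‖ ≤ C * Real.exp (N * w.re)

/-- The mass of `F - ∑_{j<N} c_j z^j` in the window `|x - X| ≤ 1` with weight `|z|^{-2r}`. -/
noncomputable def wmass (η : ℝ → ℝ) (F : ℂ → ℂ) (c : ℕ → ℂ) (N : ℕ) (r X : ℝ) : ℝ≥0∞ :=
  ∫⁻ w in {w : ℂ | |w.re - X| ≤ 1},
    ‖F w - ∑ j ∈ Finset.range N, c j * Complex.exp (j * w)‖ₑ ^ 2 *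
      ENNReal.ofReal (Real.exp (-2 * r * w.re)) ∂(mu η)

/-- The uniform a priori bound for all solutions with short caps. -/
def AprioriBound (b : ℝ) (N : ℕ) (r : ℝ) : Prop :=
  ∃ δ₀ > 0, ∃ M : ℝ≥0∞, M ≠ ⊤ ∧ ∀ δ ≤ δ₀, ∀ η F c, Cap b δ η → SolC η F c →
    ∀ X : ℝ, wmass η F c N r X ≤ M

end Pool.Agent.Worm
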