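import Mathlib
import Pool.Agent.H62.LogArea

/-!
# The `L²` mean value inequality
-/

open MeasureTheory Set Filter Topology Metric
open scoped Real ENNReal ComplexConjugate

namespace Pool.Agent.Worm

theorem two_pi_norm_sq_le {g : ℂ → ℂ} {s : ℝ} (hs : 0 < s)
    (hg : DiffContOnCl ℂ g (ball (0 : ℂ) s)) :
    2 * π * ‖g 0‖ ^ 2 ≤ ∫ θ in (0 : ℝ)..2 * π, ‖g (circleMap 0 s θ)‖ ^ 2 := by
  have h1 : DiffContOnCl ℂ (fun z => g z ^ 2) (ball (0 : ℂ) s) := by
    refine ⟨hg.differentiableOn.pow 2, hg.continuousOn.pow 2⟩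
  have h2 := DiffContOnCl.circleAverage (f := fun z => g z ^ 2) (c := 0) (R := s)
    (by rwa [abs_of_pos hs])
  rw [Real.circleAverage] at h2
  have h3 : ‖g 0‖ ^ 2 ≤ (2 * π)⁻¹ * ∫ θ in (0 : ℝ)..2 * π, ‖g (circleMap 0 s θ)‖ ^ 2 := by
    rw [← norm_pow, ← h2, norm_smul, norm_inv, Real.norm_of_nonneg (by positivity)]
    gcongr
    refine (intervalIntegral.norm_integral_le_integral_norm (by positivity)).trans ?_
    apply le_of_eq
    apply intervalIntegral.integral_congr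
    intro θ _
    simp [norm_pow]
  have hpi : 0 < 2 * π := by positivity
  calc 2 * π * ‖g 0‖ ^ 2 ≤ 2 * π * ((2 * π)⁻¹ * ∫ θ in (0 : ℝ)..2 * π,
        ‖g (circleMap 0 s θ)‖ ^ 2) := by gcongr
    _ = _ := by field_simp

theorem lintegral_Ioo_id {ρ : ℝ} (hρ : 0 < ρ) :
    ∫⁻ s in Ioo (0 : ℝ) ρ, ENNReal.ofReal s = ENNReal.ofReal (ρ ^ 2 / 2) := by
  rw [← ofReal_integral_eq_lintegral_ofReal]
  · rw [← integral_Ioc_eq_integral_Ioo, ← intervalIntegral.integral_of_le hρ.le, integral_id]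
    simp
  · exact (continuous_id.integrableOn_Icc).mono_set Ioo_subset_Icc_self
  · filter_upwards [ae_restrict_mem measurableSet_Ioo] with s hs
    exact hs.1.le

theorem enorm_sq_le_zero {g : ℂ → ℂ} {ρ : ℝ} (hρ : 0 < ρ)
    (hg : DifferentiableOn ℂ g (ball (0 : ℂ) ρ)) :
    ENNReal.ofReal (π * ρ ^ 2) * ‖g 0‖ₑ ^ 2 ≤ ∫⁻ z in ball (0 : ℂ) ρ, ‖g z‖ₑ ^ 2 := by
  classical
  have hset : MeasurableSet (ball (0 : ℂ) ρ) := isOpen_ball.measurableSet
  have hmeas : Measurable ((ball (0 : ℂ) ρ).indicator (fun z : ℂ => ‖g z‖ₑ ^ 2)) := by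
    have h1 : ContinuousOn (fun z : ℂ => ‖g z‖ₑ ^ 2) (ball (0 : ℂ) ρ) := by
      have := continuous_enorm.comp_continuousOn hg.continuousOn
      exact (ENNReal.continuous_pow 2).comp_continuousOn this
    rw [← piecewise_eq_indicator]
    exact h1.measurable_piecewise continuousOn_const hset
  rw [← lintegral_indicator hset, Pool.Agent.H62.lintegral_polar hmeas]
  have h1 : ∀ s ∈ Ioo (0 : ℝ) ρ, ENNReal.ofReal s * (ENNReal.ofReal (2 * π) * ‖g 0‖ₑ ^ 2) ≤
      ENNReal.ofReal s * ∫⁻ θ in Ioo (-π) π,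
        (ball (0 : ℂ) ρ).indicator (fun z : ℂ => ‖g z‖ₑ ^ 2) (circleMap 0 s θ) := by
    intro s hs
    have hsub : closedBall (0 : ℂ) s ⊆ ball 0 ρ := closedBall_subset_ball hs.2
    have hd : DiffContOnCl ℂ g (ball (0 : ℂ) s) := by
      apply DifferentiableOn.diffContOnCl
      rw [closure_ball _ hs.1.ne']
      exact hg.mono hsub
    have h2 : ENNReal.ofReal s * ∫⁻ θ in Ioo (-π) π,
        (ball (0 : ℂ) ρ).indicator (fun z : ℂ => ‖g z‖ₑ ^ 2) (circleMap 0 s θ) =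
        ENNReal.ofReal (Pool.Agent.H62.circSq g s) := by
      rw [← Pool.Agent.H62.lintegral_circSq hs.1
        (hg.continuousOn.mono ((sphere_subset_closedBall).trans hsub))]
      congr 1
      apply lintegral_congr
      intro θ
      rw [indicator_of_mem]
      exact hsub (sphere_subset_closedBall (circleMap_mem_sphere (0 : ℂ) hs.1.le θ))
    rw [h2]
    have h3 := two_pi_norm_sq_le hs.1 hd
    rw [Pool.Agent.H62.circSq, ← ofReal_norm, ← ENNReal.ofReal_pow (norm_nonneg _),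
      ← ENNReal.ofReal_mul (by positivity), ← ENNReal.ofReal_mul hs.1.le]
    exact ENNReal.ofReal_le_ofReal (mul_le_mul_of_nonneg_left h3 hs.1.le)
  calc ENNReal.ofReal (π * ρ ^ 2) * ‖g 0‖ₑ ^ 2
      = ∫⁻ s in Ioo (0 : ℝ) ρ, ENNReal.ofReal s * (ENNReal.ofReal (2 * π) * ‖g 0‖ₑ ^ 2) := by
        rw [lintegral_mul_const _ (by fun_prop), lintegral_Ioo_id hρ, ← mul_assoc,
          ← ENNReal.ofReal_mul (by positivity)]
        congr 2
        ring
    _ ≤ ∫⁻ s in Ioo (0 : ℝ) ρ, ENNReal.ofReal s * ∫⁻ θ in Ioo (-π) π,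
        (ball (0 : ℂ) ρ).indicator (fun z : ℂ => ‖g z‖ₑ ^ 2) (circleMap 0 s θ) :=
        setLIntegral_mono' measurableSet_Ioo h1
    _ ≤ _ := lintegral_mono_set (fun s hs => hs.1)

theorem enorm_sq_le {f : ℂ → ℂ} {w₀ : ℂ} {ρ : ℝ} (hρ : 0 < ρ)
    (hf : DifferentiableOn ℂ f (ball w₀ ρ)) :
    ENNReal.ofReal (π * ρ ^ 2) * ‖f w₀‖ₑ ^ 2 ≤ ∫⁻ z in ball w₀ ρ, ‖f z‖ₑ ^ 2 := by
  have h1 : DifferentiableOn ℂ (fun z => f (z + w₀)) (ball (0 : ℂ) ρ) := by
    apply hf.comp (by fun_prop)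
    intro z hz
    simpa [mem_ball, dist_eq_norm] using hz
  have h2 := enorm_sq_le_zero hρ h1
  simp only [zero_add] at h2
  refine h2.trans (le_of_eq ?_)
  rw [← lintegral_indicator isOpen_ball.measurableSet, ← lintegral_indicator isOpen_ball.measurableSet,
    ← lintegral_add_right_eq_self ((ball w₀ ρ).indicator (fun z => ‖f z‖ₑ ^ 2)) w₀]
  apply lintegral_congr
  intro z
  by_cases hz : z ∈ ball (0 : ℂ) ρ
  · rw [indicator_of_mem hz, indicator_of_mem]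
    simpa [mem_ball, dist_eq_norm] using hz
  · rw [indicator_of_notMem hz, indicator_of_notMem]
    simpa [mem_ball, dist_eq_norm] using hz

end Pool.Agent.Worm
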