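import Mathlib
import Pool.Agent.Worm.Defs

/-!
# The measures of the one-dimensional problem
-/

open MeasureTheory Set Filter Topology
open scoped Real ENNReal ComplexConjugate

namespace Pool.Agent.Worm

/-- Push-forward to `ℂ` of the base measure restricted to `A`. -/
noncomputable def muA (A : Set (ℝ × ℂ)) : Measure ℂ :=
  ((expM.prod areaM).restrict A).map Prod.snd

theorem mu_eq (η : ℝ → ℝ) : mu η = muA (tot η) := rfl
theorem mu0_eq (b : ℝ) : mu0 b = muA (tot0 b) := rfl
theorem muI_eq (b : ℝ) : muI b = muA (totI b) := rfl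

instance : SigmaFinite expM := by
  unfold expM
  infer_instance

instance : SigmaFinite areaM := by
  unfold areaM
  infer_instance

/-- The `t`-mass of the fibre over `w`. -/
noncomputable def om (A : Set (ℝ × ℂ)) (w : ℂ) : ℝ≥0∞ := expM {t | (t, w) ∈ A}

theorem measurable_om {A : Set (ℝ × ℂ)} (hA : MeasurableSet A) : Measurable (om A) := by
  exact measurable_measure_prodMk_right hA

theorem muA_eq_withDensity {A : Set (ℝ × ℂ)} (hA : MeasurableSet A) :
    muA A = areaM.withDensity (om A) := by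
  ext s hs
  rw [muA, Measure.map_apply measurable_snd hs, Measure.restrict_apply (measurable_snd hs),
    withDensity_apply _ hs, Measure.prod_apply_symm ((measurable_snd hs).inter hA),
    ← lintegral_indicator hs]
  apply lintegral_congr
  intro w
  by_cases hw : w ∈ s
  · rw [indicator_of_mem hw, om]
    congr 1
    ext t
    simp [hw]
  · rw [indicator_of_notMem hw]
    have : (fun x => (x, w)) ⁻¹' (Prod.snd ⁻¹' s ∩ A) = (∅ : Set ℝ) := by
      ext t
      simp [hw]
    rw [this, measure_empty]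

theorem lintegral_muA {A : Set (ℝ × ℂ)} (hA : MeasurableSet A) {f : ℂ → ℝ≥0∞} (hf : Measurable f) :
    ∫⁻ w, f w ∂(muA A) = ∫⁻ w, om A w * f w ∂areaM := by
  rw [muA_eq_withDensity hA, lintegral_withDensity_eq_lintegral_mul _ (measurable_om hA) hf]
  rfl

theorem lintegral_muA' {A : Set (ℝ × ℂ)} (hA : MeasurableSet A) {f : ℂ → ℝ≥0∞} (hf : Measurable f) :
    ∫⁻ w, f w ∂(muA A) = ∫⁻ t, ∫⁻ w in {w | (t, w) ∈ A}, f w ∂areaM ∂expM := by
  rw [muA, lintegral_map hf measurable_snd, ← lintegral_indicator hA, lintegral_prod]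
  · apply lintegral_congr
    intro t
    have hm : MeasurableSet {w | (t, w) ∈ A} := measurable_prodMk_left hA
    rw [← lintegral_indicator hm]
    apply lintegral_congr
    intro w
    by_cases hw : (t, w) ∈ A
    · rw [indicator_of_mem hw, indicator_of_mem (by exact hw)]
    · rw [indicator_of_notMem hw, indicator_of_notMem (by exact hw)]
  · exact ((hf.comp measurable_snd).indicator hA).aemeasurable

theorem integral_muA {A : Set (ℝ × ℂ)} (hA : MeasurableSet A) {f : ℂ → ℂ}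
    (hf : Integrable f (muA A)) :
    ∫ w, f w ∂(muA A) = ∫ t, ∫ w in {w | (t, w) ∈ A}, f w ∂areaM ∂expM := by
  have h1 : Integrable (fun p : ℝ × ℂ => f p.2) ((expM.prod areaM).restrict A) := by
    rw [muA] at hf
    exact (integrable_map_measure hf.aestronglyMeasurable measurable_snd.aemeasurable).mp hf
  have h2 : Integrable (A.indicator (fun p : ℝ × ℂ => f p.2)) (expM.prod areaM) := by
    rw [integrable_indicator_iff hA]
    exact h1
  rw [muA, integral_map measurable_snd.aemeasurable (by rw [muA] at hf; exact hf.aestronglyMeasurable),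
    ← integral_indicator hA, integral_prod _ h2]
  apply integral_congr_ae
  filter_upwards with t
  have hm : MeasurableSet {w | (t, w) ∈ A} := measurable_prodMk_left hA
  rw [← integral_indicator hm]
  apply integral_congr_ae
  filter_upwards with w
  by_cases hw : (t, w) ∈ A
  · rw [indicator_of_mem hw, indicator_of_mem (by exact hw)]
  · rw [indicator_of_notMem hw, indicator_of_notMem (by exact hw)]

/-! ### The domains -/

theorem isOpen_tot {η : ℝ → ℝ} (hη : Continuous η) : IsOpen (tot η) := by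
  have h1 : IsOpen {p : ℝ × ℂ | |p.2.im - p.1| < π / 2} := isOpen_lt (by fun_prop) continuous_const
  have h2 : IsOpen {p : ℝ × ℂ | Real.exp p.2.re + η p.1 * Real.exp (-p.2.re) <
      2 * Real.cos (p.2.im - p.1)} := isOpen_lt (by fun_prop) (by fun_prop)
  exact h1.inter h2

theorem isOpen_disc (η : ℝ → ℝ) (t : ℝ) : IsOpen (disc η t) := by
  have h1 : IsOpen {w : ℂ | |w.im - t| < π / 2} := isOpen_lt (by fun_prop) continuous_const
  have h2 : IsOpen {w : ℂ | Real.exp w.re + η t * Real.exp (-w.re) < 2 * Real.cos (w.im - t)} :=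
    isOpen_lt (by fun_prop) (by fun_prop)
  exact h1.inter h2

theorem isOpen_S (η : ℝ → ℝ) : IsOpen (S η) := by
  have : S η = ⋃ t, disc η t := by
    ext w; simp [S]
  rw [this]
  exact isOpen_iUnion (fun t => isOpen_disc η t)

theorem isOpen_tot0 (b : ℝ) : IsOpen (tot0 b) := by
  have h1 : IsOpen {p : ℝ × ℂ | |p.1| < b} := isOpen_lt (by fun_prop) continuous_const
  exact h1.inter (isOpen_tot (η := fun _ => 0) continuous_const)

theorem isOpen_S0 (b : ℝ) : IsOpen (S0 b) := by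
  have : S0 b = ⋃ t : {t : ℝ // |t| < b}, disc (fun _ => 0) t := by
    ext w; simp [S0]
  rw [this]
  exact isOpen_iUnion (fun t => isOpen_disc _ _)

theorem isOpen_totI (b : ℝ) : IsOpen (totI b) := by
  have h1 : IsOpen {p : ℝ × ℂ | |p.1| < b} := isOpen_lt (by fun_prop) continuous_const
  have h2 : IsOpen {p : ℝ × ℂ | |p.2.im - p.1| < π / 2} := isOpen_lt (by fun_prop) continuous_const
  exact h1.inter h2

theorem re_lt_of_mem_disc {η : ℝ → ℝ} {t : ℝ} {w : ℂ} (h0 : 0 ≤ η t) (h : w ∈ disc η t) :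
    w.re < Real.log 2 := by
  obtain ⟨-, h2⟩ := h
  have h3 : Real.exp w.re < 2 := by
    have h4 : 0 ≤ η t * Real.exp (-w.re) := mul_nonneg h0 (Real.exp_pos _).le
    have h5 := Real.cos_le_one (w.im - t)
    linarith
  rwa [Real.lt_log_iff_exp_lt (by norm_num)]

theorem eta_lt_one_of_mem_disc {η : ℝ → ℝ} {t : ℝ} {w : ℂ} (h : w ∈ disc η t) : η t < 1 := by
  obtain ⟨-, h2⟩ := h
  by_contra hcon
  push Not at hcon
  have h5 := Real.cos_le_one (w.im - t)
  have h6 : Real.exp w.re * Real.exp (-w.re) = 1 := by rw [← Real.exp_add]; simp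
  have h7 := Real.exp_pos w.re
  have h8 := Real.exp_pos (-w.re)
  nlinarith [sq_nonneg (Real.exp w.re - Real.exp (-w.re)), mul_le_mul_of_nonneg_right hcon h8.le,
    sq_nonneg (Real.exp w.re + Real.exp (-w.re) - 2)]

theorem Cap.abs_lt {b δ : ℝ} {η : ℝ → ℝ} (h : Cap b δ η) {t : ℝ} {w : ℂ} (hw : w ∈ disc η t) :
    |t| < b + δ := by
  by_contra hcon
  push Not at hcon
  exact absurd (h.big t hcon) (not_le.mpr (eta_lt_one_of_mem_disc hw))

/-- The region containing everything. -/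
def Q (b : ℝ) : Set ℂ := {w | w.re < Real.log 2 ∧ |w.im| < b + 1 + π / 2}

theorem isOpen_Q (b : ℝ) : IsOpen (Q b) := by
  have h1 : IsOpen {w : ℂ | w.re < Real.log 2} := isOpen_lt (by fun_prop) continuous_const
  have h2 : IsOpen {w : ℂ | |w.im| < b + 1 + π / 2} := isOpen_lt (by fun_prop) continuous_const
  exact h1.inter h2

theorem Cap.mem_Q {b δ : ℝ} {η : ℝ → ℝ} (h : Cap b δ η) (hδ : δ ≤ 1) {t : ℝ} {w : ℂ}
    (hw : w ∈ disc η t) : w ∈ Q b := by
  refine ⟨re_lt_of_mem_disc (h.nonneg t) hw, ?_⟩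
  have h1 := h.abs_lt hw
  have h2 := hw.1
  have h3 : |w.im| ≤ |w.im - t| + |t| := by
    have := abs_add_le (w.im - t) t
    simpa using this
  linarith

theorem mem_Q_of_S0 {b : ℝ} {t : ℝ} (ht : |t| < b) {w : ℂ}
    (hw : w ∈ disc (fun _ => 0) t) : w ∈ Q b := by
  refine ⟨re_lt_of_mem_disc le_rfl hw, ?_⟩
  have h2 := hw.1
  have h3 : |w.im| ≤ |w.im - t| + |t| := by
    have := abs_add_le (w.im - t) t
    simpa using this
  linarith

theorem disc_eq_of_eta_zero {η : ℝ → ℝ} {t : ℝ} (h : η t = 0) : disc η t = disc (fun _ => 0) t := by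
  ext w
  simp [disc, h]

theorem Cap.disc_eq {b δ : ℝ} {η : ℝ → ℝ} (h : Cap b δ η) {t : ℝ} (ht : |t| ≤ b) :
    disc η t = disc (fun _ => 0) t := disc_eq_of_eta_zero (h.zero t ht)

theorem Cap.tot0_subset {b δ : ℝ} {η : ℝ → ℝ} (h : Cap b δ η) : tot0 b ⊆ tot η := by
  rintro ⟨t, w⟩ ⟨h1, h2⟩
  change w ∈ disc η t
  rw [h.disc_eq (le_of_lt h1)]
  exact h2

theorem Cap.S0_subset {b δ : ℝ} {η : ℝ → ℝ} (h : Cap b δ η) : S0 b ⊆ S η := by
  rintro w ⟨t, h1, h2⟩
  exact ⟨t, by rw [h.disc_eq h1.le]; exact h2⟩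

/-- expM of a bounded set. -/
theorem expM_bdd_lt_top (T : ℝ) : expM {t : ℝ | |t| ≤ T} < ⊤ := by
  have h1 : {t : ℝ | |t| ≤ T} = Icc (-T) T := by
    ext t; simp [abs_le]
  rw [h1, expM, withDensity_apply _ measurableSet_Icc]
  have h2 : IntegrableOn (fun t : ℝ => Real.exp t) (Icc (-T) T) volume :=
    Real.continuous_exp.continuousOn.integrableOn_Icc
  exact h2.lintegral_lt_top

theorem om_le {b δ : ℝ} {η : ℝ → ℝ} (h : Cap b δ η) (hδ : δ ≤ 1) (w : ℂ) :
    om (tot η) w ≤ (Q b).indicator (fun _ => expM {t : ℝ | |t| ≤ b + 1}) w := by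
  by_cases hw : w ∈ Q b
  · rw [indicator_of_mem hw]
    apply measure_mono
    intro t ht
    have := h.abs_lt (t := t) (w := w) ht
    change |t| ≤ b + 1
    linarith
  · rw [indicator_of_notMem hw]
    have : {t | (t, w) ∈ tot η} = ∅ := by
      ext t
      simp only [mem_ofPred_eq, mem_empty_iff_false, iff_false]
      intro ht
      exact hw (h.mem_Q hδ ht)
    rw [om, this, measure_empty]

theorem om_mono {A B : Set (ℝ × ℂ)} (h : A ⊆ B) (w : ℂ) : om A w ≤ om B w :=
  measure_mono (fun _ ht => h ht)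

theorem muA_mono {A B : Set (ℝ × ℂ)} (h : A ⊆ B) : muA A ≤ muA B :=
  Measure.map_mono (Measure.restrict_mono h le_rfl) measurable_snd

theorem lintegral_mu_le {b δ : ℝ} {η : ℝ → ℝ} (h : Cap b δ η) (hδ : δ ≤ 1) {f : ℂ → ℝ≥0∞}
    (hf : Measurable f) :
    ∫⁻ w, f w ∂(mu η) ≤ expM {t : ℝ | |t| ≤ b + 1} * ∫⁻ w in Q b, f w ∂areaM := by
  rw [mu_eq, lintegral_muA (isOpen_tot h.cont).measurableSet hf,
    ← lintegral_indicator (isOpen_Q b).measurableSet, ← lintegral_const_mul _
      (hf.indicator (isOpen_Q b).measurableSet)]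
  apply lintegral_mono
  intro w
  have h1 := om_le h hδ w
  change om (tot η) w * f w ≤ expM {t | |t| ≤ b + 1} * (Q b).indicator f w
  by_cases hw : w ∈ Q b
  · rw [indicator_of_mem hw] at h1 ⊢
    gcongr
  · rw [indicator_of_notMem hw] at h1 ⊢
    have : om (tot η) w = 0 := by simpa using h1
    simp [this]

/-- The measure `mu η` is carried by `S η`. -/
theorem mu_compl_S (η : ℝ → ℝ) : mu η (S η)ᶜ = 0 := by
  rw [mu_eq, muA, Measure.map_apply measurable_snd (isOpen_S η).measurableSet.compl]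
  have h1 : MeasurableSet (Prod.snd ⁻¹' (S η)ᶜ : Set (ℝ × ℂ)) :=
    measurable_snd (isOpen_S η).measurableSet.compl
  rw [Measure.restrict_apply h1]
  have : (Prod.snd ⁻¹' (S η)ᶜ : Set (ℝ × ℂ)) ∩ tot η = ∅ := by
    ext p
    simp only [mem_inter_iff, mem_preimage, mem_compl_iff, mem_empty_iff_false, iff_false, not_and]
    intro h2 h3
    exact h2 ⟨p.1, h3⟩
  rw [this, measure_empty]

theorem ae_mem_S (η : ℝ → ℝ) : ∀ᵐ w ∂(mu η), w ∈ S η := by
  rw [ae_iff]
  exact mu_compl_S η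

theorem mu0_compl_S0 (b : ℝ) : mu0 b (S0 b)ᶜ = 0 := by
  rw [mu0_eq, muA, Measure.map_apply measurable_snd (isOpen_S0 b).measurableSet.compl]
  have h1 : MeasurableSet (Prod.snd ⁻¹' (S0 b)ᶜ : Set (ℝ × ℂ)) :=
    measurable_snd (isOpen_S0 b).measurableSet.compl
  rw [Measure.restrict_apply h1]
  have : (Prod.snd ⁻¹' (S0 b)ᶜ : Set (ℝ × ℂ)) ∩ tot0 b = ∅ := by
    ext p
    simp only [mem_inter_iff, mem_preimage, mem_compl_iff, mem_empty_iff_false, iff_false, not_and]
    intro h2 h3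
    exact h2 ⟨p.1, h3.1, h3.2⟩
  rw [this, measure_empty]

theorem ae_mem_S0 (b : ℝ) : ∀ᵐ w ∂(mu0 b), w ∈ S0 b := by
  rw [ae_iff]
  exact mu0_compl_S0 b

end Pool.Agent.Worm
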