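import Mathlib
import Pool.Agent.Worm.Meas
import Pool.Agent.Worm.Mean
import Pool.Agent.Worm.DefsA

/-!
# Lower bounds for the density and pointwise bounds
-/

open MeasureTheory Set Filter Topology Metric
open scoped Real ENNReal ComplexConjugate

namespace Pool.Agent.Worm

theorem expM_Ioo_ge {l u b : ℝ} (h : -b ≤ l) :
    ENNReal.ofReal (Real.exp (-b) * (u - l)) ≤ expM (Ioo l u) := by
  rw [expM, withDensity_apply _ measurableSet_Ioo, ENNReal.ofReal_mul (Real.exp_pos _).le]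
  calc ENNReal.ofReal (Real.exp (-b)) * ENNReal.ofReal (u - l)
      = ∫⁻ _ in Ioo l u, ENNReal.ofReal (Real.exp (-b)) := by
        rw [setLIntegral_const, Real.volume_Ioo]
    _ ≤ _ := by
        apply setLIntegral_mono' measurableSet_Ioo
        intro t ht
        apply ENNReal.ofReal_le_ofReal
        apply Real.exp_le_exp.mpr
        linarith [ht.1]

/-- the good region of parameter `κ` -/
def Good (b κ : ℝ) : Set ℂ := {w | |w.im| ≤ b + π / 2 - κ ∧ Real.exp w.re < 2 * Real.sin (κ / 2)}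

theorem measurableSet_Good (b κ : ℝ) : MeasurableSet (Good b κ) := by
  have h1 : IsClosed {w : ℂ | |w.im| ≤ b + π / 2 - κ} := isClosed_le (by fun_prop) continuous_const
  have h2 : IsOpen {w : ℂ | Real.exp w.re < 2 * Real.sin (κ / 2)} :=
    isOpen_lt (by fun_prop) continuous_const
  exact h1.measurableSet.inter h2.measurableSet

theorem mem_disc_zero_of {κ : ℝ} (hκ : 0 < κ) (hκ2 : κ ≤ π / 2) {w : ℂ} {t : ℝ}
    (hx : Real.exp w.re < 2 * Real.sin (κ / 2)) (ht : |w.im - t| < π / 2 - κ / 2) :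
    w ∈ disc (fun _ => 0) t := by
  refine ⟨by linarith, ?_⟩
  have h1 : Real.cos (π / 2 - κ / 2) ≤ Real.cos (w.im - t) := by
    rw [← Real.cos_abs (w.im - t)]
    apply Real.cos_le_cos_of_nonneg_of_le_pi (abs_nonneg _) _ ht.le
    linarith [Real.pi_pos]
  rw [Real.cos_pi_div_two_sub] at h1
  simp only [zero_mul, add_zero]
  linarith

theorem om_ge {b κ : ℝ} (hκ : 0 < κ) (hκ2 : κ ≤ π / 2) (hκb : κ ≤ b) {w : ℂ}
    (hw : w ∈ Good b κ) :
    ENNReal.ofReal (Real.exp (-b) * (κ / 2)) ≤ om (tot0 b) w := by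
  obtain ⟨hy, hx⟩ := hw
  rw [abs_le] at hy
  have hpi := Real.pi_gt_three
  set l : ℝ := max (-b) (w.im - π / 2 + κ / 2) with hl
  set u : ℝ := min b (w.im + π / 2 - κ / 2) with hu
  have hlen : κ / 2 ≤ u - l := by
    rw [hl, hu]
    rcases min_cases b (w.im + π / 2 - κ / 2) with h1 | h1 <;>
      rcases max_cases (-b) (w.im - π / 2 + κ / 2) with h2 | h2 <;>
      rw [h1.1, h2.1] <;> linarith [hy.1, hy.2]
  have h1 : ENNReal.ofReal (Real.exp (-b) * (κ / 2)) ≤
      ENNReal.ofReal (Real.exp (-b) * (u - l)) := by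
    apply ENNReal.ofReal_le_ofReal
    exact mul_le_mul_of_nonneg_left hlen (Real.exp_pos _).le
  refine h1.trans ((expM_Ioo_ge (le_max_left _ _)).trans (measure_mono ?_))
  intro t ht
  have h3 : -b < t := lt_of_le_of_lt (le_max_left _ _) ht.1
  have h4 : w.im - π / 2 + κ / 2 < t := lt_of_le_of_lt (le_max_right _ _) ht.1
  have h5 : t < b := lt_of_lt_of_le ht.2 (min_le_left _ _)
  have h6 : t < w.im + π / 2 - κ / 2 := lt_of_lt_of_le ht.2 (min_le_right _ _)
  refine ⟨abs_lt.mpr ⟨h3, h5⟩, ?_⟩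
  apply mem_disc_zero_of hκ hκ2 hx
  rw [abs_lt]
  constructor <;> linarith

theorem Good_subset_S0 {b κ : ℝ} (hκ : 0 < κ) (hκ2 : κ ≤ π / 2) (hκb : κ ≤ b) :
    Good b κ ⊆ S0 b := by
  intro w hw
  by_contra hcon
  have h1 := om_ge hκ hκ2 hκb hw
  have h2 : om (tot0 b) w = 0 := by
    rw [om]
    have : {t | (t, w) ∈ tot0 b} = ∅ := by
      ext t
      simp only [mem_ofPred_eq, mem_empty_iff_false, iff_false]
      intro ht
      exact hcon ⟨t, ht.1, ht.2⟩
    rw [this, measure_empty]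
  rw [h2] at h1
  have h3 : (0 : ℝ) < Real.exp (-b) * (κ / 2) := by positivity
  have h4 := ENNReal.ofReal_pos.mpr h3
  exact absurd h1 (not_le.mpr h4)

theorem setLIntegral_areaM_le {b κ : ℝ} (hκ : 0 < κ) (hκ2 : κ ≤ π / 2) (hκb : κ ≤ b)
    {B : Set ℂ} (hB : MeasurableSet B) (hBG : B ⊆ Good b κ) {f : ℂ → ℝ≥0∞} (hf : Measurable f) :
    ENNReal.ofReal (Real.exp (-b) * (κ / 2)) * ∫⁻ w in B, f w ∂areaM ≤
      ∫⁻ w in B, f w ∂(mu0 b) := by
  rw [← lintegral_indicator hB, ← lintegral_indicator hB, mu0_eq,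
    lintegral_muA (isOpen_tot0 b).measurableSet (hf.indicator hB),
    ← lintegral_const_mul _ (hf.indicator hB)]
  apply lintegral_mono
  intro w
  change ENNReal.ofReal (Real.exp (-b) * (κ / 2)) * B.indicator f w ≤
    om (tot0 b) w * B.indicator f w
  by_cases hw : w ∈ B
  · gcongr
    exact om_ge hκ hκ2 hκb (hBG hw)
  · rw [indicator_of_notMem hw]
    simp

theorem setLIntegral_volume_le {b κ : ℝ} (hκ : 0 < κ) (hκ2 : κ ≤ π / 2) (hκb : κ ≤ b)
    {B : Set ℂ} (hB : MeasurableSet B) (hBG : B ⊆ Good b κ) {f : ℂ → ℝ≥0∞} (hf : Measurable f) :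
    ENNReal.ofReal (Real.exp (-b) * (κ / 2)) * ∫⁻ w in B, f w ≤
      ∫⁻ w in B, f w * ENNReal.ofReal (Real.exp (-2 * w.re)) ∂(mu0 b) := by
  have h1 : Measurable (fun w : ℂ => ENNReal.ofReal (Real.exp (-2 * w.re))) := by fun_prop
  refine le_trans (le_of_eq ?_) (setLIntegral_areaM_le hκ hκ2 hκb hB hBG (hf.mul h1))
  congr 1
  have h2 := lintegral_withDensity_eq_lintegral_mul (volume.restrict B)
    (f := fun w : ℂ => ENNReal.ofReal (Real.exp (2 * w.re))) (by fun_prop)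
    (g := fun w : ℂ => f w * ENNReal.ofReal (Real.exp (-2 * w.re))) (hf.mul h1)
  rw [areaM, restrict_withDensity hB, h2]
  apply lintegral_congr
  intro w
  simp only [Pi.mul_apply]
  rw [mul_comm (f w), ← mul_assoc, ← ENNReal.ofReal_mul (Real.exp_pos _).le, ← Real.exp_add]
  simp

/-- Pointwise bound by the weighted mass in a window. -/
theorem point_bound {b κ : ℝ} (hκ : 0 < κ) (hκ2 : κ ≤ π / 2) (hκb : κ ≤ b) (r : ℝ) :
    ∃ C : ℝ, 0 < C ∧ ∀ (δ : ℝ) (η : ℝ → ℝ) (f : ℂ → ℂ) (w₀ : ℂ), Cap b δ η →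
      DifferentiableOn ℂ f (S η) → |w₀.im| ≤ b + π / 2 - κ →
      Real.exp (w₀.re + κ / 2) < 2 * Real.sin (κ / 4) →
      ‖f w₀‖ₑ ^ 2 ≤ ENNReal.ofReal (C * Real.exp (2 * (r - 1) * w₀.re)) *
        ∫⁻ w in {w : ℂ | |w.re - w₀.re| ≤ 1},
          ‖f w‖ₑ ^ 2 * ENNReal.ofReal (Real.exp (-2 * r * w.re)) ∂(mu η) := by
  classical
  set c₁ : ℝ := π * (κ / 2) ^ 2 with hc₁
  set c₂ : ℝ := Real.exp (-b) * (κ / 2 / 2) with hc₂
  have hc₁0 : 0 < c₁ := by positivity
  have hc₂0 : 0 < c₂ := by positivity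
  refine ⟨Real.exp (|r - 1| * κ) / (c₁ * c₂), by positivity, ?_⟩
  intro δ η f w₀ hcap hf hy hx
  have hpi4 := Real.pi_le_four
  -- the ball
  have hBG : ball w₀ (κ / 2) ⊆ Good b (κ / 2) := by
    intro w hw
    have h1 : ‖w - w₀‖ < κ / 2 := by simpa [dist_eq_norm] using hw
    have h2 : |w.im - w₀.im| < κ / 2 := lt_of_le_of_lt (by simpa using Complex.abs_im_le_norm (w - w₀)) h1
    have h3 : |w.re - w₀.re| < κ / 2 := lt_of_le_of_lt (by simpa using Complex.abs_re_le_norm (w - w₀)) h1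
    refine ⟨?_, ?_⟩
    · have h4 : |w.im| ≤ |w.im - w₀.im| + |w₀.im| := by
        have := abs_add_le (w.im - w₀.im) w₀.im
        simpa using this
      linarith
    · have h5 : w.re < w₀.re + κ / 2 := by linarith [(abs_lt.mp h3).2]
      have h6 : Real.exp w.re < Real.exp (w₀.re + κ / 2) := Real.exp_lt_exp.mpr h5
      rw [show κ / 2 / 2 = κ / 4 by ring]
      linarith
  have hS : ball w₀ (κ / 2) ⊆ S η :=
    (hBG.trans (Good_subset_S0 (by linarith) (by linarith) (by linarith))).trans hcap.S0_subset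
  have h1 := enorm_sq_le (f := f) (w₀ := w₀) (ρ := κ / 2) (by linarith) (hf.mono hS)
  -- measurable version of f
  set g : ℂ → ℝ≥0∞ := (S η).indicator (fun w => ‖f w‖ₑ ^ 2) with hg
  have hgm : Measurable g := by
    have h1 : ContinuousOn (fun z : ℂ => ‖f z‖ₑ ^ 2) (S η) := by
      have := continuous_enorm.comp_continuousOn hf.continuousOn
      exact (ENNReal.continuous_pow 2).comp_continuousOn this
    rw [hg, ← piecewise_eq_indicator]
    exact h1.measurable_piecewise continuousOn_const (isOpen_S η).measurableSet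
  have hbm : MeasurableSet (ball w₀ (κ / 2)) := isOpen_ball.measurableSet
  have h2 : ∫⁻ z in ball w₀ (κ / 2), ‖f z‖ₑ ^ 2 = ∫⁻ z in ball w₀ (κ / 2), g z := by
    apply setLIntegral_congr_fun hbm
    intro z hz
    simp only [hg]
    rw [indicator_of_mem (hS hz)]
  have h3 := setLIntegral_volume_le (b := b) (κ := κ / 2) (by linarith) (by linarith) (by linarith)
    hbm hBG hgm
  have h4 : ∫⁻ w in ball w₀ (κ / 2), g w * ENNReal.ofReal (Real.exp (-2 * w.re)) ∂(mu0 b) ≤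
      ∫⁻ w in ball w₀ (κ / 2), g w * ENNReal.ofReal (Real.exp (-2 * w.re)) ∂(mu η) := by
    apply lintegral_mono'
    · apply Measure.restrict_mono le_rfl
      rw [mu0_eq, mu_eq]
      exact muA_mono hcap.tot0_subset
    · exact le_rfl
  have h5 : ∫⁻ w in ball w₀ (κ / 2), g w * ENNReal.ofReal (Real.exp (-2 * w.re)) ∂(mu η) ≤
      ENNReal.ofReal (Real.exp (2 * (r - 1) * w₀.re + |r - 1| * κ)) *
      ∫⁻ w in {w : ℂ | |w.re - w₀.re| ≤ 1},
          ‖f w‖ₑ ^ 2 * ENNReal.ofReal (Real.exp (-2 * r * w.re)) ∂(mu η) := by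
    have h6 : ∫⁻ w in ball w₀ (κ / 2), g w * ENNReal.ofReal (Real.exp (-2 * w.re)) ∂(mu η) ≤
        ∫⁻ w in ball w₀ (κ / 2),
          ENNReal.ofReal (Real.exp (2 * (r - 1) * w₀.re + |r - 1| * κ)) *
          (‖f w‖ₑ ^ 2 * ENNReal.ofReal (Real.exp (-2 * r * w.re))) ∂(mu η) := by
      apply setLIntegral_mono' hbm
      intro w hw
      have h7 : ‖w - w₀‖ < κ / 2 := by simpa [dist_eq_norm] using hw
      have h8 : |w.re - w₀.re| < κ / 2 :=
        lt_of_le_of_lt (by simpa using Complex.abs_re_le_norm (w - w₀)) h7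
      simp only [hg]
      rw [indicator_of_mem (hS hw), mul_left_comm, ← ENNReal.ofReal_mul (Real.exp_pos _).le,
        ← Real.exp_add]
      gcongr
      have h9 : (r - 1) * (w.re - w₀.re) ≤ |r - 1| * (κ / 2) := by
        calc (r - 1) * (w.re - w₀.re) ≤ |(r - 1) * (w.re - w₀.re)| := le_abs_self _
          _ = |r - 1| * |w.re - w₀.re| := abs_mul _ _
          _ ≤ _ := by gcongr
      nlinarith
    refine h6.trans ?_
    rw [lintegral_const_mul' _ _ ENNReal.ofReal_ne_top]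
    gcongr
    intro w hw
    have h7 : ‖w - w₀‖ < κ / 2 := by simpa [dist_eq_norm] using hw
    have h8 : |w.re - w₀.re| < κ / 2 :=
      lt_of_le_of_lt (by simpa using Complex.abs_re_le_norm (w - w₀)) h7
    change |w.re - w₀.re| ≤ 1
    linarith
  rw [h2] at h1
  have hfin : ENNReal.ofReal c₁ ≠ ⊤ := ENNReal.ofReal_ne_top
  set I := ∫⁻ w in {w : ℂ | |w.re - w₀.re| ≤ 1},
          ‖f w‖ₑ ^ 2 * ENNReal.ofReal (Real.exp (-2 * r * w.re)) ∂(mu η) with hI
  have h10 : ENNReal.ofReal (c₁ * c₂) * ‖f w₀‖ₑ ^ 2 ≤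
      ENNReal.ofReal (Real.exp (2 * (r - 1) * w₀.re + |r - 1| * κ)) * I := by
    calc ENNReal.ofReal (c₁ * c₂) * ‖f w₀‖ₑ ^ 2
        = ENNReal.ofReal c₂ * (ENNReal.ofReal c₁ * ‖f w₀‖ₑ ^ 2) := by
          rw [mul_comm c₁, ENNReal.ofReal_mul hc₂0.le, mul_assoc]
      _ ≤ ENNReal.ofReal c₂ * ∫⁻ z in ball w₀ (κ / 2), g z := by gcongr
      _ ≤ _ := h3.trans (h4.trans h5)
  have h11 : ENNReal.ofReal (Real.exp (|r - 1| * κ) / (c₁ * c₂) * Real.exp (2 * (r - 1) * w₀.re)) =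
      (ENNReal.ofReal (c₁ * c₂))⁻¹ *
        ENNReal.ofReal (Real.exp (2 * (r - 1) * w₀.re + |r - 1| * κ)) := by
    rw [← ENNReal.ofReal_inv_of_pos (by positivity), ← ENNReal.ofReal_mul (by positivity)]
    congr 1
    rw [Real.exp_add]
    field_simp
  rw [h11, mul_assoc]
  rw [← ENNReal.mul_le_iff_le_inv] 
  · exact h10
  · exact (ENNReal.ofReal_pos.mpr (by positivity)).ne'
  · exact ENNReal.ofReal_ne_top

end Pool.Agent.Worm
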