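import Mathlib
import Pool.Agent.Worm.Point

/-!
# Integrability on the region `Q`
-/

open MeasureTheory Set Filter Topology Metric
open scoped Real ENNReal ComplexConjugate

namespace Pool.Agent.Worm

theorem lintegral_re_im {f g : ℝ → ℝ≥0∞} (hf : Measurable f) (hg : Measurable g) :
    ∫⁻ w : ℂ, f w.re * g w.im = (∫⁻ x, f x) * ∫⁻ y, g y := by
  have h := Complex.volume_preserving_equiv_real_prod.lintegral_comp
    (f := fun p : ℝ × ℝ => f p.1 * g p.2) (by fun_prop)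
  simp only [Complex.measurableEquivRealProd_apply] at h
  rw [h, Measure.volume_eq_prod, lintegral_prod_mul hf.aemeasurable hg.aemeasurable]

theorem lintegral_areaM {f : ℂ → ℝ≥0∞} (hf : Measurable f) {B : Set ℂ} (hB : MeasurableSet B) :
    ∫⁻ w in B, f w ∂areaM = ∫⁻ w in B, f w * ENNReal.ofReal (Real.exp (2 * w.re)) := by
  have h2 := lintegral_withDensity_eq_lintegral_mul (volume.restrict B)
    (f := fun w : ℂ => ENNReal.ofReal (Real.exp (2 * w.re))) (by fun_prop)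
    (g := fun w : ℂ => f w) hf
  rw [areaM, restrict_withDensity hB, h2]
  apply lintegral_congr
  intro w
  simp only [Pi.mul_apply]
  rw [mul_comm]

/-- exponential weights on `Q` -/
theorem lintegral_Q_exp_lt_top (b : ℝ) {a : ℝ} (ha : -2 < a) :
    ∫⁻ w in Q b, ENNReal.ofReal (Real.exp (a * w.re)) ∂areaM < ⊤ := by
  rw [lintegral_areaM (by fun_prop) (isOpen_Q b).measurableSet]
  have h1 : ∫⁻ w in Q b, ENNReal.ofReal (Real.exp (a * w.re)) *
      ENNReal.ofReal (Real.exp (2 * w.re)) =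
      ∫⁻ w : ℂ, (Iio (Real.log 2)).indicator
        (fun x => ENNReal.ofReal (Real.exp ((a + 2) * x))) w.re *
        (Ioo (-(b + 1 + π / 2)) (b + 1 + π / 2)).indicator (fun _ => 1) w.im := by
    rw [← lintegral_indicator (isOpen_Q b).measurableSet]
    apply lintegral_congr
    intro w
    by_cases h1 : w.re < Real.log 2
    · by_cases h2 : |w.im| < b + 1 + π / 2
      · rw [indicator_of_mem (show w ∈ Q b from ⟨h1, h2⟩),
          indicator_of_mem (show w.re ∈ Iio (Real.log 2) from h1),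
          indicator_of_mem (show w.im ∈ Ioo _ _ from abs_lt.mp h2), mul_one,
          ← ENNReal.ofReal_mul (Real.exp_pos _).le, ← Real.exp_add]
        congr 2
        ring
      · rw [indicator_of_notMem (show w ∉ Q b from fun h => h2 h.2),
          indicator_of_notMem (show w.im ∉ Ioo _ _ from fun h => h2 (abs_lt.mpr h)), mul_zero]
    · rw [indicator_of_notMem (show w ∉ Q b from fun h => h1 h.1),
          indicator_of_notMem (show w.re ∉ Iio _ from h1), zero_mul]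
  rw [h1, lintegral_re_im ((by fun_prop : Measurable fun x : ℝ =>
    ENNReal.ofReal (Real.exp ((a + 2) * x))).indicator measurableSet_Iio)
    (measurable_const.indicator measurableSet_Ioo)]
  apply ENNReal.mul_lt_top
  · rw [lintegral_indicator measurableSet_Iio]
    have h2 : IntegrableOn (fun x : ℝ => Real.exp ((a + 2) * x)) (Iio (Real.log 2)) volume :=
      (integrableOn_exp_mul_Iic (by linarith) _).mono_set Iio_subset_Iic_self
    exact h2.lintegral_lt_top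
  · rw [lintegral_indicator measurableSet_Ioo, setLIntegral_one, Real.volume_Ioo]
    exact ENNReal.ofReal_lt_top

theorem mu_exp_le (b : ℝ) {a : ℝ} (ha : -2 < a) : ∃ K : ℝ≥0∞, K ≠ ⊤ ∧
    ∀ (δ : ℝ) (η : ℝ → ℝ), δ ≤ 1 → Cap b δ η →
      ∫⁻ w, ENNReal.ofReal (Real.exp (a * w.re)) ∂(mu η) ≤ K := by
  refine ⟨expM {t : ℝ | |t| ≤ b + 1} *
    ∫⁻ w in Q b, ENNReal.ofReal (Real.exp (a * w.re)) ∂areaM, ?_, ?_⟩
  · exact ENNReal.mul_ne_top (expM_bdd_lt_top _).ne (lintegral_Q_exp_lt_top b ha).ne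
  · intro δ η hδ h
    exact lintegral_mu_le h hδ (by fun_prop)

theorem ae_mem_Q {b δ : ℝ} {η : ℝ → ℝ} (h : Cap b δ η) (hδ : δ ≤ 1) :
    ∀ᵐ w ∂(mu η), w ∈ Q b := by
  filter_upwards [ae_mem_S η] with w hw
  obtain ⟨t, ht⟩ := hw
  exact h.mem_Q hδ ht

theorem isFiniteMeasure_mu {b δ : ℝ} {η : ℝ → ℝ} (h : Cap b δ η) (hδ : δ ≤ 1) :
    IsFiniteMeasure (mu η) := by
  obtain ⟨K, hK, h1⟩ := mu_exp_le b (a := 0) (by norm_num)
  have h2 := h1 δ η hδ h
  simp only [zero_mul, Real.exp_zero, ENNReal.ofReal_one, lintegral_const, one_mul] at h2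
  exact ⟨lt_of_le_of_lt h2 hK.lt_top⟩

/-- a bound `|f| ≤ C e^{a x}` on `Q` with `a > -1` gives `f ∈ L²`. -/
theorem memLp_of_bound {b δ : ℝ} {η : ℝ → ℝ} (h : Cap b δ η) (hδ : δ ≤ 1) {f : ℂ → ℂ}
    (hf : AEStronglyMeasurable f (mu η)) {C a : ℝ} (ha : -1 < a)
    (hb : ∀ w ∈ Q b, ‖f w‖ ≤ C * Real.exp (a * w.re)) : MemLp f 2 (mu η) := by
  refine ⟨hf, ?_⟩
  rw [eLpNorm_lt_top_iff_lintegral_rpow_enorm_lt_top (by norm_num) (by norm_num)]
  obtain ⟨K, hK, h1⟩ := mu_exp_le b (a := 2 * a) (by linarith)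
  have h2 := h1 δ η hδ h
  simp only [ENNReal.toReal_ofNat]
  calc ∫⁻ w, ‖f w‖ₑ ^ (2 : ℝ) ∂(mu η)
      ≤ ∫⁻ w, ENNReal.ofReal (|C| ^ 2) * ENNReal.ofReal (Real.exp (2 * a * w.re)) ∂(mu η) := by
        apply lintegral_mono_ae
        filter_upwards [ae_mem_Q h hδ] with w hw
        have h3 := hb w hw
        rw [← ofReal_norm, ENNReal.ofReal_rpow_of_nonneg (norm_nonneg _) (by norm_num),
          ← ENNReal.ofReal_mul (by positivity)]
        apply ENNReal.ofReal_le_ofReal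
        rw [Real.rpow_two]
        have h4 : ‖f w‖ ≤ |C| * Real.exp (a * w.re) :=
          h3.trans (mul_le_mul_of_nonneg_right (le_abs_self C) (Real.exp_pos _).le)
        calc ‖f w‖ ^ 2 ≤ (|C| * Real.exp (a * w.re)) ^ 2 := by gcongr
          _ = |C| ^ 2 * Real.exp (2 * a * w.re) := by
            rw [mul_pow, ← Real.exp_nat_mul]
            congr 2
            push_cast; ring
    _ = ENNReal.ofReal (|C| ^ 2) * ∫⁻ w, ENNReal.ofReal (Real.exp (2 * a * w.re)) ∂(mu η) := by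
        rw [lintegral_const_mul _ (by fun_prop)]
    _ < ⊤ := ENNReal.mul_lt_top ENNReal.ofReal_lt_top (lt_of_le_of_lt h2 hK.lt_top)

theorem norm_le_on_Q {b : ℝ} (hb : 0 ≤ b) {w : ℂ} (hw : w ∈ Q b) :
    ‖w‖ ≤ 2 * (b + 8) * Real.exp (-(1 / 2) * w.re) := by
  obtain ⟨h1, h2⟩ := hw
  have hlog2 : Real.log 2 < 0.6931471808 := Real.log_two_lt_d9
  have hpi := Real.pi_lt_d2
  have h3 : ‖w‖ ≤ |w.re| + |w.im| := Complex.norm_le_abs_re_add_abs_im w
  have h5 : (1 : ℝ) / 2 ≤ Real.exp (-(1 / 2) * w.re) := by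
    have h6 : Real.exp (-(1 / 2) * w.re) ≥ -(1 / 2) * w.re + 1 := by
      linarith [Real.add_one_le_exp (-(1 / 2) * w.re)]
    nlinarith
  rcases le_total 0 w.re with h4 | h4
  · rw [abs_of_nonneg h4] at h3
    nlinarith
  · rw [abs_of_nonpos h4] at h3
    have h6 : -(1 / 2) * w.re + 1 ≤ Real.exp (-(1 / 2) * w.re) := Real.add_one_le_exp _
    nlinarith

theorem memLp_conj {b δ : ℝ} (hb : 0 ≤ b) {η : ℝ → ℝ} (h : Cap b δ η) (hδ : δ ≤ 1) :
    MemLp (fun w : ℂ => conj w) 2 (mu η) := by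
  apply memLp_of_bound (C := 2 * (b + 8)) (a := -(1 / 2)) h hδ (by
    exact Complex.continuous_conj.aestronglyMeasurable) (by norm_num)
  intro w hw
  rw [RCLike.norm_conj]
  exact norm_le_on_Q hb hw

theorem memLp_exp {b δ : ℝ} {η : ℝ → ℝ} (h : Cap b δ η) (hδ : δ ≤ 1) (j : ℕ) :
    MemLp (fun w : ℂ => Complex.exp (j * w)) 2 (mu η) := by
  apply memLp_of_bound (C := 1) (a := j) h hδ (by
    apply Continuous.aestronglyMeasurable; fun_prop) (by
      have : (0 : ℝ) ≤ j := Nat.cast_nonneg j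
      linarith)
  intro w _
  rw [Complex.norm_exp]
  simp

/-- uniform bound for `‖w‖²`. -/
theorem conj_sq_le {b : ℝ} (hb : 0 ≤ b) : ∃ K : ℝ≥0∞, K ≠ ⊤ ∧ ∀ (δ : ℝ) (η : ℝ → ℝ), δ ≤ 1 →
    Cap b δ η → ∫⁻ w, ‖w‖ₑ ^ 2 ∂(mu η) ≤ K := by
  obtain ⟨K, hK, h1⟩ := mu_exp_le b (a := -1) (by norm_num)
  refine ⟨ENNReal.ofReal ((2 * (b + 8)) ^ 2) * K, ENNReal.mul_ne_top ENNReal.ofReal_ne_top hK, ?_⟩
  intro δ η hδ h
  calc ∫⁻ w, ‖w‖ₑ ^ 2 ∂(mu η)
      ≤ ∫⁻ w, ENNReal.ofReal ((2 * (b + 8)) ^ 2) * ENNReal.ofReal (Real.exp (-1 * w.re)) ∂(mu η) := by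
        apply lintegral_mono_ae
        filter_upwards [ae_mem_Q h hδ] with w hw
        rw [← ofReal_norm, ← ENNReal.ofReal_pow (norm_nonneg _),
          ← ENNReal.ofReal_mul (by positivity)]
        apply ENNReal.ofReal_le_ofReal
        calc ‖w‖ ^ 2 ≤ (2 * (b + 8) * Real.exp (-(1 / 2) * w.re)) ^ 2 := by
              gcongr
              exact norm_le_on_Q hb hw
          _ = (2 * (b + 8)) ^ 2 * Real.exp (-1 * w.re) := by
            rw [mul_pow, ← Real.exp_nat_mul]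
            congr 2
            push_cast; ring
    _ = ENNReal.ofReal ((2 * (b + 8)) ^ 2) * ∫⁻ w, ENNReal.ofReal (Real.exp (-1 * w.re)) ∂(mu η) := by
        rw [lintegral_const_mul _ (by fun_prop)]
    _ ≤ _ := by gcongr; exact h1 δ η hδ h

/-- `∫ |F|² ≤ ∫ |w|²`. -/
theorem sol_sq_le {b : ℝ} (hb : 0 ≤ b) : ∃ K : ℝ≥0∞, K ≠ ⊤ ∧ ∀ (δ : ℝ) (η : ℝ → ℝ) (F : ℂ → ℂ)
    (c : ℕ → ℂ), δ ≤ 1 → Cap b δ η → SolC η F c → ∫⁻ w, ‖F w‖ₑ ^ 2 ∂(mu η) ≤ K := by
  obtain ⟨K, hK, h1⟩ := conj_sq_le hb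
  refine ⟨K, hK, ?_⟩
  intro δ η F c hδ h hS
  refine le_trans ?_ (h1 δ η hδ h)
  have hF := hS.mem
  have hw := memLp_conj hb h hδ
  have horth := hS.orth F hS.hol hF
  have hwF : Integrable (fun w : ℂ => conj w * conj (F w)) (mu η) := by
    have := hw.integrable_mul (hF.star)
    exact this
  have hFF : Integrable (fun w : ℂ => F w * conj (F w)) (mu η) := by
    have := hF.integrable_mul (hF.star)
    exact this
  have h2 : ∫ w, F w * conj (F w) ∂(mu η) = ∫ w, conj w * conj (F w) ∂(mu η) := by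
    have h3 : ∫ w, (conj w - F w) * conj (F w) ∂(mu η) =
        ∫ w, conj w * conj (F w) ∂(mu η) - ∫ w, F w * conj (F w) ∂(mu η) := by
      rw [← integral_sub hwF hFF]
      apply integral_congr_ae
      filter_upwards with w
      ring
    rw [h3, sub_eq_zero] at horth
    exact horth.symm
  have hF2 : Integrable (fun w : ℂ => ‖F w‖ ^ 2) (mu η) := hF.norm.integrable_sq
  have hw2 : Integrable (fun w : ℂ => ‖w‖ ^ 2) (mu η) := by
    have := hw.norm.integrable_sq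
    simpa using this
  have h4 : ∫ w, ‖F w‖ ^ 2 ∂(mu η) ≤ ∫ w, ‖w‖ ^ 2 ∂(mu η) := by
    have h5 : (∫ w, F w * conj (F w) ∂(mu η)) = ((∫ w, ‖F w‖ ^ 2 ∂(mu η) : ℝ) : ℂ) := by
      rw [← integral_complex_ofReal]
      apply integral_congr_ae
      filter_upwards with w
      rw [Complex.mul_conj, Complex.normSq_eq_norm_sq]
    have h6 : ∫ w, ‖F w‖ ^ 2 ∂(mu η) = ‖∫ w, conj w * conj (F w) ∂(mu η)‖ := by
      rw [← h2, h5, Complex.norm_real, Real.norm_of_nonneg]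
      exact integral_nonneg (fun w => by positivity)
    have h7 : ‖∫ w, conj w * conj (F w) ∂(mu η)‖ ≤
        ∫ w, (‖w‖ ^ 2 + ‖F w‖ ^ 2) / 2 ∂(mu η) := by
      apply norm_integral_le_of_norm_le ((hw2.add hF2).div_const 2)
      filter_upwards with w
      rw [norm_mul, RCLike.norm_conj, RCLike.norm_conj]
      simp only [Pi.add_apply]
      nlinarith [sq_nonneg (‖w‖ - ‖F w‖)]
    have h8 : ∫ w, (‖w‖ ^ 2 + ‖F w‖ ^ 2) / 2 ∂(mu η) =
        ((∫ w, ‖w‖ ^ 2 ∂(mu η)) + ∫ w, ‖F w‖ ^ 2 ∂(mu η)) / 2 := by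
      rw [integral_div, integral_add hw2 hF2]
    linarith
  have h9 : ∀ g : ℂ → ℂ, Integrable (fun w => ‖g w‖ ^ 2) (mu η) →
      ∫⁻ w, ‖g w‖ₑ ^ 2 ∂(mu η) = ENNReal.ofReal (∫ w, ‖g w‖ ^ 2 ∂(mu η)) := by
    intro g hg
    rw [ofReal_integral_eq_lintegral_ofReal hg (by filter_upwards with w; positivity)]
    apply lintegral_congr
    intro w
    rw [← ofReal_norm, ← ENNReal.ofReal_pow (norm_nonneg _)]
  have h10 := h9 F hF2
  have h11 := h9 (fun w => w) hw2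
  rw [h10, h11]
  exact ENNReal.ofReal_le_ofReal h4

end Pool.Agent.Worm
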