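import Mathlib
import Pool.Agent.Worm.QInt
import Pool.Agent.WormS.Vander

/-!
# Bounds for the Taylor coefficients
-/

open MeasureTheory Set Filter Topology Metric
open scoped Real ENNReal ComplexConjugate

namespace Pool.Agent.Worm

/-- `∑_{j<N} c_j e^{jw}` -/
noncomputable def poly (c : ℕ → ℂ) (N : ℕ) (w : ℂ) : ℂ :=
  ∑ j ∈ Finset.range N, c j * Complex.exp (j * w)

theorem differentiable_poly (c : ℕ → ℂ) (N : ℕ) : Differentiable ℂ (poly c N) := by
  unfold poly
  fun_prop

theorem wmass_eq (η : ℝ → ℝ) (F : ℂ → ℂ) (c : ℕ → ℂ) (N : ℕ) (r X : ℝ) :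
    wmass η F c N r X = ∫⁻ w in {w : ℂ | |w.re - X| ≤ 1},
    ‖F w - poly c N w‖ₑ ^ 2 * ENNReal.ofReal (Real.exp (-2 * r * w.re)) ∂(mu η) := rfl

theorem integral_exp_int {n : ℤ} (hn : n ≠ 0) :
    ∫ y in (-π)..π, Complex.exp ((n : ℂ) * Complex.I * y) = 0 := by
  have h1 : (n : ℂ) * Complex.I ≠ 0 := mul_ne_zero (by exact_mod_cast hn) Complex.I_ne_zero
  rw [integral_exp_mul_complex h1]
  have h2 : Complex.exp ((n : ℂ) * Complex.I * ((π : ℝ) : ℂ)) =
      Complex.exp ((n : ℂ) * Complex.I * ((-π : ℝ) : ℂ)) := by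
    rw [Complex.exp_eq_exp_iff_exists_int]
    refine ⟨n, ?_⟩
    push_cast
    ring
  rw [h2, sub_self, zero_div]

theorem integral_poly (c : ℕ → ℂ) {N j : ℕ} (hj : j < N) (X : ℝ) :
    ∫ y in (-π)..π, poly c N (X + y * Complex.I) * Complex.exp (-(j * (X + y * Complex.I))) =
      2 * π * c j := by
  have h1 : ∀ y : ℝ, poly c N (X + y * Complex.I) * Complex.exp (-(j * (X + y * Complex.I))) =
      ∑ k ∈ Finset.range N, c k * Complex.exp (((k : ℂ) - j) * X) *
        Complex.exp ((((k : ℤ) - (j : ℤ) : ℤ) : ℂ) * Complex.I * y) := by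
    intro y
    rw [poly, Finset.sum_mul]
    apply Finset.sum_congr rfl
    intro k _
    rw [mul_assoc, ← Complex.exp_add, mul_assoc, ← Complex.exp_add]
    congr 2
    push_cast
    ring
  simp_rw [h1]
  rw [intervalIntegral.integral_finsetSum]
  · rw [Finset.sum_eq_single j]
    · rw [intervalIntegral.integral_const_mul]
      simp
      ring
    · intro k _ hk
      rw [intervalIntegral.integral_const_mul, integral_exp_int, mul_zero]
      omega
    · intro h
      exact absurd (Finset.mem_range.mpr hj) h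
  · intro k _
    apply Continuous.intervalIntegrable
    fun_prop

theorem coef_bound {b : ℝ} (hb : 0 < b) (N : ℕ) (r : ℝ) :
    ∃ C : ℝ, 0 < C ∧ ∃ X₀ : ℝ, ∀ (δ : ℝ) (η : ℝ → ℝ) (F : ℂ → ℂ) (c : ℕ → ℂ) (K M : ℝ),
      0 ≤ K → 0 ≤ M → δ ≤ 1 → Cap b δ η → SolC η F c →
      ∫⁻ w, ‖F w‖ₑ ^ 2 ∂(mu η) ≤ ENNReal.ofReal K →
      (∀ X, wmass η F c N r X ≤ ENNReal.ofReal M) →
      ∀ X ≤ X₀, ∀ j < N, ‖c j‖ ≤ C * (Real.exp (-(j + 1) * X) * √K +
        Real.exp ((r - 1 - j) * X) * √M) := by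
  have hpi := Real.pi_pos
  set κ : ℝ := min (π / 2) b with hκdef
  have hκ : 0 < κ := lt_min (by positivity) hb
  have hκ2 : κ ≤ π / 2 := min_le_left _ _
  have hκb : κ ≤ b := min_le_right _ _
  set y₀ : ℝ := b + π / 2 - κ with hy₀
  have hy0 : 0 < y₀ := by rw [hy₀]; linarith
  obtain ⟨C₀, hC₀, hcoef⟩ := SB.trig_coef hy0 N
  obtain ⟨C₁, hC₁, h1⟩ := point_bound (b := b) (κ := κ) hκ hκ2 hκb 0
  obtain ⟨C₂, hC₂, h2⟩ := point_bound (b := b) (κ := κ) hκ hκ2 hκb r
  have hsin : 0 < 2 * Real.sin (κ / 4) := by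
    have := Real.sin_pos_of_pos_of_lt_pi (x := κ / 4) (by positivity) (by linarith)
    linarith
  set C : ℝ := √C₁ + √C₂ with hC
  have hC0 : 0 < C := by positivity
  refine ⟨C₀ * C, by positivity, Real.log (2 * Real.sin (κ / 4)) - κ / 2 - 1, ?_⟩
  intro δ η F c K M hK hM hδ hcap hS hFK hwM X hX j hj
  have hX' : Real.exp (X + κ / 2) < 2 * Real.sin (κ / 4) := by
    rw [← Real.lt_log_iff_exp_lt hsin]
    linarith
  have hdG : DifferentiableOn ℂ (fun w => F w - poly c N w) (S η) :=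
    hS.hol.sub (differentiable_poly c N).differentiableOn
  have hF : ∀ y ∈ Icc (-y₀) y₀, ‖F (X + y * Complex.I)‖ ≤ √C₁ * (Real.exp (-X) * √K) := by
    intro y hy
    have h3 := h1 δ η F (X + y * Complex.I) hcap hS.hol
      (by simp; rw [abs_le]; constructor <;> linarith [hy.1, hy.2]) (by simpa using hX')
    have h4 : ∫⁻ w in {w : ℂ | |w.re - (X + y * Complex.I : ℂ).re| ≤ 1},
          ‖F w‖ₑ ^ 2 * ENNReal.ofReal (Real.exp (-2 * 0 * w.re)) ∂(mu η) ≤ ENNReal.ofReal K := by
      refine le_trans ?_ hFK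
      simp only [mul_zero, zero_mul, Real.exp_zero, ENNReal.ofReal_one, mul_one]
      exact setLIntegral_le_lintegral _ _
    have h5 : ‖F (X + y * Complex.I)‖ₑ ^ 2 ≤ ENNReal.ofReal
        (C₁ * Real.exp (2 * (0 - 1) * X) * K) := by
      rw [ENNReal.ofReal_mul (by positivity)]
      refine h3.trans ?_
      have h6 : (X + y * Complex.I : ℂ).re = X := by simp
      rw [h6] at h4 ⊢
      gcongr
    rw [← ofReal_norm, ← ENNReal.ofReal_pow (norm_nonneg _),
      ENNReal.ofReal_le_ofReal_iff (by positivity)] at h5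
    have h6 := Real.sqrt_le_sqrt h5
    rw [Real.sqrt_sq (norm_nonneg _)] at h6
    refine h6.trans (le_of_eq ?_)
    rw [Real.sqrt_mul (by positivity), Real.sqrt_mul (by positivity), mul_assoc]
    congr 2
    rw [Real.sqrt_eq_iff_mul_self_eq (by positivity) (by positivity), ← Real.exp_add]
    congr 1
    ring
  have hG : ∀ y ∈ Icc (-y₀) y₀, ‖F (X + y * Complex.I) - poly c N (X + y * Complex.I)‖ ≤
      √C₂ * (Real.exp ((r - 1) * X) * √M) := by
    intro y hy
    have h3 := h2 δ η (fun w => F w - poly c N w) (X + y * Complex.I) hcap hdG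
      (by simp; rw [abs_le]; constructor <;> linarith [hy.1, hy.2]) (by simpa using hX')
    have h6 : (X + y * Complex.I : ℂ).re = X := by simp
    rw [h6] at h3
    have h5 : ‖F (X + y * Complex.I) - poly c N (X + y * Complex.I)‖ₑ ^ 2 ≤ ENNReal.ofReal
        (C₂ * Real.exp (2 * (r - 1) * X) * M) := by
      rw [ENNReal.ofReal_mul (by positivity)]
      refine h3.trans ?_
      gcongr
      exact hwM X
    rw [← ofReal_norm, ← ENNReal.ofReal_pow (norm_nonneg _),
      ENNReal.ofReal_le_ofReal_iff (by positivity)] at h5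
    have h6 := Real.sqrt_le_sqrt h5
    rw [Real.sqrt_sq (norm_nonneg _)] at h6
    refine h6.trans (le_of_eq ?_)
    rw [Real.sqrt_mul (by positivity), Real.sqrt_mul (by positivity), mul_assoc]
    congr 2
    rw [Real.sqrt_eq_iff_mul_self_eq (by positivity) (by positivity), ← Real.exp_add]
    congr 1
    ring
  have e1 : 0 ≤ Real.exp (-X) * √K := by positivity
  have e2 : 0 ≤ Real.exp ((r - 1) * X) * √M := by positivity
  have e3 : √C₁ ≤ C := by rw [hC]; linarith [Real.sqrt_nonneg C₂]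
  have e4 : √C₂ ≤ C := by rw [hC]; linarith [Real.sqrt_nonneg C₁]
  have h10 : ∀ y ∈ Icc (-y₀) y₀, ‖poly c N (X + y * Complex.I)‖ ≤
      C * (Real.exp (-X) * √K) + C * (Real.exp ((r - 1) * X) * √M) := by
    intro y hy
    have : poly c N (X + y * Complex.I) = F (X + y * Complex.I) -
      (F (X + y * Complex.I) - poly c N (X + y * Complex.I)) := by ring
    rw [this]
    refine (norm_sub_le _ _).trans (add_le_add ((hF y hy).trans ?_) ((hG y hy).trans ?_))
    · gcongr
    · gcongr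
  have h11 := hcoef (fun k => c k * Complex.exp (k * X))
    (C * (Real.exp (-X) * √K) + C * (Real.exp ((r - 1) * X) * √M)) (by
      intro y hy
      refine le_trans (le_of_eq ?_) (h10 y hy)
      congr 1
      unfold poly
      apply Finset.sum_congr rfl
      intro k _
      rw [mul_assoc, ← Complex.exp_add]
      congr 2
      ring) j hj
  have h12 : ‖c j * Complex.exp (j * X)‖ = ‖c j‖ * Real.exp (j * X) := by
    rw [norm_mul, Complex.norm_exp]
    congr 2
    simp
  rw [h12] at h11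
  have h13 : ‖c j‖ = ‖c j‖ * Real.exp (j * X) * Real.exp (-(j * X)) := by
    rw [mul_assoc, ← Real.exp_add]
    simp
  rw [h13]
  refine (mul_le_mul_of_nonneg_right h11 (Real.exp_pos _).le).trans (le_of_eq ?_)
  have h14 : Real.exp (-(j + 1) * X) = Real.exp (-X) * Real.exp (-(j * X)) := by
    rw [← Real.exp_add]; congr 1; ring
  have h15 : Real.exp ((r - 1 - j) * X) = Real.exp ((r - 1) * X) * Real.exp (-(j * X)) := by
    rw [← Real.exp_add]; congr 1; ring
  rw [h14, h15]
  ring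

end Pool.Agent.Worm
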