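import Pool.Agent.Worm.DiscBase

/-!
# Explicit formulas for holomorphic functions on the slices of the worm
-/

open MeasureTheory Set Filter Topology Metric
open scoped Real ENNReal ComplexConjugate ContDiff

namespace Pool.Agent.Worm

/-- the inverse of `w ↦ e^{w - it}` -/
noncomputable def lg (t : ℝ) (ζ : ℂ) : ℂ := Complex.log ζ + t * Complex.I

theorem re_pos_of_mem_ball {ζ : ℂ} (h : ζ ∈ ball (1 : ℂ) 1) : 0 < ζ.re := by
  rw [mem_ball, dist_eq_norm] at h
  have := (Complex.abs_re_le_norm (ζ - 1)).trans_lt h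
  rw [abs_lt] at this
  simp at this
  linarith [this.1]

theorem mem_slitPlane_of_mem_ball {ζ : ℂ} (h : ζ ∈ ball (1 : ℂ) 1) : ζ ∈ Complex.slitPlane :=
  Or.inl (re_pos_of_mem_ball h)

theorem ne_zero_of_mem_ball {ζ : ℂ} (h : ζ ∈ ball (1 : ℂ) 1) : ζ ≠ 0 :=
  Complex.slitPlane_ne_zero (mem_slitPlane_of_mem_ball h)

theorem hasDerivAt_lg (t : ℝ) {ζ : ℂ} (h : ζ ∈ ball (1 : ℂ) 1) :
    HasDerivAt (lg t) ζ⁻¹ ζ :=
  (Complex.hasDerivAt_log (mem_slitPlane_of_mem_ball h)).add_const _

theorem exp_lg (t : ℝ) {ζ : ℂ} (h : ζ ≠ 0) :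
    Complex.exp (lg t ζ) = ζ * Complex.exp (t * Complex.I) := by
  rw [lg, Complex.exp_add, Complex.exp_log h]

theorem lg_re (t : ℝ) (ζ : ℂ) : (lg t ζ).re = Real.log ‖ζ‖ := by
  simp [lg, Complex.log_re]

theorem lg_im (t : ℝ) (ζ : ℂ) : (lg t ζ).im = Complex.arg ζ + t := by
  simp [lg, Complex.log_im]

theorem mem_disc_iff (η : ℝ → ℝ) (t : ℝ) (w : ℂ) : w ∈ disc η t ↔
    |w.im - t| < π / 2 ∧ Complex.exp (w - t * Complex.I) ∈ ball (1 : ℂ) (√(1 - η t)) := by
  have h1 : ‖Complex.exp (w - t * Complex.I) - 1‖ ^ 2 =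
      Real.exp w.re * (Real.exp w.re - 2 * Real.cos (w.im - t)) + 1 := by
    rw [← Complex.normSq_eq_norm_sq, Complex.normSq_apply]
    simp [Complex.exp_re, Complex.exp_im]
    have := Real.sin_sq_add_cos_sq (w.im - t)
    linear_combination (Real.exp w.re) ^ 2 * this
  rw [mem_ball, dist_eq_norm, Real.lt_sqrt (norm_nonneg _), h1]
  unfold disc
  simp only [mem_ofPred_eq]
  have h2 : Real.exp w.re + η t * Real.exp (-w.re) < 2 * Real.cos (w.im - t) ↔
      Real.exp w.re * (Real.exp w.re - 2 * Real.cos (w.im - t)) + 1 < 1 - η t := by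
    have h3 := Real.exp_pos w.re
    have h4 : Real.exp w.re * Real.exp (-w.re) = 1 := by
      rw [← Real.exp_add]; simp
    constructor
    · intro h
      have := mul_lt_mul_of_pos_left h h3
      nlinarith
    · intro h
      by_contra hcon
      rw [not_lt] at hcon
      have := mul_le_mul_of_nonneg_left hcon h3.le
      nlinarith
  rw [h2]

theorem sqrt_le_one' {η : ℝ → ℝ} {t : ℝ} (h0 : 0 ≤ η t) : √(1 - η t) ≤ 1 :=
  Real.sqrt_le_one.2 (by linarith)

theorem lg_exp {t : ℝ} {w : ℂ} (h : |w.im - t| < π / 2) :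
    lg t (Complex.exp (w - t * Complex.I)) = w := by
  rw [abs_lt] at h
  have hpi := Real.pi_pos
  rw [lg, Complex.log_exp]
  · ring
  · simp; linarith
  · simp; linarith

theorem abs_lg_im_sub {t : ℝ} {ζ : ℂ} (h : ζ ∈ ball (1 : ℂ) 1) : |(lg t ζ).im - t| < π / 2 := by
  rw [lg_im, add_sub_cancel_right, Complex.abs_arg_lt_pi_div_two_iff]
  exact Or.inl (re_pos_of_mem_ball h)

theorem exp_lg_sub {t : ℝ} {ζ : ℂ} (h : ζ ≠ 0) : Complex.exp (lg t ζ - t * Complex.I) = ζ := by
  rw [lg, add_sub_cancel_right, Complex.exp_log h]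

theorem disc_eq_image {η : ℝ → ℝ} {t : ℝ} (h0 : 0 ≤ η t) :
    disc η t = lg t '' ball (1 : ℂ) (√(1 - η t)) := by
  ext w
  rw [mem_disc_iff]
  constructor
  · rintro ⟨h1, h2⟩
    exact ⟨_, h2, lg_exp h1⟩
  · rintro ⟨ζ, hζ, rfl⟩
    have hζ1 : ζ ∈ ball (1 : ℂ) 1 := ball_subset_ball (sqrt_le_one' h0) hζ
    refine ⟨abs_lg_im_sub hζ1, ?_⟩
    rwa [exp_lg_sub (ne_zero_of_mem_ball hζ1)]

theorem injOn_lg (t : ℝ) : InjOn (lg t) (ball (1 : ℂ) 1) := by
  intro a ha b hb hab
  rw [← exp_lg_sub (t := t) (ne_zero_of_mem_ball ha), hab, exp_lg_sub (ne_zero_of_mem_ball hb)]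

theorem hasFDerivWithinAt_lg (t : ℝ) {s : Set ℂ} (hsub : s ⊆ ball (1 : ℂ) 1) :
    ∀ ζ ∈ s, HasFDerivWithinAt (lg t)
      ((ContinuousLinearMap.smulRight (1 : ℂ →L[ℂ] ℂ) ζ⁻¹).restrictScalars ℝ : ℂ →L[ℝ] ℂ) s ζ := by
  intro ζ hζ
  exact ((hasDerivAt_lg t (hsub hζ)).hasFDerivAt.restrictScalars ℝ).hasFDerivWithinAt

theorem measurableSet_lg_image (t : ℝ) {s : Set ℂ} (hs : MeasurableSet s)
    (hsub : s ⊆ ball (1 : ℂ) 1) : MeasurableSet (lg t '' s) :=
  measurable_image_of_fderivWithin hs (hasFDerivWithinAt_lg t hsub) ((injOn_lg t).mono hsub)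

theorem areaM_density_measurable :
    Measurable (fun w : ℂ => ENNReal.ofReal (Real.exp (2 * w.re))) := by fun_prop

theorem jac_lg (t : ℝ) {ζ : ℂ} (h : ζ ∈ ball (1 : ℂ) 1) (x : ℂ) :
    |((ContinuousLinearMap.smulRight (1 : ℂ →L[ℂ] ℂ) ζ⁻¹).restrictScalars ℝ : ℂ →L[ℝ] ℂ).det| •
      ((ENNReal.ofReal (Real.exp (2 * (lg t ζ).re))).toReal • x) = x := by
  have hne := ne_zero_of_mem_ball h
  have hpos : 0 < ‖ζ‖ := norm_pos_iff.2 hne
  rw [Pool.Agent.H62.abs_det_mul_complex, ENNReal.toReal_ofReal (Real.exp_pos _).le, lg_re,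
    smul_smul, two_mul, Real.exp_add, Real.exp_log hpos, norm_inv]
  have : (‖ζ‖⁻¹ ^ 2 * (‖ζ‖ * ‖ζ‖)) = 1 := by
    field_simp
  rw [this, one_smul]

theorem integral_lg (t : ℝ) {s : Set ℂ} (hs : MeasurableSet s) (hsub : s ⊆ ball (1 : ℂ) 1)
    (f : ℂ → ℂ) : ∫ w in lg t '' s, f w ∂areaM = ∫ ζ in s, f (lg t ζ) := by
  unfold areaM
  rw [setIntegral_withDensity_eq_setIntegral_toReal_smul areaM_density_measurable
    (Eventually.of_forall fun _ => ENNReal.ofReal_lt_top) _ (measurableSet_lg_image t hs hsub),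
    integral_image_eq_integral_abs_det_fderiv_smul volume hs (hasFDerivWithinAt_lg t hsub)
      ((injOn_lg t).mono hsub)]
  refine setIntegral_congr_fun hs ?_
  intro ζ hζ
  exact jac_lg t (hsub hζ) _

theorem integrableOn_lg (t : ℝ) {s : Set ℂ} (hs : MeasurableSet s) (hsub : s ⊆ ball (1 : ℂ) 1)
    (f : ℂ → ℂ) : IntegrableOn f (lg t '' s) areaM ↔ IntegrableOn (fun ζ => f (lg t ζ)) s := by
  have hm := measurableSet_lg_image t hs hsub
  unfold areaM IntegrableOn
  rw [restrict_withDensity hm, integrable_withDensity_iff_integrable_smul'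
    areaM_density_measurable (Eventually.of_forall fun _ => ENNReal.ofReal_lt_top)]
  have := integrableOn_image_iff_integrableOn_abs_det_fderiv_smul volume hs
    (hasFDerivWithinAt_lg t hsub) ((injOn_lg t).mono hsub)
    (fun w => (ENNReal.ofReal (Real.exp (2 * w.re))).toReal • f w)
  unfold IntegrableOn at this
  rw [this]
  refine integrable_congr ?_
  filter_upwards [ae_restrict_mem hs] with ζ hζ
  exact jac_lg t (hsub hζ) _

theorem integral_lg_real (t : ℝ) {s : Set ℂ} (hs : MeasurableSet s) (hsub : s ⊆ ball (1 : ℂ) 1)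
    (f : ℂ → ℝ) : ∫ w in lg t '' s, f w ∂areaM = ∫ ζ in s, f (lg t ζ) := by
  have := integral_lg t hs hsub (fun w => (f w : ℂ))
  rw [integral_complex_ofReal, integral_complex_ofReal] at this
  exact_mod_cast this

theorem differentiableOn_comp_lg {η : ℝ → ℝ} {t : ℝ} (h0 : 0 ≤ η t) {g : ℂ → ℂ}
    (hg : DifferentiableOn ℂ g (disc η t)) :
    DifferentiableOn ℂ (fun ζ => g (lg t ζ)) (ball (1 : ℂ) (√(1 - η t))) := by
  refine hg.comp ?_ ?_
  · intro ζ hζ
    exact (hasDerivAt_lg t (ball_subset_ball (sqrt_le_one' h0) hζ)).differentiableAt.differentiableWithinAt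
  · intro ζ hζ
    rw [disc_eq_image h0]
    exact mem_image_of_mem _ hζ

/-- concentric discs: the moments over the full disc are multiples of the moments over the
half disc -/
theorem ball_half {g : ℂ → ℂ} {a : ℂ} {R : ℝ} (hR : 0 ≤ R) (hg : DifferentiableOn ℂ g (ball a R))
    (hi : IntegrableOn g (ball a R)) (k : ℕ) :
    ∫ z in ball a R, (z - a) ^ k * conj (g z) =
      4 ^ (k + 1) * ∫ z in ball a (R / 2), (z - a) ^ k * conj (g z) := by
  obtain ⟨c, hc⟩ := circle_coeff hg k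
  rw [ball_moment hg hi k hc hR le_rfl, ball_moment hg hi k hc (by positivity) (by linarith)]
  have : ((R / 2 : ℝ) : ℂ) ^ (2 * k + 2) = (R : ℂ) ^ (2 * k + 2) / 4 ^ (k + 1) := by
    have e : (4 : ℂ) ^ (k + 1) = 2 ^ (2 * k + 2) := by
      rw [show 2 * k + 2 = 2 * (k + 1) by ring, pow_mul]
      norm_num
    rw [e]
    push_cast
    rw [div_pow]
  rw [this]
  have h4 : (4 : ℂ) ^ (k + 1) ≠ 0 := pow_ne_zero _ (by norm_num)
  field_simp

theorem half_sub {η : ℝ → ℝ} {t : ℝ} (h0 : 0 ≤ η t) :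
    lg t '' ball (1 : ℂ) (√(1 - η t) / 2) ⊆ disc η t ∩ {w | -1 ≤ w.re} := by
  rintro w ⟨ζ, hζ, rfl⟩
  have hs1 := sqrt_le_one' h0
  have hs0 := Real.sqrt_nonneg (1 - η t)
  refine ⟨?_, ?_⟩
  · rw [disc_eq_image h0]
    exact mem_image_of_mem _ (ball_subset_ball (by linarith) hζ)
  · simp only [mem_ofPred_eq]
    rw [lg_re]
    have h1 : 1 / 2 ≤ ‖ζ‖ := by
      rw [mem_ball, dist_eq_norm] at hζ
      have h2 : ‖(1 : ℂ)‖ ≤ ‖ζ‖ + ‖ζ - 1‖ := by
        calc ‖(1 : ℂ)‖ = ‖ζ - (ζ - 1)‖ := by congr 1; ring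
          _ ≤ ‖ζ‖ + ‖ζ - 1‖ := norm_sub_le _ _
      rw [norm_one] at h2
      linarith
    have h3 : Real.log (1 / 2) ≤ Real.log ‖ζ‖ := Real.log_le_log (by norm_num) h1
    have h4 : -1 ≤ Real.log (1 / 2) := by
      rw [Real.le_log_iff_exp_le (by norm_num)]
      have := Real.exp_neg_one_lt_half
      linarith
    linarith

theorem half_integral_le {η : ℝ → ℝ} {t : ℝ} (h0 : 0 ≤ η t) {g : ℂ → ℂ}
    (hi : IntegrableOn g (disc η t) areaM) :
    ∫ ζ in ball (1 : ℂ) (√(1 - η t) / 2), ‖g (lg t ζ)‖ ≤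
      ∫ w in disc η t ∩ {w | -1 ≤ w.re}, ‖g w‖ ∂areaM := by
  have hs1 := sqrt_le_one' h0
  have hs0 := Real.sqrt_nonneg (1 - η t)
  have hsub : ball (1 : ℂ) (√(1 - η t) / 2) ⊆ ball (1 : ℂ) 1 := ball_subset_ball (by linarith)
  rw [← integral_lg_real t measurableSet_ball hsub (fun w => ‖g w‖)]
  have hin : IntegrableOn (fun w => ‖g w‖) (disc η t) areaM := hi.norm
  refine setIntegral_mono_set (hin.mono_set inter_subset_left)
    (Eventually.of_forall fun w => norm_nonneg _) (LE.le.eventuallyLE (half_sub h0))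

theorem disc_exp (j : ℕ) : ∃ C : ℝ, 0 ≤ C ∧ ∀ (η : ℝ → ℝ) (t : ℝ) (g : ℂ → ℂ), 0 ≤ η t →
    DifferentiableOn ℂ g (disc η t) → IntegrableOn g (disc η t) areaM →
    ‖∫ w in disc η t, Complex.exp (j * w) * conj (g w) ∂areaM‖ ≤
      C * ∫ w in disc η t ∩ {w | -1 ≤ w.re}, ‖g w‖ ∂areaM := by
  refine ⟨∑ k ∈ Finset.range (j + 1), (j.choose k : ℝ) * 4 ^ (k + 1), by positivity, ?_⟩
  intro η t g h0 hg hi
  have hs1 := sqrt_le_one' h0
  have hs0 := Real.sqrt_nonneg (1 - η t)
  set ρ := √(1 - η t) with hρ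
  have hsub : ball (1 : ℂ) ρ ⊆ ball (1 : ℂ) 1 := ball_subset_ball hs1
  have hsub2 : ball (1 : ℂ) (ρ / 2) ⊆ ball (1 : ℂ) 1 := ball_subset_ball (by linarith)
  set G : ℂ → ℂ := fun ζ => g (lg t ζ) with hG
  have hGd : DifferentiableOn ℂ G (ball (1 : ℂ) ρ) := differentiableOn_comp_lg h0 hg
  have hGi : IntegrableOn G (ball (1 : ℂ) ρ) := by
    rw [← integrableOn_lg t measurableSet_ball hsub, ← disc_eq_image h0]
    exact hi
  have hmom : ∀ (r : ℝ), r ≤ ρ → ∀ k : ℕ,
      IntegrableOn (fun z => (z - 1) ^ k * conj (G z)) (ball (1 : ℂ) r) := by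
    intro r hr k
    have hsr := ball_subset_ball (x := (1 : ℂ)) hr
    have h1 : IntegrableOn (fun z => conj (G z)) (ball (1 : ℂ) r) := by
      have := (hGi.mono_set hsr)
      exact this.norm.mono' ((Complex.continuous_conj.comp_continuousOn
          (hGd.continuousOn.mono hsr)).aestronglyMeasurable measurableSet_ball)
        (Eventually.of_forall fun z => by simp)
    refine Integrable.bdd_mul h1 ?_ (c := 1) ?_
    · exact (Continuous.aestronglyMeasurable (by fun_prop))
    · filter_upwards [ae_restrict_mem measurableSet_ball] with z hz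
      rw [norm_pow]
      rw [mem_ball, dist_eq_norm] at hz
      exact pow_le_one₀ (norm_nonneg _) (by linarith)
  have e1 : ∫ w in disc η t, Complex.exp (j * w) * conj (g w) ∂areaM =
      Complex.exp (t * Complex.I) ^ j * ∑ k ∈ Finset.range (j + 1),
        (j.choose k : ℂ) * (4 ^ (k + 1) * ∫ z in ball (1 : ℂ) (ρ / 2), (z - 1) ^ k * conj (G z)) := by
    rw [disc_eq_image h0, integral_lg t measurableSet_ball hsub]
    have e2 : ∀ ζ ∈ ball (1 : ℂ) ρ, Complex.exp (j * lg t ζ) * conj (g (lg t ζ)) =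
        Complex.exp (t * Complex.I) ^ j *
          ∑ k ∈ Finset.range (j + 1), (j.choose k : ℂ) * ((ζ - 1) ^ k * conj (G ζ)) := by
      intro ζ hζ
      rw [Complex.exp_nat_mul, exp_lg t (ne_zero_of_mem_ball (hsub hζ)), mul_pow]
      have e3 : ζ ^ j = ∑ k ∈ Finset.range (j + 1), (ζ - 1) ^ k * (j.choose k : ℂ) := by
        have := add_pow (ζ - 1) 1 j
        simpa using this
      rw [e3, Finset.sum_mul, Finset.sum_mul, Finset.mul_sum]
      refine Finset.sum_congr rfl fun k _ => ?_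
      simp only [hG]
      ring
    rw [setIntegral_congr_fun measurableSet_ball e2, integral_const_mul, integral_finsetSum]
    · congr 1
      refine Finset.sum_congr rfl fun k _ => ?_
      rw [integral_const_mul, ball_half hs0 hGd hGi k]
    · intro k _
      exact (hmom ρ le_rfl k).const_mul _
  rw [e1, norm_mul, norm_pow, Complex.norm_exp_ofReal_mul_I, one_pow, one_mul, Finset.sum_mul]
  refine (norm_sum_le _ _).trans (Finset.sum_le_sum fun k _ => ?_)
  rw [norm_mul, norm_mul, norm_pow, Complex.norm_natCast, ← mul_assoc]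
  have e4 : ‖(4 : ℂ)‖ = 4 := by norm_num
  rw [e4]
  refine mul_le_mul_of_nonneg_left ?_ (by positivity)
  refine (norm_integral_le_integral_norm _).trans (le_trans ?_ (half_integral_le h0 hi))
  refine setIntegral_mono_on (hmom (ρ / 2) (by linarith) k).norm ?_ measurableSet_ball ?_
  · exact (hGi.mono_set (ball_subset_ball (by linarith))).norm
  · intro ζ hζ
    rw [norm_mul, norm_pow, RCLike.norm_conj]
    rw [mem_ball, dist_eq_norm] at hζ
    have : ‖ζ - 1‖ ^ k ≤ 1 := pow_le_one₀ (norm_nonneg _) (by linarith)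
    exact mul_le_of_le_one_left (norm_nonneg _) this

theorem disc_conj (T : ℝ) : ∃ C : ℝ, 0 ≤ C ∧ ∀ (η : ℝ → ℝ) (t : ℝ) (g : ℂ → ℂ), |t| ≤ T →
    0 ≤ η t → DifferentiableOn ℂ g (disc η t) → IntegrableOn g (disc η t) areaM →
    ‖∫ w in disc η t, conj w * conj (g w) ∂areaM‖ ≤
      C * ∫ w in disc η t ∩ {w | -1 ≤ w.re}, ‖g w‖ ∂areaM := by
  have hpi := Real.pi_pos
  refine ⟨4 * (1 + π / 2 + |T|), by positivity, ?_⟩
  intro η t g hT h0 hg hi
  have hs1 := sqrt_le_one' h0
  have hs0 := Real.sqrt_nonneg (1 - η t)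
  have hnn : 0 ≤ ∫ w in disc η t ∩ {w | -1 ≤ w.re}, ‖g w‖ ∂areaM :=
    integral_nonneg fun _ => norm_nonneg _
  have hQ : DifferentiableOn ℂ (fun w => w * g w) (disc η t) := differentiableOn_id.mul hg
  have econj : ∀ w, conj w * conj (g w) = conj (w * g w) := fun w => (map_mul _ _ _).symm
  simp_rw [econj]
  by_cases hint : IntegrableOn (fun w => w * g w) (disc η t) areaM
  swap
  · have : ∫ w in disc η t, conj (w * g w) ∂areaM = 0 := by
      rw [integral_conj, integral_undef hint, map_zero]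
    rw [this, norm_zero]
    positivity
  set ρ := √(1 - η t) with hρ
  have hsub : ball (1 : ℂ) ρ ⊆ ball (1 : ℂ) 1 := ball_subset_ball hs1
  set G : ℂ → ℂ := fun ζ => lg t ζ * g (lg t ζ) with hG
  have hGd : DifferentiableOn ℂ G (ball (1 : ℂ) ρ) := differentiableOn_comp_lg h0 hQ
  have hGi : IntegrableOn G (ball (1 : ℂ) ρ) := by
    have := (integrableOn_lg t measurableSet_ball hsub (fun w => w * g w)).1
      (by rw [← disc_eq_image h0]; exact hint)
    exact this
  have e1 : ∫ w in disc η t, conj (w * g w) ∂areaM =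
      4 * ∫ z in ball (1 : ℂ) (ρ / 2), conj (G z) := by
    rw [disc_eq_image h0, integral_lg t measurableSet_ball hsub (fun w => conj (w * g w))]
    have := ball_half hs0 hGd hGi 0
    simp only [pow_zero, one_mul, zero_add, pow_one] at this
    exact this
  rw [e1, norm_mul, show ‖(4 : ℂ)‖ = 4 by norm_num, mul_assoc]
  refine mul_le_mul_of_nonneg_left ?_ (by norm_num)
  have hcst : 0 ≤ 1 + π / 2 + |T| := by positivity
  calc ‖∫ z in ball (1 : ℂ) (ρ / 2), conj (G z)‖
      ≤ ∫ z in ball (1 : ℂ) (ρ / 2), ‖conj (G z)‖ := norm_integral_le_integral_norm _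
    _ ≤ ∫ z in ball (1 : ℂ) (ρ / 2), (1 + π / 2 + |T|) * ‖g (lg t z)‖ := by
        refine setIntegral_mono_on ?_ ?_ measurableSet_ball ?_
        · have := (hGi.mono_set (ball_subset_ball (x := (1 : ℂ)) (show ρ / 2 ≤ ρ by linarith))).norm
          simp only [RCLike.norm_conj]
          exact this
        · have h3 := (integrableOn_lg t measurableSet_ball hsub g).1
            (by rw [← disc_eq_image h0]; exact hi)
          exact ((h3.mono_set (ball_subset_ball (by linarith))).norm).const_mul _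
        · intro ζ hζ
          rw [RCLike.norm_conj]
          simp only [hG, norm_mul]
          refine mul_le_mul_of_nonneg_right ?_ (norm_nonneg _)
          have hre := (half_sub h0 (mem_image_of_mem (lg t) hζ)).2
          simp only [mem_ofPred_eq] at hre
          have hζ1 : ζ ∈ ball (1 : ℂ) 1 := ball_subset_ball (by linarith) hζ
          have him := abs_lg_im_sub (t := t) hζ1
          have hre2 : (lg t ζ).re ≤ 1 := by
            rw [lg_re]
            have h5 : ‖ζ‖ ≤ 2 := by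
              rw [mem_ball, dist_eq_norm] at hζ1
              calc ‖ζ‖ = ‖(ζ - 1) + 1‖ := by congr 1; ring
                _ ≤ ‖ζ - 1‖ + ‖(1 : ℂ)‖ := norm_add_le _ _
                _ ≤ 2 := by rw [norm_one]; linarith
            have h6 : 0 < ‖ζ‖ := norm_pos_iff.2 (ne_zero_of_mem_ball hζ1)
            have := Real.log_le_sub_one_of_pos h6
            linarith
          have h7 : |(lg t ζ).re| ≤ 1 := abs_le.2 ⟨hre, hre2⟩
          have h8 : |(lg t ζ).im| ≤ π / 2 + |T| := by
            have h9 : |(lg t ζ).im| ≤ |(lg t ζ).im - t| + |t| := by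
              have := abs_add_le ((lg t ζ).im - t) t
              simpa using this
            have h10 : |t| ≤ |T| := hT.trans (le_abs_self T)
            linarith
          calc ‖lg t ζ‖ ≤ |(lg t ζ).re| + |(lg t ζ).im| := Complex.norm_le_abs_re_add_abs_im _
            _ ≤ 1 + π / 2 + |T| := by linarith
    _ = (1 + π / 2 + |T|) * ∫ z in ball (1 : ℂ) (ρ / 2), ‖g (lg t z)‖ := integral_const_mul _ _
    _ ≤ _ := mul_le_mul_of_nonneg_left (half_integral_le h0 hi) hcst

/-- mean value property on `D(t) = {|e^w - e^{it}| < 1}` -/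
theorem disc_mean (t : ℝ) {h : ℂ → ℂ} (hh : DifferentiableOn ℂ h (disc (fun _ => 0) t))
    (hi : IntegrableOn h (disc (fun _ => 0) t) areaM) :
    ∫ w in disc (fun _ => 0) t, conj (h w) ∂areaM = π * conj (h (t * Complex.I)) := by
  have hpi := Real.pi_pos
  have h0 : (0 : ℝ) ≤ (fun _ : ℝ => (0 : ℝ)) t := le_rfl
  have hd := disc_eq_image (η := fun _ => 0) (t := t) h0
  simp only [sub_zero, Real.sqrt_one] at hd
  have hHd : DifferentiableOn ℂ (fun ζ => h (lg t ζ)) (ball (1 : ℂ) 1) := by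
    have := differentiableOn_comp_lg h0 hh
    simpa using this
  have hHi : IntegrableOn (fun ζ => h (lg t ζ)) (ball (1 : ℂ) 1) := by
    rw [← integrableOn_lg t measurableSet_ball Subset.rfl h, ← hd]
    exact hi
  rw [hd, integral_lg t measurableSet_ball Subset.rfl (fun w => conj (h w))]
  have hc : ∀ s ∈ Ioo (0 : ℝ) 1,
      ∫ θ in Ioo (-π) π, ((circleMap 0 s θ)⁻¹) ^ 0 * h (lg t (circleMap 1 s θ)) =
        2 * π * h (lg t 1) := by
    intro s hs
    have h1 : Real.circleAverage (fun ζ => h (lg t ζ)) 1 s = h (lg t 1) := by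
      apply DiffContOnCl.circleAverage
      rw [abs_of_pos hs.1]
      refine DifferentiableOn.diffContOnCl ?_
      rw [closure_ball (1 : ℂ) hs.1.ne']
      exact hHd.mono (closedBall_subset_ball hs.2)
    rw [Real.circleAverage_eq_integral_add (-π)] at h1
    have h2 : (∫ θ in (0 : ℝ)..2 * π, h (lg t (circleMap 1 s (θ + -π)))) =
        ∫ θ in (-π)..π, h (lg t (circleMap 1 s θ)) := by
      rw [intervalIntegral.integral_comp_add_right (fun θ => h (lg t (circleMap 1 s θ)))]
      congr 1 <;> ring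
    rw [h2, intervalIntegral.integral_of_le (by linarith), integral_Ioc_eq_integral_Ioo] at h1
    rw [← h1, Complex.real_smul]
    simp only [pow_zero, one_mul]
    push_cast
    have h2pi : (2 * π : ℂ) ≠ 0 := by simp [Real.pi_ne_zero]
    rw [← mul_assoc, mul_inv_cancel₀ h2pi, one_mul]
  have := ball_moment hHd hHi 0 hc zero_le_one le_rfl
  simp only [pow_zero, one_mul] at this
  rw [this]
  have e : lg t 1 = t * Complex.I := by simp [lg]
  rw [e]
  simp

theorem disc_moments (t : ℝ) {h : ℂ → ℂ} (hh : DifferentiableOn ℂ h (disc (fun _ => 0) t))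
    (hi : IntegrableOn h (disc (fun _ => 0) t) areaM)
    (h0 : ∀ k : ℕ, ∫ w in disc (fun _ => 0) t, h w * Complex.exp (k * conj w) ∂areaM = 0) :
    ∀ w ∈ disc (fun _ => 0) t, h w = 0 := by
  have hpi := Real.pi_pos
  have h00 : (0 : ℝ) ≤ (fun _ : ℝ => (0 : ℝ)) t := le_rfl
  have hd := disc_eq_image (η := fun _ => 0) (t := t) h00
  simp only [sub_zero, Real.sqrt_one] at hd
  set H : ℂ → ℂ := fun ζ => h (lg t ζ) with hH
  have hHd : DifferentiableOn ℂ H (ball (1 : ℂ) 1) := by
    have := differentiableOn_comp_lg h00 hh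
    simpa using this
  have hHi : IntegrableOn H (ball (1 : ℂ) 1) := by
    rw [hH, ← integrableOn_lg t measurableSet_ball Subset.rfl h, ← hd]
    exact hi
  -- the moments of `conj H`
  have hconj : IntegrableOn (fun z => conj (H z)) (ball (1 : ℂ) 1) := by
    exact hHi.norm.mono' ((Complex.continuous_conj.comp_continuousOn
        hHd.continuousOn).aestronglyMeasurable measurableSet_ball)
      (Eventually.of_forall fun z => by simp)
  have hm : ∀ k : ℕ, IntegrableOn (fun z => z ^ k * conj (H z)) (ball (1 : ℂ) 1) := by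
    intro k
    refine Integrable.bdd_mul hconj ?_ (c := 2 ^ k) ?_
    · exact (Continuous.aestronglyMeasurable (by fun_prop))
    · filter_upwards [ae_restrict_mem measurableSet_ball] with z hz
      rw [norm_pow]
      gcongr
      rw [mem_ball, dist_eq_norm] at hz
      calc ‖z‖ = ‖(z - 1) + 1‖ := by congr 1; ring
        _ ≤ ‖z - 1‖ + ‖(1 : ℂ)‖ := norm_add_le _ _
        _ ≤ 2 := by rw [norm_one]; linarith
  have hz : ∀ k : ℕ, ∫ z in ball (1 : ℂ) 1, z ^ k * conj (H z) = 0 := by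
    intro k
    have h1 : conj (∫ w in disc (fun _ => 0) t, h w * Complex.exp (k * conj w) ∂areaM) = 0 := by
      rw [h0 k, map_zero]
    rw [← integral_conj, hd, integral_lg t measurableSet_ball Subset.rfl
      (fun w => conj (h w * Complex.exp (k * conj w)))] at h1
    have h2 : ∀ ζ ∈ ball (1 : ℂ) 1, conj (h (lg t ζ) * Complex.exp (k * conj (lg t ζ))) =
        Complex.exp (t * Complex.I) ^ k * (ζ ^ k * conj (H ζ)) := by
      intro ζ hζ
      rw [map_mul, ← Complex.exp_conj, map_mul, Complex.conj_conj, Complex.conj_natCast,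
        Complex.exp_nat_mul, exp_lg t (ne_zero_of_mem_ball hζ), mul_pow]
      simp only [hH]
      ring
    rw [setIntegral_congr_fun measurableSet_ball h2, integral_const_mul] at h1
    exact (mul_eq_zero.1 h1).resolve_left (pow_ne_zero _ (Complex.exp_ne_zero _))
  have hc0 : ∀ k : ℕ, ∀ s ∈ Ioo (0 : ℝ) 1,
      ∫ θ in Ioo (-π) π, ((circleMap 0 s θ)⁻¹) ^ k * H (circleMap 1 s θ) = 0 := by
    intro k s hs
    obtain ⟨c, hc⟩ := circle_coeff hHd k
    have h1 := ball_moment hHd hHi k hc zero_le_one le_rfl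
    have h2 : ∫ z in ball (1 : ℂ) 1, (z - 1) ^ k * conj (H z) = 0 := by
      have e : ∀ z ∈ ball (1 : ℂ) 1, (z - 1) ^ k * conj (H z) =
          ∑ m ∈ Finset.range (k + 1), ((-1) ^ (k - m) * (k.choose m : ℂ)) * (z ^ m * conj (H z)) := by
        intro z _
        rw [sub_eq_add_neg, add_pow, Finset.sum_mul]
        refine Finset.sum_congr rfl fun m _ => ?_
        ring
      rw [setIntegral_congr_fun measurableSet_ball e, integral_finsetSum]
      · refine Finset.sum_eq_zero fun m _ => ?_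
        rw [integral_const_mul, hz m, mul_zero]
      · intro m _
        exact (hm m).const_mul _
    rw [h2] at h1
    have h3 : (k : ℂ) + 1 ≠ 0 := by exact_mod_cast Nat.succ_ne_zero k
    have h4 : c = 0 := by
      have h5 : (π : ℂ) * conj c * ((1 : ℝ) : ℂ) ^ (2 * k + 2) / (k + 1) = 0 := h1.symm
      rw [Complex.ofReal_one, one_pow, mul_one, div_eq_zero_iff, mul_eq_zero] at h5
      rcases h5 with (h5 | h5) | h5
      · exact absurd h5 (by simp [Real.pi_ne_zero])
      · exact (map_eq_zero _).1 h5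
      · exact absurd h5 h3
    rw [hc s hs, h4, mul_zero]
  have hHz : ∀ ζ ∈ ball (1 : ℂ) 1, H ζ = 0 := by
    intro ζ hζ
    rw [mem_ball, dist_eq_norm] at hζ
    obtain ⟨s, hs1, hs2⟩ := exists_between hζ
    have hs0 : 0 < s := (norm_nonneg _).trans_lt hs1
    lift s to NNReal using hs0.le
    have hf := (hHd.mono (closedBall_subset_ball hs2)).hasFPowerSeriesOnBall (by exact_mod_cast hs0)
    have hmem : ζ - 1 ∈ Metric.eball (0 : ℂ) s := by
      rw [Metric.mem_eball, edist_zero_right]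
      have : ‖ζ - 1‖₊ < s := hs1
      exact_mod_cast this
    have hsum := hf.hasSum hmem
    have hzero : ∀ n, (cauchyPowerSeries H 1 s n fun _ => ζ - 1) = 0 := by
      intro n
      rw [cauchyPowerSeries_apply]
      have e1 : (∮ z in C(1, s), ((ζ - 1) / (z - 1)) ^ n • (z - 1)⁻¹ • H z) =
          (ζ - 1) ^ n * ∮ z in C(1, s), (z - 1)⁻¹ • (((z - 1)⁻¹) ^ n * H z) := by
        rw [← circleIntegral.integral_const_mul]
        congr 1
        funext z
        simp only [smul_eq_mul, div_eq_mul_inv, mul_pow]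
        ring
      rw [e1, circleIntegral_moment H 1 n hs0, hc0 n s ⟨hs0, hs2⟩]
      simp
    simp_rw [hzero] at hsum
    have := hsum.unique hasSum_zero
    simpa using this
  intro w hw
  rw [hd] at hw
  obtain ⟨ζ, hζ, rfl⟩ := hw
  exact hHz ζ hζ

end Pool.Agent.Worm
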