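import Mathlib
import Pool.Agent.Worm.QInt
import Pool.Agent.Worm.Disc

/-!
# Pairing of the solution with square integrable holomorphic functions
-/

open MeasureTheory Set Filter Topology Metric
open scoped Real ENNReal ComplexConjugate

namespace Pool.Agent.Worm

theorem lintegral_muA_ae {A : Set (ℝ × ℂ)} (hA : MeasurableSet A) {f : ℂ → ℝ≥0∞}
    (hf : AEMeasurable f (muA A)) :
    ∫⁻ w, f w ∂(muA A) = ∫⁻ t, ∫⁻ w in {w | (t, w) ∈ A}, f w ∂areaM ∂expM := by
  have h1 : AEMeasurable (fun p : ℝ × ℂ => f p.2) ((expM.prod areaM).restrict A) := by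
    rw [muA] at hf
    exact hf.comp_measurable measurable_snd
  rw [muA, lintegral_map' (by rw [muA] at hf; exact hf) measurable_snd.aemeasurable,
    ← lintegral_indicator hA, lintegral_prod]
  · apply lintegral_congr
    intro t
    have hm : MeasurableSet {w | (t, w) ∈ A} := measurable_prodMk_left hA
    rw [← lintegral_indicator hm]
    apply lintegral_congr
    intro w
    by_cases hw : (t, w) ∈ A
    · rw [indicator_of_mem hw, indicator_of_mem (by exact hw)]
    · rw [indicator_of_notMem hw, indicator_of_notMem (by exact hw)]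
  · exact (aemeasurable_indicator_iff hA).mpr h1

theorem ae_integrableOn_fibre {A : Set (ℝ × ℂ)} (hA : MeasurableSet A) {f : ℂ → ℂ}
    (hf : Integrable f (muA A)) :
    ∀ᵐ t ∂expM, IntegrableOn f {w | (t, w) ∈ A} areaM := by
  have h1 : Integrable (fun p : ℝ × ℂ => f p.2) ((expM.prod areaM).restrict A) := by
    rw [muA] at hf
    exact (integrable_map_measure hf.aestronglyMeasurable measurable_snd.aemeasurable).mp hf
  have h2 : Integrable (A.indicator (fun p : ℝ × ℂ => f p.2)) (expM.prod areaM) := by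
    rw [integrable_indicator_iff hA]
    exact h1
  filter_upwards [h2.prod_right_ae] with t ht
  have hm : MeasurableSet {w | (t, w) ∈ A} := measurable_prodMk_left hA
  rw [← integrable_indicator_iff hm]
  refine ht.congr ?_
  filter_upwards with w
  by_cases hw : (t, w) ∈ A
  · rw [indicator_of_mem hw, indicator_of_mem (by exact hw)]
  · rw [indicator_of_notMem hw, indicator_of_notMem (by exact hw)]

theorem measurableSet_re_ge (a : ℝ) : MeasurableSet {w : ℂ | a ≤ w.re} :=
  (isClosed_le continuous_const Complex.continuous_re).measurableSet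

theorem pair_of_disc {η : ℝ → ℝ} (hc : Continuous η) {h g : ℂ → ℂ}
    (hint : Integrable (fun w => h w * conj (g w)) (mu η)) (hg : Integrable g (mu η)) {C : ℝ}
    (hd : ∀ᵐ t ∂expM, IntegrableOn g (disc η t) areaM →
      ‖∫ w in disc η t, h w * conj (g w) ∂areaM‖ ≤
        C * ∫ w in disc η t ∩ {w | -1 ≤ w.re}, ‖g w‖ ∂areaM) :
    ‖∫ w, h w * conj (g w) ∂(mu η)‖ₑ ≤
      ENNReal.ofReal C * ∫⁻ w in {w : ℂ | -1 ≤ w.re}, ‖g w‖ₑ ∂(mu η) := by
  have hA : MeasurableSet (tot η) := (isOpen_tot hc).measurableSet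
  have hR := measurableSet_re_ge (-1)
  rw [mu_eq] at hint hg ⊢
  rw [integral_muA hA hint]
  refine (enorm_integral_le_lintegral_enorm _).trans ?_
  have h1 : ∫⁻ w in {w : ℂ | -1 ≤ w.re}, ‖g w‖ₑ ∂(muA (tot η)) =
      ∫⁻ t, ∫⁻ w in disc η t ∩ {w | -1 ≤ w.re}, ‖g w‖ₑ ∂areaM ∂expM := by
    rw [← lintegral_indicator hR, lintegral_muA_ae hA]
    · apply lintegral_congr
      intro t
      change ∫⁻ w in disc η t, {w : ℂ | -1 ≤ w.re}.indicator (fun w => ‖g w‖ₑ) w ∂areaM = _
      rw [setLIntegral_indicator hR, inter_comm]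
    · exact hg.aestronglyMeasurable.enorm.indicator hR
  rw [h1]
  by_cases hC : ENNReal.ofReal C = ⊤
  · exact absurd hC ENNReal.ofReal_ne_top
  rw [← lintegral_const_mul' _ _ hC]
  apply lintegral_mono_ae
  filter_upwards [hd, ae_integrableOn_fibre hA hg] with t h2 h3
  have h4 := h2 h3
  have h5 : IntegrableOn g (disc η t ∩ {w | -1 ≤ w.re}) areaM := h3.mono_set inter_subset_left
  change ‖∫ w in disc η t, h w * conj (g w) ∂areaM‖ₑ ≤ _
  rw [← ofReal_norm, ← ofReal_integral_norm_eq_lintegral_enorm h5]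
  have h6 : 0 ≤ ∫ w in disc η t ∩ {w | -1 ≤ w.re}, ‖g w‖ ∂areaM :=
    integral_nonneg (fun w => norm_nonneg _)
  rcases le_total 0 C with hC0 | hC0
  · rw [← ENNReal.ofReal_mul hC0]
    exact ENNReal.ofReal_le_ofReal h4
  · have h7 : ‖∫ w in disc η t, h w * conj (g w) ∂areaM‖ ≤ 0 :=
      h4.trans (mul_nonpos_of_nonpos_of_nonneg hC0 h6)
    rw [ENNReal.ofReal_of_nonpos h7]
    exact zero_le

theorem disc_subset_S (η : ℝ → ℝ) (t : ℝ) : disc η t ⊆ S η := fun _ hw => ⟨t, hw⟩

/-- The pairing lemma. -/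
theorem pairing (b : ℝ) (N : ℕ) : ∃ C : ℝ≥0∞, C ≠ ⊤ ∧ ∀ (δ : ℝ) (η : ℝ → ℝ) (F : ℂ → ℂ)
    (c : ℕ → ℂ) (g : ℂ → ℂ), 0 ≤ b → δ ≤ 1 → Cap b δ η → SolC η F c →
    DifferentiableOn ℂ g (S η) → MemLp g 2 (mu η) →
    ‖∫ w, (F w - ∑ j ∈ Finset.range N, c j * Complex.exp (j * w)) * conj (g w) ∂(mu η)‖ₑ ≤
      C * (1 + ∑ j ∈ Finset.range N, ‖c j‖ₑ) *
        ∫⁻ w in {w : ℂ | -1 ≤ w.re}, ‖g w‖ₑ ∂(mu η) := by
  obtain ⟨C₀, hC₀, hconj⟩ := disc_conj (b + 1)
  choose C₁ hC₁ hexp using disc_exp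
  refine ⟨ENNReal.ofReal C₀ + ∑ j ∈ Finset.range N, ENNReal.ofReal (C₁ j), ?_, ?_⟩
  · refine ENNReal.add_ne_top.mpr ⟨ENNReal.ofReal_ne_top, ?_⟩
    exact ENNReal.sum_ne_top.mpr (fun j _ => ENNReal.ofReal_ne_top)
  intro δ η F c g hb hδ hcap hS hg hg2
  have := isFiniteMeasure_mu hcap hδ
  have hgi : Integrable g (mu η) := hg2.integrable (by norm_num)
  have hF := hS.mem
  have hw := memLp_conj hb hcap hδ
  have hFg : Integrable (fun w : ℂ => F w * conj (g w)) (mu η) := hF.integrable_mul hg2.star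
  have hwg : Integrable (fun w : ℂ => conj w * conj (g w)) (mu η) := hw.integrable_mul hg2.star
  have heg : ∀ j : ℕ, Integrable (fun w : ℂ => Complex.exp (j * w) * conj (g w)) (mu η) :=
    fun j => (memLp_exp hcap hδ j).integrable_mul hg2.star
  have horth := hS.orth g hg hg2
  have h1 : ∫ w, F w * conj (g w) ∂(mu η) = ∫ w, conj w * conj (g w) ∂(mu η) := by
    have h3 : ∫ w, (conj w - F w) * conj (g w) ∂(mu η) =
        ∫ w, conj w * conj (g w) ∂(mu η) - ∫ w, F w * conj (g w) ∂(mu η) := by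
      rw [← integral_sub hwg hFg]
      apply integral_congr_ae
      filter_upwards with w
      ring
    rw [h3, sub_eq_zero] at horth
    exact horth.symm
  have h2 : ∫ w, (F w - ∑ j ∈ Finset.range N, c j * Complex.exp (j * w)) * conj (g w) ∂(mu η) =
      ∫ w, conj w * conj (g w) ∂(mu η) -
        ∑ j ∈ Finset.range N, c j * ∫ w, Complex.exp (j * w) * conj (g w) ∂(mu η) := by
    rw [← h1]
    have h4 : ∀ j ∈ Finset.range N, Integrable
        (fun w : ℂ => c j * (Complex.exp (j * w) * conj (g w))) (mu η) :=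
      fun j _ => (heg j).const_mul _
    have h5 : ∫ w, (∑ j ∈ Finset.range N, c j * (Complex.exp (j * w) * conj (g w))) ∂(mu η) =
        ∑ j ∈ Finset.range N, c j * ∫ w, Complex.exp (j * w) * conj (g w) ∂(mu η) := by
      rw [integral_finsetSum _ h4]
      apply Finset.sum_congr rfl
      intro j _
      rw [integral_const_mul]
    rw [← h5, ← integral_sub hFg (integrable_finsetSum _ h4)]
    apply integral_congr_ae
    filter_upwards with w
    rw [sub_mul, Finset.sum_mul]
    congr 1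
    apply Finset.sum_congr rfl
    intro j _
    ring
  rw [h2]
  set J := ∫⁻ w in {w : ℂ | -1 ≤ w.re}, ‖g w‖ₑ ∂(mu η) with hJ
  have h6 : ‖∫ w, conj w * conj (g w) ∂(mu η)‖ₑ ≤ ENNReal.ofReal C₀ * J := by
    apply pair_of_disc hcap.cont hwg hgi
    filter_upwards with t hgt
    by_cases ht : |t| ≤ b + 1
    · exact hconj η t g ht (hcap.nonneg t) (hg.mono (disc_subset_S η t)) hgt
    · have h7 : disc η t = ∅ := by
        ext w
        simp only [mem_empty_iff_false, iff_false]
        intro hw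
        have := hcap.abs_lt hw
        exact ht (by linarith)
      rw [h7]
      simp
  have h7 : ∀ j : ℕ, ‖∫ w, Complex.exp (j * w) * conj (g w) ∂(mu η)‖ₑ ≤
      ENNReal.ofReal (C₁ j) * J := by
    intro j
    apply pair_of_disc hcap.cont (heg j) hgi
    filter_upwards with t hgt
    exact hexp j η t g (hcap.nonneg t) (hg.mono (disc_subset_S η t)) hgt
  calc ‖∫ w, conj w * conj (g w) ∂(mu η) -
        ∑ j ∈ Finset.range N, c j * ∫ w, Complex.exp (j * w) * conj (g w) ∂(mu η)‖ₑ
      ≤ ‖∫ w, conj w * conj (g w) ∂(mu η)‖ₑ +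
        ‖∑ j ∈ Finset.range N, c j * ∫ w, Complex.exp (j * w) * conj (g w) ∂(mu η)‖ₑ :=
        enorm_sub_le
    _ ≤ ENNReal.ofReal C₀ * J + ∑ j ∈ Finset.range N, ‖c j‖ₑ * (ENNReal.ofReal (C₁ j) * J) := by
        gcongr
        refine (enorm_sum_le _ _).trans ?_
        apply Finset.sum_le_sum
        intro j _
        rw [enorm_mul]
        gcongr
        exact h7 j
    _ ≤ (ENNReal.ofReal C₀ + ∑ j ∈ Finset.range N, ENNReal.ofReal (C₁ j)) *
          (1 + ∑ j ∈ Finset.range N, ‖c j‖ₑ) * J := by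
        have h8 : ∀ j ∈ Finset.range N, ‖c j‖ₑ * (ENNReal.ofReal (C₁ j) * J) ≤
            (∑ j ∈ Finset.range N, ‖c j‖ₑ) * (ENNReal.ofReal (C₁ j) * J) := by
          intro j hj
          gcongr
          exact Finset.single_le_sum (f := fun j => ‖c j‖ₑ) (fun _ _ => zero_le) hj
        calc ENNReal.ofReal C₀ * J + ∑ j ∈ Finset.range N, ‖c j‖ₑ * (ENNReal.ofReal (C₁ j) * J)
            ≤ ENNReal.ofReal C₀ * J + ∑ j ∈ Finset.range N,
              (∑ j ∈ Finset.range N, ‖c j‖ₑ) * (ENNReal.ofReal (C₁ j) * J) := by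
              gcongr with j hj
              exact Finset.single_le_sum (f := fun j => ‖c j‖ₑ) (fun _ _ => zero_le) hj
          _ = (ENNReal.ofReal C₀ + (∑ j ∈ Finset.range N, ‖c j‖ₑ) *
                ∑ j ∈ Finset.range N, ENNReal.ofReal (C₁ j)) * J := by
              rw [← Finset.mul_sum, ← Finset.sum_mul]
              ring
          _ ≤ _ := by
              gcongr
              set P := ∑ j ∈ Finset.range N, ‖c j‖ₑ
              set R := ∑ j ∈ Finset.range N, ENNReal.ofReal (C₁ j)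
              calc ENNReal.ofReal C₀ + P * R ≤ ENNReal.ofReal C₀ + P * R +
                    (R + ENNReal.ofReal C₀ * P) := le_self_add
                _ = _ := by ring

end Pool.Agent.Worm
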