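import Mathlib
import Pool.Agent.Worm.QInt

/-!
# Translation of the worm measure
-/

open MeasureTheory Set Filter Topology Metric
open scoped Real ENNReal ComplexConjugate

namespace Pool.Agent.Worm

/-- The shifted region. -/
def totX (η : ℝ → ℝ) (X : ℝ) : Set (ℝ × ℂ) := {p | p.2 + X ∈ disc η p.1}

theorem isOpen_totX {η : ℝ → ℝ} (hη : Continuous η) (X : ℝ) : IsOpen (totX η X) := by
  have h1 : Continuous (fun p : ℝ × ℂ => (p.1, p.2 + (X : ℂ))) := by fun_prop
  exact (isOpen_tot hη).preimage h1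

theorem map_sub_mu {η : ℝ → ℝ} (hη : Continuous η) (X : ℝ) :
    (mu η).map (fun w => w - (X : ℂ)) = ENNReal.ofReal (Real.exp (2 * X)) • muA (totX η X) := by
  have hm : Measurable (fun w : ℂ => w - (X : ℂ)) := by fun_prop
  ext E hE
  rw [Measure.map_apply hm hE, Measure.smul_apply, mu_eq,
    muA_eq_withDensity (isOpen_tot hη).measurableSet,
    muA_eq_withDensity (isOpen_totX hη X).measurableSet,
    withDensity_apply _ (hm hE), withDensity_apply _ hE,
    lintegral_areaM (measurable_om (isOpen_tot hη).measurableSet) (hm hE),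
    lintegral_areaM (measurable_om (isOpen_totX hη X).measurableSet) hE,
    ← lintegral_indicator (hm hE), ← lintegral_indicator hE, smul_eq_mul,
    ← lintegral_const_mul' _ _ ENNReal.ofReal_ne_top,
    ← lintegral_add_right_eq_self _ (X : ℂ)]
  apply lintegral_congr
  intro w
  have h1 : om (tot η) (w + X) = om (totX η X) w := rfl
  by_cases hw : w ∈ E
  · rw [indicator_of_mem hw, indicator_of_mem (by simpa using hw), h1, mul_left_comm,
      ← ENNReal.ofReal_mul (Real.exp_pos _).le, ← Real.exp_add]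
    congr 3
    simp
    ring
  · rw [indicator_of_notMem hw, indicator_of_notMem (by simpa using hw), mul_zero]

theorem lintegral_sub_mu {η : ℝ → ℝ} (hη : Continuous η) (X : ℝ) (f : ℂ → ℝ≥0∞) :
    ∫⁻ w, f (w - X) ∂(mu η) = ENNReal.ofReal (Real.exp (2 * X)) * ∫⁻ w, f w ∂(muA (totX η X)) := by
  have h1 : MeasurableEmbedding (fun w : ℂ => w - (X : ℂ)) :=
    (Homeomorph.subRight (X : ℂ)).measurableEmbedding
  rw [← h1.lintegral_map, map_sub_mu hη, lintegral_smul_measure, smul_eq_mul]

theorem integral_sub_mu {η : ℝ → ℝ} (hη : Continuous η) (X : ℝ) (f : ℂ → ℂ) :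
    ∫ w, f (w - X) ∂(mu η) = (Real.exp (2 * X) : ℂ) * ∫ w, f w ∂(muA (totX η X)) := by
  have h1 : MeasurableEmbedding (fun w : ℂ => w - (X : ℂ)) :=
    (Homeomorph.subRight (X : ℂ)).measurableEmbedding
  rw [← h1.integral_map, map_sub_mu hη, integral_smul_measure,
    ENNReal.toReal_ofReal (Real.exp_pos _).le]
  simp

/-- Inverse form: integrate `f(w + X)` against the shifted measure. -/
theorem lintegral_muA_totX {η : ℝ → ℝ} (hη : Continuous η) (X : ℝ) (f : ℂ → ℝ≥0∞) :
    ∫⁻ w, f (w + X) ∂(muA (totX η X)) =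
      ENNReal.ofReal (Real.exp (-2 * X)) * ∫⁻ w, f w ∂(mu η) := by
  have h1 := lintegral_sub_mu hη X (fun w => f (w + X))
  simp only [sub_add_cancel] at h1
  rw [h1, ← mul_assoc, ← ENNReal.ofReal_mul (Real.exp_pos _).le, ← Real.exp_add]
  simp

theorem integral_muA_totX {η : ℝ → ℝ} (hη : Continuous η) (X : ℝ) (f : ℂ → ℂ) :
    ∫ w, f (w + X) ∂(muA (totX η X)) = (Real.exp (-2 * X) : ℂ) * ∫ w, f w ∂(mu η) := by
  have h1 := integral_sub_mu hη X (fun w => f (w + X))
  simp only [sub_add_cancel] at h1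
  rw [h1, ← mul_assoc, ← Complex.ofReal_mul, ← Real.exp_add]
  simp

end Pool.Agent.Worm
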