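import Mathlib
import Pool.Agent.Worm.Coef
import Pool.Agent.Worm.Shift
import Pool.Agent.Worm.Pairing

/-!
# Blow-up sequences
-/

open MeasureTheory Set Filter Topology Metric
open scoped Real ENNReal ComplexConjugate

namespace Pool.Agent.Worm

theorem coef_small {b : ℝ} (hb : 0 < b) {N : ℕ} {r : ℝ} (hr : N < r) {K : ℝ} (hK : 0 ≤ K) {ε : ℝ}
    (hε : 0 < ε) :
    ∃ A : ℝ, 0 ≤ A ∧ ∀ (δ : ℝ) (η : ℝ → ℝ) (F : ℂ → ℂ) (c : ℕ → ℂ) (M : ℝ), 0 ≤ M → δ ≤ 1 →
      Cap b δ η → SolC η F c → ∫⁻ w, ‖F w‖ₑ ^ 2 ∂(mu η) ≤ ENNReal.ofReal K →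
      (∀ X, wmass η F c N r X ≤ ENNReal.ofReal M) →
      ∑ j ∈ Finset.range N, ‖c j‖ ≤ A + ε * √M := by
  obtain ⟨C, hC, X₀, h⟩ := coef_bound hb N r
  have hrN : 0 < r - N := by linarith
  set X : ℝ := min (min X₀ 0) (Real.log (ε / (C * (N + 1))) / (r - N)) with hX
  have hX0 : X ≤ X₀ := (min_le_left _ _).trans (min_le_left _ _)
  have hX1 : X ≤ 0 := (min_le_left _ _).trans (min_le_right _ _)
  have hX2 : (r - N) * X ≤ Real.log (ε / (C * (N + 1))) := by
    have : X ≤ Real.log (ε / (C * (N + 1))) / (r - N) := min_le_right _ _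
    rw [le_div_iff₀ hrN] at this
    linarith
  have hX3 : Real.exp ((r - N) * X) ≤ ε / (C * (N + 1)) := by
    rw [← Real.exp_log (x := ε / (C * (N + 1))) (by positivity)]
    exact Real.exp_le_exp.mpr hX2
  refine ⟨∑ j ∈ Finset.range N, C * (Real.exp (-(j + 1) * X) * √K), by positivity, ?_⟩
  intro δ η F c M hM hδ hcap hS hFK hw
  have h1 : ∀ j ∈ Finset.range N, ‖c j‖ ≤ C * (Real.exp (-(j + 1) * X) * √K) +
      ε / (N + 1) * √M := by
    intro j hj
    have hjN := Finset.mem_range.mp hj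
    have h2 := h δ η F c K M hK hM hδ hcap hS hFK hw X hX0 j hjN
    have h3 : Real.exp ((r - 1 - j) * X) ≤ Real.exp ((r - N) * X) := by
      apply Real.exp_le_exp.mpr
      apply mul_le_mul_of_nonpos_right _ hX1
      have : (j : ℝ) + 1 ≤ N := by exact_mod_cast hjN
      linarith
    refine h2.trans ?_
    rw [mul_add]
    refine add_le_add le_rfl ?_
    calc C * (Real.exp ((r - 1 - j) * X) * √M) ≤ C * (ε / (C * (N + 1)) * √M) := by
          gcongr
          exact h3.trans hX3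
      _ = ε / (N + 1) * √M := by field_simp
  refine (Finset.sum_le_sum h1).trans ?_
  rw [Finset.sum_add_distrib]
  gcongr
  rw [Finset.sum_const, Finset.card_range, nsmul_eq_mul, ← mul_assoc]
  gcongr
  rw [← mul_div_assoc, div_le_iff₀ (by positivity)]
  nlinarith

theorem exp_re_le_two {b : ℝ} {w : ℂ} (hw : w ∈ Q b) : Real.exp w.re ≤ 2 := by
  have := hw.1
  rw [Real.lt_log_iff_exp_lt (by norm_num)] at this
  exact this.le

theorem norm_poly_le {b : ℝ} {w : ℂ} (hw : w ∈ Q b) (c : ℕ → ℂ) (N : ℕ) :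
    ‖poly c N w‖ ≤ 2 ^ N * ∑ j ∈ Finset.range N, ‖c j‖ := by
  rw [poly, Finset.mul_sum]
  refine (norm_sum_le _ _).trans (Finset.sum_le_sum ?_)
  intro j hj
  have hjN := (Finset.mem_range.mp hj).le
  rw [norm_mul, Complex.norm_exp]
  have h1 : ((j : ℂ) * w).re = j * w.re := by simp
  rw [h1, Real.exp_nat_mul, mul_comm]
  gcongr
  calc Real.exp w.re ^ j ≤ 2 ^ j := by
        gcongr
        exact exp_re_le_two hw
    _ ≤ 2 ^ N := pow_le_pow_right₀ (by norm_num) hjN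

theorem wmass_bdd {b δ : ℝ} {η : ℝ → ℝ} {F : ℂ → ℂ} {c : ℕ → ℂ} {N : ℕ} {r : ℝ} (hr : r < N + 1)
    (hδ : δ ≤ 1) (hcap : Cap b δ η) (hS : SolC η F c) :
    ∃ M : ℝ, 0 < M ∧ ∀ X, wmass η F c N r X ≤ ENNReal.ofReal M := by
  obtain ⟨C, hC⟩ := hS.taylor N
  obtain ⟨K, hK, h1⟩ := mu_exp_le b (a := 2 * (N - r)) (by linarith)
  have h2 := h1 δ η hδ hcap
  refine ⟨C ^ 2 * K.toReal + 1, by positivity, ?_⟩
  intro X
  have h3 : wmass η F c N r X ≤ ENNReal.ofReal (C ^ 2) * K := by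
    rw [wmass_eq]
    calc ∫⁻ w in {w : ℂ | |w.re - X| ≤ 1},
        ‖F w - poly c N w‖ₑ ^ 2 * ENNReal.ofReal (Real.exp (-2 * r * w.re)) ∂(mu η)
        ≤ ∫⁻ w, ‖F w - poly c N w‖ₑ ^ 2 * ENNReal.ofReal (Real.exp (-2 * r * w.re)) ∂(mu η) :=
          setLIntegral_le_lintegral _ _
      _ ≤ ∫⁻ w, ENNReal.ofReal (C ^ 2) * ENNReal.ofReal (Real.exp (2 * (N - r) * w.re)) ∂(mu η) := by
          apply lintegral_mono_ae
          filter_upwards [ae_mem_S η] with w hw
          have h4 := hC w hw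
          rw [← ofReal_norm, ← ENNReal.ofReal_pow (norm_nonneg _), ← ENNReal.ofReal_mul (by positivity),
            ← ENNReal.ofReal_mul (by positivity)]
          apply ENNReal.ofReal_le_ofReal
          have h5 : ‖F w - poly c N w‖ ^ 2 ≤ C ^ 2 * Real.exp (2 * N * w.re) := by
            calc ‖F w - poly c N w‖ ^ 2 ≤ (C * Real.exp (N * w.re)) ^ 2 := by
                  gcongr
                  exact h4
              _ = _ := by
                rw [mul_pow, ← Real.exp_nat_mul]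
                congr 2
                push_cast; ring
          calc ‖F w - poly c N w‖ ^ 2 * Real.exp (-2 * r * w.re)
              ≤ C ^ 2 * Real.exp (2 * N * w.re) * Real.exp (-2 * r * w.re) := by gcongr
            _ = _ := by
              rw [mul_assoc, ← Real.exp_add]
              congr 2
              ring
      _ ≤ _ := by
          rw [lintegral_const_mul _ (by fun_prop)]
          gcongr
  refine h3.trans ?_
  rw [← ENNReal.ofReal_toReal hK, ← ENNReal.ofReal_mul (by positivity)]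
  rw [ENNReal.toReal_ofReal (by positivity)]
  apply ENNReal.ofReal_le_ofReal
  linarith

/-- A blow-up sequence. -/
structure BSeq (b : ℝ) (N : ℕ) (r : ℝ) where
  δ : ℕ → ℝ
  η : ℕ → ℝ → ℝ
  F : ℕ → ℂ → ℂ
  c : ℕ → ℕ → ℂ
  m : ℕ → ℝ
  X : ℕ → ℝ
  δ_le : ∀ k, δ k ≤ 1
  δ_lim : Tendsto δ atTop (𝓝 0)
  cap : ∀ k, Cap b (δ k) (η k)
  sol : ∀ k, SolC (η k) (F k) (c k)
  m_pos : ∀ k, 0 < m k
  m_lim : Tendsto m atTop atTop
  bound : ∀ k X, wmass (η k) (F k) (c k) N r X ≤ ENNReal.ofReal (m k)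
  near : ∀ k, ENNReal.ofReal (m k / 2) ≤ wmass (η k) (F k) (c k) N r (X k)

theorem Cap.mono_delta {b δ δ' : ℝ} {η : ℝ → ℝ} (h : Cap b δ η) (hd : δ ≤ δ') : Cap b δ' η :=
  ⟨h.cont, h.nonneg, h.zero, h.mono, fun t ht => h.big t (by linarith)⟩

theorem exists_bseq {b : ℝ} {N : ℕ} {r : ℝ} (hr : r < N + 1) (hcon : ¬ AprioriBound b N r) :
    Nonempty (BSeq b N r) := by
  unfold AprioriBound at hcon
  push Not at hcon
  have h1 : ∀ k : ℕ, ∃ (η : ℝ → ℝ) (F : ℂ → ℂ) (c : ℕ → ℂ) (m X : ℝ),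
      Cap b (1 / ((k : ℝ) + 1)) η ∧ SolC η F c ∧ 0 < m ∧ (k : ℝ) ≤ m ∧
      (∀ X, wmass η F c N r X ≤ ENNReal.ofReal m) ∧
      ENNReal.ofReal (m / 2) ≤ wmass η F c N r X := by
    intro k
    have hk1 : (0 : ℝ) < 1 / ((k : ℝ) + 1) := by positivity
    obtain ⟨δ, hδ, η, F, c, hcap, hS, X, hX⟩ := hcon (1 / ((k : ℝ) + 1)) hk1
      (ENNReal.ofReal (k + 1)) ENNReal.ofReal_ne_top
    have hcap' := hcap.mono_delta hδ
    have hle : 1 / ((k : ℝ) + 1) ≤ 1 := by
      rw [div_le_one (by positivity)]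
      have : (0 : ℝ) ≤ k := Nat.cast_nonneg k
      linarith
    obtain ⟨M, hM0, hM⟩ := wmass_bdd hr hle hcap' hS
    set s : ℝ≥0∞ := ⨆ X, wmass η F c N r X with hs
    have hs1 : s ≤ ENNReal.ofReal M := iSup_le hM
    have hs2 : s ≠ ⊤ := ne_top_of_le_ne_top ENNReal.ofReal_ne_top hs1
    have hs3 : ENNReal.ofReal (k + 1) < s := lt_of_lt_of_le hX (le_iSup (fun X => wmass η F c N r X) X)
    have hs4 : (k : ℝ) + 1 < s.toReal := by
      rw [← ENNReal.ofReal_lt_ofReal_iff_of_nonneg (by positivity), ENNReal.ofReal_toReal hs2]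
      exact hs3
    have hs5 : 0 < s.toReal := by
      have : (0 : ℝ) ≤ k := Nat.cast_nonneg k
      linarith
    have hs6 : ENNReal.ofReal (s.toReal / 2) < s := by
      conv_rhs => rw [← ENNReal.ofReal_toReal hs2]
      rw [ENNReal.ofReal_lt_ofReal_iff hs5]
      linarith
    obtain ⟨X', hX'⟩ := lt_iSup_iff.mp hs6
    refine ⟨η, F, c, s.toReal, X', hcap', hS, hs5, by linarith, ?_, hX'.le⟩
    intro X
    rw [ENNReal.ofReal_toReal hs2]
    exact le_iSup (fun X => wmass η F c N r X) X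
  choose η F c m X h2 h3 h4 h5 h6 h7 using h1
  refine ⟨⟨fun k => 1 / ((k : ℝ) + 1), η, F, c, m, X, ?_, tendsto_one_div_add_atTop_nhds_zero_nat,
    h2, h3, h4, ?_, h6, h7⟩⟩
  · intro k
    rw [div_le_one (by positivity)]
    have : (0 : ℝ) ≤ k := Nat.cast_nonneg k
    linarith
  · exact tendsto_atTop_mono h5 tendsto_natCast_atTop_atTop

/-- Subsequences. -/
def BSeq.sub {b : ℝ} {N : ℕ} {r : ℝ} (B : BSeq b N r) (φ : ℕ → ℕ) (hφ : StrictMono φ) :
    BSeq b N r where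
  δ := B.δ ∘ φ
  η := B.η ∘ φ
  F := B.F ∘ φ
  c := B.c ∘ φ
  m := B.m ∘ φ
  X := B.X ∘ φ
  δ_le _ := B.δ_le _
  δ_lim := B.δ_lim.comp hφ.tendsto_atTop
  cap _ := B.cap _
  sol _ := B.sol _
  m_pos _ := B.m_pos _
  m_lim := B.m_lim.comp hφ.tendsto_atTop
  bound _ := B.bound _
  near _ := B.near _

/-- Uniform bound for `∫|F|²` as a real number. -/
theorem sol_sq_le' {b : ℝ} (hb : 0 ≤ b) : ∃ K : ℝ, 0 ≤ K ∧ ∀ (δ : ℝ) (η : ℝ → ℝ) (F : ℂ → ℂ)
    (c : ℕ → ℂ), δ ≤ 1 → Cap b δ η → SolC η F c →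
    ∫⁻ w, ‖F w‖ₑ ^ 2 ∂(mu η) ≤ ENNReal.ofReal K := by
  obtain ⟨K, hK, h⟩ := sol_sq_le hb
  refine ⟨K.toReal, ENNReal.toReal_nonneg, ?_⟩
  rw [ENNReal.ofReal_toReal hK]
  exact h

/-- The points of near maximal mass tend to `-∞`. -/
theorem BSeq.X_lim {b : ℝ} (hb : 0 < b) {N : ℕ} {r : ℝ} (hr : N < r) (B : BSeq b N r) :
    Tendsto B.X atTop atBot := by
  have hpi := Real.pi_pos
  have hr0 : 0 < r := lt_of_le_of_lt (Nat.cast_nonneg N) hr
  rw [tendsto_atBot]
  intro L'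
  -- set L = |L'|+1
  set L : ℝ := |L'| + 1 with hL
  have hL0 : 0 < L := by positivity
  obtain ⟨K, hK, hFK⟩ := sol_sq_le' (b := b) (by linarith)
  obtain ⟨V', hV', hV⟩ := mu_exp_le b (a := 0) (by norm_num)
  set V : ℝ := V'.toReal with hVdef
  have hV0 : 0 ≤ V := ENNReal.toReal_nonneg
  set W : ℝ := Real.exp (2 * r * (L + 1)) with hW
  have hW0 : 0 < W := Real.exp_pos _
  set D : ℝ := W * (4 * (2 ^ N) ^ 2 * (V + 1)) with hD
  have hD0 : 0 < D := by positivity
  set ε : ℝ := √(1 / (4 * D)) with hε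
  have hε0 : 0 < ε := by positivity
  have hε2 : ε ^ 2 = 1 / (4 * D) := Real.sq_sqrt (by positivity)
  obtain ⟨A, hA, hcoef⟩ := coef_small hb hr hK hε0
  have key : ∀ k, -L ≤ B.X k → B.m k ≤ 4 * (W * (2 * K) + D * A ^ 2) := by
    intro k hk
    have hm := B.m_pos k
    have hcap := B.cap k
    have hS := B.sol k
    have hsum := hcoef (B.δ k) (B.η k) (B.F k) (B.c k) (B.m k) hm.le (B.δ_le k) hcap hS
      (hFK _ _ _ _ (B.δ_le k) hcap hS) (B.bound k)
    have hVk := hV (B.δ k) (B.η k) (B.δ_le k) hcap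
    simp only [zero_mul, Real.exp_zero, ENNReal.ofReal_one, lintegral_const, one_mul] at hVk
    have h1 : wmass (B.η k) (B.F k) (B.c k) N r (B.X k) ≤
        ENNReal.ofReal W * (2 * ENNReal.ofReal K +
          ENNReal.ofReal (2 * (2 ^ N * (A + ε * √(B.m k))) ^ 2) * ENNReal.ofReal V) := by
      rw [wmass_eq]
      have h2 : ∫⁻ w in {w : ℂ | |w.re - B.X k| ≤ 1},
          ‖B.F k w - poly (B.c k) N w‖ₑ ^ 2 * ENNReal.ofReal (Real.exp (-2 * r * w.re)) ∂(mu (B.η k)) ≤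
          ∫⁻ w, ENNReal.ofReal W * (2 * ‖B.F k w‖ₑ ^ 2 +
            ENNReal.ofReal (2 * (2 ^ N * (A + ε * √(B.m k))) ^ 2)) ∂(mu (B.η k)) := by
        have hms : MeasurableSet {w : ℂ | |w.re - B.X k| ≤ 1} :=
          (isClosed_le (by fun_prop) continuous_const).measurableSet
        rw [← lintegral_indicator hms]
        apply lintegral_mono_ae
        filter_upwards [ae_mem_Q hcap (B.δ_le k)] with w hw
        by_cases hwX : w ∈ {w : ℂ | |w.re - B.X k| ≤ 1}
        · rw [indicator_of_mem hwX]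
          have h3 : -(L + 1) ≤ w.re := by
            have h3' : |w.re - B.X k| ≤ 1 := hwX
            have := (abs_le.mp h3').1
            linarith
          have h4 : Real.exp (-2 * r * w.re) ≤ W := by
            apply Real.exp_le_exp.mpr
            nlinarith
          have h5 : ‖B.F k w - poly (B.c k) N w‖ ^ 2 ≤ 2 * ‖B.F k w‖ ^ 2 +
              2 * (2 ^ N * (A + ε * √(B.m k))) ^ 2 := by
            have h6 := norm_sub_le (B.F k w) (poly (B.c k) N w)
            have h7 : ‖poly (B.c k) N w‖ ≤ 2 ^ N * (A + ε * √(B.m k)) :=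
              (norm_poly_le hw _ _).trans (by gcongr)
            have h8 : ‖B.F k w - poly (B.c k) N w‖ ≤ ‖B.F k w‖ + 2 ^ N * (A + ε * √(B.m k)) := by
              linarith
            calc ‖B.F k w - poly (B.c k) N w‖ ^ 2 ≤
                (‖B.F k w‖ + 2 ^ N * (A + ε * √(B.m k))) ^ 2 := by gcongr
              _ ≤ _ := by nlinarith [sq_nonneg (‖B.F k w‖ - 2 ^ N * (A + ε * √(B.m k)))]
          rw [mul_comm]
          gcongr
          rw [← ofReal_norm, ← ofReal_norm, ← ENNReal.ofReal_pow (norm_nonneg _),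
            ← ENNReal.ofReal_pow (norm_nonneg _)]
          have h9 : (2 : ℝ≥0∞) = ENNReal.ofReal 2 := by simp
          rw [h9, ← ENNReal.ofReal_mul (by norm_num), ← ENNReal.ofReal_add (by positivity)
            (by positivity)]
          exact ENNReal.ofReal_le_ofReal h5
        · rw [indicator_of_notMem hwX]
          exact zero_le
      refine h2.trans ?_
      rw [lintegral_const_mul' _ _ ENNReal.ofReal_ne_top, lintegral_add_right _ measurable_const,
        lintegral_const_mul' _ _ (by norm_num), lintegral_const]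
      gcongr
      · exact hFK _ _ _ _ (B.δ_le k) hcap hS
      · rw [hVdef, ENNReal.ofReal_toReal hV']
        exact hVk
    have h2 := (B.near k).trans h1
    have h9 : (2 : ℝ≥0∞) = ENNReal.ofReal 2 := by simp
    rw [h9, ← ENNReal.ofReal_mul (by norm_num), ← ENNReal.ofReal_mul (by positivity),
      ← ENNReal.ofReal_add (by positivity) (by positivity), ← ENNReal.ofReal_mul hW0.le,
      ENNReal.ofReal_le_ofReal_iff (by positivity)] at h2
    have hsq : √(B.m k) ^ 2 = B.m k := Real.sq_sqrt hm.le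
    have h10 : (2 ^ N * (A + ε * √(B.m k))) ^ 2 ≤ (2 ^ N) ^ 2 * (2 * A ^ 2 + 2 * ε ^ 2 * B.m k) := by
      rw [mul_pow]
      gcongr
      nlinarith [sq_nonneg (A - ε * √(B.m k))]
    have h11 : W * (2 * K + 2 * (2 ^ N * (A + ε * √(B.m k))) ^ 2 * V) ≤
        W * (2 * K) + D * A ^ 2 + D * ε ^ 2 * B.m k := by
      rw [hD]
      have h12 : 2 * (2 ^ N * (A + ε * √(B.m k))) ^ 2 * V ≤
          2 * ((2 ^ N) ^ 2 * (2 * A ^ 2 + 2 * ε ^ 2 * B.m k)) * (V + 1) := by
        gcongr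
        linarith
      calc W * (2 * K + 2 * (2 ^ N * (A + ε * √(B.m k))) ^ 2 * V)
          ≤ W * (2 * K + 2 * ((2 ^ N) ^ 2 * (2 * A ^ 2 + 2 * ε ^ 2 * B.m k)) * (V + 1)) := by
            gcongr
        _ = _ := by ring
    have h13 : D * ε ^ 2 * B.m k = B.m k / 4 := by
      rw [hε2]
      field_simp
    rw [h13] at h11
    linarith
  have h2 : ∀ᶠ k in atTop, 4 * (W * (2 * K) + D * A ^ 2) < B.m k :=
    B.m_lim.eventually_gt_atTop _
  filter_upwards [h2] with k hk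
  by_contra hcon
  push Not at hcon
  have h3 : -L ≤ B.X k := by
    have : -|L'| ≤ L' := neg_abs_le L'
    linarith
  exact absurd (key k h3) (not_le.mpr hk)

end Pool.Agent.Worm
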