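import Mathlib
import Pool.Agent.H62.Area

/-! Sub-mean value inequalities for holomorphic functions over circles and discs (local Bergman
estimate). -/

open MeasureTheory Set Filter Topology Metric
open scoped Real ENNReal ComplexConjugate ContDiff

namespace Pool.Agent.Worm

/-- Sub-mean value property over a circle. -/
theorem enorm_le_circle {U : Set ℂ} {g : ℂ → ℂ} (hg : DifferentiableOn ℂ g U)
    {c : ℂ} {s : ℝ} (hs : 0 < s) (hsub : closedBall c s ⊆ U) :
    ENNReal.ofReal (2 * π) * ‖g c‖ₑ ≤ ∫⁻ θ in Ioo (-π) π, ‖g (c + circleMap 0 s θ)‖ₑ := by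
  have hpi := Real.pi_pos
  have h1 : Real.circleAverage g c s = g c := by
    apply DiffContOnCl.circleAverage
    rw [abs_of_pos hs]
    refine DifferentiableOn.diffContOnCl ?_
    rw [closure_ball c hs.ne']
    exact hg.mono hsub
  rw [Real.circleAverage_eq_integral_add (-π)] at h1
  have h2 : (∫ θ in (0 : ℝ)..2 * π, g (circleMap c s (θ + -π))) =
      ∫ θ in (-π)..π, g (circleMap c s θ) := by
    rw [intervalIntegral.integral_comp_add_right (fun θ => g (circleMap c s θ))]
    congr 1 <;> ring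
  rw [h2, intervalIntegral.integral_of_le (by linarith), integral_Ioc_eq_integral_Ioo] at h1
  have h3 : (2 * π : ℝ) • g c = ∫ θ in Ioo (-π) π, g (circleMap c s θ) := by
    rw [← h1, smul_smul, mul_inv_cancel₀ (by positivity), one_smul]
  calc ENNReal.ofReal (2 * π) * ‖g c‖ₑ = ‖(2 * π : ℝ) • g c‖ₑ := by
        rw [enorm_smul, Real.enorm_of_nonneg (by positivity)]
    _ = ‖∫ θ in Ioo (-π) π, g (circleMap c s θ)‖ₑ := by rw [h3]
    _ ≤ ∫⁻ θ in Ioo (-π) π, ‖g (circleMap c s θ)‖ₑ := enorm_integral_le_lintegral_enorm _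
    _ = _ := by
        apply lintegral_congr
        intro θ
        simp [circleMap]

/-- Sub-mean value property over a disc. -/
theorem enorm_le_area {U : Set ℂ} {g : ℂ → ℂ} (hg : DifferentiableOn ℂ g U)
    {c : ℂ} {R : ℝ} (hR : 0 < R) (hsub : ball c R ⊆ U) :
    ENNReal.ofReal (π * R ^ 2) * ‖g c‖ₑ ≤ ∫⁻ z in ball c R, ‖g z‖ₑ := by
  have hpi := Real.pi_pos
  classical
  set φ : ℂ → ℝ≥0∞ := (ball (0 : ℂ) R).piecewise (fun z => ‖g (c + z)‖ₑ) (fun _ => 0) with hφ
  have hcont : ContinuousOn (fun z => ‖g (c + z)‖ₑ) (ball (0 : ℂ) R) := by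
    have : ContinuousOn (fun z => g (c + z)) (ball (0 : ℂ) R) := by
      refine hg.continuousOn.comp (by fun_prop) ?_
      intro z hz
      apply hsub
      simpa [mem_ball, dist_eq_norm] using hz
    exact this.enorm
  have hmeas : Measurable φ :=
    ContinuousOn.measurable_piecewise hcont continuousOn_const measurableSet_ball
  have h1 : ∫⁻ z in ball c R, ‖g z‖ₑ = ∫⁻ z, φ z := by
    have e1 : ∀ z, (ball c R).indicator (fun z => ‖g z‖ₑ) (c + z) = φ z := by
      intro z
      simp only [hφ, piecewise, indicator, mem_ball, dist_eq_norm, add_sub_cancel_left, sub_zero]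
    rw [← lintegral_indicator measurableSet_ball, ← lintegral_add_left_eq_self _ c]
    exact lintegral_congr e1
  rw [h1, Pool.Agent.H62.lintegral_polar hmeas]
  have h2 : ∀ s ∈ Ioo (0 : ℝ) R, ENNReal.ofReal s * (ENNReal.ofReal (2 * π) * ‖g c‖ₑ) ≤
      ENNReal.ofReal s * ∫⁻ θ in Ioo (-π) π, φ (circleMap 0 s θ) := by
    intro s hs
    gcongr
    refine (enorm_le_circle hg hs.1 ((closedBall_subset_ball hs.2).trans hsub)).trans ?_
    apply lintegral_mono
    intro θ
    have : circleMap 0 s θ ∈ ball (0 : ℂ) R := by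
      simp only [mem_ball, dist_zero_right, norm_circleMap_zero, abs_of_pos hs.1]
      exact hs.2
    simp only [hφ, piecewise, this, if_true, le_refl]
  calc ENNReal.ofReal (π * R ^ 2) * ‖g c‖ₑ
      = ∫⁻ s in Ioo (0 : ℝ) R, ENNReal.ofReal s * (ENNReal.ofReal (2 * π) * ‖g c‖ₑ) := by
        rw [lintegral_mul_const _ (by fun_prop), ← ofReal_integral_eq_lintegral_ofReal]
        · rw [← integral_Ioc_eq_integral_Ioo, ← intervalIntegral.integral_of_le hR.le,
            integral_id, ← mul_assoc, ← ENNReal.ofReal_mul (by nlinarith [sq_nonneg R])]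
          congr 2
          ring
        · exact (continuous_id.integrableOn_Icc).mono_set Ioo_subset_Icc_self
        · filter_upwards [ae_restrict_mem measurableSet_Ioo] with s hs using hs.1.le
    _ ≤ ∫⁻ s in Ioo (0 : ℝ) R, ENNReal.ofReal s * ∫⁻ θ in Ioo (-π) π, φ (circleMap 0 s θ) :=
        setLIntegral_mono' measurableSet_Ioo h2
    _ ≤ _ := lintegral_mono_set Ioo_subset_Ioi_self

/-- Local Bergman estimate. -/
theorem enorm_sq_le_area {U : Set ℂ} {g : ℂ → ℂ} (hg : DifferentiableOn ℂ g U)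
    {c : ℂ} {R : ℝ} (hR : 0 < R) (hsub : ball c R ⊆ U) :
    ENNReal.ofReal (π * R ^ 2) * ‖g c‖ₑ ^ 2 ≤ ∫⁻ z in ball c R, ‖g z‖ₑ ^ 2 := by
  have := enorm_le_area (hg.pow 2) hR hsub
  simpa [enorm_pow] using this

end Pool.Agent.Worm
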