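import Mathlib
import Pool.Agent.Worm.Defs
import Pool.Agent.Worm.MeanValue

/-!
# A Liouville theorem on the model strip at `-∞` (module LIOU)

A holomorphic function on the strip `|Im w| < b + π/2` whose window `L²` norms against
`e^{-2 r Re w}` are bounded and which is orthogonal to all the functions
`e^{-(1+r) w - (w - x₀)²}` vanishes identically, provided `r > 0` is not an integer and
`sin (2 r b) ≠ 0`.
-/

open MeasureTheory Set Filter Topology Metric FourierTransform SchwartzMap
open scoped Real ENNReal ComplexConjugate ContDiff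

namespace Pool.Agent.Worm

namespace Liou

/-- `expM` of an interval. -/
theorem expM_Ioo (l u : ℝ) : expM (Ioo l u) = ENNReal.ofReal (Real.exp u - Real.exp l) := by
  rw [expM, withDensity_apply _ measurableSet_Ioo]
  rcases le_or_gt l u with h | h
  · rw [← ofReal_integral_eq_lintegral_ofReal]
    · rw [← integral_Ioc_eq_integral_Ioo, ← intervalIntegral.integral_of_le h, integral_exp]
    · exact (Real.continuous_exp.integrableOn_Icc).mono_set Ioo_subset_Icc_self
    · exact Eventually.of_forall fun t => (Real.exp_pos t).le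
  · rw [Ioo_eq_empty (not_lt.2 h.le), Measure.restrict_empty, lintegral_zero_measure,
      ENNReal.ofReal_of_nonpos]
    have := Real.exp_le_exp.2 h.le
    linarith

/-- The weight `ω₀`. -/
noncomputable def om (b y : ℝ) : ℝ :=
  Real.exp (min b (y + π / 2)) - Real.exp (max (-b) (y - π / 2))

theorem continuous_om (b : ℝ) : Continuous (om b) := by
  unfold om
  fun_prop

theorem om_pos_iff {b y : ℝ} (hb : 0 < b) : 0 < om b y ↔ |y| < b + π / 2 := by
  have hpi := Real.pi_pos
  rw [om, sub_pos, Real.exp_lt_exp, abs_lt, max_lt_iff, lt_min_iff, lt_min_iff]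
  constructor
  · rintro ⟨⟨h1, h2⟩, h3, h4⟩
    constructor <;> linarith
  · rintro ⟨h1, h2⟩
    refine ⟨⟨by linarith, by linarith⟩, by linarith, by linarith⟩

theorem slice_eq (b y : ℝ) :
    {t : ℝ | |t| < b ∧ |y - t| < π / 2} = Ioo (max (-b) (y - π / 2)) (min b (y + π / 2)) := by
  ext t
  simp only [mem_ofPred_eq, mem_Ioo, abs_lt, max_lt_iff, lt_min_iff]
  constructor
  · rintro ⟨⟨h1, h2⟩, h3, h4⟩
    refine ⟨⟨by linarith, by linarith⟩, by linarith, by linarith⟩
  · rintro ⟨⟨h1, h2⟩, h3, h4⟩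
    refine ⟨⟨by linarith, by linarith⟩, by linarith, by linarith⟩

theorem measurableSet_totI (b : ℝ) : MeasurableSet (totI b) := by
  have h1 : Measurable fun p : ℝ × ℂ => |p.1| := measurable_fst.abs
  have h2 : Measurable fun p : ℝ × ℂ => |p.2.im - p.1| :=
    ((Complex.measurable_im.comp measurable_snd).sub measurable_fst).abs
  exact (measurableSet_lt h1 measurable_const).inter (measurableSet_lt h2 measurable_const)

theorem sFinite_expM : SFinite expM := by
  unfold expM
  infer_instance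

theorem sFinite_areaM : SFinite areaM := by
  unfold areaM
  infer_instance

theorem muI_eq (b : ℝ) : muI b = (volume : Measure ℂ).withDensity
    (fun w => ENNReal.ofReal (Real.exp (2 * w.re)) * ENNReal.ofReal (om b w.im)) := by
  ext s hs
  have := sFinite_expM
  have := sFinite_areaM
  have hA : Measurable fun w : ℂ => ENNReal.ofReal (Real.exp (2 * w.re)) := by fun_prop
  have hB : Measurable fun w : ℂ => ENNReal.ofReal (om b w.im) :=
    ((continuous_om b).measurable.comp Complex.measurable_im).ennreal_ofReal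
  rw [muI, Measure.map_apply measurable_snd hs, Measure.restrict_apply (measurable_snd hs),
    Measure.prod_apply_symm ((measurable_snd hs).inter (measurableSet_totI b)),
    withDensity_apply _ hs]
  have h1 : ∀ w : ℂ, expM ((fun t => (t, w)) ⁻¹' (Prod.snd ⁻¹' s ∩ totI b)) =
      s.indicator (fun w => ENNReal.ofReal (om b w.im)) w := by
    intro w
    by_cases hw : w ∈ s
    · rw [indicator_of_mem hw, om, ← expM_Ioo, ← slice_eq]
      congr 1
      ext t
      simp [hw, totI]
    · rw [indicator_of_notMem hw]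
      have : (fun t => (t, w)) ⁻¹' (Prod.snd ⁻¹' s ∩ totI b) = (∅ : Set ℝ) := by
        ext t
        simp [hw]
      rw [this, measure_empty]
  simp_rw [h1]
  rw [lintegral_indicator hs, areaM, setLIntegral_withDensity_eq_setLIntegral_mul _ hA hB hs]
  rfl

theorem measurable_dens (b : ℝ) : Measurable
    (fun w : ℂ => ENNReal.ofReal (Real.exp (2 * w.re)) * ENNReal.ofReal (om b w.im)) := by
  have hA : Measurable fun w : ℂ => ENNReal.ofReal (Real.exp (2 * w.re)) := by fun_prop
  have hB : Measurable fun w : ℂ => ENNReal.ofReal (om b w.im) :=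
    ((continuous_om b).measurable.comp Complex.measurable_im).ennreal_ofReal
  exact hA.mul hB

theorem measurableSet_win (X : ℝ) : MeasurableSet {w : ℂ | |w.re - X| ≤ 1} := by
  have : IsClosed {w : ℂ | |w.re - X| ≤ 1} := isClosed_le (by fun_prop) (by fun_prop)
  exact this.measurableSet

/-- The function `h = H e^{(1-r)w}`. -/
noncomputable def hh (r : ℝ) (H : ℂ → ℂ) (w : ℂ) : ℂ := H w * Complex.exp ((1 - r) * w)

theorem enorm_hh (r : ℝ) (H : ℂ → ℂ) (w : ℂ) : ‖hh r H w‖ₑ ^ 2 =
    ENNReal.ofReal (Real.exp (2 * w.re)) * (‖H w‖ₑ ^ 2 *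
      ENNReal.ofReal (Real.exp (-2 * r * w.re))) := by
  have h1 : ‖Complex.exp ((1 - r) * w)‖ₑ = ENNReal.ofReal (Real.exp ((1 - r) * w.re)) := by
    rw [← ofReal_norm, Complex.norm_exp]
    congr 2
    simp
  have h2 : ENNReal.ofReal (Real.exp ((1 - r) * w.re)) ^ 2 =
      ENNReal.ofReal (Real.exp (2 * w.re)) * ENNReal.ofReal (Real.exp (-2 * r * w.re)) := by
    rw [← ENNReal.ofReal_pow (Real.exp_pos _).le, ← ENNReal.ofReal_mul (Real.exp_pos _).le,
      ← Real.exp_add, ← Real.exp_nat_mul]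
    congr 2
    push_cast
    ring
  rw [hh, enorm_mul, mul_pow, h1, h2]
  ring

theorem win_hh {b r : ℝ} {H : ℂ → ℂ} {C : ℝ≥0∞}
    (hwin : ∀ X : ℝ, ∫⁻ w in {w | |w.re - X| ≤ 1},
      ‖H w‖ₑ ^ 2 * ENNReal.ofReal (Real.exp (-2 * r * w.re)) ∂(muI b) ≤ C) (X : ℝ) :
    ∫⁻ w in {w : ℂ | |w.re - X| ≤ 1}, ‖hh r H w‖ₑ ^ 2 * ENNReal.ofReal (om b w.im) ≤ C := by
  refine le_trans (le_of_eq ?_) (hwin X)
  rw [muI_eq, setLIntegral_withDensity_eq_setLIntegral_mul_non_measurable _ (measurable_dens b) _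
    (measurableSet_win X)]
  · apply lintegral_congr
    intro w
    rw [enorm_hh, Pi.mul_apply]
    ring
  · exact Eventually.of_forall fun w => ENNReal.mul_lt_top ENNReal.ofReal_lt_top
      ENNReal.ofReal_lt_top

theorem differentiableOn_hh {r : ℝ} {H : ℂ → ℂ} {U : Set ℂ} (hH : DifferentiableOn ℂ H U) :
    DifferentiableOn ℂ (hh r H) U := by
  unfold hh
  exact hH.mul (by fun_prop)

/-- `h` is bounded on the smaller strips. -/
theorem bound_hh {b r : ℝ} (hb : 0 < b) {H : ℂ → ℂ}
    (hH : DifferentiableOn ℂ H {w | |w.im| < b + π / 2}) {C : ℝ≥0∞} (hC : C ≠ ⊤)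
    (hwin : ∀ X : ℝ, ∫⁻ w in {w : ℂ | |w.re - X| ≤ 1},
      ‖hh r H w‖ₑ ^ 2 * ENNReal.ofReal (om b w.im) ≤ C) {β : ℝ} (hβ : β < b + π / 2) :
    ∃ K : ℝ, 0 ≤ K ∧ ∀ w : ℂ, |w.im| ≤ β → ‖hh r H w‖ ≤ K := by
  rcases lt_or_ge β 0 with hneg | hβ0
  · exact ⟨0, le_rfl, fun w hw => absurd (abs_nonneg w.im) (by linarith)⟩
  set β' := (β + (b + π / 2)) / 2 with hβ'
  have h1 : β < β' := by rw [hβ']; linarith
  have h2 : β' < b + π / 2 := by rw [hβ']; linarith
  obtain ⟨y₀, hy₀, hmin⟩ := (isCompact_Icc (a := -β') (b := β')).exists_isMinOn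
    (nonempty_Icc.2 (by linarith)) (continuous_om b).continuousOn
  have hm : 0 < om b y₀ := (om_pos_iff hb).2 (lt_of_le_of_lt (abs_le.2 ⟨hy₀.1, hy₀.2⟩) h2)
  set m := om b y₀ with hmdef
  set ρ := min 1 (β' - β) with hρ
  have hρ0 : 0 < ρ := lt_min one_pos (by linarith)
  have key : ∀ w : ℂ, |w.im| ≤ β → ENNReal.ofReal (π * ρ ^ 2) * ‖hh r H w‖ₑ ^ 2 ≤
      (ENNReal.ofReal m)⁻¹ * C := by
    intro w hw
    have hball : ∀ z ∈ ball w ρ, |z.im| < β' ∧ |z.re - w.re| ≤ 1 := by
      intro z hz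
      rw [mem_ball, dist_eq_norm] at hz
      have e1 : |(z - w).im| < ρ := lt_of_le_of_lt (Complex.abs_im_le_norm _) hz
      have e2 : |(z - w).re| < ρ := lt_of_le_of_lt (Complex.abs_re_le_norm _) hz
      rw [Complex.sub_im] at e1
      rw [Complex.sub_re] at e2
      constructor
      · have : |z.im| ≤ |z.im - w.im| + |w.im| := by
          have := abs_add_le (z.im - w.im) w.im
          simpa using this
        have : ρ ≤ β' - β := min_le_right _ _
        linarith
      · exact (e2.le).trans (min_le_left _ _)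
    refine (enorm_sq_le_area (differentiableOn_hh hH) hρ0 (fun z hz => ?_)).trans ?_
    · exact (hball z hz).1.trans h2
    · have e3 : ∀ z ∈ ball w ρ, ‖hh r H z‖ₑ ^ 2 ≤
          (ENNReal.ofReal m)⁻¹ * (‖hh r H z‖ₑ ^ 2 * ENNReal.ofReal (om b z.im)) := by
        intro z hz
        have e4 : m ≤ om b z.im := hmin ⟨(abs_le.1 (hball z hz).1.le).1, (abs_le.1 (hball z hz).1.le).2⟩
        calc ‖hh r H z‖ₑ ^ 2 = (ENNReal.ofReal m)⁻¹ * (‖hh r H z‖ₑ ^ 2 * ENNReal.ofReal m) := by
              rw [mul_comm (‖hh r H z‖ₑ ^ 2), ← mul_assoc, ENNReal.inv_mul_cancel, one_mul]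
              · simpa using hm
              · exact ENNReal.ofReal_ne_top
          _ ≤ _ := by gcongr
      calc ∫⁻ z in ball w ρ, ‖hh r H z‖ₑ ^ 2 ≤ ∫⁻ z in ball w ρ, (ENNReal.ofReal m)⁻¹ *
            (‖hh r H z‖ₑ ^ 2 * ENNReal.ofReal (om b z.im)) :=
            setLIntegral_mono' measurableSet_ball e3
        _ = (ENNReal.ofReal m)⁻¹ * ∫⁻ z in ball w ρ,
            (‖hh r H z‖ₑ ^ 2 * ENNReal.ofReal (om b z.im)) := by
            rw [lintegral_const_mul' _ _ (by simpa using hm)]
        _ ≤ (ENNReal.ofReal m)⁻¹ * ∫⁻ z in {z : ℂ | |z.re - w.re| ≤ 1},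
            (‖hh r H z‖ₑ ^ 2 * ENNReal.ofReal (om b z.im)) := by
            gcongr
            exact fun z hz => (hball z hz).2
        _ ≤ _ := by gcongr; exact hwin _
  set K2 : ℝ≥0∞ := (ENNReal.ofReal (π * ρ ^ 2))⁻¹ * ((ENNReal.ofReal m)⁻¹ * C) with hK2
  have hpos : 0 < π * ρ ^ 2 := by positivity
  have hK2t : K2 ≠ ⊤ := by
    rw [hK2]
    refine ENNReal.mul_ne_top (ENNReal.inv_ne_top.2 (by simpa using hpos)) (ENNReal.mul_ne_top
      (ENNReal.inv_ne_top.2 (by simpa using hm)) hC)
  have key2 : ∀ w : ℂ, |w.im| ≤ β → ‖hh r H w‖ₑ ^ 2 ≤ K2 := by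
    intro w hw
    calc ‖hh r H w‖ₑ ^ 2 = (ENNReal.ofReal (π * ρ ^ 2))⁻¹ * (ENNReal.ofReal (π * ρ ^ 2) *
          ‖hh r H w‖ₑ ^ 2) := by
          rw [← mul_assoc, ENNReal.inv_mul_cancel (by simpa using hpos) ENNReal.ofReal_ne_top,
            one_mul]
      _ ≤ _ := mul_le_mul' le_rfl (key w hw)
  refine ⟨Real.sqrt K2.toReal, Real.sqrt_nonneg _, fun w hw => ?_⟩
  apply Real.le_sqrt_of_sq_le
  have := ENNReal.toReal_mono hK2t (key2 w hw)
  simpa using this

theorem integrable_gauss (K x₀ : ℝ) : Integrable fun x : ℝ => K * Real.exp (-(x - x₀) ^ 2) := by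
  have h := (integrable_exp_neg_mul_sq (b := 1) one_pos).comp_sub_right x₀
  simpa using h.const_mul K

/-- Horizontal contours can be shifted. -/
theorem shift {β : ℝ} {f : ℂ → ℂ} (hf : DifferentiableOn ℂ f {w | |w.im| < β}) {y : ℝ}
    (hy : |y| < β) {K x₀ : ℝ} (hK : ∀ w : ℂ, |w.im| ≤ |y| → ‖f w‖ ≤ K * Real.exp (-(w.re - x₀) ^ 2)) :
    ∫ x : ℝ, f (x + y * Complex.I) = ∫ x : ℝ, f x := by
  have hcont : ContinuousOn f {w | |w.im| < β} := hf.continuousOn
  have hK0 : 0 ≤ K := by
    have := (norm_nonneg _).trans (hK x₀ (by simp))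
    simpa using this
  have hint : ∀ s : ℝ, |s| ≤ |y| → Integrable fun x : ℝ => f (x + s * Complex.I) := by
    intro s hs
    refine (integrable_gauss K x₀).mono' ?_ ?_
    · apply Continuous.aestronglyMeasurable
      apply hcont.comp_continuous (by fun_prop)
      intro x
      simpa using hs.trans_lt hy
    · refine Eventually.of_forall fun x => ?_
      have := hK (x + s * Complex.I) (by simpa using hs)
      simpa using this
  have h0 : Integrable fun x : ℝ => f x := by
    have := hint 0 (by simp)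
    simpa using this
  have hrect : ∀ T : ℝ, (∫ x : ℝ in -T..T, f x) - (∫ x : ℝ in -T..T, f (x + y * Complex.I)) =
      Complex.I * (∫ s : ℝ in (0 : ℝ)..y, f (-T + s * Complex.I)) -
      Complex.I * (∫ s : ℝ in (0 : ℝ)..y, f (T + s * Complex.I)) := by
    intro T
    have := Complex.integral_boundary_rect_eq_zero_of_differentiableOn f (-T : ℂ)
      (T + y * Complex.I) (by
        refine hf.mono ?_
        intro w hw
        have h1 : w.im ∈ uIcc (0 : ℝ) y := by simpa using hw.2
        have h2 : |w.im| ≤ |y| := by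
          rcases mem_uIcc.1 h1 with h | h
          · rw [abs_of_nonneg h.1]; exact h.2.trans (le_abs_self _)
          · rw [abs_of_nonpos h.2]; exact (neg_le_neg h.1).trans (neg_le_abs _)
        exact h2.trans_lt hy)
    simp only [Complex.neg_im, Complex.ofReal_im, neg_zero, Complex.ofReal_zero, zero_mul, add_zero,
      Complex.neg_re, Complex.ofReal_re, Complex.add_re, Complex.mul_re, Complex.I_re, mul_zero,
      Complex.I_im, sub_self, Complex.add_im, Complex.mul_im, mul_one, zero_add,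
      smul_eq_mul, Complex.ofReal_neg] at this
    linear_combination this
  have hvert : ∀ σ : ℝ, |σ| = 1 → Tendsto (fun T : ℝ => Complex.I *
      ∫ s : ℝ in (0 : ℝ)..y, f ((σ * T : ℝ) + s * Complex.I)) atTop (𝓝 0) := by
    intro σ hσ
    have hbd : ∀ T : ℝ, ‖Complex.I * ∫ s : ℝ in (0 : ℝ)..y, f ((σ * T : ℝ) + s * Complex.I)‖ ≤
        K * Real.exp (-(σ * T - x₀) ^ 2) * |y - 0| := by
      intro T
      rw [norm_mul, Complex.norm_I, one_mul]
      apply intervalIntegral.norm_integral_le_of_norm_le_const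
      intro s hs
      have h2 : |s| ≤ |y| := by
        rcases mem_uIoc.1 hs with h | h
        · rw [abs_of_pos h.1]; exact h.2.trans (le_abs_self _)
        · rw [abs_of_nonpos h.2]; exact (neg_le_neg h.1.le).trans (neg_le_abs _)
      have := hK ((σ * T : ℝ) + s * Complex.I) (by simpa using h2)
      simpa using this
    refine squeeze_zero_norm hbd ?_
    have h3 : Tendsto (fun T : ℝ => (σ * T - x₀) ^ 2) atTop atTop := by
      have h4 : ∀ T : ℝ, (σ * T - x₀) ^ 2 = (T - σ * x₀) ^ 2 := by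
        intro T
        have : σ ^ 2 = 1 := by rw [← sq_abs, hσ, one_pow]
        linear_combination (T ^ 2 - x₀ ^ 2) * this
      simp_rw [h4]
      exact (tendsto_pow_atTop (by norm_num)).comp (tendsto_atTop_add_const_right _ _ tendsto_id)
    have h5 := ((Real.tendsto_exp_neg_atTop_nhds_zero.comp h3).const_mul K).mul_const |y - 0|
    simpa using h5
  have hL := intervalIntegral_tendsto_integral h0 tendsto_neg_atTop_atBot tendsto_id
  have hR := intervalIntegral_tendsto_integral (hint y le_rfl) tendsto_neg_atTop_atBot tendsto_id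
  have hV := (hvert (-1) (by simp)).sub (hvert 1 (by simp))
  have hfin := tendsto_nhds_unique (hL.sub hR) (hV.congr fun T => by
    have := hrect T
    simp only [id]
    rw [this]
    simp)
  rw [sub_zero] at hfin
  exact (sub_eq_zero.1 hfin).symm

theorem om_le (b y : ℝ) : om b y ≤ Real.exp b := by
  have h1 := Real.exp_le_exp.2 (min_le_left b (y + π / 2))
  have h2 := Real.exp_pos (max (-b) (y - π / 2))
  unfold om
  linarith

theorem summable_exp_neg_abs : Summable fun n : ℤ => Real.exp (-|(n : ℝ)|) := by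
  apply Summable.of_nat_of_neg
  · simpa using Real.summable_exp_neg_nat
  · simpa using Real.summable_exp_neg_nat

/-- Window bounds imply bounds with a Gaussian weight. -/
theorem gauss_sum {F : ℂ → ℝ≥0∞} {C : ℝ≥0∞} (hC : C ≠ ⊤)
    (hF : ∀ X : ℝ, ∫⁻ w in {w : ℂ | |w.re - X| ≤ 1}, F w ≤ C) (x₀ : ℝ) :
    ∫⁻ w, F w * ENNReal.ofReal (Real.exp (-(w.re - x₀) ^ 2)) ≠ ⊤ := by
  have hcov : (⋃ n : ℤ, {w : ℂ | |w.re - (x₀ + n)| ≤ 1}) = univ := by
    rw [eq_univ_iff_forall]
    intro w
    rw [mem_iUnion]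
    refine ⟨⌊w.re - x₀⌋, ?_⟩
    have h1 := Int.floor_le (w.re - x₀)
    have h2 := (Int.lt_floor_add_one (w.re - x₀)).le
    rw [mem_ofPred_eq, abs_le]
    constructor <;> linarith
  have hterm : ∀ n : ℤ, ∫⁻ w in {w : ℂ | |w.re - (x₀ + n)| ≤ 1},
      F w * ENNReal.ofReal (Real.exp (-(w.re - x₀) ^ 2)) ≤
      C * ENNReal.ofReal (Real.exp (5 / 4) * Real.exp (-|(n : ℝ)|)) := by
    intro n
    calc ∫⁻ w in {w : ℂ | |w.re - (x₀ + n)| ≤ 1},
          F w * ENNReal.ofReal (Real.exp (-(w.re - x₀) ^ 2))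
        ≤ ∫⁻ w in {w : ℂ | |w.re - (x₀ + n)| ≤ 1},
          F w * ENNReal.ofReal (Real.exp (5 / 4) * Real.exp (-|(n : ℝ)|)) := by
          apply setLIntegral_mono' (measurableSet_win _)
          intro w hw
          rw [mem_ofPred_eq] at hw
          gcongr
          rw [← Real.exp_add]
          apply Real.exp_le_exp.2
          have h3 : |(n : ℝ)| ≤ |w.re - x₀| + 1 := by
            have e : (n : ℝ) = (w.re - x₀) - (w.re - (x₀ + n)) := by ring
            calc |(n : ℝ)| = |(w.re - x₀) - (w.re - (x₀ + n))| := by rw [← e]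
              _ ≤ |w.re - x₀| + |w.re - (x₀ + n)| := abs_sub _ _
              _ ≤ _ := by linarith
          nlinarith [sq_nonneg (|w.re - x₀| - 1 / 2), sq_abs (w.re - x₀)]
      _ = (∫⁻ w in {w : ℂ | |w.re - (x₀ + n)| ≤ 1}, F w) *
          ENNReal.ofReal (Real.exp (5 / 4) * Real.exp (-|(n : ℝ)|)) := by
          rw [lintegral_mul_const' _ _ ENNReal.ofReal_ne_top]
      _ ≤ _ := by gcongr; exact hF _
  have hle : ∫⁻ w, F w * ENNReal.ofReal (Real.exp (-(w.re - x₀) ^ 2)) ≤
      ∑' n : ℤ, C * ENNReal.ofReal (Real.exp (5 / 4) * Real.exp (-|(n : ℝ)|)) := by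
    calc ∫⁻ w, F w * ENNReal.ofReal (Real.exp (-(w.re - x₀) ^ 2))
        = ∫⁻ w in ⋃ n : ℤ, {w : ℂ | |w.re - (x₀ + n)| ≤ 1},
          F w * ENNReal.ofReal (Real.exp (-(w.re - x₀) ^ 2)) := by
          rw [hcov, Measure.restrict_univ]
      _ ≤ _ := lintegral_iUnion_le _ _
      _ ≤ _ := ENNReal.tsum_le_tsum hterm
  refine ne_top_of_le_ne_top ?_ hle
  rw [ENNReal.tsum_mul_left]
  exact ENNReal.mul_ne_top hC (summable_exp_neg_abs.mul_left _).tsum_ofReal_ne_top

theorem win_om {b : ℝ} (hb : 0 < b) (X : ℝ) :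
    ∫⁻ w in {w : ℂ | |w.re - X| ≤ 1}, ENNReal.ofReal (om b w.im) ≤
      ENNReal.ofReal (Real.exp b) * volume (closedBall (0 : ℂ) (1 + (b + π / 2))) := by
  have h1 : ∀ w : ℂ, {w : ℂ | |w.re - X| ≤ 1}.indicator (fun w => ENNReal.ofReal (om b w.im)) w ≤
      (closedBall (X : ℂ) (1 + (b + π / 2))).indicator (fun _ => ENNReal.ofReal (Real.exp b)) w := by
    intro w
    by_cases hw : |w.re - X| ≤ 1
    · rw [indicator_of_mem (show w ∈ {w : ℂ | |w.re - X| ≤ 1} from hw)]
      by_cases hy : |w.im| < b + π / 2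
      · rw [indicator_of_mem]
        · exact ENNReal.ofReal_le_ofReal (om_le _ _)
        · rw [mem_closedBall, dist_eq_norm]
          refine (Complex.norm_le_abs_re_add_abs_im _).trans ?_
          simp only [Complex.sub_re, Complex.ofReal_re, Complex.sub_im, Complex.ofReal_im, sub_zero]
          linarith
      · rw [ENNReal.ofReal_of_nonpos (not_lt.1 fun h => hy ((om_pos_iff hb).1 h))]
        exact zero_le
    · rw [indicator_of_notMem (show w ∉ {w : ℂ | |w.re - X| ≤ 1} from hw)]
      exact zero_le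
  rw [← lintegral_indicator (measurableSet_win X)]
  refine (lintegral_mono h1).trans ?_
  rw [lintegral_indicator measurableSet_closedBall, setLIntegral_const,
    Measure.addHaar_closedBall_center]

/-- The weight as a nonnegative real function. -/
noncomputable def W (b y : ℝ) : ℝ := max (om b y) 0

theorem W_nonneg (b y : ℝ) : 0 ≤ W b y := le_max_right _ _

theorem continuous_W (b : ℝ) : Continuous (W b) := (continuous_om b).max continuous_const

theorem W_le (b y : ℝ) : W b y ≤ Real.exp b := max_le (om_le b y) (Real.exp_pos b).le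

theorem W_eq_zero {b y : ℝ} (hb : 0 < b) (hy : ¬ |y| < b + π / 2) : W b y = 0 := by
  rw [W, max_eq_right]
  exact not_lt.1 fun h => hy ((om_pos_iff hb).1 h)

/-- The integrand of the orthogonality relation. -/
noncomputable def ff (b r : ℝ) (H : ℂ → ℂ) (x₀ : ℝ) (w : ℂ) : ℂ :=
  W b w.im * (hh r H w * Complex.exp (2 * Complex.I * r * w.im - (conj w - x₀) ^ 2))

theorem orth_ff {b r : ℝ} {H : ℂ → ℂ} (x₀ : ℝ)
    (horth : ∫ w, H w * conj (Complex.exp (-(1 + r) * w - (w - x₀) ^ 2)) ∂(muI b) = 0) :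
    ∫ w, ff b r H x₀ w = 0 := by
  rw [← horth, muI_eq, integral_withDensity_eq_integral_toReal_smul (measurable_dens b)]
  · apply integral_congr_ae
    refine Eventually.of_forall fun w => ?_
    simp only
    rw [ENNReal.toReal_mul, ENNReal.toReal_ofReal (Real.exp_pos _).le, ENNReal.toReal_ofReal', ff,
      hh, ← Complex.exp_conj, ← W, Complex.real_smul]
    have e1 : ((Real.exp (2 * w.re) : ℝ) : ℂ) = Complex.exp (w + conj w) := by
      rw [Complex.add_conj]
      push_cast
      rfl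
    have e2 : (w.im : ℂ) * (2 * Complex.I) = w - conj w := by
      rw [Complex.sub_conj]
      push_cast
      ring
    rw [Complex.ofReal_mul, e1]
    have e3 : Complex.exp ((1 - r) * w) * Complex.exp (2 * Complex.I * r * w.im - (conj w - x₀) ^ 2) =
        Complex.exp (w + conj w) * Complex.exp (conj (-(1 + r) * w - (w - x₀) ^ 2)) := by
      rw [← Complex.exp_add, ← Complex.exp_add]
      congr 1
      simp only [map_sub, map_mul, map_neg, map_add, map_one, map_pow, Complex.conj_ofReal]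
      linear_combination (r : ℂ) * e2
    linear_combination (W b w.im : ℂ) * H w * e3
  · exact Eventually.of_forall fun w => ENNReal.mul_lt_top ENNReal.ofReal_lt_top
      ENNReal.ofReal_lt_top

theorem norm_exp_aux (r : ℝ) (x₀ x y : ℝ) :
    ‖Complex.exp (2 * Complex.I * r * y - (x - y * Complex.I - x₀) ^ 2)‖ =
      Real.exp (y ^ 2) * Real.exp (-(x - x₀) ^ 2) := by
  rw [Complex.norm_exp, ← Real.exp_add]
  congr 1
  simp [pow_two, Complex.mul_re, Complex.mul_im]
  ring

theorem integrable_ff {b r : ℝ} (hb : 0 < b) {H : ℂ → ℂ}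
    (hH : DifferentiableOn ℂ H {w | |w.im| < b + π / 2}) {C : ℝ≥0∞} (hC : C ≠ ⊤)
    (hwin : ∀ X : ℝ, ∫⁻ w in {w : ℂ | |w.re - X| ≤ 1},
      ‖hh r H w‖ₑ ^ 2 * ENNReal.ofReal (om b w.im) ≤ C) (x₀ : ℝ) :
    Integrable (ff b r H x₀) := by
  have hstrip : MeasurableSet {w : ℂ | |w.im| < b + π / 2} :=
    (isOpen_lt (by fun_prop) (by fun_prop)).measurableSet
  have hind : ff b r H x₀ = {w : ℂ | |w.im| < b + π / 2}.indicator (ff b r H x₀) := by
    symm
    rw [indicator_eq_self]
    intro w hw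
    by_contra hcon
    apply hw
    rw [ff, W_eq_zero hb hcon]
    simp
  rw [hind, integrable_indicator_iff hstrip]
  have hcont : ContinuousOn (ff b r H x₀) {w : ℂ | |w.im| < b + π / 2} := by
    unfold ff
    have h1 : Continuous fun w : ℂ => (W b w.im : ℂ) :=
      Complex.continuous_ofReal.comp ((continuous_W b).comp Complex.continuous_im)
    refine h1.continuousOn.mul ((differentiableOn_hh hH).continuousOn.mul ?_)
    apply Continuous.continuousOn
    fun_prop
  refine ⟨hcont.aestronglyMeasurable hstrip, ?_⟩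
  have hfin : ∫⁻ w, (ENNReal.ofReal (om b w.im) + ‖hh r H w‖ₑ ^ 2 * ENNReal.ofReal (om b w.im)) *
      ENNReal.ofReal (Real.exp (-(w.re - x₀) ^ 2)) ≠ ⊤ := by
    apply gauss_sum (C := ENNReal.ofReal (Real.exp b) * volume (closedBall (0 : ℂ) (1 + (b + π / 2)))
      + C)
    · refine ENNReal.add_ne_top.2 ⟨ENNReal.mul_ne_top ENNReal.ofReal_ne_top ?_, hC⟩
      exact (isCompact_closedBall _ _).measure_ne_top
    · intro X
      rw [lintegral_add_left]
      · exact add_le_add (win_om hb X) (hwin X)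
      · exact ((continuous_om b).measurable.comp Complex.measurable_im).ennreal_ofReal
  rw [hasFiniteIntegral_iff_enorm]
  refine lt_of_le_of_lt ?_ (ENNReal.mul_lt_top (ENNReal.ofReal_lt_top
    (r := Real.exp ((b + π / 2) ^ 2))) hfin.lt_top)
  rw [← lintegral_const_mul' _ _ ENNReal.ofReal_ne_top]
  refine le_trans ?_ (setLIntegral_le_lintegral {w : ℂ | |w.im| < b + π / 2} _)
  apply setLIntegral_mono' hstrip
  intro w hw
  have hw' : |w.im| < b + π / 2 := hw
  have e1 : ‖ff b r H x₀ w‖ₑ = ENNReal.ofReal (om b w.im) * (‖hh r H w‖ₑ *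
      (ENNReal.ofReal (Real.exp (w.im ^ 2)) * ENNReal.ofReal (Real.exp (-(w.re - x₀) ^ 2)))) := by
    rw [ff, enorm_mul, enorm_mul]
    congr 1
    · rw [← ofReal_norm, Complex.norm_real, Real.norm_of_nonneg (W_nonneg _ _), W,
        ENNReal.ofReal_max, ENNReal.ofReal_zero, max_eq_left zero_le]
    · congr 1
      rw [← ofReal_norm, ← ENNReal.ofReal_mul (Real.exp_pos _).le, ← norm_exp_aux r]
      congr 5
      apply Complex.ext <;> simp
  have e2 : Real.exp (w.im ^ 2) ≤ Real.exp ((b + π / 2) ^ 2) := by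
    apply Real.exp_le_exp.2
    rw [← sq_abs w.im]
    exact pow_le_pow_left₀ (abs_nonneg _) hw'.le 2
  have e3 : ‖hh r H w‖ₑ ≤ 1 + ‖hh r H w‖ₑ ^ 2 := by
    rcases le_total ‖hh r H w‖ₑ 1 with h | h
    · exact h.trans le_self_add
    · refine le_trans ?_ le_add_self
      rw [pow_two]
      exact le_mul_of_one_le_left zero_le h
  rw [e1]
  calc ENNReal.ofReal (om b w.im) * (‖hh r H w‖ₑ *
      (ENNReal.ofReal (Real.exp (w.im ^ 2)) * ENNReal.ofReal (Real.exp (-(w.re - x₀) ^ 2))))
      ≤ ENNReal.ofReal (om b w.im) * ((1 + ‖hh r H w‖ₑ ^ 2) *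
      (ENNReal.ofReal (Real.exp ((b + π / 2) ^ 2)) *
        ENNReal.ofReal (Real.exp (-(w.re - x₀) ^ 2)))) := by gcongr
    _ = _ := by ring

theorem hasCompactSupport_W {b : ℝ} (hb : 0 < b) : HasCompactSupport (W b) := by
  apply HasCompactSupport.intro (isCompact_Icc (a := -(b + π / 2)) (b := b + π / 2))
  intro y hy
  apply W_eq_zero hb
  intro h
  exact hy (abs_le.1 h.le)

theorem integrable_W {b : ℝ} (hb : 0 < b) : Integrable (W b) :=
  (continuous_W b).integrable_of_hasCompactSupport (hasCompactSupport_W hb)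

/-- The kernel `Γ`. -/
noncomputable def Gam (b r u : ℝ) : ℂ :=
  ∫ y : ℝ, (W b y : ℂ) * Complex.exp (2 * Complex.I * r * y - (u - 2 * y * Complex.I) ^ 2)

theorem norm_exp_aux2 (r : ℝ) (x₀ y : ℝ) (w : ℂ) :
    ‖Complex.exp (2 * Complex.I * r * y - (w - x₀ - 2 * y * Complex.I) ^ 2)‖ =
      Real.exp ((w.im - 2 * y) ^ 2) * Real.exp (-(w.re - x₀) ^ 2) := by
  rw [Complex.norm_exp, ← Real.exp_add]
  congr 1
  simp [pow_two, Complex.mul_re, Complex.mul_im]
  ring

theorem line_eq {b r : ℝ} (hb : 0 < b) {H : ℂ → ℂ}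
    (hH : DifferentiableOn ℂ H {w | |w.im| < b + π / 2}) {C : ℝ≥0∞} (hC : C ≠ ⊤)
    (hwin : ∀ X : ℝ, ∫⁻ w in {w : ℂ | |w.re - X| ≤ 1},
      ‖hh r H w‖ₑ ^ 2 * ENNReal.ofReal (om b w.im) ≤ C) (x₀ y : ℝ) :
    ∫ x : ℝ, ff b r H x₀ (x + y * Complex.I) = ∫ x : ℝ, (W b y : ℂ) * (hh r H x *
      Complex.exp (2 * Complex.I * r * y - (x - x₀ - 2 * y * Complex.I) ^ 2)) := by
  by_cases hy : |y| < b + π / 2
  · obtain ⟨K, hK0, hK⟩ := bound_hh hb hH hC hwin hy
    have hs := shift (β := b + π / 2) (y := y) (x₀ := x₀)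
      (K := W b y * (K * Real.exp ((3 * |y|) ^ 2)))
      (f := fun w => (W b y : ℂ) * (hh r H w *
      Complex.exp (2 * Complex.I * r * y - (w - x₀ - 2 * y * Complex.I) ^ 2))) ?_ hy ?_
    · rw [← hs]
      apply integral_congr_ae
      refine Eventually.of_forall fun x => ?_
      simp only [ff]
      congr 3
      · simp
      · congr 1
        congr 1
        · simp
        · simp only [map_add, map_mul, Complex.conj_ofReal, Complex.conj_I]
          ring
    · exact DifferentiableOn.const_mul ((differentiableOn_hh hH).mul (by fun_prop)) _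
    · intro w hw
      rw [norm_mul, Complex.norm_real, Real.norm_of_nonneg (W_nonneg _ _), norm_mul,
        norm_exp_aux2, mul_assoc, mul_assoc]
      apply mul_le_mul_of_nonneg_left _ (W_nonneg _ _)
      apply mul_le_mul (hK w hw) _ (by positivity) hK0
      apply mul_le_mul_of_nonneg_right _ (by positivity)
      apply Real.exp_le_exp.2
      rw [← sq_abs (w.im - 2 * y)]
      apply pow_le_pow_left₀ (abs_nonneg _)
      calc |w.im - 2 * y| ≤ |w.im| + |2 * y| := abs_sub _ _
        _ = |w.im| + 2 * |y| := by rw [abs_mul, abs_two]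
        _ ≤ _ := by linarith
  · simp [ff, W_eq_zero hb hy]

theorem real_line {b r : ℝ} (hb : 0 < b) {H : ℂ → ℂ}
    (hH : DifferentiableOn ℂ H {w | |w.im| < b + π / 2}) {C : ℝ≥0∞} (hC : C ≠ ⊤)
    (hwin : ∀ X : ℝ, ∫⁻ w in {w : ℂ | |w.re - X| ≤ 1},
      ‖hh r H w‖ₑ ^ 2 * ENNReal.ofReal (om b w.im) ≤ C) (x₀ : ℝ)
    (h0 : ∫ w, ff b r H x₀ w = 0) :
    ∫ x : ℝ, hh r H x * Gam b r (x - x₀) = 0 := by
  have hpi := Real.pi_pos
  have hint := integrable_ff (r := r) hb hH hC hwin x₀
  have hmp := Complex.volume_preserving_equiv_real_prod.symm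
  have hint2 : Integrable (fun p : ℝ × ℝ => ff b r H x₀ (p.1 + p.2 * Complex.I))
      (volume.prod volume) := by
    have := (hmp.integrable_comp_emb Complex.measurableEquivRealProd.symm.measurableEmbedding).2 hint
    refine this.congr (Eventually.of_forall fun p => ?_)
    simp only [Function.comp]
    congr 1
    apply Complex.ext <;> simp [Complex.measurableEquivRealProd]
  have e1 : ∫ w, ff b r H x₀ w = ∫ y : ℝ, ∫ x : ℝ, ff b r H x₀ (x + y * Complex.I) := by
    rw [← integral_prod_symm (fun p : ℝ × ℝ => ff b r H x₀ (p.1 + p.2 * Complex.I)) hint2,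
      ← hmp.integral_comp Complex.measurableEquivRealProd.symm.measurableEmbedding]
    apply integral_congr_ae
    refine Eventually.of_forall fun p => ?_
    simp only
    congr 1
    apply Complex.ext <;> simp [Complex.measurableEquivRealProd]
  obtain ⟨K, hK0, hK⟩ := bound_hh hb hH hC hwin (β := 0) (by linarith)
  have hcont : Continuous fun x : ℝ => hh r H x := by
    apply (differentiableOn_hh hH).continuousOn.comp_continuous Complex.continuous_ofReal
    intro x
    simp only [mem_ofPred_eq, Complex.ofReal_im, abs_zero]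
    linarith
  set G : ℝ × ℝ → ℂ := fun p => (W b p.1 : ℂ) * (hh r H p.2 *
      Complex.exp (2 * Complex.I * r * p.1 - (p.2 - x₀ - 2 * p.1 * Complex.I) ^ 2)) with hG
  have hGint : Integrable G (volume.prod volume) := by
    have hd := ((integrable_W hb).const_mul (Real.exp ((2 * (b + π / 2)) ^ 2))).mul_prod
      (integrable_gauss K x₀)
    refine hd.mono' ?_ ?_
    · apply Continuous.aestronglyMeasurable
      have h1 : Continuous fun p : ℝ × ℝ => (W b p.1 : ℂ) :=
        Complex.continuous_ofReal.comp ((continuous_W b).comp continuous_fst)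
      exact h1.mul ((hcont.comp continuous_snd).mul (by fun_prop))
    · refine Eventually.of_forall fun p => ?_
      by_cases hy : |p.1| < b + π / 2
      · simp only [hG]
        rw [norm_mul, Complex.norm_real, Real.norm_of_nonneg (W_nonneg _ _), norm_mul,
          norm_exp_aux2]
        simp only [Complex.ofReal_im, Complex.ofReal_re, zero_sub]
        have e2 : Real.exp ((-(2 * p.1)) ^ 2) ≤ Real.exp ((2 * (b + π / 2)) ^ 2) := by
          apply Real.exp_le_exp.2
          rw [neg_sq, mul_pow, mul_pow, ← sq_abs p.1]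
          have := pow_le_pow_left₀ (abs_nonneg _) hy.le 2
          linarith
        have e3 : ‖hh r H p.2‖ ≤ K := hK p.2 (by simp)
        calc W b p.1 * (‖hh r H p.2‖ * (Real.exp ((-(2 * p.1)) ^ 2) *
              Real.exp (-(p.2 - x₀) ^ 2)))
            ≤ W b p.1 * (K * (Real.exp ((2 * (b + π / 2)) ^ 2) * Real.exp (-(p.2 - x₀) ^ 2))) := by
              have := W_nonneg b p.1
              gcongr
          _ = _ := by ring
      · simp [hG, W_eq_zero hb hy]
  have e4 : ∫ y : ℝ, ∫ x : ℝ, ff b r H x₀ (x + y * Complex.I) =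
      ∫ y : ℝ, ∫ x : ℝ, G (y, x) := by
    apply integral_congr_ae
    exact Eventually.of_forall fun y => line_eq hb hH hC hwin x₀ y
  rw [e1, e4, integral_integral_swap (f := fun y x => G (y, x)) hGint] at h0
  rw [← h0]
  apply integral_congr_ae
  refine Eventually.of_forall fun x => ?_
  simp only [Gam, hG]
  rw [← integral_const_mul]
  apply integral_congr_ae
  refine Eventually.of_forall fun y => ?_
  simp only
  push_cast
  ring

theorem integrable_Gam {b : ℝ} (hb : 0 < b) (r : ℝ) : Integrable (Gam b r) := by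
  set G : ℝ × ℝ → ℂ := fun p => (W b p.2 : ℂ) *
      Complex.exp (2 * Complex.I * r * p.2 - (p.1 - 2 * p.2 * Complex.I) ^ 2) with hG
  have hGint : Integrable G (volume.prod volume) := by
    have hd := (integrable_gauss 1 0).mul_prod
      ((integrable_W hb).const_mul (Real.exp ((2 * (b + π / 2)) ^ 2)))
    refine hd.mono' ?_ ?_
    · apply Continuous.aestronglyMeasurable
      have h1 : Continuous fun p : ℝ × ℝ => (W b p.2 : ℂ) :=
        Complex.continuous_ofReal.comp ((continuous_W b).comp continuous_snd)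
      exact h1.mul (by fun_prop)
    · refine Eventually.of_forall fun p => ?_
      by_cases hy : |p.2| < b + π / 2
      · simp only [hG]
        have e0 := norm_exp_aux2 r 0 p.2 (p.1 : ℂ)
        simp only [Complex.ofReal_zero, sub_zero] at e0
        rw [norm_mul, Complex.norm_real, Real.norm_of_nonneg (W_nonneg _ _), e0]
        simp only [Complex.ofReal_im, Complex.ofReal_re, zero_sub]
        have e2 : Real.exp ((-(2 * p.2)) ^ 2) ≤ Real.exp ((2 * (b + π / 2)) ^ 2) := by
          apply Real.exp_le_exp.2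
          rw [neg_sq, mul_pow, mul_pow, ← sq_abs p.2]
          have := pow_le_pow_left₀ (abs_nonneg _) hy.le 2
          linarith
        calc W b p.2 * (Real.exp ((-(2 * p.2)) ^ 2) * Real.exp (-p.1 ^ 2))
            ≤ W b p.2 * (Real.exp ((2 * (b + π / 2)) ^ 2) * Real.exp (-p.1 ^ 2)) := by
              have := W_nonneg b p.2
              gcongr
          _ = _ := by ring_nf
      · simp [hG, W_eq_zero hb hy]
  exact hGint.integral_prod_left

/-- The Gaussian constant. -/
noncomputable def gc : ℂ := (π / -(-(π : ℂ) ^ 2)) ^ (1 / 2 : ℂ)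

theorem gauss_ft (z : ℂ) : ∫ ξ : ℝ, Complex.exp (-(π : ℂ) ^ 2 * ξ ^ 2 + 2 * π * Complex.I * z * ξ) =
    gc * Complex.exp (-z ^ 2) := by
  have hpi : (π : ℂ) ≠ 0 := Complex.ofReal_ne_zero.2 Real.pi_ne_zero
  have h := integral_cexp_quadratic (b := -(π : ℂ) ^ 2) (by
    rw [← Complex.ofReal_pow, ← Complex.ofReal_neg, Complex.ofReal_re]
    have := Real.pi_pos
    simp [Real.pi_pos]) (2 * π * Complex.I * z) 0
  simp only [add_zero] at h
  rw [h, gc]
  congr 2
  field_simp
  rw [Complex.I_sq]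
  ring

/-- The multiplier. -/
noncomputable def mm (b r ξ : ℝ) : ℂ :=
  ∫ y : ℝ, (W b y : ℂ) * Complex.exp ((2 * Complex.I * r + 4 * π * ξ) * y)

/-- The joint integrand. -/
noncomputable def GG (b r u : ℝ) (p : ℝ × ℝ) : ℂ := (W b p.1 : ℂ) *
  (Complex.exp (2 * Complex.I * r * p.1) *
    Complex.exp (-(π : ℂ) ^ 2 * p.2 ^ 2 + 2 * π * Complex.I * (u - 2 * p.1 * Complex.I) * p.2))

theorem integrable_GG {b : ℝ} (hb : 0 < b) (r u : ℝ) :
    Integrable (GG b r u) (volume.prod volume) := by
  have hpi := Real.pi_pos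
  set B := b + π / 2 with hB
  have h0 : Integrable fun ξ : ℝ => Real.exp (-(π ^ 2 / 2) * ξ ^ 2) :=
    integrable_exp_neg_mul_sq (by positivity)
  have hd := (integrable_W hb).mul_prod (h0.const_mul (Real.exp (8 * B ^ 2)))
  refine hd.mono' ?_ ?_
  · apply Continuous.aestronglyMeasurable
    have h1 : Continuous fun p : ℝ × ℝ => (W b p.1 : ℂ) :=
      Complex.continuous_ofReal.comp ((continuous_W b).comp continuous_fst)
    exact h1.mul (by fun_prop)
  · refine Eventually.of_forall fun p => ?_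
    by_cases hy : |p.1| < B
    · simp only [GG]
      rw [norm_mul, Complex.norm_real, Real.norm_of_nonneg (W_nonneg _ _), norm_mul]
      apply mul_le_mul_of_nonneg_left _ (W_nonneg _ _)
      rw [Complex.norm_exp, Complex.norm_exp, ← Real.exp_add, ← Real.exp_add]
      apply Real.exp_le_exp.2
      have e1 : (2 * Complex.I * r * (p.1 : ℂ)).re + (-(π : ℂ) ^ 2 * (p.2 : ℂ) ^ 2 +
          2 * π * Complex.I * (u - 2 * p.1 * Complex.I) * p.2).re =
          -π ^ 2 * p.2 ^ 2 + 4 * π * p.1 * p.2 := by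
        simp only [pow_two, Complex.mul_re, Complex.mul_im, Complex.I_re, Complex.I_im,
          Complex.ofReal_re, Complex.ofReal_im, Complex.add_re, Complex.neg_re, Complex.sub_re,
          Complex.sub_im, Complex.re_ofNat, Complex.im_ofNat, Complex.neg_im]
        ring
      rw [e1]
      have e2 : p.1 ^ 2 ≤ B ^ 2 := by
        rw [← sq_abs p.1]
        exact pow_le_pow_left₀ (abs_nonneg _) hy.le 2
      nlinarith [sq_nonneg (π * p.2 - 4 * p.1)]
    · simp [GG, W_eq_zero hb hy]

theorem Gam_eq {b : ℝ} (hb : 0 < b) (r u : ℝ) : gc * Gam b r u =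
    ∫ ξ : ℝ, Complex.exp (-(π : ℂ) ^ 2 * ξ ^ 2) * mm b r ξ * Complex.exp (2 * π * Complex.I * u * ξ) := by
  have e1 : gc * Gam b r u = ∫ y : ℝ, ∫ ξ : ℝ, GG b r u (y, ξ) := by
    rw [Gam, ← integral_const_mul]
    apply integral_congr_ae
    refine Eventually.of_forall fun y => ?_
    simp only [GG]
    rw [integral_const_mul, integral_const_mul, gauss_ft, Complex.exp_sub, Complex.exp_neg]
    ring
  rw [e1, integral_integral_swap (f := fun y ξ => GG b r u (y, ξ)) (integrable_GG hb r u)]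
  apply integral_congr_ae
  refine Eventually.of_forall fun ξ => ?_
  simp only [mm, GG]
  rw [← integral_const_mul, ← integral_mul_const]
  apply integral_congr_ae
  refine Eventually.of_forall fun y => ?_
  simp only
  have e3 : Complex.exp (2 * Complex.I * r * y) * Complex.exp (-(π : ℂ) ^ 2 * ξ ^ 2 +
      2 * π * Complex.I * (u - 2 * y * Complex.I) * ξ) = Complex.exp (-(π : ℂ) ^ 2 * ξ ^ 2) *
      Complex.exp ((2 * Complex.I * r + 4 * π * ξ) * y) *
      Complex.exp (2 * π * Complex.I * u * ξ) := by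
    rw [← Complex.exp_add, ← Complex.exp_add, ← Complex.exp_add]
    congr 1
    linear_combination (-4 * π * y * ξ : ℂ) * Complex.I_sq
  rw [e3]
  ring

theorem W_eq_integral (b y : ℝ) :
    (W b y : ℂ) = ∫ t : ℝ, (Ioo (-b) b).indicator (fun t => (Real.exp t : ℂ)) t *
      (Ioo (-(π / 2)) (π / 2)).indicator (fun _ => (1 : ℂ)) (y - t) := by
  have h1 : ∀ t : ℝ, (Ioo (-b) b).indicator (fun t => (Real.exp t : ℂ)) t *
      (Ioo (-(π / 2)) (π / 2)).indicator (fun _ => (1 : ℂ)) (y - t) =
      (Ioo (max (-b) (y - π / 2)) (min b (y + π / 2))).indicator (fun t => (Real.exp t : ℂ)) t := by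
    intro t
    rw [← slice_eq]
    by_cases ht : t ∈ Ioo (-b) b
    · by_cases hy : y - t ∈ Ioo (-(π / 2)) (π / 2)
      · rw [indicator_of_mem ht, indicator_of_mem hy, indicator_of_mem, mul_one]
        exact ⟨abs_lt.2 ht, abs_lt.2 hy⟩
      · rw [indicator_of_notMem hy, mul_zero, indicator_of_notMem]
        exact fun h => hy (abs_lt.1 h.2)
    · rw [indicator_of_notMem ht, zero_mul, indicator_of_notMem]
      exact fun h => ht (abs_lt.1 h.1)
  simp_rw [h1]
  rw [integral_indicator measurableSet_Ioo, integral_complex_ofReal]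
  congr 1
  rw [W, om]
  set l := max (-b) (y - π / 2)
  set u := min b (y + π / 2)
  rcases le_or_gt l u with h | h
  · rw [← integral_Ioc_eq_integral_Ioo, ← intervalIntegral.integral_of_le h, integral_exp,
      max_eq_left]
    have := Real.exp_le_exp.2 h
    linarith
  · rw [Ioo_eq_empty (not_lt.2 h.le), Measure.restrict_empty, integral_zero_measure, max_eq_right]
    have := Real.exp_le_exp.2 h.le
    linarith

/-- `∫_{-c}^{c} e^{at} dt`. -/
noncomputable def EE (c : ℝ) (a : ℂ) : ℂ := (Complex.exp (a * c) - Complex.exp (-(a * c))) / a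

theorem integral_EE {c : ℝ} (hc : 0 ≤ c) {a : ℂ} (ha : a ≠ 0) :
    ∫ t : ℝ, (Ioo (-c) c).indicator (fun t : ℝ => Complex.exp (a * t)) t = EE c a := by
  rw [integral_indicator measurableSet_Ioo, ← integral_Ioc_eq_integral_Ioo,
    ← intervalIntegral.integral_of_le (by linarith), integral_exp_mul_complex ha, EE]
  congr 3
  push_cast
  ring

theorem integrable_EE (c : ℝ) (a : ℂ) :
    Integrable ((Ioo (-c) c).indicator (fun t : ℝ => Complex.exp (a * t))) := by
  rw [integrable_indicator_iff measurableSet_Ioo]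
  apply IntegrableOn.mono_set _ Ioo_subset_Icc_self
  apply Continuous.integrableOn_Icc
  fun_prop

theorem mm_eq {b : ℝ} (hb : 0 < b) {r : ℝ} (hr : 0 < r) (ξ : ℝ) :
    mm b r ξ = EE b (1 + (2 * Complex.I * r + 4 * π * ξ)) *
      EE (π / 2) (2 * Complex.I * r + 4 * π * ξ) := by
  have hpi := Real.pi_pos
  set μ : ℂ := 2 * Complex.I * r + 4 * π * ξ with hμ
  have him : μ.im = 2 * r := by
    simp [hμ]
  have h1 : μ ≠ 0 := by
    intro h
    rw [h, Complex.zero_im] at him
    linarith
  have h2 : 1 + μ ≠ 0 := by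
    intro h
    have := congrArg Complex.im h
    rw [Complex.add_im, him, Complex.one_im, Complex.zero_im] at this
    linarith
  rw [← integral_EE hb.le h2, ← integral_EE (by positivity) h1]
  have h3 := integral_convolution (ContinuousLinearMap.mul ℝ ℂ) (integrable_EE b (1 + μ))
    (integrable_EE (π / 2) μ)
  rw [ContinuousLinearMap.mul_apply'] at h3
  rw [← h3, mm]
  apply integral_congr_ae
  refine Eventually.of_forall fun y => ?_
  simp only [MeasureTheory.convolution, ContinuousLinearMap.mul_apply']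
  rw [W_eq_integral, ← integral_mul_const]
  apply integral_congr_ae
  refine Eventually.of_forall fun t => ?_
  simp only
  by_cases ht : t ∈ Ioo (-b) b
  · by_cases hy : y - t ∈ Ioo (-(π / 2)) (π / 2)
    · rw [indicator_of_mem ht, indicator_of_mem hy, indicator_of_mem ht, indicator_of_mem hy,
        mul_one, Complex.ofReal_exp, ← Complex.exp_add, ← Complex.exp_add]
      congr 1
      push_cast
      ring
    · rw [indicator_of_notMem hy, indicator_of_notMem hy]
      ring
  · rw [indicator_of_notMem ht, indicator_of_notMem ht]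
    ring

theorem EE_ne_zero {c : ℝ} {a : ℂ} (ha : a ≠ 0) (h : ∀ n : ℤ, a * c ≠ n * (π * Complex.I)) :
    EE c a ≠ 0 := by
  rw [EE]
  apply div_ne_zero _ ha
  rw [sub_ne_zero]
  intro h1
  rw [Complex.exp_eq_exp_iff_exists_int] at h1
  obtain ⟨n, hn⟩ := h1
  apply h n
  linear_combination (1 / 2 : ℂ) * hn

theorem mm_ne_zero {b : ℝ} (hb : 0 < b) {r : ℝ} (hr : 0 < r) (hr1 : ∀ n : ℤ, r ≠ n)
    (hr2 : Real.sin (2 * r * b) ≠ 0) (ξ : ℝ) : mm b r ξ ≠ 0 := by
  have hpi := Real.pi_pos
  rw [mm_eq hb hr]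
  apply mul_ne_zero
  · apply EE_ne_zero
    · intro h
      have := congrArg Complex.im h
      simp at this
      linarith
    · intro n h
      have := congrArg Complex.im h
      simp at this
      apply hr2
      rw [show 2 * r * b = n * π by rw [← this]]
      exact Real.sin_int_mul_pi n
  · apply EE_ne_zero
    · intro h
      have := congrArg Complex.im h
      simp at this
      linarith
    · intro n h
      have := congrArg Complex.im h
      simp at this
      apply hr1 n
      have h4 : (r - n) * π = 0 := by linarith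
      rcases mul_eq_zero.1 h4 with h5 | h5
      · linarith
      · linarith

/-- The full symbol. -/
noncomputable def QQ (b r ξ : ℝ) : ℂ := Complex.exp (-(π : ℂ) ^ 2 * ξ ^ 2) * mm b r ξ

theorem QQ_ne_zero {b : ℝ} (hb : 0 < b) {r : ℝ} (hr : 0 < r) (hr1 : ∀ n : ℤ, r ≠ n)
    (hr2 : Real.sin (2 * r * b) ≠ 0) (ξ : ℝ) : QQ b r ξ ≠ 0 :=
  mul_ne_zero (Complex.exp_ne_zero _) (mm_ne_zero hb hr hr1 hr2 ξ)

theorem contDiff_QQ {b : ℝ} (hb : 0 < b) {r : ℝ} (hr : 0 < r) : ContDiff ℝ ∞ (QQ b r) := by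
  have h1 : QQ b r = fun ξ : ℝ => Complex.exp (-(π : ℂ) ^ 2 * ξ ^ 2) *
      (EE b (1 + (2 * Complex.I * r + 4 * π * ξ)) * EE (π / 2) (2 * Complex.I * r + 4 * π * ξ)) := by
    funext ξ
    rw [QQ, mm_eq hb hr]
  have hofReal : ContDiff ℝ ∞ (fun ξ : ℝ => (ξ : ℂ)) := Complex.ofRealCLM.contDiff
  have hexp : ∀ f : ℝ → ℂ, ContDiff ℝ ∞ f → ContDiff ℝ ∞ fun x => Complex.exp (f x) := by
    intro f hf
    exact hf.cexp
  have hE : ∀ (c : ℝ) (f : ℝ → ℂ), ContDiff ℝ ∞ f → (∀ x, f x ≠ 0) →
      ContDiff ℝ ∞ fun x => EE c (f x) := by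
    intro c f hf hf0
    simp only [EE, div_eq_mul_inv]
    exact ((hexp _ (hf.mul contDiff_const)).sub (hexp _ (hf.mul contDiff_const).neg)).mul
      (hf.inv hf0)
  rw [h1]
  refine (hexp _ (by fun_prop)).mul (ContDiff.mul (hE _ _ (by fun_prop) ?_)
    (hE _ _ (by fun_prop) ?_))
  · intro ξ h
    have := congrArg Complex.im h
    simp at this
    linarith
  · intro ξ h
    have := congrArg Complex.im h
    simp at this
    linarith

theorem test_eq_zero {g Γ' Q : ℝ → ℂ} (hg : Continuous g) {K : ℝ} (hgb : ∀ x, ‖g x‖ ≤ K)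
    (hΓ : Integrable Γ') (hQ : ContDiff ℝ ∞ Q) (hQ0 : ∀ ξ, Q ξ ≠ 0) (hQi : Integrable Q)
    (hΓQ : ∀ u : ℝ, Γ' u = ∫ ξ : ℝ, Q ξ * Complex.exp (2 * π * Complex.I * u * ξ))
    (h0 : ∀ x₀ : ℝ, ∫ x : ℝ, g x * Γ' (x - x₀) = 0) {ψ : ℝ → ℂ} (hψ : ContDiff ℝ ∞ ψ)
    (hψc : HasCompactSupport ψ) (x₀ : ℝ) :
    ∫ x : ℝ, g x * (∫ ξ : ℝ, Complex.exp (2 * π * Complex.I * (x - x₀ : ℝ) * ξ) * ψ ξ) = 0 := by
  have hθ : ContDiff ℝ ∞ fun ξ => ψ ξ * (Q ξ)⁻¹ := hψ.mul (hQ.inv hQ0)
  have hθc : HasCompactSupport fun ξ => ψ ξ * (Q ξ)⁻¹ := hψc.mul_right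
  set θ : 𝓢(ℝ, ℂ) := hθc.toSchwartzMap hθ with hθdef
  set κ : 𝓢(ℝ, ℂ) := 𝓕⁻ θ with hκdef
  have hκ : ∀ ξ : ℝ, ∫ v : ℝ, Complex.exp (-(2 * π * Complex.I * v * ξ)) * κ v = ψ ξ * (Q ξ)⁻¹ := by
    intro ξ
    have h1 : 𝓕 κ = θ := by
      rw [hκdef]
      exact FourierTransform.fourier_fourierInv_eq θ
    have h2 : (𝓕 κ) ξ = θ ξ := by rw [h1]
    have h3 : θ ξ = ψ ξ * (Q ξ)⁻¹ := rfl
    rw [← h3, ← h2, SchwartzMap.fourier_coe, Real.fourier_real_eq_integral_exp_smul]
    apply integral_congr_ae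
    refine Eventually.of_forall fun v => ?_
    simp only [smul_eq_mul]
    congr 2
    push_cast
    ring
  have hκi : Integrable κ := κ.integrable
  have key1 : ∀ u : ℝ, ∫ v : ℝ, κ v * Γ' (u - v) =
      ∫ ξ : ℝ, Complex.exp (2 * π * Complex.I * u * ξ) * ψ ξ := by
    intro u
    set G : ℝ × ℝ → ℂ := fun p => (κ p.1 * Q p.2) *
      Complex.exp (2 * π * Complex.I * (u - p.1 : ℝ) * p.2) with hG
    have hGint : Integrable G (volume.prod volume) := by
      refine (hκi.mul_prod hQi).mul_bdd (c := 1) ?_ ?_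
      · apply Continuous.aestronglyMeasurable
        fun_prop
      · refine Eventually.of_forall fun p => ?_
        rw [Complex.norm_exp]
        simp
    have e1 : ∫ v : ℝ, κ v * Γ' (u - v) = ∫ v : ℝ, ∫ ξ : ℝ, G (v, ξ) := by
      apply integral_congr_ae
      refine Eventually.of_forall fun v => ?_
      simp only [hG, hΓQ]
      rw [← integral_const_mul]
      apply integral_congr_ae
      refine Eventually.of_forall fun ξ => ?_
      simp only
      ring
    rw [e1, integral_integral_swap (f := fun v ξ => G (v, ξ)) hGint]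
    apply integral_congr_ae
    refine Eventually.of_forall fun ξ => ?_
    have e2 : ∫ v : ℝ, G (v, ξ) = (Q ξ * Complex.exp (2 * π * Complex.I * u * ξ)) *
        ∫ v : ℝ, Complex.exp (-(2 * π * Complex.I * v * ξ)) * κ v := by
      rw [← integral_const_mul]
      apply integral_congr_ae
      refine Eventually.of_forall fun v => ?_
      simp only [hG]
      have e3 : Complex.exp (2 * π * Complex.I * (u - v : ℝ) * ξ) =
          Complex.exp (2 * π * Complex.I * u * ξ) * Complex.exp (-(2 * π * Complex.I * v * ξ)) := by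
        rw [← Complex.exp_add]
        congr 1
        push_cast
        ring
      rw [e3]
      ring
    simp only
    rw [e2, hκ]
    have := hQ0 ξ
    field_simp
  have e4 : ∫ x : ℝ, g x * (∫ ξ : ℝ, Complex.exp (2 * π * Complex.I * (x - x₀ : ℝ) * ξ) * ψ ξ) =
      ∫ x : ℝ, ∫ v : ℝ, g x * (κ v * Γ' (x - x₀ - v)) := by
    apply integral_congr_ae
    refine Eventually.of_forall fun x => ?_
    simp only
    rw [← key1, integral_const_mul]
  have hint : Integrable (fun p : ℝ × ℝ => g p.1 * (κ p.2 * Γ' (p.1 - x₀ - p.2)))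
      (volume.prod volume) := by
    have h1 := hκi.convolution_integrand (ContinuousLinearMap.mul ℝ ℂ) (hΓ.comp_sub_right x₀)
    have h2 : Integrable (fun p : ℝ × ℝ => κ p.2 * Γ' (p.1 - x₀ - p.2)) (volume.prod volume) := by
      refine h1.congr (Eventually.of_forall fun p => ?_)
      simp only [ContinuousLinearMap.mul_apply']
      congr 2
      ring
    refine h2.bdd_mul (c := K) ?_ ?_
    · exact (hg.comp continuous_fst).aestronglyMeasurable
    · exact Eventually.of_forall fun p => hgb p.1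
  rw [e4, integral_integral_swap (f := fun x v => g x * (κ v * Γ' (x - x₀ - v))) hint]
  have e5 : ∀ v : ℝ, ∫ x : ℝ, g x * (κ v * Γ' (x - x₀ - v)) = 0 := by
    intro v
    have := h0 (x₀ + v)
    have e6 : ∫ x : ℝ, g x * (κ v * Γ' (x - x₀ - v)) = κ v * ∫ x : ℝ, g x * Γ' (x - (x₀ + v)) := by
      rw [← integral_const_mul]
      apply integral_congr_ae
      refine Eventually.of_forall fun x => ?_
      simp only
      rw [sub_sub]
      ring
    rw [e6, this, mul_zero]
  simp_rw [e5]
  exact integral_zero _ _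

theorem eq_zero_of_tests {g : ℝ → ℂ} (hg : Continuous g) {K : ℝ} (hgb : ∀ x, ‖g x‖ ≤ K)
    (h : ∀ ψ : ℝ → ℂ, ContDiff ℝ ∞ ψ → HasCompactSupport ψ → ∀ x₀ : ℝ,
      ∫ x : ℝ, g x * (∫ ξ : ℝ, Complex.exp (2 * π * Complex.I * (x - x₀ : ℝ) * ξ) * ψ ξ) = 0)
    (x₀ : ℝ) : g x₀ = 0 := by
  obtain ⟨φ⟩ : Nonempty (ContDiffBump (0 : ℝ)) := ⟨⟨1, 2, one_pos, one_lt_two⟩⟩
  set ψ : ℝ → ℂ := fun x => (φ x : ℂ) with hψdef
  have hψ : ContDiff ℝ ∞ ψ := Complex.ofRealCLM.contDiff.comp φ.contDiff
  have hψc : HasCompactSupport ψ := φ.hasCompactSupport.comp_left (g := fun x : ℝ => (x : ℂ))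
    Complex.ofReal_zero
  have hψ1 : ψ 0 = 1 := by
    simp only [hψdef]
    rw [φ.one_of_mem_closedBall]
    · simp
    · simpa using φ.rIn_pos.le
  set ψS : 𝓢(ℝ, ℂ) := hψc.toSchwartzMap hψ with hψS
  set P : 𝓢(ℝ, ℂ) := 𝓕⁻ ψS with hP
  have hPi : Integrable P := P.integrable
  have hPeq : ∀ u : ℝ, P u = ∫ ξ : ℝ, Complex.exp (2 * π * Complex.I * u * ξ) * ψ ξ := by
    intro u
    rw [hP, SchwartzMap.fourierInv_coe, Real.fourierInv_eq']
    apply integral_congr_ae
    refine Eventually.of_forall fun ξ => ?_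
    simp only [smul_eq_mul]
    congr 2
    simp
    ring
  have hP1 : ∫ x : ℝ, P x = 1 := by
    have h1 : 𝓕 P = ψS := by
      rw [hP]
      exact FourierTransform.fourier_fourierInv_eq ψS
    have h2 : (𝓕 P) (0 : ℝ) = ψS 0 := by rw [h1]
    rw [SchwartzMap.fourier_coe, Real.fourier_real_eq_integral_exp_smul] at h2
    simp only [mul_zero, Complex.ofReal_zero, zero_mul, Complex.exp_zero, one_smul] at h2
    rw [h2]
    exact hψ1
  have hn : ∀ n : ℕ, ∫ s : ℝ, g (x₀ + s / (n + 1)) * P s = 0 := by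
    intro n
    set l : ℝ := n + 1 with hl
    have hl0 : 0 < l := by positivity
    have h1 := h (fun ξ => ψ (ξ / l)) (hψ.comp (contDiff_id.div_const l))
      (hψc.comp_homeomorph (Homeomorph.mulRight₀ l⁻¹ (inv_ne_zero hl0.ne'))) x₀
    have h2 : ∀ x : ℝ, ∫ ξ : ℝ, Complex.exp (2 * π * Complex.I * (x - x₀ : ℝ) * ξ) * ψ (ξ / l) =
        l * P (l * (x - x₀)) := by
      intro x
      rw [hPeq]
      have h3 := Measure.integral_comp_div (fun η : ℝ =>
        Complex.exp (2 * π * Complex.I * (l * (x - x₀) : ℝ) * η) * ψ η) l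
      rw [abs_of_pos hl0, Complex.real_smul] at h3
      rw [← h3]
      apply integral_congr_ae
      refine Eventually.of_forall fun ξ => ?_
      simp only
      congr 2
      have hlc : (l : ℂ) ≠ 0 := Complex.ofReal_ne_zero.2 hl0.ne'
      push_cast
      field_simp
    simp_rw [h2] at h1
    have h4 : ∫ x : ℝ, g x * (l * P (l * (x - x₀))) = ∫ x : ℝ, g (x + x₀) * (l * P (l * x)) := by
      rw [← integral_add_right_eq_self _ x₀]
      simp
    have h5 := Measure.integral_comp_mul_left (fun s : ℝ => g (x₀ + s / l) * P s) l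
    rw [h4] at h1
    have h6 : ∫ x : ℝ, g (x + x₀) * (l * P (l * x)) =
        l * ∫ x : ℝ, g (x₀ + l * x / l) * P (l * x) := by
      rw [← integral_const_mul]
      apply integral_congr_ae
      refine Eventually.of_forall fun x => ?_
      simp only
      rw [mul_div_cancel_left₀ _ hl0.ne', add_comm x x₀]
      ring
    rw [h6, h5, Complex.real_smul, abs_of_pos (inv_pos.2 hl0), ← mul_assoc, ← Complex.ofReal_mul,
      mul_inv_cancel₀ hl0.ne', Complex.ofReal_one, one_mul] at h1
    exact h1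
  have hlim : Tendsto (fun n : ℕ => ∫ s : ℝ, g (x₀ + s / (n + 1)) * P s) atTop
      (𝓝 (∫ s : ℝ, g x₀ * P s)) := by
    apply tendsto_integral_of_dominated_convergence (fun s => K * ‖P s‖)
    · intro n
      exact ((hg.comp (by fun_prop)).mul P.continuous).aestronglyMeasurable
    · exact hPi.norm.const_mul K
    · intro n
      refine Eventually.of_forall fun s => ?_
      rw [norm_mul]
      exact mul_le_mul_of_nonneg_right (hgb _) (norm_nonneg _)
    · refine Eventually.of_forall fun s => ?_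
      apply Tendsto.mul_const
      have h7 : Tendsto (fun n : ℕ => x₀ + s / ((n : ℝ) + 1)) atTop (𝓝 (x₀ + 0)) := by
        apply Tendsto.const_add
        apply Tendsto.const_div_atTop
        exact tendsto_atTop_add_const_right _ _ tendsto_natCast_atTop_atTop
      rw [add_zero] at h7
      exact (hg.tendsto x₀).comp h7
  simp_rw [hn] at hlim
  have h8 := tendsto_nhds_unique hlim tendsto_const_nhds
  rw [integral_const_mul, hP1, mul_one] at h8
  exact h8

theorem integrable_QQ {b : ℝ} (hb : 0 < b) (r : ℝ) : Integrable (QQ b r) := by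
  have h := (integrable_GG hb r 0).integral_prod_right
  refine h.congr (Eventually.of_forall fun ξ => ?_)
  simp only [GG, QQ, mm]
  rw [← integral_const_mul]
  apply integral_congr_ae
  refine Eventually.of_forall fun y => ?_
  simp only
  rw [← Complex.exp_add, mul_left_comm, ← Complex.exp_add]
  congr 2
  push_cast
  linear_combination (-4 * π * y * ξ : ℂ) * Complex.I_sq

end Liou

open Liou in
/-- The Liouville theorem at `-∞`. -/
theorem liouville {b r : ℝ} (hb : 0 < b) (hr : 0 < r) (hr1 : ∀ n : ℤ, r ≠ n)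
    (hr2 : Real.sin (2 * r * b) ≠ 0) {H : ℂ → ℂ}
    (hH : DifferentiableOn ℂ H {w | |w.im| < b + π / 2}) {C : ℝ≥0∞} (hC : C ≠ ⊤)
    (hwin : ∀ X : ℝ, ∫⁻ w in {w | |w.re - X| ≤ 1},
      ‖H w‖ₑ ^ 2 * ENNReal.ofReal (Real.exp (-2 * r * w.re)) ∂(muI b) ≤ C)
    (horth : ∀ x₀ : ℝ,
      ∫ w, H w * conj (Complex.exp (-(1 + r) * w - (w - x₀) ^ 2)) ∂(muI b) = 0) :
    ∀ w : ℂ, |w.im| < b + π / 2 → H w = 0 := by
  have hpi := Real.pi_pos
  have hw := win_hh hwin
  have hreal : ∀ x : ℝ, hh r H x = 0 := by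
    obtain ⟨K, hK0, hK⟩ := bound_hh hb hH hC hw (β := 0) (by linarith)
    have hK' : ∀ x : ℝ, ‖hh r H x‖ ≤ K := fun x => hK x (by simp)
    have hcont : Continuous fun x : ℝ => hh r H x := by
      apply (differentiableOn_hh hH).continuousOn.comp_continuous Complex.continuous_ofReal
      intro x
      simp only [mem_ofPred_eq, Complex.ofReal_im, abs_zero]
      linarith
    apply eq_zero_of_tests hcont hK'
    intro ψ hψ hψc x₀
    refine test_eq_zero (Γ' := fun u => gc * Gam b r u) (Q := QQ b r) hcont hK'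
      ((integrable_Gam hb r).const_mul gc) (contDiff_QQ hb hr) (QQ_ne_zero hb hr hr1 hr2)
      (integrable_QQ hb r) (fun u => Gam_eq hb r u) ?_ hψ hψc x₀
    intro x₁
    have h1 := real_line hb hH hC hw x₁ (orth_ff x₁ (horth x₁))
    have h2 : ∫ x : ℝ, hh r H x * (gc * Gam b r (x - x₁)) =
        gc * ∫ x : ℝ, hh r H x * Gam b r (x - x₁) := by
      rw [← integral_const_mul]
      apply integral_congr_ae
      refine Eventually.of_forall fun x => ?_
      simp only
      ring
    rw [h2, h1, mul_zero]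
  have hopen : IsOpen {w : ℂ | |w.im| < b + π / 2} := isOpen_lt (by fun_prop) (by fun_prop)
  have hpre : IsPreconnected {w : ℂ | |w.im| < b + π / 2} := by
    apply Convex.isPreconnected
    intro z hz w hw' s t hs ht hst
    simp only [mem_ofPred_eq] at hz hw' ⊢
    rw [Complex.add_im, Complex.real_smul, Complex.real_smul, Complex.im_ofReal_mul,
      Complex.im_ofReal_mul]
    rw [abs_lt] at hz hw' ⊢
    rcases hs.eq_or_lt with h | h
    · subst h
      have : t = 1 := by linarith
      subst this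
      constructor <;> linarith
    · constructor <;> nlinarith
  have h0 : (0 : ℂ) ∈ {w : ℂ | |w.im| < b + π / 2} := by
    simp only [mem_ofPred_eq, Complex.zero_im, abs_zero]
    linarith
  have hfreq : ∃ᶠ z in 𝓝[≠] (0 : ℂ), hh r H z = 0 := by
    have ht : Tendsto (fun n : ℕ => (((1 : ℝ) / ((n : ℝ) + 1) : ℝ) : ℂ)) atTop (𝓝[≠] (0 : ℂ)) := by
      rw [tendsto_nhdsWithin_iff]
      constructor
      · have := (Complex.continuous_ofReal.tendsto (0 : ℝ)).comp
          (tendsto_one_div_add_atTop_nhds_zero_nat (𝕜 := ℝ))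
        rw [Complex.ofReal_zero] at this
        exact this
      · refine Eventually.of_forall fun n => ?_
        rw [mem_compl_singleton_iff, Ne, Complex.ofReal_eq_zero]
        positivity
    exact ht.frequently (Eventually.of_forall fun n => hreal _).frequently
  have hz := ((differentiableOn_hh (r := r) hH).analyticOnNhd
    hopen).eqOn_zero_of_preconnected_of_frequently_eq_zero hpre h0 hfreq
  intro w hwim
  have h3 : hh r H w = 0 := hz hwim
  rw [hh] at h3
  exact (mul_eq_zero.1 h3).resolve_right (Complex.exp_ne_zero _)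

end Pool.Agent.Worm
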