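import Mathlib
import Pool.Agent.Worm.Blow
import Pool.Agent.Worm.AuxA
import Pool.Agent.Worm.Liouville

/-!
# The blow-up limit vanishes
-/

open MeasureTheory Set Filter Topology Metric
open scoped Real ENNReal ComplexConjugate

namespace Pool.Agent.Worm

instance (A : Set (ℝ × ℂ)) : SFinite (muA A) := by
  unfold muA
  infer_instance

theorem lintegral_muA_base {A : Set (ℝ × ℂ)} (hA : MeasurableSet A) {f : ℂ → ℝ≥0∞}
    (hf : Measurable f) :
    ∫⁻ w, f w ∂(muA A) = ∫⁻ p, A.indicator (fun p : ℝ × ℂ => f p.2) p ∂(expM.prod areaM) := by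
  rw [muA, lintegral_map hf measurable_snd, lintegral_indicator hA]

theorem integral_muA_base {A : Set (ℝ × ℂ)} (hA : MeasurableSet A) {f : ℂ → ℂ}
    (hf : Measurable f) :
    ∫ w, f w ∂(muA A) = ∫ p, A.indicator (fun p : ℝ × ℂ => f p.2) p ∂(expM.prod areaM) := by
  rw [muA, integral_map measurable_snd.aemeasurable hf.aestronglyMeasurable,
    integral_indicator hA]

/-- The vertical lines `|t| = b` are negligible. -/
theorem ae_abs_ne (b : ℝ) : ∀ᵐ p ∂(expM.prod areaM), |p.1| ≠ b := by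
  have h1 : ∀ᵐ t ∂expM, |t| ≠ b := by
    have h2 : expM ≪ volume := by
      unfold expM
      exact withDensity_absolutelyContinuous _ _
    apply h2.ae_le
    have h3 : ∀ᵐ t : ℝ, t ≠ b := by
      rw [ae_iff]; simp
    have h4 : ∀ᵐ t : ℝ, t ≠ -b := by
      rw [ae_iff]; simp
    filter_upwards [h3, h4] with t ht1 ht2
    intro h
    rcases eq_or_eq_neg_of_abs_eq h with h | h
    · exact ht1 h
    · exact ht2 h
  exact Measure.quasiMeasurePreserving_fst.ae h1

/-- the rescaled remainder (measurable version) -/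
noncomputable def BSeq.H {b : ℝ} {N : ℕ} {r : ℝ} (B : BSeq b N r) (k : ℕ) (w : ℂ) : ℂ :=
  (S (B.η k)).indicator (fun w => B.F k w - poly (B.c k) N w) (w + B.X k) *
    ((Real.exp ((1 - r) * B.X k) / √(B.m k) : ℝ) : ℂ)

variable {b : ℝ} {N : ℕ} {r : ℝ}

theorem BSeq.diffG (B : BSeq b N r) (k : ℕ) :
    DifferentiableOn ℂ (fun w => B.F k w - poly (B.c k) N w) (S (B.η k)) :=
  (B.sol k).hol.sub (differentiable_poly _ _).differentiableOn

theorem BSeq.measurable_G (B : BSeq b N r) (k : ℕ) :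
    Measurable ((S (B.η k)).indicator (fun w => B.F k w - poly (B.c k) N w)) := by
  classical
  rw [← piecewise_eq_indicator]
  exact (B.diffG k).continuousOn.measurable_piecewise continuousOn_const (isOpen_S _).measurableSet

theorem BSeq.measurable_H (B : BSeq b N r) (k : ℕ) : Measurable (B.H k) := by
  unfold BSeq.H
  exact ((B.measurable_G k).comp (by fun_prop)).mul_const _

/-- the scale factor -/
theorem BSeq.norm_H_sq (B : BSeq b N r) (k : ℕ) (w : ℂ) :
    ‖B.H k w‖ ^ 2 =
      ‖(S (B.η k)).indicator (fun w => B.F k w - poly (B.c k) N w) (w + B.X k)‖ ^ 2 *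
        (Real.exp (2 * (1 - r) * B.X k) / B.m k) := by
  have hm := B.m_pos k
  rw [BSeq.H, norm_mul, mul_pow, Complex.norm_real, Real.norm_of_nonneg (by positivity), div_pow,
    Real.sq_sqrt hm.le, ← Real.exp_nat_mul]
  congr 3
  push_cast
  ring

theorem BSeq.enorm_H_sq (B : BSeq b N r) (k : ℕ) (w : ℂ) :
    ‖B.H k w‖ₑ ^ 2 =
      ‖(S (B.η k)).indicator (fun w => B.F k w - poly (B.c k) N w) (w + B.X k)‖ₑ ^ 2 *
        ENNReal.ofReal (Real.exp (2 * (1 - r) * B.X k) / B.m k) := by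
  rw [← ofReal_norm, ← ofReal_norm, ← ENNReal.ofReal_pow (norm_nonneg _),
    ← ENNReal.ofReal_pow (norm_nonneg _), ← ENNReal.ofReal_mul (by positivity), B.norm_H_sq]

/-- windows of the rescaled functions have mass at most one -/
theorem BSeq.window_H (B : BSeq b N r) (k : ℕ) (X : ℝ) :
    ∫⁻ w in {w : ℂ | |w.re - X| ≤ 1}, ‖B.H k w‖ₑ ^ 2 *
      ENNReal.ofReal (Real.exp (-2 * r * w.re)) ∂(muA (totX (B.η k) (B.X k))) ≤ 1 := by
  have hm := B.m_pos k
  have hcap := B.cap k
  set W : Set ℂ := {w : ℂ | |w.re - X| ≤ 1} with hW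
  have hWm : MeasurableSet W := (isClosed_le (by fun_prop) continuous_const).measurableSet
  set W' : Set ℂ := {w : ℂ | |w.re - (X + B.X k)| ≤ 1} with hW'
  have hWm' : MeasurableSet W' := (isClosed_le (by fun_prop) continuous_const).measurableSet
  set G := (S (B.η k)).indicator (fun w => B.F k w - poly (B.c k) N w) with hG
  have h1 : ∫⁻ w in W, ‖B.H k w‖ₑ ^ 2 *
      ENNReal.ofReal (Real.exp (-2 * r * w.re)) ∂(muA (totX (B.η k) (B.X k))) =
      ∫⁻ w, (fun w => ENNReal.ofReal (Real.exp (2 * B.X k) / B.m k) *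
        W'.indicator (fun w => ‖G w‖ₑ ^ 2 * ENNReal.ofReal (Real.exp (-2 * r * w.re))) w)
        (w + B.X k) ∂(muA (totX (B.η k) (B.X k))) := by
    rw [← lintegral_indicator hWm]
    apply lintegral_congr
    intro w
    simp only
    by_cases hw : w ∈ W
    · have hw' : w + (B.X k : ℂ) ∈ W' := by
        change |(w + (B.X k : ℂ)).re - (X + B.X k)| ≤ 1
        have : (w + (B.X k : ℂ)).re - (X + B.X k) = w.re - X := by simp
        rw [this]; exact hw
      rw [indicator_of_mem hw, indicator_of_mem hw', B.enorm_H_sq, mul_left_comm]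
      rw [mul_assoc, ← ENNReal.ofReal_mul (by positivity), ← ENNReal.ofReal_mul (by positivity)]
      congr 2
      simp only [Complex.add_re, Complex.ofReal_re]
      rw [div_mul_eq_mul_div, div_mul_eq_mul_div, ← Real.exp_add, ← Real.exp_add]
      congr 2
      ring
    · have hw' : w + (B.X k : ℂ) ∉ W' := by
        change ¬ |(w + (B.X k : ℂ)).re - (X + B.X k)| ≤ 1
        have : (w + (B.X k : ℂ)).re - (X + B.X k) = w.re - X := by simp
        rw [this]; exact hw
      rw [indicator_of_notMem hw, indicator_of_notMem hw', mul_zero]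
  rw [h1]
  refine (le_of_eq (lintegral_muA_totX hcap.cont (B.X k) (fun w =>
    ENNReal.ofReal (Real.exp (2 * B.X k) / B.m k) *
        W'.indicator (fun w => ‖G w‖ₑ ^ 2 * ENNReal.ofReal (Real.exp (-2 * r * w.re))) w))).trans ?_
  rw [lintegral_const_mul' _ _ ENNReal.ofReal_ne_top, lintegral_indicator hWm']
  have h2 : ∫⁻ w in W', ‖G w‖ₑ ^ 2 * ENNReal.ofReal (Real.exp (-2 * r * w.re)) ∂(mu (B.η k)) ≤
      ENNReal.ofReal (B.m k) := by
    refine le_trans (le_of_eq ?_) (B.bound k (X + B.X k))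
    rw [wmass_eq]
    apply lintegral_congr_ae
    filter_upwards [ae_restrict_of_ae (ae_mem_S (B.η k))] with w hw
    rw [hG, indicator_of_mem hw]
  calc ENNReal.ofReal (Real.exp (-2 * B.X k)) * (ENNReal.ofReal (Real.exp (2 * B.X k) / B.m k) *
        ∫⁻ w in W', ‖G w‖ₑ ^ 2 * ENNReal.ofReal (Real.exp (-2 * r * w.re)) ∂(mu (B.η k)))
      ≤ ENNReal.ofReal (Real.exp (-2 * B.X k)) * (ENNReal.ofReal (Real.exp (2 * B.X k) / B.m k) *
        ENNReal.ofReal (B.m k)) := by gcongr
    _ = 1 := by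
        rw [← ENNReal.ofReal_mul (by positivity), ← ENNReal.ofReal_mul (by positivity)]
        rw [div_mul_cancel₀ _ hm.ne', ← Real.exp_add]
        simp

/-- local bound -/
theorem BSeq.norm_H_le {κ : ℝ} (hκ : 0 < κ) (hκ2 : κ ≤ π / 2) (hκb : κ ≤ b) :
    ∃ C : ℝ, 0 < C ∧ ∀ (B : BSeq b N r) (k : ℕ) (w : ℂ), |w.im| ≤ b + π / 2 - κ →
      Real.exp (w.re + B.X k + κ / 2) < 2 * Real.sin (κ / 4) →
      w + B.X k ∈ S (B.η k) ∧ ‖B.H k w‖ ^ 2 ≤ C * Real.exp (2 * (r - 1) * w.re) := by
  obtain ⟨C, hC, h⟩ := point_bound hκ hκ2 hκb r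
  refine ⟨C, hC, ?_⟩
  intro B k w hy hx
  have hm := B.m_pos k
  have hcap := B.cap k
  have hx' : Real.exp ((w + B.X k : ℂ).re + κ / 2) < 2 * Real.sin (κ / 4) := by simpa using hx
  have h1 := h (B.δ k) (B.η k) _ (w + B.X k) hcap (B.diffG k) (by simpa using hy) hx'
  have hmem : w + B.X k ∈ S (B.η k) := by
    apply hcap.S0_subset
    apply Good_subset_S0 hκ hκ2 hκb
    refine ⟨by simpa using hy, ?_⟩
    have h2 : Real.sin (κ / 4) ≤ Real.sin (κ / 2) := by
      apply Real.sin_le_sin_of_le_of_le_pi_div_two <;> linarith [Real.pi_pos]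
    have h3 : Real.exp ((w + B.X k : ℂ).re) ≤ Real.exp ((w + B.X k : ℂ).re + κ / 2) :=
      Real.exp_le_exp.mpr (by linarith)
    linarith
  refine ⟨hmem, ?_⟩
  have h2 : ‖B.F k (w + B.X k) - poly (B.c k) N (w + B.X k)‖ₑ ^ 2 ≤
      ENNReal.ofReal (C * Real.exp (2 * (r - 1) * (w.re + B.X k)) * B.m k) := by
    rw [ENNReal.ofReal_mul (by positivity)]
    refine h1.trans ?_
    have h3 := B.bound k (w + B.X k : ℂ).re
    rw [wmass_eq] at h3
    simp only [Complex.add_re, Complex.ofReal_re] at h3 ⊢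
    gcongr
  rw [← ofReal_norm, ← ENNReal.ofReal_pow (norm_nonneg _),
    ENNReal.ofReal_le_ofReal_iff (by positivity)] at h2
  rw [B.norm_H_sq, indicator_of_mem hmem]
  calc ‖B.F k (w + B.X k) - poly (B.c k) N (w + B.X k)‖ ^ 2 *
        (Real.exp (2 * (1 - r) * B.X k) / B.m k)
      ≤ C * Real.exp (2 * (r - 1) * (w.re + B.X k)) * B.m k *
        (Real.exp (2 * (1 - r) * B.X k) / B.m k) := by gcongr
    _ = C * (Real.exp (2 * (r - 1) * (w.re + B.X k)) * Real.exp (2 * (1 - r) * B.X k)) := by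
        field_simp
    _ = C * Real.exp (2 * (r - 1) * w.re) := by
        rw [← Real.exp_add]
        congr 2
        ring

/-- Extraction of a locally uniformly convergent subsequence. -/
theorem BSeq.exists_limit (hb : 0 < b) (hr : N < r) (B : BSeq b N r) :
    ∃ (H : ℂ → ℂ) (φ : ℕ → ℕ) (hφ : StrictMono φ),
      DifferentiableOn ℂ H {w | |w.im| < b + π / 2} ∧
      TendstoLocallyUniformlyOn (B.sub φ hφ).H H atTop {w | |w.im| < b + π / 2} := by
  have hpi := Real.pi_pos
  have hΩ : IsOpen {w : ℂ | |w.im| < b + π / 2} := isOpen_lt (by fun_prop) continuous_const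
  have hX := B.X_lim hb hr
  obtain ⟨H, φ, hφ, h1, h2⟩ := montel_seq hΩ (F := B.H) (by
    intro w₀ hw₀
    have hw₀' : |w₀.im| < b + π / 2 := hw₀
    set κ : ℝ := min (π / 2) (min b ((b + π / 2 - |w₀.im|) / 2)) with hκ
    have hκ0 : 0 < κ := by
      rw [hκ]
      apply lt_min (by positivity)
      apply lt_min (by linarith)
      linarith
    have hκ1 : κ ≤ π / 2 := min_le_left _ _
    have hκ2 : κ ≤ b := (min_le_right _ _).trans (min_le_left _ _)
    have hκ3 : κ ≤ (b + π / 2 - |w₀.im|) / 2 := (min_le_right _ _).trans (min_le_right _ _)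
    obtain ⟨C, hC, hbd⟩ := BSeq.norm_H_le (N := N) (r := r) hκ0 hκ1 hκ2
    have hsin : 0 < 2 * Real.sin (κ / 4) := by
      have := Real.sin_pos_of_pos_of_lt_pi (x := κ / 4) (by positivity) (by linarith)
      linarith
    obtain ⟨k₀, hk₀⟩ := (hX.eventually_lt_atBot
      (Real.log (2 * Real.sin (κ / 4)) - (w₀.re + κ + κ / 2))).exists_forall_of_atTop
    set D : ℝ := C * Real.exp (2 * |r - 1| * (|w₀.re| + κ)) with hD
    refine ⟨κ, hκ0, √D, k₀, ?_⟩
    intro k hk
    have hkey : ∀ w ∈ ball w₀ κ, w + B.X k ∈ S (B.η k) ∧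
        ‖B.H k w‖ ^ 2 ≤ C * Real.exp (2 * (r - 1) * w.re) := by
      intro w hw
      have h3 : ‖w - w₀‖ < κ := by simpa [dist_eq_norm] using hw
      have h4 : |w.im - w₀.im| < κ :=
        lt_of_le_of_lt (by simpa using Complex.abs_im_le_norm (w - w₀)) h3
      have h5 : |w.re - w₀.re| < κ :=
        lt_of_le_of_lt (by simpa using Complex.abs_re_le_norm (w - w₀)) h3
      apply hbd B k w
      · have : |w.im| ≤ |w.im - w₀.im| + |w₀.im| := by
          have := abs_add_le (w.im - w₀.im) w₀.im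
          simpa using this
        linarith
      · rw [← Real.lt_log_iff_exp_lt hsin]
        have := hk₀ k hk
        linarith [(abs_lt.mp h5).2]
    refine ⟨?_, ?_⟩
    · have h6 : DifferentiableOn ℂ (fun w : ℂ => (B.F k (w + B.X k) -
          poly (B.c k) N (w + B.X k)) * ((Real.exp ((1 - r) * B.X k) / √(B.m k) : ℝ) : ℂ))
          (ball w₀ κ) := by
        apply DifferentiableOn.mul_const
        exact (B.diffG k).comp (by fun_prop) (fun w hw => (hkey w hw).1)
      apply h6.congr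
      intro w hw
      rw [BSeq.H, indicator_of_mem (hkey w hw).1]
    · intro w hw
      have h3 : ‖w - w₀‖ < κ := by simpa [dist_eq_norm] using hw
      have h5 : |w.re - w₀.re| < κ :=
        lt_of_le_of_lt (by simpa using Complex.abs_re_le_norm (w - w₀)) h3
      rw [← Real.sqrt_sq (norm_nonneg (B.H k w))]
      apply Real.sqrt_le_sqrt
      refine (hkey w hw).2.trans ?_
      rw [hD]
      refine mul_le_mul_of_nonneg_left (Real.exp_le_exp.mpr ?_) hC.le
      have h7 : |w.re| ≤ |w₀.re| + κ := by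
        have := abs_add_le (w.re - w₀.re) w₀.re
        simp only [sub_add_cancel] at this
        linarith
      calc 2 * (r - 1) * w.re = 2 * ((r - 1) * w.re) := by ring
        _ ≤ 2 * (|r - 1| * |w.re|) :=
            mul_le_mul_of_nonneg_left ((le_abs_self _).trans (le_of_eq (abs_mul _ _))) (by norm_num)
        _ ≤ 2 * (|r - 1| * (|w₀.re| + κ)) := by gcongr
        _ = _ := by ring)
  exact ⟨H, φ, hφ, h1, h2⟩

end Pool.Agent.Worm
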