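import Mathlib
import Pool.Agent.Worm.BlowLimit

/-!
# The blow-up limit vanishes, second part
-/

open MeasureTheory Set Filter Topology Metric
open scoped Real ENNReal ComplexConjugate

namespace Pool.Agent.Worm

variable {b : ℝ} {N : ℕ} {r : ℝ}

theorem lintegral_ind_sq {A : Set (ℝ × ℂ)} (hA : MeasurableSet A) {h : ℂ → ℂ} (hh : Measurable h) :
    ∫⁻ p, ‖A.indicator (fun p : ℝ × ℂ => h p.2) p‖ₑ ^ 2 ∂(expM.prod areaM) =
      ∫⁻ w, ‖h w‖ₑ ^ 2 ∂(muA A) := by
  rw [lintegral_muA_base hA (by fun_prop)]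
  apply lintegral_congr
  intro p
  by_cases hp : p ∈ A
  · rw [indicator_of_mem hp, indicator_of_mem hp]
  · rw [indicator_of_notMem hp, indicator_of_notMem hp]
    simp

theorem measurable_ind {A : Set (ℝ × ℂ)} (hA : MeasurableSet A) {h : ℂ → ℂ} (hh : Measurable h) :
    Measurable (A.indicator (fun p : ℝ × ℂ => h p.2)) :=
  (hh.comp measurable_snd).indicator hA

/-- pointwise convergence of the indicators -/
theorem BSeq.tendsto_ind (B : BSeq b N r) (hX : Tendsto B.X atTop atBot) {H : ℂ → ℂ}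
    (hpt : ∀ w : ℂ, |w.im| < b + π / 2 → Tendsto (fun k => B.H k w) atTop (𝓝 (H w)))
    (U : ℂ → ℂ) (p : ℝ × ℂ) (hp : |p.1| ≠ b) :
    Tendsto (fun k => (totX (B.η k) (B.X k)).indicator (fun p => B.H k p.2 * U p.2) p) atTop
      (𝓝 ((totI b).indicator (fun p => H p.2 * U p.2) p)) := by
  obtain ⟨t, w⟩ := p
  simp only at hp
  rcases lt_or_gt_of_ne hp with ht | ht
  · by_cases hy : |w.im - t| < π / 2
    · have h1 : (t, w) ∈ totI b := ⟨ht, hy⟩
      rw [indicator_of_mem h1]
      have hcos : 0 < 2 * Real.cos (w.im - t) := by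
        have := Real.cos_pos_of_mem_Ioo (abs_lt.mp hy)
        linarith
      have h2 : Tendsto (fun k => Real.exp (w.re + B.X k)) atTop (𝓝 0) :=
        Real.tendsto_exp_atBot.comp (tendsto_atBot_add_const_left _ _ hX)
      have h3 : ∀ᶠ k in atTop, (t, w) ∈ totX (B.η k) (B.X k) := by
        filter_upwards [h2.eventually_lt_const hcos] with k hk
        refine ⟨by simpa using hy, ?_⟩
        rw [(B.cap k).zero t ht.le]
        simpa using hk
      have h4 : |w.im| < b + π / 2 := by
        have : |w.im| ≤ |w.im - t| + |t| := by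
          have := abs_add_le (w.im - t) t
          simpa using this
        linarith
      refine ((hpt w h4).mul_const (U w)).congr' ?_
      filter_upwards [h3] with k hk
      rw [indicator_of_mem hk]
    · have h1 : (t, w) ∉ totI b := fun h => hy h.2
      rw [indicator_of_notMem h1]
      refine tendsto_const_nhds.congr ?_
      intro k
      rw [indicator_of_notMem]
      intro h
      exact hy (by simpa using h.1)
  · have h1 : (t, w) ∉ totI b := fun h => absurd h.1 (not_lt.mpr ht.le)
    rw [indicator_of_notMem h1]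
    have h2 : ∀ᶠ k in atTop, B.δ k < |t| - b := B.δ_lim.eventually_lt_const (by linarith)
    refine tendsto_const_nhds.congr' ?_
    filter_upwards [h2] with k hk
    rw [indicator_of_notMem]
    intro h
    have := (B.cap k).abs_lt h
    linarith

theorem BSeq.window_exp (B : BSeq b N r) : ∃ K : ℝ≥0∞, K ≠ ⊤ ∧ ∀ k,
    ∫⁻ w, ‖B.H k w‖ₑ ^ 2 * ENNReal.ofReal (Real.exp (-2 * r * w.re)) *
      ENNReal.ofReal (Real.exp (-|w.re|)) ∂(muA (totX (B.η k) (B.X k))) ≤ K := by
  obtain ⟨K, hK, h⟩ := window_bound 1 one_pos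
  refine ⟨K, hK, ?_⟩
  intro k
  have hm := B.measurable_H k
  have hm2 : Measurable (fun w : ℂ => ‖B.H k w‖ₑ ^ 2 *
      ENNReal.ofReal (Real.exp (-2 * r * w.re))) := by fun_prop
  have h1 := h ((muA (totX (B.η k) (B.X k))).withDensity (fun w => ‖B.H k w‖ₑ ^ 2 *
      ENNReal.ofReal (Real.exp (-2 * r * w.re)))) 1 (by
    intro X
    rw [withDensity_apply _ ((isClosed_le (by fun_prop) continuous_const).measurableSet)]
    exact B.window_H k X) 0
  rw [lintegral_withDensity_eq_lintegral_mul _ hm2 (by fun_prop), mul_one] at h1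
  refine le_trans (le_of_eq ?_) h1
  apply lintegral_congr
  intro w
  simp

/-- window bound for the limit -/
theorem BSeq.hwin (B : BSeq b N r) (hX : Tendsto B.X atTop atBot) {H : ℂ → ℂ} (hHm : Measurable H)
    (hpt : ∀ w : ℂ, |w.im| < b + π / 2 → Tendsto (fun k => B.H k w) atTop (𝓝 (H w))) (X : ℝ) :
    ∫⁻ w in {w : ℂ | |w.re - X| ≤ 1},
      ‖H w‖ₑ ^ 2 * ENNReal.ofReal (Real.exp (-2 * r * w.re)) ∂(muI b) ≤ 1 := by
  set W : Set ℂ := {w : ℂ | |w.re - X| ≤ 1} with hW
  have hWm : MeasurableSet W := (isClosed_le (by fun_prop) continuous_const).measurableSet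
  set U : ℂ → ℂ := W.indicator (fun w => ((Real.exp (-r * w.re) : ℝ) : ℂ)) with hU
  have hUm : Measurable U := (by fun_prop : Measurable fun w : ℂ =>
    ((Real.exp (-r * w.re) : ℝ) : ℂ)).indicator hWm
  have key : ∀ h : ℂ → ℂ, ∀ ν : Measure ℂ, ∫⁻ w, ‖h w * U w‖ₑ ^ 2 ∂ν =
      ∫⁻ w in W, ‖h w‖ₑ ^ 2 * ENNReal.ofReal (Real.exp (-2 * r * w.re)) ∂ν := by
    intro h ν
    rw [← lintegral_indicator hWm]
    apply lintegral_congr
    intro w
    by_cases hw : w ∈ W
    · rw [indicator_of_mem hw, hU, indicator_of_mem hw, enorm_mul, mul_pow]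
      congr 1
      rw [← ofReal_norm, Complex.norm_real, Real.norm_of_nonneg (Real.exp_pos _).le,
        ← ENNReal.ofReal_pow (Real.exp_pos _).le, ← Real.exp_nat_mul]
      congr 2
      push_cast; ring
    · rw [indicator_of_notMem hw, hU, indicator_of_notMem hw]
      simp
  have h1 := (tendsto_integral_of_bounded (ν := expM.prod areaM)
    (f := fun k => (totX (B.η k) (B.X k)).indicator (fun p => B.H k p.2 * U p.2))
    (g := (totI b).indicator (fun p => H p.2 * U p.2)) (ψ := 0) (C := 1)
    (fun k => (measurable_ind (isOpen_totX (B.cap k).cont _).measurableSet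
      ((B.measurable_H k).mul hUm)).aestronglyMeasurable)
    (MemLp.zero) (by norm_num)
    (by
      intro k
      rw [lintegral_ind_sq (h := fun w => B.H k w * U w)
        (isOpen_totX (B.cap k).cont _).measurableSet ((B.measurable_H k).mul hUm), key]
      exact B.window_H k X)
    (by
      filter_upwards [ae_abs_ne b] with p hp
      exact B.tendsto_ind hX hpt U p hp)).1
  rw [lintegral_ind_sq (h := fun w => H w * U w) (isOpen_totI b).measurableSet (hHm.mul hUm),
    key] at h1
  exact h1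

/-- The Gaussian test function. -/
noncomputable def g0 (r x₀ : ℝ) (w : ℂ) : ℂ := Complex.exp (-(1 + r) * w - (w - x₀) ^ 2)

theorem norm_g0 (r x₀ : ℝ) (w : ℂ) :
    ‖g0 r x₀ w‖ = Real.exp (-(1 + r) * w.re - ((w.re - x₀) ^ 2 - w.im ^ 2)) := by
  rw [g0, Complex.norm_exp]
  congr 1
  simp [pow_two]

theorem differentiable_g0 (r x₀ : ℝ) : Differentiable ℂ (g0 r x₀) := by
  unfold g0
  fun_prop

/-- bounded region containing all shifted worms -/
def Reg (b : ℝ) : Set (ℝ × ℂ) := {p | |p.1| ≤ b + 1 ∧ |p.2.im| ≤ b + 3}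

theorem measurableSet_Reg (b : ℝ) : MeasurableSet (Reg b) := by
  have h1 : IsClosed {p : ℝ × ℂ | |p.1| ≤ b + 1} := isClosed_le (by fun_prop) continuous_const
  have h2 : IsClosed {p : ℝ × ℂ | |p.2.im| ≤ b + 3} := isClosed_le (by fun_prop) continuous_const
  exact (h1.inter h2).measurableSet

theorem totX_subset_Reg {δ : ℝ} {η : ℝ → ℝ} (h : Cap b δ η) (hδ : δ ≤ 1) (X : ℝ) :
    totX η X ⊆ Reg b := by
  rintro ⟨t, w⟩ hp
  have h1 := h.abs_lt (t := t) (w := w + X) hp
  have h2 : |(w + (X : ℂ)).im - t| < π / 2 := hp.1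
  simp only [Complex.add_im, Complex.ofReal_im, add_zero] at h2
  refine ⟨by simp only; linarith, ?_⟩
  have h3 : |w.im| ≤ |w.im - t| + |t| := by
    have := abs_add_le (w.im - t) t
    simpa using this
  have := Real.pi_le_four
  simp only
  linarith

theorem memLp_psi (b r x₀ : ℝ) :
    MemLp ((Reg b).indicator (fun p : ℝ × ℂ => conj (g0 r x₀ p.2) *
      ((Real.exp (r * p.2.re + |p.2.re| / 2) : ℝ) : ℂ))) 2 (expM.prod areaM) := by
  have hm : Measurable (fun p : ℝ × ℂ => conj (g0 r x₀ p.2) *
      ((Real.exp (r * p.2.re + |p.2.re| / 2) : ℝ) : ℂ)) := by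
    have h1 : Measurable (g0 r x₀) := (differentiable_g0 r x₀).continuous.measurable
    have h2 : Measurable (fun p : ℝ × ℂ => conj (g0 r x₀ p.2)) :=
      (Complex.continuous_conj.measurable.comp h1).comp measurable_snd
    fun_prop
  refine ⟨(hm.indicator (measurableSet_Reg b)).aestronglyMeasurable, ?_⟩
  rw [eLpNorm_lt_top_iff_lintegral_rpow_enorm_lt_top (by norm_num) (by norm_num)]
  simp only [ENNReal.toReal_ofNat]
  set D : ℝ := Real.exp (2 * (b + 3) ^ 2 + 1 + |x₀|) with hD
  set T : ℝ → ℝ≥0∞ := {t : ℝ | |t| ≤ b + 1}.indicator (fun _ => 1) with hT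
  set V : ℂ → ℝ≥0∞ := fun w => ENNReal.ofReal D * (ENNReal.ofReal (Real.exp (-2 * w.re)) *
    (ENNReal.ofReal (Real.exp (-(w.re - x₀) ^ 2)) *
      {y : ℝ | |y| ≤ b + 3}.indicator (fun _ => 1) w.im)) with hV
  have hT1 : MeasurableSet {t : ℝ | |t| ≤ b + 1} :=
    (isClosed_le (by fun_prop) continuous_const).measurableSet
  have hT2 : MeasurableSet {y : ℝ | |y| ≤ b + 3} :=
    (isClosed_le (by fun_prop) continuous_const).measurableSet
  have hVm : Measurable V := by
    have h1 : Measurable (fun w : ℂ => {y : ℝ | |y| ≤ b + 3}.indicator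
      (fun _ => (1 : ℝ≥0∞)) w.im) :=
      (measurable_const.indicator hT2).comp Complex.measurable_im
    rw [hV]
    fun_prop
  have h1 : ∀ p : ℝ × ℂ, ‖(Reg b).indicator (fun p : ℝ × ℂ => conj (g0 r x₀ p.2) *
      ((Real.exp (r * p.2.re + |p.2.re| / 2) : ℝ) : ℂ)) p‖ₑ ^ (2 : ℝ) ≤ T p.1 * V p.2 := by
    intro p
    by_cases hp : p ∈ Reg b
    · rw [indicator_of_mem hp, hT, hV]
      simp only
      rw [indicator_of_mem (show p.1 ∈ {t : ℝ | |t| ≤ b + 1} from hp.1),
        indicator_of_mem (show p.2.im ∈ {y : ℝ | |y| ≤ b + 3} from hp.2), one_mul, mul_one,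
        ← ofReal_norm, ENNReal.ofReal_rpow_of_nonneg (norm_nonneg _) (by norm_num),
        ← ENNReal.ofReal_mul (by positivity), ← ENNReal.ofReal_mul (by positivity)]
      apply ENNReal.ofReal_le_ofReal
      rw [norm_mul, RCLike.norm_conj, norm_g0, Complex.norm_real,
        Real.norm_of_nonneg (Real.exp_pos _).le, Real.rpow_two, ← Real.exp_add, hD,
        ← Real.exp_add, ← Real.exp_add, ← Real.exp_nat_mul]
      apply Real.exp_le_exp.mpr
      have hy : p.2.im ^ 2 ≤ (b + 3) ^ 2 := by
        rw [← sq_abs p.2.im]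
        have h2 := hp.2
        gcongr
      have hx : |p.2.re| ≤ |p.2.re - x₀| + |x₀| := by
        have := abs_add_le (p.2.re - x₀) x₀
        simpa using this
      have hx2 : |p.2.re - x₀| ≤ 1 + (p.2.re - x₀) ^ 2 := by
        rw [← sq_abs (p.2.re - x₀)]
        nlinarith [sq_nonneg (|p.2.re - x₀| - 1), abs_nonneg (p.2.re - x₀)]
      push_cast
      nlinarith
    · rw [indicator_of_notMem hp]
      simp
  calc ∫⁻ p, ‖(Reg b).indicator (fun p : ℝ × ℂ => conj (g0 r x₀ p.2) *
      ((Real.exp (r * p.2.re + |p.2.re| / 2) : ℝ) : ℂ)) p‖ₑ ^ (2 : ℝ) ∂(expM.prod areaM)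
      ≤ ∫⁻ p, T p.1 * V p.2 ∂(expM.prod areaM) := lintegral_mono h1
    _ = (∫⁻ t, T t ∂expM) * ∫⁻ w, V w ∂areaM :=
        lintegral_prod_mul ((measurable_const.indicator hT1).aemeasurable) hVm.aemeasurable
    _ < ⊤ := by
        apply ENNReal.mul_lt_top
        · rw [hT, lintegral_indicator hT1, setLIntegral_one]
          exact expM_bdd_lt_top _
        · have h2 := lintegral_areaM hVm (B := univ) MeasurableSet.univ
          rw [Measure.restrict_univ, Measure.restrict_univ] at h2
          rw [h2]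
          have h3 : ∀ w : ℂ, V w * ENNReal.ofReal (Real.exp (2 * w.re)) =
              ENNReal.ofReal D * (ENNReal.ofReal (Real.exp (-(w.re - x₀) ^ 2)) *
              {y : ℝ | |y| ≤ b + 3}.indicator (fun _ => 1) w.im) := by
            intro w
            rw [hV]
            simp only
            have h4 : ENNReal.ofReal (Real.exp (-2 * w.re)) *
                ENNReal.ofReal (Real.exp (2 * w.re)) = 1 := by
              rw [← ENNReal.ofReal_mul (Real.exp_pos _).le, ← Real.exp_add]
              simp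
            calc _ = ENNReal.ofReal D * ((ENNReal.ofReal (Real.exp (-2 * w.re)) *
                ENNReal.ofReal (Real.exp (2 * w.re))) *
                (ENNReal.ofReal (Real.exp (-(w.re - x₀) ^ 2)) *
              {y : ℝ | |y| ≤ b + 3}.indicator (fun _ => 1) w.im)) := by ring
              _ = _ := by rw [h4, one_mul]
          simp_rw [h3]
          rw [lintegral_const_mul' _ _ ENNReal.ofReal_ne_top]
          apply ENNReal.mul_lt_top ENNReal.ofReal_lt_top
          rw [lintegral_re_im (f := fun x => ENNReal.ofReal (Real.exp (-(x - x₀) ^ 2)))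
            (by fun_prop) (measurable_const.indicator hT2)]
          apply ENNReal.mul_lt_top
          · have h5 : Integrable (fun x : ℝ => Real.exp (-(x - x₀) ^ 2)) := by
              have := (integrable_exp_neg_mul_sq (b := 1) one_pos).comp_sub_right x₀
              simpa using this
            exact h5.lintegral_lt_top
          · rw [lintegral_indicator hT2, setLIntegral_one]
            have h6 : {y : ℝ | |y| ≤ b + 3} = Icc (-(b + 3)) (b + 3) := by
              ext y; simp [abs_le]
            rw [h6, Real.volume_Icc]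
            exact ENNReal.ofReal_lt_top

end Pool.Agent.Worm
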