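import Mathlib
import Pool.Agent.Worm.BlowLimit2

/-!
# The blow-up limit vanishes, third part
-/

open MeasureTheory Set Filter Topology Metric
open scoped Real ENNReal ComplexConjugate

namespace Pool.Agent.Worm

variable {b : ℝ} {N : ℕ} {r : ℝ}

/-- The pairing of the rescaled functions with the Gaussian converges to that of the limit. -/
theorem BSeq.tendsto_pair (B : BSeq b N r) (hX : Tendsto B.X atTop atBot) {H : ℂ → ℂ}
    (hHm : Measurable H)
    (hpt : ∀ w : ℂ, |w.im| < b + π / 2 → Tendsto (fun k => B.H k w) atTop (𝓝 (H w))) (x₀ : ℝ) :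
    Tendsto (fun k => ∫ w, B.H k w * conj (g0 r x₀ w) ∂(muA (totX (B.η k) (B.X k)))) atTop
      (𝓝 (∫ w, H w * conj (g0 r x₀ w) ∂(muI b))) := by
  obtain ⟨K, hK, hKb⟩ := B.window_exp
  have hgm : Measurable (fun w => conj (g0 r x₀ w)) :=
    Complex.continuous_conj.measurable.comp (differentiable_g0 r x₀).continuous.measurable
  set U : ℂ → ℂ := fun w => ((Real.exp (-r * w.re - |w.re| / 2) : ℝ) : ℂ) with hU
  have hUm : Measurable U := by rw [hU]; fun_prop
  set ψ : ℝ × ℂ → ℂ := (Reg b).indicator (fun p : ℝ × ℂ => conj (g0 r x₀ p.2) *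
      ((Real.exp (r * p.2.re + |p.2.re| / 2) : ℝ) : ℂ)) with hψ
  have key : ∀ h : ℂ → ℂ, ∀ ν : Measure ℂ, ∫⁻ w, ‖h w * U w‖ₑ ^ 2 ∂ν =
      ∫⁻ w, ‖h w‖ₑ ^ 2 * ENNReal.ofReal (Real.exp (-2 * r * w.re)) *
        ENNReal.ofReal (Real.exp (-|w.re|)) ∂ν := by
    intro h ν
    apply lintegral_congr
    intro w
    rw [enorm_mul, mul_pow, mul_assoc, ← ENNReal.ofReal_mul (Real.exp_pos _).le, ← Real.exp_add]
    congr 1
    rw [hU, ← ofReal_norm, Complex.norm_real, Real.norm_of_nonneg (Real.exp_pos _).le,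
      ← ENNReal.ofReal_pow (Real.exp_pos _).le, ← Real.exp_nat_mul]
    congr 2
    push_cast; ring
  have hprod : ∀ (A : Set (ℝ × ℂ)) (h : ℂ → ℂ), A ⊆ Reg b → ∀ p,
      A.indicator (fun p : ℝ × ℂ => h p.2 * U p.2) p * ψ p =
      A.indicator (fun p : ℝ × ℂ => (fun w => h w * conj (g0 r x₀ w)) p.2) p := by
    intro A h hA p
    by_cases hp : p ∈ A
    · rw [indicator_of_mem hp, indicator_of_mem hp, hψ, indicator_of_mem (hA hp), hU]
      simp only
      have h1 : ((Real.exp (-r * p.2.re - |p.2.re| / 2) : ℝ) : ℂ) *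
          ((Real.exp (r * p.2.re + |p.2.re| / 2) : ℝ) : ℂ) = 1 := by
        rw [← Complex.ofReal_mul, ← Real.exp_add]
        simp
      calc _ = h p.2 * conj (g0 r x₀ p.2) * (((Real.exp (-r * p.2.re - |p.2.re| / 2) : ℝ) : ℂ) *
          ((Real.exp (r * p.2.re + |p.2.re| / 2) : ℝ) : ℂ)) := by ring
        _ = _ := by rw [h1, mul_one]
    · rw [indicator_of_notMem hp, indicator_of_notMem hp, zero_mul]
  have h1 := (tendsto_integral_of_bounded (ν := expM.prod areaM)
    (f := fun k => (totX (B.η k) (B.X k)).indicator (fun p => B.H k p.2 * U p.2))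
    (g := (totI b).indicator (fun p => H p.2 * U p.2)) (ψ := ψ) (C := K)
    (fun k => (measurable_ind (isOpen_totX (B.cap k).cont _).measurableSet
      ((B.measurable_H k).mul hUm)).aestronglyMeasurable)
    (memLp_psi b r x₀) hK
    (by
      intro k
      rw [lintegral_ind_sq (h := fun w => B.H k w * U w)
        (isOpen_totX (B.cap k).cont _).measurableSet ((B.measurable_H k).mul hUm), key]
      exact hKb k)
    (by
      filter_upwards [ae_abs_ne b] with p hp
      exact B.tendsto_ind hX hpt U p hp)).2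
  have hI : totI b ⊆ Reg b := by
    rintro ⟨t, w⟩ hp
    have h1 : |t| < b := hp.1
    have h2 : |w.im - t| < π / 2 := hp.2
    have h3 : |w.im| ≤ |w.im - t| + |t| := by
      have := abs_add_le (w.im - t) t
      simpa using this
    have := Real.pi_le_four
    exact ⟨by simp only; linarith, by simp only; linarith⟩
  rw [muI_eq, integral_muA_base (f := fun w => H w * conj (g0 r x₀ w))
    (isOpen_totI b).measurableSet (hHm.mul hgm)]
  have h2 : ∀ k, ∫ w, B.H k w * conj (g0 r x₀ w) ∂(muA (totX (B.η k) (B.X k))) =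
      ∫ p, (totX (B.η k) (B.X k)).indicator (fun p => B.H k p.2 * U p.2) p * ψ p
        ∂(expM.prod areaM) := by
    intro k
    rw [integral_muA_base (f := fun w => B.H k w * conj (g0 r x₀ w))
      (isOpen_totX (B.cap k).cont _).measurableSet ((B.measurable_H k).mul hgm)]
    apply integral_congr_ae
    filter_upwards with p
    rw [hprod _ _ (totX_subset_Reg (B.cap k) (B.δ_le k) _)]
  simp_rw [h2]
  refine h1.congr' ?_ |>.trans (le_of_eq ?_)
  · exact Eventually.of_forall (fun k => rfl)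
  · congr 1
    apply integral_congr_ae
    filter_upwards with p
    rw [hprod _ _ hI]

theorem g0_shift_bound (hr : 0 < r) (x₀ X : ℝ) {w : ℂ} (hw : w ∈ Q b) :
    ‖g0 r x₀ (w - X)‖ ≤ Real.exp ((1 + r) * |x₀| + (1 + r) ^ 2 / 4 + (b + 3) ^ 2) := by
  rw [norm_g0]
  apply Real.exp_le_exp.mpr
  simp only [Complex.sub_re, Complex.ofReal_re, Complex.sub_im, Complex.ofReal_im, sub_zero]
  have h1 : w.im ^ 2 ≤ (b + 3) ^ 2 := by
    rw [← sq_abs w.im]
    have h2 := hw.2
    have := Real.pi_le_four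
    have h3 : |w.im| ≤ b + 3 := by linarith
    gcongr
  have h4 : -x₀ ≤ |x₀| := neg_le_abs x₀
  nlinarith [sq_nonneg (w.re - X - x₀ + (1 + r) / 2)]

theorem g0_shift_bound_right (hr : 0 < r) (x₀ X : ℝ) {w : ℂ} (hw : w ∈ Q b) (hw1 : -1 ≤ w.re)
    (hX : 1 + X + x₀ ≤ 0) :
    ‖g0 r x₀ (w - X)‖ ≤ Real.exp ((1 + r) * X + (1 + r) + (b + 3) ^ 2 - (1 + X + x₀) ^ 2) := by
  rw [norm_g0]
  apply Real.exp_le_exp.mpr
  simp only [Complex.sub_re, Complex.ofReal_re, Complex.sub_im, Complex.ofReal_im, sub_zero]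
  have h1 : w.im ^ 2 ≤ (b + 3) ^ 2 := by
    rw [← sq_abs w.im]
    have h2 := hw.2
    have := Real.pi_le_four
    have h3 : |w.im| ≤ b + 3 := by linarith
    gcongr
  nlinarith [mul_nonneg (by linarith : 0 ≤ w.re + 1) (by linarith : 0 ≤ -(1 + X + x₀))]

/-- The pairings tend to zero. -/
theorem BSeq.pair_zero (hb : 0 < b) (hr : N < r) (B : BSeq b N r)
    (hX : Tendsto B.X atTop atBot) (x₀ : ℝ) :
    Tendsto (fun k => ∫ w, B.H k w * conj (g0 r x₀ w) ∂(muA (totX (B.η k) (B.X k)))) atTop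
      (𝓝 0) := by
  have hpi := Real.pi_pos
  have hr0 : 0 < r := lt_of_le_of_lt (Nat.cast_nonneg N) hr
  obtain ⟨C', hC', hpair⟩ := pairing b N
  set C : ℝ := C'.toReal with hC
  obtain ⟨K, hK, hFK⟩ := sol_sq_le' (b := b) (by linarith)
  obtain ⟨A, hA, hcoef⟩ := coef_small hb hr hK one_pos
  obtain ⟨V', hV', hV⟩ := mu_exp_le b (a := 0) (by norm_num)
  set V : ℝ := V'.toReal with hVdef
  -- the bound
  have key : ∀ k, 1 + B.X k + x₀ ≤ 0 → 1 ≤ B.m k →
      ‖∫ w, B.H k w * conj (g0 r x₀ w) ∂(muA (totX (B.η k) (B.X k)))‖ ≤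
      (C * (2 + A) * Real.exp ((1 + r) + (b + 3) ^ 2) * V) * Real.exp (-(1 + B.X k + x₀) ^ 2) := by
    intro k hXk hmk
    have hm := B.m_pos k
    have hcap := B.cap k
    have hS := B.sol k
    have hδ := B.δ_le k
    set g : ℂ → ℂ := fun w => g0 r x₀ (w - B.X k) with hg
    have hgd : Differentiable ℂ g := (differentiable_g0 r x₀).comp (by fun_prop)
    have hg2 : MemLp g 2 (mu (B.η k)) := by
      apply memLp_of_bound (a := 0)
        (C := Real.exp ((1 + r) * |x₀| + (1 + r) ^ 2 / 4 + (b + 3) ^ 2)) hcap hδ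
        hgd.continuous.aestronglyMeasurable (by norm_num)
      intro w hw
      simp only [zero_mul, Real.exp_zero, mul_one]
      exact g0_shift_bound hr0 x₀ (B.X k) hw
    have h1 : ∫ w, B.H k w * conj (g0 r x₀ w) ∂(muA (totX (B.η k) (B.X k))) =
        ((Real.exp (-2 * B.X k) : ℝ) : ℂ) *
          ((((Real.exp ((1 - r) * B.X k) / √(B.m k) : ℝ)) : ℂ) *
          ∫ w, (B.F k w - ∑ j ∈ Finset.range N, B.c k j * Complex.exp (j * w)) * conj (g w)
            ∂(mu (B.η k))) := by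
      have h2 := integral_muA_totX hcap.cont (B.X k)
        (fun w => B.H k (w - B.X k) * conj (g0 r x₀ (w - B.X k)))
      simp only [add_sub_cancel_right] at h2
      rw [h2]
      congr 1
      rw [← integral_const_mul]
      apply integral_congr_ae
      filter_upwards [ae_mem_S (B.η k)] with w hw
      rw [BSeq.H, sub_add_cancel, indicator_of_mem hw, hg, poly]
      ring
    have h3 := hpair (B.δ k) (B.η k) (B.F k) (B.c k) g (by linarith) hδ hcap hS
      hgd.differentiableOn hg2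
    have h4 := hcoef (B.δ k) (B.η k) (B.F k) (B.c k) (B.m k) hm.le hδ hcap hS
      (hFK _ _ _ _ hδ hcap hS) (B.bound k)
    set E : ℝ := Real.exp ((1 + r) * B.X k + (1 + r) + (b + 3) ^ 2 - (1 + B.X k + x₀) ^ 2) with hE
    have h5 : ∫⁻ w in {w : ℂ | -1 ≤ w.re}, ‖g w‖ₑ ∂(mu (B.η k)) ≤ ENNReal.ofReal (E * V) := by
      have hVk := hV (B.δ k) (B.η k) hδ hcap
      simp only [zero_mul, Real.exp_zero, ENNReal.ofReal_one, lintegral_const, one_mul] at hVk
      have h6 : ∫⁻ w in {w : ℂ | -1 ≤ w.re}, ‖g w‖ₑ ∂(mu (B.η k)) ≤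
          ∫⁻ w, ENNReal.ofReal E ∂(mu (B.η k)) := by
        rw [← lintegral_indicator (measurableSet_re_ge (-1))]
        apply lintegral_mono_ae
        filter_upwards [ae_mem_Q hcap hδ] with w hw
        by_cases hw1 : w ∈ {w : ℂ | -1 ≤ w.re}
        · rw [indicator_of_mem hw1, ← ofReal_norm]
          exact ENNReal.ofReal_le_ofReal (g0_shift_bound_right hr0 x₀ (B.X k) hw hw1 hXk)
        · rw [indicator_of_notMem hw1]
          exact zero_le
      refine h6.trans ?_
      rw [lintegral_const, ENNReal.ofReal_mul (Real.exp_pos _).le, hVdef,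
        ENNReal.ofReal_toReal hV']
      gcongr
    have h7 : (1 + ∑ j ∈ Finset.range N, ‖B.c k j‖ₑ) ≤
        ENNReal.ofReal ((2 + A) * √(B.m k)) := by
      have hsq : 1 ≤ √(B.m k) := Real.one_le_sqrt.mpr hmk
      have h8 : ∑ j ∈ Finset.range N, ‖B.c k j‖ₑ =
          ENNReal.ofReal (∑ j ∈ Finset.range N, ‖B.c k j‖) := by
        rw [ENNReal.ofReal_sum_of_nonneg (fun _ _ => norm_nonneg _)]
        simp_rw [ofReal_norm]
      rw [h8, ← ENNReal.ofReal_one, ← ENNReal.ofReal_add (by norm_num) (by positivity)]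
      apply ENNReal.ofReal_le_ofReal
      nlinarith
    have h9 : ‖∫ w, (B.F k w - ∑ j ∈ Finset.range N, B.c k j * Complex.exp (j * w)) * conj (g w)
            ∂(mu (B.η k))‖ ≤ C * ((2 + A) * √(B.m k)) * (E * V) := by
      have h10 : ‖∫ w, (B.F k w - ∑ j ∈ Finset.range N, B.c k j * Complex.exp (j * w)) *
          conj (g w) ∂(mu (B.η k))‖ₑ ≤ ENNReal.ofReal (C * ((2 + A) * √(B.m k)) * (E * V)) := by
        rw [ENNReal.ofReal_mul (by positivity), ENNReal.ofReal_mul ENNReal.toReal_nonneg,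
          ENNReal.ofReal_toReal hC']
        refine h3.trans ?_
        gcongr
      rw [← ofReal_norm, ENNReal.ofReal_le_ofReal_iff (by positivity)] at h10
      exact h10
    rw [h1, norm_mul, norm_mul, Complex.norm_real, Complex.norm_real,
      Real.norm_of_nonneg (by positivity), Real.norm_of_nonneg (by positivity)]
    have hsq0 : 0 < √(B.m k) := Real.sqrt_pos.mpr hm
    calc Real.exp (-2 * B.X k) * (Real.exp ((1 - r) * B.X k) / √(B.m k) *
        ‖∫ w, (B.F k w - ∑ j ∈ Finset.range N, B.c k j * Complex.exp (j * w)) * conj (g w)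
            ∂(mu (B.η k))‖)
        ≤ Real.exp (-2 * B.X k) * (Real.exp ((1 - r) * B.X k) / √(B.m k) *
          (C * ((2 + A) * √(B.m k)) * (E * V))) := by gcongr
      _ = C * (2 + A) * V * (Real.exp (-2 * B.X k) * Real.exp ((1 - r) * B.X k) * E) := by
          field_simp
      _ = C * (2 + A) * V * (Real.exp ((1 + r) + (b + 3) ^ 2) *
            Real.exp (-(1 + B.X k + x₀) ^ 2)) := by
          rw [hE, ← Real.exp_add, ← Real.exp_add, ← Real.exp_add]
          congr 2
          ring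
      _ = _ := by ring
  have h1 : Tendsto (fun k => (C * (2 + A) * Real.exp ((1 + r) + (b + 3) ^ 2) * V) *
      Real.exp (-(1 + B.X k + x₀) ^ 2)) atTop (𝓝 0) := by
    rw [show (0 : ℝ) = (C * (2 + A) * Real.exp ((1 + r) + (b + 3) ^ 2) * V) * 0 by ring]
    apply Tendsto.const_mul
    apply Real.tendsto_exp_atBot.comp
    apply tendsto_neg_atTop_atBot.comp
    have h2 : Tendsto (fun k => 1 + B.X k + x₀) atTop atBot :=
      tendsto_atBot_add_const_right _ _ (tendsto_atBot_add_const_left _ _ hX)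
    have h3 : Tendsto (fun k => (1 + B.X k + x₀) * (1 + B.X k + x₀)) atTop atTop :=
      h2.atBot_mul_atBot₀ h2
    refine h3.congr (fun k => ?_)
    ring
  apply squeeze_zero_norm' _ h1
  have e1 : ∀ᶠ k in atTop, B.X k ≤ -1 - x₀ := hX.eventually_le_atBot _
  have e2 : ∀ᶠ k in atTop, 1 ≤ B.m k := B.m_lim.eventually_ge_atTop _
  filter_upwards [e1, e2] with k h2 h3
  exact key k (by linarith) h3

/-- After passing to a subsequence, the remainder is small in the core. -/
theorem BSeq.exists_core (hb : 0 < b) (hr : N < r) (hr1 : r < N + 1)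
    (hr2 : Real.sin (2 * r * b) ≠ 0) (B : BSeq b N r) :
    ∃ B' : BSeq b N r, ∀ κ > 0, ∀ L : ℝ, ∀ ε > 0, ∀ᶠ k in atTop, ∀ w : ℂ,
      |w.im| ≤ b + π / 2 - κ → |w.re - B'.X k| ≤ L →
        ‖B'.F k w - poly (B'.c k) N w‖ ^ 2 ≤ ε * B'.m k * Real.exp (2 * (r - 1) * B'.X k) := by
  have hpi := Real.pi_pos
  have hr0 : 0 < r := lt_of_le_of_lt (Nat.cast_nonneg N) hr
  obtain ⟨H, φ, hφ, hH, hTLU⟩ := B.exists_limit hb hr
  set B' := B.sub φ hφ with hB'
  refine ⟨B', ?_⟩
  have hX := B'.X_lim hb hr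
  set Ω : Set ℂ := {w : ℂ | |w.im| < b + π / 2} with hΩdef
  have hΩ : IsOpen Ω := isOpen_lt (by fun_prop) continuous_const
  set H' : ℂ → ℂ := Ω.indicator H with hH'
  have hH'm : Measurable H' := by
    classical
    rw [hH', ← piecewise_eq_indicator]
    exact hH.continuousOn.measurable_piecewise continuousOn_const hΩ.measurableSet
  have hpt : ∀ w : ℂ, |w.im| < b + π / 2 → Tendsto (fun k => B'.H k w) atTop (𝓝 (H' w)) := by
    intro w hw
    rw [hH', indicator_of_mem (show w ∈ Ω from hw)]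
    exact hTLU.tendsto_at hw
  have hH'd : DifferentiableOn ℂ H' Ω := by
    apply hH.congr
    intro w hw
    rw [hH', indicator_of_mem hw]
  have hzero := liouville (b := b) (r := r) (by linarith) hr0 (by
    intro n hn
    have h1 : (N : ℝ) < (n : ℝ) := hn ▸ hr
    have h2 : (n : ℝ) < (N : ℝ) + 1 := hn ▸ hr1
    have h3 : (N : ℤ) < n := by exact_mod_cast h1
    have h4 : n < (N : ℤ) + 1 := by exact_mod_cast h2
    omega) hr2 hH'd (C := 1) (by norm_num) (B'.hwin hX hH'm hpt) (by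
    intro x₀
    have h1 := B'.tendsto_pair hX hH'm hpt x₀
    have h2 := B'.pair_zero hb hr hX x₀
    exact tendsto_nhds_unique h1 h2)
  intro κ hκ L ε hε
  -- compact set
  have hK : IsCompact {w : ℂ | |w.im| ≤ b + π / 2 - κ ∧ |w.re| ≤ L} := by
    apply Metric.isCompact_of_isClosed_isBounded
    · have h1 : IsClosed {w : ℂ | |w.im| ≤ b + π / 2 - κ} := isClosed_le (by fun_prop) continuous_const
      have h2 : IsClosed {w : ℂ | |w.re| ≤ L} := isClosed_le (by fun_prop) continuous_const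
      exact h1.inter h2
    · rw [isBounded_iff_forall_norm_le]
      refine ⟨L + (b + π / 2 - κ), ?_⟩
      rintro w ⟨h1, h2⟩
      have := Complex.norm_le_abs_re_add_abs_im w
      linarith
  have hKΩ : {w : ℂ | |w.im| ≤ b + π / 2 - κ ∧ |w.re| ≤ L} ⊆ Ω := by
    rintro w ⟨h1, h2⟩
    change |w.im| < b + π / 2
    linarith
  have hunif := (tendstoLocallyUniformlyOn_iff_forall_isCompact hΩ).mp hTLU _ hKΩ hK
  rw [Metric.tendstoUniformlyOn_iff] at hunif
  have hε' : 0 < √ε := Real.sqrt_pos.mpr hε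
  -- threshold for membership in S
  set κ' : ℝ := min κ (min (π / 2) b) with hκ'
  have hκ'0 : 0 < κ' := lt_min hκ (lt_min (by positivity) hb)
  have hκ'1 : κ' ≤ π / 2 := (min_le_right _ _).trans (min_le_left _ _)
  have hκ'2 : κ' ≤ b := (min_le_right _ _).trans (min_le_right _ _)
  obtain ⟨C, hC, hbd⟩ := BSeq.norm_H_le (N := N) (r := r) (b := b) hκ'0 hκ'1 (by linarith)
  have hsin : 0 < 2 * Real.sin (κ' / 4) := by
    have h5 : κ' ≤ π / 2 := hκ'1
    have := Real.sin_pos_of_pos_of_lt_pi (x := κ' / 4) (by positivity) (by linarith)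
    linarith
  have e1 : ∀ᶠ k in atTop, B'.X k < Real.log (2 * Real.sin (κ' / 4)) - (L + κ' / 2) :=
    hX.eventually_lt_atBot _
  filter_upwards [hunif (√ε) hε', e1] with k hk1 hk2 w hw1 hw2
  have hm := B'.m_pos k
  set v : ℂ := w - B'.X k with hv
  have hvim : v.im = w.im := by simp [hv]
  have hvre : v.re = w.re - B'.X k := by simp [hv]
  have hwv : v + B'.X k = w := by simp [hv]
  have h1 := hk1 v ⟨by rw [hvim]; exact hw1, by rw [hvre]; exact hw2⟩
  have h2 : H v = 0 := by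
    have h3 := hzero v (by rw [hvim]; linarith)
    rwa [hH', indicator_of_mem (show v ∈ Ω from by
      change |v.im| < b + π / 2
      rw [hvim]; linarith)] at h3
  rw [h2, dist_zero_left] at h1
  have h3 : v + B'.X k ∈ S (B'.η k) := by
    apply (hbd B' k v _ _).1
    · rw [hvim]
      have : κ' ≤ κ := min_le_left _ _
      linarith
    · rw [← Real.lt_log_iff_exp_lt hsin, hvre]
      have := (abs_le.mp hw2).2
      linarith
  have h4 : ‖B'.H k v‖ ^ 2 ≤ ε := by
    calc ‖B'.H k v‖ ^ 2 ≤ (√ε) ^ 2 := by gcongr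
      _ = ε := Real.sq_sqrt hε.le
  rw [B'.norm_H_sq, indicator_of_mem h3, hwv] at h4
  have h5 : ‖B'.F k w - poly (B'.c k) N w‖ ^ 2 =
      ‖B'.F k w - poly (B'.c k) N w‖ ^ 2 * (Real.exp (2 * (1 - r) * B'.X k) / B'.m k) *
        (B'.m k * Real.exp (2 * (r - 1) * B'.X k)) := by
    have h6 : Real.exp (2 * (1 - r) * B'.X k) * Real.exp (2 * (r - 1) * B'.X k) = 1 := by
      rw [← Real.exp_add]
      rw [show 2 * (1 - r) * B'.X k + 2 * (r - 1) * B'.X k = 0 by ring, Real.exp_zero]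
    calc _ = ‖B'.F k w - poly (B'.c k) N w‖ ^ 2 *
          (Real.exp (2 * (1 - r) * B'.X k) * Real.exp (2 * (r - 1) * B'.X k)) := by
            rw [h6, mul_one]
      _ = _ := by field_simp
  rw [h5]
  calc _ ≤ ε * (B'.m k * Real.exp (2 * (r - 1) * B'.X k)) := by gcongr
    _ = _ := by ring

end Pool.Agent.Worm
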