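import Mathlib

/-!
Module A/EDGE, part 1: the real kernel of the test function and its lower bound.
-/

open MeasureTheory Set Filter Topology Metric
open scoped Real ENNReal ComplexConjugate

namespace Pool.Agent.Worm

namespace Edge

theorem half_le_cos {θ : ℝ} (h : |θ| ≤ π / 3) : 1 / 2 ≤ Real.cos θ := by
  have hpi := Real.pi_pos
  rw [← Real.cos_abs θ, ← Real.cos_pi_div_three]
  exact Real.cos_le_cos_of_nonneg_of_le_pi (abs_nonneg _) (by linarith) h

theorem cos_near {a β y θ : ℝ} (hs : Real.sin (a * β) = 0)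
    (hθ : |a * (|y| - β)| + |θ| ≤ π / 3) :
    1 / 2 ≤ Real.cos (a * β) * Real.cos (a * y + θ) := by
  have h1 : Real.cos (a * β) * Real.cos (a * β) = 1 := by
    have := Real.sin_sq_add_cos_sq (a * β)
    rw [hs] at this
    nlinarith
  have key : ∀ t : ℝ, Real.cos (a * β) * Real.cos (a * β + t) = Real.cos t := by
    intro t
    rw [Real.cos_add, hs, zero_mul, sub_zero, ← mul_assoc, h1, one_mul]
  rcases le_total 0 y with hy | hy
  · rw [abs_of_nonneg hy] at hθ
    rw [show a * y + θ = a * β + (a * (y - β) + θ) by ring, key]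
    exact half_le_cos ((abs_add_le _ _).trans hθ)
  · rw [abs_of_nonpos hy] at hθ
    rw [show a * y + θ = -(a * β + (a * (-y - β) - θ)) by ring, Real.cos_neg, key]
    exact half_le_cos ((abs_sub _ _).trans hθ)

/-- The real kernel. -/
noncomputable def ker (b r ε X : ℝ) (w : ℂ) : ℝ :=
  Real.cos (2 * r * (b + π / 2)) * (Real.exp (-2 * ε * ((w.re - X) ^ 2 - w.im ^ 2)) *
    Real.cos (2 * r * w.im + 4 * ε * (w.re - X) * w.im))

theorem abs_ker_le {b r ε X : ℝ} (hε : 0 ≤ ε) {w : ℂ} (hw : |w.im| ≤ b + 3) :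
    |ker b r ε X w| ≤ Real.exp (2 * ε * (b + 3) ^ 2) * Real.exp (-2 * ε * (w.re - X) ^ 2) := by
  rw [ker, abs_mul, abs_mul, abs_of_pos (Real.exp_pos _)]
  have h1 := Real.abs_cos_le_one (2 * r * (b + π / 2))
  have h2 := Real.abs_cos_le_one (2 * r * w.im + 4 * ε * (w.re - X) * w.im)
  have h3 : Real.exp (-2 * ε * ((w.re - X) ^ 2 - w.im ^ 2)) ≤
      Real.exp (2 * ε * (b + 3) ^ 2) * Real.exp (-2 * ε * (w.re - X) ^ 2) := by
    rw [← Real.exp_add]
    apply Real.exp_le_exp.2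
    have h4 : w.im ^ 2 ≤ (b + 3) ^ 2 := by
      rw [← sq_abs w.im]
      exact pow_le_pow_left₀ (abs_nonneg _) hw 2
    nlinarith
  calc |Real.cos (2 * r * (b + π / 2))| * (Real.exp (-2 * ε * ((w.re - X) ^ 2 - w.im ^ 2)) *
        |Real.cos (2 * r * w.im + 4 * ε * (w.re - X) * w.im)|)
      ≤ 1 * (Real.exp (-2 * ε * ((w.re - X) ^ 2 - w.im ^ 2)) * 1) := by gcongr
    _ ≤ _ := by rw [one_mul, mul_one]; exact h3

theorem ker_ge {b r ε X κ δ L : ℝ} (hr : 0 ≤ r) (hε : 0 ≤ ε)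
    (hmag : Real.sin (2 * r * (b + π / 2)) = 0) (hκ : 2 * r * κ ≤ π / 6)
    (hδ : 2 * r * δ ≤ π / 6) (hL : 4 * ε * L * (b + 3) ≤ π / 6) {w : ℂ}
    (h1 : b + π / 2 - κ ≤ |w.im|) (h2 : |w.im| ≤ b + π / 2 + δ) (h2' : |w.im| ≤ b + 3)
    (h3 : |w.re - X| ≤ L) :
    1 / 2 * Real.exp (-2 * ε * (w.re - X) ^ 2) ≤ ker b r ε X w := by
  have hcos : 1 / 2 ≤ Real.cos (2 * r * (b + π / 2)) *
      Real.cos (2 * r * w.im + 4 * ε * (w.re - X) * w.im) := by
    apply cos_near hmag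
    have e1 : |2 * r * (|w.im| - (b + π / 2))| ≤ π / 6 := by
      rw [abs_le]
      constructor <;> nlinarith
    have e2 : |4 * ε * (w.re - X) * w.im| ≤ π / 6 := by
      rw [abs_mul, abs_mul, abs_of_nonneg (by positivity : (0 : ℝ) ≤ 4 * ε)]
      refine le_trans ?_ hL
      have hL0 : 0 ≤ L := (abs_nonneg _).trans h3
      have : 0 ≤ 4 * ε * L := by positivity
      gcongr
    linarith
  have hexp : Real.exp (-2 * ε * (w.re - X) ^ 2) ≤
      Real.exp (-2 * ε * ((w.re - X) ^ 2 - w.im ^ 2)) := by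
    apply Real.exp_le_exp.2
    nlinarith [sq_nonneg w.im]
  have e3 := Real.exp_pos (-2 * ε * (w.re - X) ^ 2)
  have e4 := Real.exp_pos (-2 * ε * ((w.re - X) ^ 2 - w.im ^ 2))
  rw [ker]
  nlinarith

/-- The combined lower bound for the kernel. -/
theorem ker_lower {b r ε X κ δ L s : ℝ} (hb : 0 ≤ b) (hr : 0 ≤ r) (hε : 0 ≤ ε) (hL1 : 1 ≤ L)
    (hs : s = ε * L) (hmag : Real.sin (2 * r * (b + π / 2)) = 0) (hκ : 2 * r * κ ≤ π / 6)
    (hδ : 2 * r * δ ≤ π / 6) (hL : 4 * ε * L * (b + 3) ≤ π / 6) {w : ℂ}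
    (h2 : |w.im| ≤ b + π / 2 + δ) (h2' : |w.im| ≤ b + 3) :
    1 / 2 * Real.exp (-2 * ε) * {w : ℂ | |w.re - X| ≤ 1}.indicator (fun _ => (1 : ℝ)) w
      - 2 * Real.exp (2 * ε * (b + 3) ^ 2) *
        {w : ℂ | |w.im| ≤ b + π / 2 - κ ∧ |w.re - X| ≤ L}.indicator (fun _ => (1 : ℝ)) w
      - Real.exp (2 * ε * (b + 3) ^ 2) * Real.exp (-s * L) * Real.exp (-s * |w.re - X|) ≤
      ker b r ε X w := by
  set D := Real.exp (2 * ε * (b + 3) ^ 2) with hD
  have hD1 : 1 ≤ D := Real.one_le_exp (by positivity)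
  have habs := abs_ker_le (r := r) (X := X) hε h2'
  rw [← hD] at habs
  have hneg := (abs_le.1 habs).1
  have hpos : 0 ≤ D * Real.exp (-s * L) * Real.exp (-s * |w.re - X|) := by positivity
  rcases lt_or_ge L |w.re - X| with hu | hu
  · rw [indicator_of_notMem, indicator_of_notMem]
    · have h4 : Real.exp (-2 * ε * (w.re - X) ^ 2) ≤
          Real.exp (-s * L) * Real.exp (-s * |w.re - X|) := by
        rw [← Real.exp_add]
        apply Real.exp_le_exp.2
        rw [hs, ← sq_abs (w.re - X)]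
        have : 0 ≤ ε * (|w.re - X| - L) := mul_nonneg hε (by linarith)
        nlinarith
      have h5 : D * Real.exp (-2 * ε * (w.re - X) ^ 2) ≤
          D * (Real.exp (-s * L) * Real.exp (-s * |w.re - X|)) := by gcongr
      linarith
    · rintro ⟨_, h⟩
      exact absurd h (not_le.2 hu)
    · intro h
      have h' : |w.re - X| ≤ 1 := h
      linarith
  · have hexp1 : Real.exp (-2 * ε * (w.re - X) ^ 2) ≤ 1 := by
      rw [Real.exp_le_one_iff]
      nlinarith [mul_nonneg hε (sq_nonneg (w.re - X))]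
    rcases lt_or_ge |w.im| (b + π / 2 - κ) with hy | hy
    · rw [indicator_of_mem (show w ∈ {w : ℂ | |w.im| ≤ b + π / 2 - κ ∧ |w.re - X| ≤ L} from
        ⟨hy.le, hu⟩)]
      have h6 : {w : ℂ | |w.re - X| ≤ 1}.indicator (fun _ => (1 : ℝ)) w ≤ 1 := by
        apply indicator_apply_le'
        · intro _; exact le_rfl
        · intro _; exact zero_le_one
      have h6' : 0 ≤ {w : ℂ | |w.re - X| ≤ 1}.indicator (fun _ => (1 : ℝ)) w :=
        indicator_nonneg (fun _ _ => zero_le_one) _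
      have h7 : Real.exp (-2 * ε) ≤ 1 := by
        rw [Real.exp_le_one_iff]; linarith
      have h8 : 1 / 2 * Real.exp (-2 * ε) *
          {w : ℂ | |w.re - X| ≤ 1}.indicator (fun _ => (1 : ℝ)) w ≤ 1 / 2 * 1 * 1 := by
        gcongr
      have h9 : D * Real.exp (-2 * ε * (w.re - X) ^ 2) ≤ D := by nlinarith
      linarith
    · have hk := ker_ge (X := X) hr hε hmag hκ hδ hL hy h2 h2' hu
      have h10 : 0 ≤ 2 * D * {w : ℂ | |w.im| ≤ b + π / 2 - κ ∧
          |w.re - X| ≤ L}.indicator (fun _ => (1 : ℝ)) w :=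
        mul_nonneg (by positivity) (indicator_nonneg (fun _ _ => zero_le_one) _)
      by_cases hu1 : |w.re - X| ≤ 1
      · rw [indicator_of_mem (show w ∈ {w : ℂ | |w.re - X| ≤ 1} from hu1)]
        have h11 : Real.exp (-2 * ε) ≤ Real.exp (-2 * ε * (w.re - X) ^ 2) := by
          apply Real.exp_le_exp.2
          have : (w.re - X) ^ 2 ≤ 1 := by
            rw [← sq_abs]
            exact pow_le_one₀ (abs_nonneg _) hu1
          nlinarith
        linarith
      · rw [indicator_of_notMem (show w ∉ {w : ℂ | |w.re - X| ≤ 1} from hu1)]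
        have := Real.exp_pos (-2 * ε * (w.re - X) ^ 2)
        linarith

end Edge

end Pool.Agent.Worm
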