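import Mathlib
import Pool.Agent.Worm.Blow
import Pool.Agent.Worm.AuxA

/-!
Module A/EDGE, part 2: the weight |G|^2 exp(-2 r x), exponential weights and the mass of windows.
-/

open MeasureTheory Set Filter Topology Metric
open scoped Real ENNReal ComplexConjugate

namespace Pool.Agent.Worm

namespace Edge

/-- The weight `|G|² e^{-2 r x}`. -/
noncomputable def phi (F : ℂ → ℂ) (c : ℕ → ℂ) (N : ℕ) (r : ℝ) (w : ℂ) : ℝ :=
  ‖F w - poly c N w‖ ^ 2 * Real.exp (-2 * r * w.re)

theorem phi_nonneg (F : ℂ → ℂ) (c : ℕ → ℂ) (N : ℕ) (r : ℝ) (w : ℂ) : 0 ≤ phi F c N r w := by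
  unfold phi
  positivity

theorem ofReal_phi (F : ℂ → ℂ) (c : ℕ → ℂ) (N : ℕ) (r : ℝ) (w : ℂ) :
    ENNReal.ofReal (phi F c N r w) =
      ‖F w - poly c N w‖ₑ ^ 2 * ENNReal.ofReal (Real.exp (-2 * r * w.re)) := by
  rw [phi, ENNReal.ofReal_mul (by positivity), ENNReal.ofReal_pow (norm_nonneg _), ofReal_norm]

theorem integrable_exp_mu {b δ : ℝ} {η : ℝ → ℝ} (hcap : Cap b δ η) (hδ : δ ≤ 1) {a : ℝ}
    (ha : -2 < a) : Integrable (fun w : ℂ => Real.exp (a * w.re)) (mu η) := by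
  obtain ⟨K, hK, h⟩ := mu_exp_le b ha
  refine ⟨by apply Continuous.aestronglyMeasurable; fun_prop, ?_⟩
  rw [hasFiniteIntegral_iff_ofReal (Eventually.of_forall fun w => (Real.exp_pos _).le)]
  exact lt_of_le_of_lt (h δ η hδ hcap) hK.lt_top

theorem mu_restrict_S (η : ℝ → ℝ) : (mu η).restrict (S η) = mu η :=
  Measure.restrict_eq_self_of_ae_mem (ae_mem_S η)

theorem aesm_mu_of_hol {η : ℝ → ℝ} {f : ℂ → ℂ} (h : DifferentiableOn ℂ f (S η)) :
    AEStronglyMeasurable f (mu η) := by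
  rw [← mu_restrict_S]
  exact h.continuousOn.aestronglyMeasurable (isOpen_S η).measurableSet

theorem aesm_G {η : ℝ → ℝ} {F : ℂ → ℂ} {c : ℕ → ℂ} (N : ℕ) (hS : SolC η F c) :
    AEStronglyMeasurable (fun w => F w - poly c N w) (mu η) :=
  aesm_mu_of_hol (hS.hol.sub (differentiable_poly c N).differentiableOn)

theorem aesm_phi {η : ℝ → ℝ} {F : ℂ → ℂ} {c : ℕ → ℂ} (N : ℕ) (r : ℝ) (hS : SolC η F c) :
    AEStronglyMeasurable (phi F c N r) (mu η) := by
  unfold phi
  refine ((aesm_G N hS).norm.pow 2).mul ?_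
  apply Continuous.aestronglyMeasurable
  fun_prop

theorem integrable_phi {b δ : ℝ} {η : ℝ → ℝ} {F : ℂ → ℂ} {c : ℕ → ℂ} {N : ℕ} {r : ℝ}
    (hr : r < N + 1) (hδ : δ ≤ 1) (hcap : Cap b δ η) (hS : SolC η F c) :
    Integrable (phi F c N r) (mu η) := by
  obtain ⟨C, hC⟩ := hS.taylor N
  have h1 := (integrable_exp_mu hcap hδ (a := 2 * (N - r)) (by linarith)).const_mul (C ^ 2)
  refine h1.mono' (aesm_phi N r hS) ?_
  filter_upwards [ae_mem_S η] with w hw
  have h4 := hC w hw
  rw [Real.norm_of_nonneg (phi_nonneg _ _ _ _ _), phi]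
  calc ‖F w - poly c N w‖ ^ 2 * Real.exp (-2 * r * w.re)
      ≤ (C * Real.exp (N * w.re)) ^ 2 * Real.exp (-2 * r * w.re) := by
        gcongr
        exact h4
    _ = _ := by
      rw [mul_pow, ← Real.exp_nat_mul, mul_assoc, ← Real.exp_add]
      congr 2
      push_cast; ring

theorem measurableSet_win' (X L : ℝ) : MeasurableSet {w : ℂ | |w.re - X| ≤ L} :=
  (isClosed_le (by fun_prop) continuous_const).measurableSet

theorem wmass_eq_ofReal {b δ : ℝ} {η : ℝ → ℝ} {F : ℂ → ℂ} {c : ℕ → ℂ} {N : ℕ} {r : ℝ}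
    (hr : r < N + 1) (hδ : δ ≤ 1) (hcap : Cap b δ η) (hS : SolC η F c) (X : ℝ) :
    wmass η F c N r X = ENNReal.ofReal (∫ w in {w : ℂ | |w.re - X| ≤ 1}, phi F c N r w ∂(mu η)) := by
  rw [ofReal_integral_eq_lintegral_ofReal (integrable_phi hr hδ hcap hS).integrableOn
    (Eventually.of_forall fun w => phi_nonneg _ _ _ _ _), wmass_eq]
  apply lintegral_congr
  intro w
  rw [ofReal_phi]

/-- Exponential weights. -/
theorem exp_weight {s : ℝ} (hs : 0 < s) : ∃ K : ℝ, 0 ≤ K ∧ ∀ {b δ : ℝ} {η : ℝ → ℝ} {F : ℂ → ℂ}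
    {c : ℕ → ℂ} {N : ℕ} {r m : ℝ}, r < N + 1 → δ ≤ 1 → Cap b δ η → SolC η F c → 0 ≤ m →
    (∀ X, wmass η F c N r X ≤ ENNReal.ofReal m) → ∀ X,
    ∫ w, phi F c N r w * Real.exp (-s * |w.re - X|) ∂(mu η) ≤ K * m := by
  obtain ⟨K, hK, h⟩ := window_bound s hs
  refine ⟨K.toReal, ENNReal.toReal_nonneg, ?_⟩
  intro b δ η F c N r m hr hδ hcap hS hm hw X
  have := isFiniteMeasure_mu hcap hδ
  have hm1 : AEMeasurable (fun w => ENNReal.ofReal (phi F c N r w)) (mu η) :=
    (aesm_phi N r hS).aemeasurable.ennreal_ofReal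
  have hφ := integrable_phi hr hδ hcap hS
  have h1 := h ((mu η).withDensity (fun w => ENNReal.ofReal (phi F c N r w))) (ENNReal.ofReal m) (by
    intro X
    rw [withDensity_apply _ (measurableSet_win' X 1)]
    refine le_trans (le_of_eq ?_) (hw X)
    rw [wmass_eq]
    apply lintegral_congr
    intro w
    rw [ofReal_phi]) X
  rw [lintegral_withDensity_eq_lintegral_mul₀ hm1 (by fun_prop)] at h1
  have hint : Integrable (fun w => phi F c N r w * Real.exp (-s * |w.re - X|)) (mu η) := by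
    refine hφ.mul_bdd (c := 1) ?_ ?_
    · apply Continuous.aestronglyMeasurable
      fun_prop
    · refine Eventually.of_forall fun w => ?_
      rw [Real.norm_of_nonneg (Real.exp_pos _).le, Real.exp_le_one_iff]
      have := abs_nonneg (w.re - X)
      nlinarith
  have h2 : ENNReal.ofReal (∫ w, phi F c N r w * Real.exp (-s * |w.re - X|) ∂(mu η)) ≤
      ENNReal.ofReal (K.toReal * m) := by
    rw [ofReal_integral_eq_lintegral_ofReal hint (Eventually.of_forall fun w =>
      mul_nonneg (phi_nonneg _ _ _ _ _) (Real.exp_pos _).le), ENNReal.ofReal_mul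
      ENNReal.toReal_nonneg, ENNReal.ofReal_toReal hK]
    refine le_trans (le_of_eq ?_) h1
    apply lintegral_congr
    intro w
    rw [Pi.mul_apply, ENNReal.ofReal_mul (phi_nonneg _ _ _ _ _)]
  exact (ENNReal.ofReal_le_ofReal_iff (by positivity)).1 h2

/-- The mass of windows. -/
theorem mu_window (b L : ℝ) : ∃ C : ℝ, 0 ≤ C ∧ ∀ {δ : ℝ} {η : ℝ → ℝ}, δ ≤ 1 → Cap b δ η → ∀ X : ℝ,
    mu η {w : ℂ | |w.re - X| ≤ L} ≤ ENNReal.ofReal (C * Real.exp (2 * X)) := by
  refine ⟨(expM {t : ℝ | |t| ≤ b + 1}).toReal * (Real.exp (2 * L) * (volume (Icc (-L) L)).toReal *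
    (volume (Ioo (-(b + 1 + π / 2)) (b + 1 + π / 2))).toReal), by positivity, ?_⟩
  intro δ η hδ hcap X
  have hE := expM_bdd_lt_top (b + 1)
  have h1 := lintegral_mu_le hcap hδ (f := {w : ℂ | |w.re - X| ≤ L}.indicator (fun _ => 1))
    (measurable_const.indicator (measurableSet_win' X L))
  rw [lintegral_indicator_const (measurableSet_win' X L), one_mul] at h1
  refine h1.trans ?_
  rw [mul_assoc, ENNReal.ofReal_mul ENNReal.toReal_nonneg, ENNReal.ofReal_toReal hE.ne]
  gcongr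
  rw [lintegral_areaM (measurable_const.indicator (measurableSet_win' X L))
    (isOpen_Q b).measurableSet, ← lintegral_indicator (isOpen_Q b).measurableSet]
  have h2 : ∀ w : ℂ, (Q b).indicator (fun w : ℂ => {w : ℂ | |w.re - X| ≤ L}.indicator
      (fun _ => (1 : ℝ≥0∞)) w * ENNReal.ofReal (Real.exp (2 * w.re))) w ≤
      ((Icc (X - L) (X + L)).indicator (fun _ => ENNReal.ofReal (Real.exp (2 * (X + L))))) w.re *
      ((Ioo (-(b + 1 + π / 2)) (b + 1 + π / 2)).indicator (fun _ => (1 : ℝ≥0∞))) w.im := by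
    intro w
    by_cases hw : w ∈ Q b
    · rw [indicator_of_mem hw]
      by_cases hw2 : |w.re - X| ≤ L
      · have h3 := abs_le.1 hw2
        rw [indicator_of_mem (show w ∈ {w : ℂ | |w.re - X| ≤ L} from hw2),
          indicator_of_mem (show w.im ∈ Ioo _ _ from abs_lt.1 hw.2),
          indicator_of_mem (show w.re ∈ Icc _ _ from ⟨by linarith [h3.1], by linarith [h3.2]⟩),
          one_mul, mul_one]
        apply ENNReal.ofReal_le_ofReal
        apply Real.exp_le_exp.2
        linarith [h3.2]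
      · rw [indicator_of_notMem (show w ∉ {w : ℂ | |w.re - X| ≤ L} from hw2), zero_mul]
        exact zero_le
    · rw [indicator_of_notMem hw]
      exact zero_le
  refine (lintegral_mono h2).trans ?_
  rw [lintegral_re_im (measurable_const.indicator measurableSet_Icc)
    (measurable_const.indicator measurableSet_Ioo), lintegral_indicator_const measurableSet_Icc,
    lintegral_indicator_const measurableSet_Ioo, one_mul]
  have hv1 : volume (Icc (X - L) (X + L)) = volume (Icc (-L) L) := by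
    rw [Real.volume_Icc, Real.volume_Icc]
    congr 1
    ring
  have hf1 : volume (Icc (-L) L) ≠ ⊤ := by
    rw [Real.volume_Icc]; exact ENNReal.ofReal_ne_top
  have hf2 : volume (Ioo (-(b + 1 + π / 2)) (b + 1 + π / 2)) ≠ ⊤ := by
    rw [Real.volume_Ioo]; exact ENNReal.ofReal_ne_top
  rw [hv1]
  apply le_of_eq
  conv_lhs => rw [← ENNReal.ofReal_toReal hf1, ← ENNReal.ofReal_toReal hf2]
  rw [← ENNReal.ofReal_mul (Real.exp_pos _).le, ← ENNReal.ofReal_mul (by positivity)]
  congr 1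
  rw [show 2 * (X + L) = 2 * L + 2 * X by ring, Real.exp_add]
  ring

end Edge

end Pool.Agent.Worm
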