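import Mathlib
import Pool.Agent.Worm.EdgeKer
import Pool.Agent.Worm.EdgeWeight

/-!
Module A/EDGE, part 3: the test function.
-/

open MeasureTheory Set Filter Topology Metric
open scoped Real ENNReal ComplexConjugate

namespace Pool.Agent.Worm

namespace Edge

/-- The test function. -/
noncomputable def tst (b r ε X : ℝ) (F : ℂ → ℂ) (c : ℕ → ℂ) (N : ℕ) (w : ℂ) : ℂ :=
  ((Real.cos (2 * r * (b + π / 2)) : ℝ) : ℂ) *
    (Complex.exp (-2 * (r : ℂ) * w - 2 * (ε : ℂ) * (w - (X : ℂ)) ^ 2) * (F w - poly c N w))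

theorem tst_expo (r ε X : ℝ) (w : ℂ) :
    (-2 * (r : ℂ) * w - 2 * (ε : ℂ) * (w - (X : ℂ)) ^ 2) =
      ((-2 * r * w.re + -2 * ε * ((w.re - X) ^ 2 - w.im ^ 2) : ℝ) : ℂ) +
        ((-(2 * r * w.im + 4 * ε * (w.re - X) * w.im) : ℝ) : ℂ) * Complex.I := by
  apply Complex.ext
  · simp [pow_two]
    ring
  · simp [pow_two]
    ring

theorem norm_tst_le {b r ε X : ℝ} (hε : 0 ≤ ε) {F : ℂ → ℂ} {c : ℕ → ℂ} {N : ℕ} {w : ℂ}
    (hw : |w.im| ≤ b + 3) :
    ‖tst b r ε X F c N w‖ ≤ Real.exp (2 * ε * (b + 3) ^ 2) *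
      Real.exp (-2 * r * w.re - 2 * ε * (w.re - X) ^ 2) * ‖F w - poly c N w‖ := by
  rw [tst, norm_mul, norm_mul, Complex.norm_real, Real.norm_eq_abs, tst_expo, Complex.norm_exp]
  simp only [Complex.add_re, Complex.ofReal_re, Complex.mul_re, Complex.I_re, mul_zero,
    Complex.ofReal_im, Complex.I_im, mul_one, sub_self, add_zero]
  have h1 := Real.abs_cos_le_one (2 * r * (b + π / 2))
  have h3 : Real.exp (-2 * r * w.re + -2 * ε * ((w.re - X) ^ 2 - w.im ^ 2)) ≤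
      Real.exp (2 * ε * (b + 3) ^ 2) * Real.exp (-2 * r * w.re - 2 * ε * (w.re - X) ^ 2) := by
    rw [← Real.exp_add]
    apply Real.exp_le_exp.2
    have h4 : w.im ^ 2 ≤ (b + 3) ^ 2 := by
      rw [← sq_abs w.im]
      exact pow_le_pow_left₀ (abs_nonneg _) hw 2
    nlinarith
  calc |Real.cos (2 * r * (b + π / 2))| *
        (Real.exp (-2 * r * w.re + -2 * ε * ((w.re - X) ^ 2 - w.im ^ 2)) * ‖F w - poly c N w‖)
      ≤ 1 * (Real.exp (2 * ε * (b + 3) ^ 2) *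
        Real.exp (-2 * r * w.re - 2 * ε * (w.re - X) ^ 2) * ‖F w - poly c N w‖) := by
        gcongr
    _ = _ := one_mul _

theorem tst_re (b r ε X : ℝ) (F : ℂ → ℂ) (c : ℕ → ℂ) (N : ℕ) (w : ℂ) :
    ((F w - poly c N w) * conj (tst b r ε X F c N w)).re = phi F c N r w * ker b r ε X w := by
  set G := F w - poly c N w with hG
  have h1 : conj (Complex.exp (-2 * (r : ℂ) * w - 2 * (ε : ℂ) * (w - (X : ℂ)) ^ 2)) =
      ((Real.exp (-2 * r * w.re) * Real.exp (-2 * ε * ((w.re - X) ^ 2 - w.im ^ 2)) : ℝ) : ℂ) *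
        Complex.exp (((2 * r * w.im + 4 * ε * (w.re - X) * w.im : ℝ) : ℂ) * Complex.I) := by
    rw [← Complex.exp_conj, tst_expo, ← Real.exp_add, Complex.ofReal_exp, ← Complex.exp_add]
    congr 1
    simp only [map_add, map_mul, Complex.conj_ofReal, Complex.conj_I]
    push_cast
    ring
  have h2 : G * conj (tst b r ε X F c N w) =
      ((Real.cos (2 * r * (b + π / 2)) * (Real.exp (-2 * r * w.re) *
        Real.exp (-2 * ε * ((w.re - X) ^ 2 - w.im ^ 2))) * ‖G‖ ^ 2 : ℝ) : ℂ) *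
        Complex.exp (((2 * r * w.im + 4 * ε * (w.re - X) * w.im : ℝ) : ℂ) * Complex.I) := by
    rw [tst, map_mul, map_mul, Complex.conj_ofReal, h1, ← hG]
    have h3 : G * conj G = ((‖G‖ ^ 2 : ℝ) : ℂ) := by
      rw [Complex.mul_conj, Complex.normSq_eq_norm_sq]
    push_cast at h3 ⊢
    rw [← h3]
    ring
  rw [h2, Complex.re_ofReal_mul, Complex.exp_ofReal_mul_I_re, phi, ker, ← hG]
  ring

theorem mem_S_im {b δ : ℝ} {η : ℝ → ℝ} (hcap : Cap b δ η) {w : ℂ} (hw : w ∈ S η) :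
    |w.im| ≤ b + π / 2 + δ := by
  obtain ⟨t, ht⟩ := hw
  have h1 := hcap.abs_lt ht
  have h2 := ht.1
  have h3 : |w.im| ≤ |w.im - t| + |t| := by
    have := abs_add_le (w.im - t) t
    simpa using this
  linarith

theorem mem_S_im' {b δ : ℝ} {η : ℝ → ℝ} (hδ : δ ≤ 1) (hcap : Cap b δ η) {w : ℂ} (hw : w ∈ S η) :
    |w.im| ≤ b + 3 := by
  have h1 := mem_S_im hcap hw
  have := Real.pi_lt_d2
  linarith

theorem tst_hol {b r ε X : ℝ} {η : ℝ → ℝ} {F : ℂ → ℂ} {c : ℕ → ℂ} (N : ℕ) (hS : SolC η F c) :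
    DifferentiableOn ℂ (tst b r ε X F c N) (S η) := by
  have h1 : DifferentiableOn ℂ (fun w => F w - poly c N w) (S η) :=
    hS.hol.sub (differentiable_poly c N).differentiableOn
  have h2 : Differentiable ℂ (fun w : ℂ =>
      Complex.exp (-2 * (r : ℂ) * w - 2 * (ε : ℂ) * (w - (X : ℂ)) ^ 2)) := by
    fun_prop
  exact (h2.differentiableOn.mul h1).const_mul _

theorem gauss_bound {ε : ℝ} (hε : 0 < ε) (a u : ℝ) :
    a * u - 2 * ε * u ^ 2 ≤ a ^ 2 / (8 * ε) := by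
  rw [le_div_iff₀ (by positivity)]
  nlinarith [sq_nonneg (a - 4 * ε * u)]

theorem tst_bdd {b r ε X δ : ℝ} (hε : 0 < ε) {η : ℝ → ℝ} {F : ℂ → ℂ} {c : ℕ → ℂ} (N : ℕ)
    (hδ : δ ≤ 1) (hcap : Cap b δ η) (hS : SolC η F c) :
    ∃ C : ℝ, ∀ w ∈ S η, ‖tst b r ε X F c N w‖ ≤ C := by
  obtain ⟨C, hC⟩ := hS.taylor N
  refine ⟨Real.exp (2 * ε * (b + 3) ^ 2) * (Real.exp ((N - 2 * r) * X + (N - 2 * r) ^ 2 / (8 * ε)) *
    |C|), ?_⟩
  intro w hw
  have h1 := norm_tst_le (r := r) (X := X) (F := F) (c := c) (N := N) hε.le (mem_S_im' hδ hcap hw)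
  refine h1.trans ?_
  rw [mul_assoc]
  refine mul_le_mul_of_nonneg_left ?_ (Real.exp_pos _).le
  have h2 := hC w hw
  have h3 : ‖F w - poly c N w‖ ≤ |C| * Real.exp (N * w.re) :=
    h2.trans (mul_le_mul_of_nonneg_right (le_abs_self C) (Real.exp_pos _).le)
  calc Real.exp (-2 * r * w.re - 2 * ε * (w.re - X) ^ 2) * ‖F w - poly c N w‖
      ≤ Real.exp (-2 * r * w.re - 2 * ε * (w.re - X) ^ 2) * (|C| * Real.exp (N * w.re)) := by gcongr
    _ = Real.exp ((N - 2 * r) * w.re - 2 * ε * (w.re - X) ^ 2) * |C| := by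
      rw [mul_comm |C|, ← mul_assoc, ← Real.exp_add]
      congr 2
      ring
    _ ≤ _ := by
      gcongr
      have := gauss_bound hε (N - 2 * r) (w.re - X)
      linarith

theorem tst_memLp {b r ε X δ : ℝ} (hε : 0 < ε) {η : ℝ → ℝ} {F : ℂ → ℂ} {c : ℕ → ℂ} (N : ℕ)
    (hδ : δ ≤ 1) (hcap : Cap b δ η) (hS : SolC η F c) :
    MemLp (tst b r ε X F c N) 2 (mu η) := by
  have := isFiniteMeasure_mu hcap hδ
  obtain ⟨C, hC⟩ := tst_bdd (b := b) (r := r) (X := X) hε N hδ hcap hS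
  refine MemLp.of_bound (aesm_mu_of_hol (tst_hol N hS)) C ?_
  filter_upwards [ae_mem_S η] with w hw
  exact hC w hw

theorem memLp_poly {b δ : ℝ} {η : ℝ → ℝ} (c : ℕ → ℂ) (N : ℕ) (hδ : δ ≤ 1) (hcap : Cap b δ η) :
    MemLp (poly c N) 2 (mu η) := by
  have := isFiniteMeasure_mu hcap hδ
  refine MemLp.of_bound (differentiable_poly c N).continuous.aestronglyMeasurable
    (2 ^ N * ∑ j ∈ Finset.range N, ‖c j‖) ?_
  filter_upwards [ae_mem_Q hcap hδ] with w hw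
  exact norm_poly_le hw c N

theorem memLp_G {b δ : ℝ} {η : ℝ → ℝ} {F : ℂ → ℂ} {c : ℕ → ℂ} (N : ℕ)
    (hδ : δ ≤ 1) (hcap : Cap b δ η) (hS : SolC η F c) :
    MemLp (fun w => F w - poly c N w) 2 (mu η) :=
  hS.mem.sub (memLp_poly c N hδ hcap)

theorem integral_re_eq {b r ε X δ : ℝ} (hε : 0 < ε) {η : ℝ → ℝ} {F : ℂ → ℂ} {c : ℕ → ℂ} (N : ℕ)
    (hδ : δ ≤ 1) (hcap : Cap b δ η) (hS : SolC η F c) :
    Integrable (fun w => phi F c N r w * ker b r ε X w) (mu η) ∧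
    (∫ w, (F w - poly c N w) * conj (tst b r ε X F c N w) ∂(mu η)).re =
      ∫ w, phi F c N r w * ker b r ε X w ∂(mu η) := by
  have h1 : Integrable (fun w => (F w - poly c N w) * conj (tst b r ε X F c N w)) (mu η) :=
    (memLp_G N hδ hcap hS).integrable_mul (tst_memLp hε N hδ hcap hS).star
  have h2 : (fun w => phi F c N r w * ker b r ε X w) =
      fun w => ((F w - poly c N w) * conj (tst b r ε X F c N w)).re := by
    funext w
    rw [tst_re]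
  rw [h2]
  refine ⟨h1.re, ?_⟩
  exact (integral_re h1).symm

end Edge

end Pool.Agent.Worm
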