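import Mathlib
import Pool.Agent.Worm.EdgeTest

/-!
Module A/EDGE, part 4: lower bound for the pairing.
-/

open MeasureTheory Set Filter Topology Metric
open scoped Real ENNReal ComplexConjugate

namespace Pool.Agent.Worm

namespace Edge

theorem measurableSet_core (a X L : ℝ) :
    MeasurableSet {w : ℂ | |w.im| ≤ a ∧ |w.re - X| ≤ L} := by
  have h1 : IsClosed {w : ℂ | |w.im| ≤ a} := isClosed_le (by fun_prop) continuous_const
  exact (h1.measurableSet).inter (measurableSet_win' X L)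

theorem core_mass {b δ κ X L ε' m CL : ℝ} {η : ℝ → ℝ} {F : ℂ → ℂ} {c : ℕ → ℂ} {N : ℕ} {r : ℝ}
    (hr : 0 ≤ r) (hε' : 0 ≤ ε') (hm : 0 ≤ m) (hCL : 0 ≤ CL) (hδ : δ ≤ 1) (hcap : Cap b δ η)
    (hcore : ∀ w : ℂ, |w.im| ≤ b + π / 2 - κ → |w.re - X| ≤ L →
        ‖F w - poly c N w‖ ^ 2 ≤ ε' * m * Real.exp (2 * (r - 1) * X))
    (hC : mu η {w : ℂ | |w.re - X| ≤ L} ≤ ENNReal.ofReal (CL * Real.exp (2 * X))) :
    ∫ w in {w : ℂ | |w.im| ≤ b + π / 2 - κ ∧ |w.re - X| ≤ L}, phi F c N r w ∂(mu η) ≤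
      ε' * m * Real.exp (2 * r * L) * CL := by
  have := isFiniteMeasure_mu hcap hδ
  set E : Set ℂ := {w : ℂ | |w.im| ≤ b + π / 2 - κ ∧ |w.re - X| ≤ L} with hE
  have h1 : ∀ w ∈ E, ‖phi F c N r w‖ ≤ ε' * m * Real.exp (2 * r * L) * Real.exp (-2 * X) := by
    intro w hw
    rw [Real.norm_of_nonneg (phi_nonneg _ _ _ _ _), phi]
    have h2 := hcore w hw.1 hw.2
    have h3 := (abs_le.1 hw.2).1
    calc ‖F w - poly c N w‖ ^ 2 * Real.exp (-2 * r * w.re)
        ≤ (ε' * m * Real.exp (2 * (r - 1) * X)) * Real.exp (-2 * r * (X - L)) := by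
          gcongr ?_ * Real.exp ?_
          nlinarith
      _ = _ := by
          rw [mul_assoc, mul_assoc (ε' * m), ← Real.exp_add, ← Real.exp_add]
          congr 2
          ring
  have h4 : (mu η).real E ≤ CL * Real.exp (2 * X) := by
    have h5 : mu η E ≤ ENNReal.ofReal (CL * Real.exp (2 * X)) :=
      (measure_mono (fun w hw => hw.2)).trans hC
    exact ENNReal.toReal_le_of_le_ofReal (by positivity) h5
  have h6 := norm_setIntegral_le_of_norm_le_const (measure_lt_top (mu η) E) h1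
  refine (Real.le_norm_self _).trans (h6.trans ?_)
  calc ε' * m * Real.exp (2 * r * L) * Real.exp (-2 * X) * (mu η).real E
      ≤ ε' * m * Real.exp (2 * r * L) * Real.exp (-2 * X) * (CL * Real.exp (2 * X)) := by gcongr
    _ = ε' * m * Real.exp (2 * r * L) * CL * (Real.exp (-2 * X) * Real.exp (2 * X)) := by ring
    _ = _ := by
      rw [← Real.exp_add, show -2 * X + 2 * X = 0 by ring, Real.exp_zero, mul_one]

theorem lower {b δ κ X L ε ε' m CL K s : ℝ} {η : ℝ → ℝ} {F : ℂ → ℂ} {c : ℕ → ℂ} {N : ℕ} {r : ℝ}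
    (hb : 0 ≤ b) (hr : 0 ≤ r) (hr1 : r < N + 1) (hε : 0 < ε) (hL1 : 1 ≤ L)
    (hs : s = ε * L) (hmag : Real.sin (2 * r * (b + π / 2)) = 0) (hκ : 2 * r * κ ≤ π / 6)
    (hδ' : 2 * r * δ ≤ π / 6) (hL : 4 * ε * L * (b + 3) ≤ π / 6)
    (hε' : 0 ≤ ε') (hm : 0 ≤ m) (hCL : 0 ≤ CL) (hδ : δ ≤ 1) (hcap : Cap b δ η) (hS : SolC η F c)
    (hcore : ∀ w : ℂ, |w.im| ≤ b + π / 2 - κ → |w.re - X| ≤ L →
        ‖F w - poly c N w‖ ^ 2 ≤ ε' * m * Real.exp (2 * (r - 1) * X))
    (hC : mu η {w : ℂ | |w.re - X| ≤ L} ≤ ENNReal.ofReal (CL * Real.exp (2 * X)))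
    (hK : ∫ w, phi F c N r w * Real.exp (-s * |w.re - X|) ∂(mu η) ≤ K * m)
    (hnear : ENNReal.ofReal (m / 2) ≤ wmass η F c N r X) :
    (1 / 2 * Real.exp (-2 * ε) * (1 / 2) - 2 * Real.exp (2 * ε * (b + 3) ^ 2) *
      (ε' * Real.exp (2 * r * L) * CL) -
      Real.exp (2 * ε * (b + 3) ^ 2) * Real.exp (-s * L) * K) * m ≤
      (∫ w, (F w - poly c N w) * conj (tst b r ε X F c N w) ∂(mu η)).re := by
  have := isFiniteMeasure_mu hcap hδ
  obtain ⟨hint, hre⟩ := integral_re_eq (r := r) (X := X) hε N hδ hcap hS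
  rw [hre]
  set D := Real.exp (2 * ε * (b + 3) ^ 2) with hD
  have hs0 : 0 ≤ s := by rw [hs]; positivity
  set E1 : Set ℂ := {w : ℂ | |w.re - X| ≤ 1} with hE1
  set E3 : Set ℂ := {w : ℂ | |w.im| ≤ b + π / 2 - κ ∧ |w.re - X| ≤ L} with hE3
  have hmE1 : MeasurableSet E1 := measurableSet_win' X 1
  have hmE3 : MeasurableSet E3 := measurableSet_core _ X L
  have hφ := integrable_phi (r := r) hr1 hδ hcap hS
  have hi1 : Integrable (E1.indicator (phi F c N r)) (mu η) := hφ.indicator hmE1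
  have hi3 : Integrable (E3.indicator (phi F c N r)) (mu η) := hφ.indicator hmE3
  have hi2 : Integrable (fun w => phi F c N r w * Real.exp (-s * |w.re - X|)) (mu η) := by
    refine hφ.mul_bdd (c := 1) ?_ ?_
    · apply Continuous.aestronglyMeasurable
      fun_prop
    · refine Eventually.of_forall fun w => ?_
      rw [Real.norm_of_nonneg (Real.exp_pos _).le, Real.exp_le_one_iff]
      have := abs_nonneg (w.re - X)
      nlinarith
  have hpt : ∀ᵐ w ∂(mu η), (1 / 2 * Real.exp (-2 * ε)) * E1.indicator (phi F c N r) w -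
      (2 * D) * E3.indicator (phi F c N r) w -
      (D * Real.exp (-s * L)) * (phi F c N r w * Real.exp (-s * |w.re - X|)) ≤
      phi F c N r w * ker b r ε X w := by
    filter_upwards [ae_mem_S η] with w hw
    have h1 := ker_lower (X := X) (κ := κ) hb hr hε.le hL1 hs hmag hκ hδ' hL (mem_S_im hcap hw)
      (mem_S_im' hδ hcap hw)
    rw [← hD, ← hE1, ← hE3] at h1
    have h2 := mul_le_mul_of_nonneg_left h1 (phi_nonneg F c N r w)
    refine le_trans (le_of_eq ?_) h2
    have e1 : ∀ E : Set ℂ, E.indicator (phi F c N r) w =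
        phi F c N r w * E.indicator (fun _ => (1 : ℝ)) w := by
      intro E
      by_cases h : w ∈ E
      · rw [indicator_of_mem h, indicator_of_mem h, mul_one]
      · rw [indicator_of_notMem h, indicator_of_notMem h, mul_zero]
    rw [e1, e1]
    ring
  have h3 := integral_mono_ae (((hi1.const_mul (1 / 2 * Real.exp (-2 * ε))).sub
    (hi3.const_mul (2 * D))).sub (hi2.const_mul (D * Real.exp (-s * L)))) hint hpt
  refine le_trans ?_ h3
  rw [integral_sub', integral_sub', integral_const_mul, integral_const_mul, integral_const_mul,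
    integral_indicator hmE1, integral_indicator hmE3]
  · have h4 : m / 2 ≤ ∫ w in E1, phi F c N r w ∂(mu η) := by
      rw [wmass_eq_ofReal hr1 hδ hcap hS X] at hnear
      refine (ENNReal.ofReal_le_ofReal_iff ?_).1 hnear
      exact integral_nonneg fun w => phi_nonneg _ _ _ _ _
    have h5 := core_mass (κ := κ) hr hε' hm hCL hδ hcap hcore hC
    rw [← hE3] at h5
    have h6 : 1 / 2 * Real.exp (-2 * ε) * (m / 2) ≤
        1 / 2 * Real.exp (-2 * ε) * ∫ w in E1, phi F c N r w ∂(mu η) := by gcongr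
    have h7 : 2 * D * ∫ w in E3, phi F c N r w ∂(mu η) ≤
        2 * D * (ε' * m * Real.exp (2 * r * L) * CL) := by gcongr
    have h8 : D * Real.exp (-s * L) * ∫ w, phi F c N r w * Real.exp (-s * |w.re - X|) ∂(mu η) ≤
        D * Real.exp (-s * L) * (K * m) := by gcongr
    linarith
  · exact hi1.const_mul _
  · exact hi3.const_mul _
  · exact (hi1.const_mul _).sub (hi3.const_mul _)
  · exact hi2.const_mul _

end Edge

end Pool.Agent.Worm
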