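import Mathlib
import Pool.Agent.Worm.Blow
import Pool.Agent.Worm.AuxA
import Pool.Agent.Worm.EdgeLower

/-!
Module A/EDGE: a blow-up sequence cannot have all its mass at the edge of the strip.
-/

open MeasureTheory Set Filter Topology Metric
open scoped Real ENNReal ComplexConjugate

namespace Pool.Agent.Worm

namespace Edge

theorem lintegral_G_le {b δ K V P : ℝ} {η : ℝ → ℝ} {F : ℂ → ℂ} {c : ℕ → ℂ} {N : ℕ}
    (hK : 0 ≤ K) (hV : 0 ≤ V)
    (hδ : δ ≤ 1) (hcap : Cap b δ η)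
    (hFK : ∫⁻ w, ‖F w‖ₑ ^ 2 ∂(mu η) ≤ ENNReal.ofReal K)
    (hVm : mu η univ ≤ ENNReal.ofReal V) (hP : ∑ j ∈ Finset.range N, ‖c j‖ ≤ P) :
    ∫⁻ w, ‖F w - poly c N w‖ₑ ∂(mu η) ≤ ENNReal.ofReal ((V + K + 2 ^ N * V) * (1 + P)) := by
  have hP0 : 0 ≤ P := (Finset.sum_nonneg fun j _ => norm_nonneg _).trans hP
  have h1 : ∫⁻ w, ‖F w - poly c N w‖ₑ ∂(mu η) ≤
      ∫⁻ w, (‖F w‖ₑ ^ 2 + ENNReal.ofReal (1 + 2 ^ N * P)) ∂(mu η) := by
    apply lintegral_mono_ae
    filter_upwards [ae_mem_Q hcap hδ] with w hw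
    have h2 : ‖F w - poly c N w‖ ≤ ‖F w‖ ^ 2 + (1 + 2 ^ N * P) := by
      have h3 := norm_sub_le (F w) (poly c N w)
      have h4 : ‖poly c N w‖ ≤ 2 ^ N * P := (norm_poly_le hw c N).trans (by gcongr)
      nlinarith [sq_nonneg (‖F w‖ - 1 / 2)]
    rw [← ofReal_norm, ← ofReal_norm, ← ENNReal.ofReal_pow (norm_nonneg _),
      ← ENNReal.ofReal_add (by positivity) (by positivity)]
    exact ENNReal.ofReal_le_ofReal h2
  refine h1.trans ?_
  rw [lintegral_add_right _ measurable_const, lintegral_const]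
  calc ∫⁻ w, ‖F w‖ₑ ^ 2 ∂(mu η) + ENNReal.ofReal (1 + 2 ^ N * P) * mu η univ
      ≤ ENNReal.ofReal K + ENNReal.ofReal (1 + 2 ^ N * P) * ENNReal.ofReal V := by gcongr
    _ = ENNReal.ofReal (K + (1 + 2 ^ N * P) * V) := by
      rw [← ENNReal.ofReal_mul (by positivity), ← ENNReal.ofReal_add hK (by positivity)]
    _ ≤ _ := by
      apply ENNReal.ofReal_le_ofReal
      have : 0 ≤ 2 ^ N * V := by positivity
      have : 0 ≤ V * P := by positivity
      have : 0 ≤ K * P := by positivity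
      nlinarith

theorem upper {b : ℝ} (hb : 0 ≤ b) (N : ℕ) {r : ℝ} (hr : 0 ≤ r) : ∃ C : ℝ, 0 ≤ C ∧
    ∀ {δ ε X P : ℝ} {η : ℝ → ℝ} {F : ℂ → ℂ} {c : ℕ → ℂ}, 0 < ε → ε ≤ 1 / 2 → X ≤ -1 → δ ≤ 1 →
      Cap b δ η → SolC η F c → ∑ j ∈ Finset.range N, ‖c j‖ ≤ P →
      (∫ w, (F w - poly c N w) * conj (tst b r ε X F c N w) ∂(mu η)).re ≤
        C * Real.exp (-2 * ε * (1 + X) ^ 2) * (1 + P) ^ 2 := by
  obtain ⟨C₀, hC₀, hpair⟩ := pairing b N
  obtain ⟨K, hK, hFK⟩ := sol_sq_le' (b := b) hb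
  obtain ⟨V', hV', hV⟩ := mu_exp_le b (a := 0) (by norm_num)
  set V : ℝ := V'.toReal with hVdef
  have hV0 : 0 ≤ V := ENNReal.toReal_nonneg
  refine ⟨C₀.toReal * (Real.exp ((b + 3) ^ 2) * Real.exp (2 * r)) * (V + K + 2 ^ N * V),
    by positivity, ?_⟩
  intro δ ε X P η F c hε hε2 hX hδ hcap hS hP
  have hP0 : 0 ≤ P := (Finset.sum_nonneg fun j _ => norm_nonneg _).trans hP
  have hVm : mu η univ ≤ ENNReal.ofReal V := by
    have := hV δ η hδ hcap
    simp only [zero_mul, Real.exp_zero, ENNReal.ofReal_one, lintegral_const, one_mul] at this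
    rw [hVdef, ENNReal.ofReal_toReal hV']
    exact this
  have hG := lintegral_G_le hK hV0 hδ hcap (hFK δ η F c hδ hcap hS) hVm hP
  set M : ℝ := Real.exp ((b + 3) ^ 2) * Real.exp (2 * r) * Real.exp (-2 * ε * (1 + X) ^ 2) with hM
  have hM0 : 0 ≤ M := by positivity
  have h1 : ∫⁻ w in {w : ℂ | -1 ≤ w.re}, ‖tst b r ε X F c N w‖ₑ ∂(mu η) ≤
      ENNReal.ofReal M * ENNReal.ofReal ((V + K + 2 ^ N * V) * (1 + P)) := by
    rw [← lintegral_indicator (measurableSet_re_ge (-1))]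
    calc ∫⁻ w, {w : ℂ | -1 ≤ w.re}.indicator (fun w => ‖tst b r ε X F c N w‖ₑ) w ∂(mu η)
        ≤ ∫⁻ w, ENNReal.ofReal M * ‖F w - poly c N w‖ₑ ∂(mu η) := by
          apply lintegral_mono_ae
          filter_upwards [ae_mem_S η] with w hw
          by_cases hw1 : w ∈ {w : ℂ | -1 ≤ w.re}
          · rw [indicator_of_mem hw1]
            have hw2 : -1 ≤ w.re := hw1
            have h2 := norm_tst_le (r := r) (X := X) (F := F) (c := c) (N := N) hε.le
              (mem_S_im' hδ hcap hw)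
            rw [← ofReal_norm, ← ofReal_norm (F w - poly c N w), ← ENNReal.ofReal_mul hM0]
            apply ENNReal.ofReal_le_ofReal
            refine h2.trans ?_
            refine mul_le_mul_of_nonneg_right ?_ (norm_nonneg _)
            rw [hM, mul_assoc (Real.exp ((b + 3) ^ 2))]
            refine mul_le_mul ?_ ?_ (Real.exp_pos _).le (Real.exp_pos _).le
            · apply Real.exp_le_exp.2
              nlinarith [sq_nonneg (b + 3)]
            · rw [← Real.exp_add]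
              apply Real.exp_le_exp.2
              have h3 : (1 + X) ^ 2 ≤ (w.re - X) ^ 2 := by nlinarith
              nlinarith
          · rw [indicator_of_notMem hw1]
            exact zero_le
      _ = ENNReal.ofReal M * ∫⁻ w, ‖F w - poly c N w‖ₑ ∂(mu η) :=
          lintegral_const_mul' _ _ ENNReal.ofReal_ne_top
      _ ≤ _ := by gcongr
  have h2 := hpair δ η F c (tst b r ε X F c N) hb hδ hcap hS (tst_hol N hS)
    (tst_memLp hε N hδ hcap hS)
  have h3 : (1 + ∑ j ∈ Finset.range N, ‖c j‖ₑ) ≤ ENNReal.ofReal (1 + P) := by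
    have : ∑ j ∈ Finset.range N, ‖c j‖ₑ = ENNReal.ofReal (∑ j ∈ Finset.range N, ‖c j‖) := by
      rw [ENNReal.ofReal_sum_of_nonneg (fun j _ => norm_nonneg _)]
      apply Finset.sum_congr rfl
      intro j _
      rw [ofReal_norm]
    rw [this, ← ENNReal.ofReal_one, ← ENNReal.ofReal_add (by norm_num)
      (Finset.sum_nonneg fun j _ => norm_nonneg _)]
    apply ENNReal.ofReal_le_ofReal
    linarith
  have h4 : ‖∫ w, (F w - poly c N w) * conj (tst b r ε X F c N w) ∂(mu η)‖ₑ ≤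
      ENNReal.ofReal (C₀.toReal * (1 + P) * (M * ((V + K + 2 ^ N * V) * (1 + P)))) := by
    refine h2.trans ?_
    rw [ENNReal.ofReal_mul (by positivity), ENNReal.ofReal_mul ENNReal.toReal_nonneg,
      ENNReal.ofReal_toReal hC₀, ENNReal.ofReal_mul hM0]
    gcongr
  rw [← ofReal_norm, ENNReal.ofReal_le_ofReal_iff (by positivity)] at h4
  refine (Complex.re_le_norm _).trans (h4.trans (le_of_eq ?_))
  rw [hM]
  ring

end Edge

open Edge in
theorem edge_contra {b : ℝ} (hb : 0 < b) {N : ℕ} {r : ℝ} (hr : N < r) (hr1 : r < N + 1)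
    (hmag : Real.sin (2 * r * (b + π / 2)) = 0) (B : BSeq b N r)
    (hcore : ∀ κ > 0, ∀ L : ℝ, ∀ ε > 0, ∀ᶠ k in atTop, ∀ w : ℂ,
      |w.im| ≤ b + π / 2 - κ → |w.re - B.X k| ≤ L →
        ‖B.F k w - poly (B.c k) N w‖ ^ 2 ≤ ε * B.m k * Real.exp (2 * (r - 1) * B.X k)) :
    False := by
  have hpi := Real.pi_pos
  have hb0 : 0 < b := by linarith
  have hr0 : 0 < r := lt_of_le_of_lt (Nat.cast_nonneg N) hr
  -- constants
  obtain ⟨Cu, hCu, hupper⟩ := upper hb0.le N hr0.le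
  obtain ⟨K2, hK2, hFK⟩ := sol_sq_le' (b := b) hb0.le
  obtain ⟨A, hA, hcoef⟩ := coef_small hb hr hK2 (ε := 1) one_pos
  set s : ℝ := π / (24 * (b + 3)) with hs
  have hs0 : 0 < s := by positivity
  have hs1 : 4 * s * (b + 3) = π / 6 := by
    rw [hs]; field_simp; norm_num
  obtain ⟨K, hK, hexp⟩ := exp_weight hs0
  set D0 : ℝ := Real.exp ((b + 3) ^ 2) with hD0
  have hD0p : 0 < D0 := Real.exp_pos _
  set κ : ℝ := π / (12 * r) with hκdef
  have hκ0 : 0 < κ := by positivity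
  have hκ : 2 * r * κ ≤ π / 6 := by
    apply le_of_eq
    rw [hκdef]; field_simp; norm_num
  set ε : ℝ := min (min (1 / 2) s) (s ^ 2 / (40 * (D0 * K + 1))) with hεdef
  have hε0 : 0 < ε := by
    apply lt_min
    · exact lt_min (by norm_num) hs0
    · positivity
  have hε1 : ε ≤ 1 / 2 := (min_le_left _ _).trans (min_le_left _ _)
  have hε2 : ε ≤ s := (min_le_left _ _).trans (min_le_right _ _)
  have hε3 : ε ≤ s ^ 2 / (40 * (D0 * K + 1)) := min_le_right _ _
  set L : ℝ := s / ε with hLdef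
  have hL1 : 1 ≤ L := by rw [hLdef, le_div_iff₀ hε0]; linarith
  have hsL : s = ε * L := by rw [hLdef]; field_simp
  have hL : 4 * ε * L * (b + 3) ≤ π / 6 := by
    rw [mul_assoc 4 ε L, ← hsL, hs1]
  have hD : Real.exp (2 * ε * (b + 3) ^ 2) ≤ D0 := by
    apply Real.exp_le_exp.2
    nlinarith [sq_nonneg (b + 3)]
  have htail : Real.exp (2 * ε * (b + 3) ^ 2) * Real.exp (-s * L) * K ≤ 1 / 40 := by
    have h1 : Real.exp (-s * L) ≤ ε / s ^ 2 := by
      have h2 : -s * L = -(s ^ 2 / ε) := by rw [hLdef]; ring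
      rw [h2, Real.exp_neg]
      have h3 : s ^ 2 / ε ≤ Real.exp (s ^ 2 / ε) := by
        have := Real.add_one_le_exp (s ^ 2 / ε)
        linarith
      calc (Real.exp (s ^ 2 / ε))⁻¹ ≤ (s ^ 2 / ε)⁻¹ := by gcongr
        _ = ε / s ^ 2 := by rw [inv_div]
    calc Real.exp (2 * ε * (b + 3) ^ 2) * Real.exp (-s * L) * K ≤ D0 * (ε / s ^ 2) * K := by gcongr
      _ ≤ 1 / 40 := by
        rw [le_div_iff₀ (by positivity)] at hε3
        have h5 : D0 * (ε / s ^ 2) * K = (ε * (D0 * K)) / s ^ 2 := by ring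
        rw [h5, div_le_iff₀ (by positivity)]
        nlinarith
  obtain ⟨CL, hCL, hwin⟩ := mu_window b L
  set ε' : ℝ := 1 / (80 * (D0 * (Real.exp (2 * r * L) * CL) + 1)) with hε'def
  have hε'0 : 0 < ε' := by positivity
  have hcoreε : 2 * Real.exp (2 * ε * (b + 3) ^ 2) * (ε' * Real.exp (2 * r * L) * CL) ≤ 1 / 40 := by
    calc 2 * Real.exp (2 * ε * (b + 3) ^ 2) * (ε' * Real.exp (2 * r * L) * CL)
        ≤ 2 * D0 * (ε' * Real.exp (2 * r * L) * CL) := by gcongr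
      _ = 2 * (D0 * (Real.exp (2 * r * L) * CL)) * ε' := by ring
      _ ≤ 1 / 40 := by
        rw [hε'def]
        set T := D0 * (Real.exp (2 * r * L) * CL) with hT
        have hT0 : 0 ≤ T := by positivity
        rw [mul_one_div, div_le_iff₀ (by positivity)]
        linarith
  -- eventual properties
  have hXlim := BSeq.X_lim hb hr B
  have ev1 : ∀ᶠ k in atTop, 2 * r * B.δ k ≤ π / 6 := by
    have h1 : Tendsto (fun k => 2 * r * B.δ k) atTop (𝓝 (2 * r * 0)) := B.δ_lim.const_mul _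
    rw [mul_zero] at h1
    exact (h1.eventually (gt_mem_nhds (by positivity : (0 : ℝ) < π / 6))).mono fun k hk => hk.le
  have ev2 : ∀ᶠ k in atTop, B.X k ≤ -1 := hXlim.eventually (eventually_le_atBot (-1))
  have ev3 : ∀ᶠ k in atTop, 1 ≤ B.m k := B.m_lim.eventually (eventually_ge_atTop 1)
  have ev4 : ∀ᶠ k in atTop, Cu * (2 * (1 + A) ^ 2 + 2) * Real.exp (-2 * ε * (1 + B.X k) ^ 2) <
      1 / 40 := by
    have h1 : Tendsto (fun k => -2 * ε * (1 + B.X k) ^ 2) atTop atBot := by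
      have h2 : Tendsto (fun k => 1 + B.X k) atTop atBot := tendsto_atBot_add_const_left _ _ hXlim
      have h3 : Tendsto (fun k => (1 + B.X k) ^ 2) atTop atTop := by
        have h4 := (tendsto_pow_atTop (n := 2) (α := ℝ) (by norm_num)).comp
          (tendsto_neg_atBot_atTop.comp h2)
        refine h4.congr fun k => ?_
        simp only [Function.comp]
        ring
      exact h3.const_mul_atTop_of_neg (by linarith)
    have h2 := (Real.tendsto_exp_atBot.comp h1).const_mul (Cu * (2 * (1 + A) ^ 2 + 2))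
    rw [mul_zero] at h2
    exact h2.eventually (gt_mem_nhds (by norm_num))
  obtain ⟨k, h1, h2, h3, h4, h5⟩ := (ev1.and (ev2.and (ev3.and (ev4.and
    (hcore κ hκ0 L ε' hε'0))))).exists
  have hm := B.m_pos k
  have hcap := B.cap k
  have hS := B.sol k
  have hδ := B.δ_le k
  have hsum := hcoef (B.δ k) (B.η k) (B.F k) (B.c k) (B.m k) hm.le hδ hcap hS
    (hFK _ _ _ _ hδ hcap hS) (B.bound k)
  have hup := hupper (X := B.X k) hε0 hε1 h2 hδ hcap hS hsum
  have hlow := lower (κ := κ) (ε' := ε') hb0.le hr0.le hr1 hε0 hL1 hsL hmag hκ h1 hL hε'0.le hm.le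
    hCL hδ hcap hS h5 (hwin hδ hcap (B.X k)) (hexp hr1 hδ hcap hS hm.le (B.bound k) (B.X k))
    (B.near k)
  have h6 : (1 + (A + 1 * √(B.m k))) ^ 2 ≤ (2 * (1 + A) ^ 2 + 2) * B.m k := by
    have h7 : √(B.m k) ^ 2 = B.m k := Real.sq_sqrt hm.le
    have h8 : 0 ≤ (1 + A) ^ 2 := sq_nonneg _
    nlinarith [sq_nonneg ((1 + A) - √(B.m k))]
  have h7 : Cu * Real.exp (-2 * ε * (1 + B.X k) ^ 2) * (1 + (A + 1 * √(B.m k))) ^ 2 ≤
      Cu * Real.exp (-2 * ε * (1 + B.X k) ^ 2) * ((2 * (1 + A) ^ 2 + 2) * B.m k) :=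
    mul_le_mul_of_nonneg_left h6 (mul_nonneg hCu (Real.exp_pos _).le)
  have h8 : Cu * (2 * (1 + A) ^ 2 + 2) * Real.exp (-2 * ε * (1 + B.X k) ^ 2) * B.m k <
      1 / 40 * B.m k := mul_lt_mul_of_pos_right h4 hm
  have h9 : 3 / 10 ≤ Real.exp (-2 * ε) := by
    have h10 : Real.exp (-1) ≤ Real.exp (-2 * ε) := Real.exp_le_exp.2 (by linarith)
    have h11 : (3 : ℝ) / 10 ≤ Real.exp (-1) := by
      rw [Real.exp_neg, le_inv_comm₀ (by norm_num) (Real.exp_pos _)]
      have := Real.exp_one_lt_d9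
      linarith
    linarith
  have h10 : (1 / 40 : ℝ) * B.m k ≤ (1 / 2 * Real.exp (-2 * ε) * (1 / 2) -
      2 * Real.exp (2 * ε * (b + 3) ^ 2) * (ε' * Real.exp (2 * r * L) * CL) -
      Real.exp (2 * ε * (b + 3) ^ 2) * Real.exp (-s * L) * K) * B.m k :=
    mul_le_mul_of_nonneg_right (by linarith) hm.le
  linarith

end Pool.Agent.Worm
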