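import Mathlib
import Pool.Agent.Worm.QInt
import Pool.Agent.Worm.AuxA

/-!
# Preparations for the existence of the limit solution
-/

open MeasureTheory Set Filter Topology Metric
open scoped Real ENNReal ComplexConjugate

namespace Pool.Agent.Worm

/-! ### Integrals over the base -/

theorem lintegral_muA_base_lb {A : Set (ℝ × ℂ)} (hA : MeasurableSet A) {f : ℂ → ℝ≥0∞}
    (hf : AEMeasurable f (muA A)) :
    ∫⁻ w, f w ∂(muA A) = ∫⁻ p, A.indicator (fun p => f p.2) p ∂(expM.prod areaM) := by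
  rw [muA] at hf ⊢
  rw [lintegral_map' hf measurable_snd.aemeasurable, ← lintegral_indicator hA]

theorem integral_muA_base_lb {A : Set (ℝ × ℂ)} (hA : MeasurableSet A) {f : ℂ → ℂ}
    (hf : AEStronglyMeasurable f (muA A)) :
    ∫ w, f w ∂(muA A) = ∫ p, A.indicator (fun p => f p.2) p ∂(expM.prod areaM) := by
  rw [muA] at hf ⊢
  rw [integral_map measurable_snd.aemeasurable hf, ← integral_indicator hA]

theorem aesm_base {A : Set (ℝ × ℂ)} (hA : MeasurableSet A) {f : ℂ → ℂ}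
    (hf : AEStronglyMeasurable f (muA A)) :
    AEStronglyMeasurable (A.indicator (fun p : ℝ × ℂ => f p.2)) (expM.prod areaM) := by
  rw [aestronglyMeasurable_indicator_iff hA]
  rw [muA] at hf
  exact hf.comp_measurable measurable_snd

theorem mu_restrict_S (η : ℝ → ℝ) : (mu η).restrict (S η) = mu η :=
  Measure.restrict_eq_self_of_ae_mem (ae_mem_S η)

theorem mu0_restrict_S0 (b : ℝ) : (mu0 b).restrict (S0 b) = mu0 b :=
  Measure.restrict_eq_self_of_ae_mem (ae_mem_S0 b)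

theorem aesm_mu_of_hol {η : ℝ → ℝ} {f : ℂ → ℂ} (h : DifferentiableOn ℂ f (S η)) :
    AEStronglyMeasurable f (mu η) := by
  rw [← mu_restrict_S]
  exact h.continuousOn.aestronglyMeasurable (isOpen_S η).measurableSet

theorem aesm_mu0_of_hol {b : ℝ} {f : ℂ → ℂ} (h : DifferentiableOn ℂ f (S0 b)) :
    AEStronglyMeasurable f (mu0 b) := by
  rw [← mu0_restrict_S0]
  exact h.continuousOn.aestronglyMeasurable (isOpen_S0 b).measurableSet

theorem Cap.mu0_le {b δ : ℝ} {η : ℝ → ℝ} (h : Cap b δ η) : mu0 b ≤ mu η := by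
  rw [mu0_eq, mu_eq]
  exact muA_mono h.tot0_subset

theorem sq_add_enorm_le (x y : ℂ) : ‖x + y‖ₑ ^ 2 ≤ 2 * ‖x‖ₑ ^ 2 + 2 * ‖y‖ₑ ^ 2 := by
  have h1 : ‖x + y‖ₑ ≤ ‖x‖ₑ + ‖y‖ₑ := enorm_add_le _ _
  calc ‖x + y‖ₑ ^ 2 ≤ (‖x‖ₑ + ‖y‖ₑ) ^ 2 := by gcongr
    _ ≤ 2 * ‖x‖ₑ ^ 2 + 2 * ‖y‖ₑ ^ 2 := by
      have := ENNReal.rpow_add_le_mul_rpow_add_rpow (‖x‖ₑ) (‖y‖ₑ) (p := 2) one_le_two
      norm_num at this
      rw [← mul_add]; exact this

/-! ### Local bounds on `S0` -/

theorem local_bound {b : ℝ} {w₀ : ℂ} (hw : w₀ ∈ S0 b) :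
    ∃ ρ > 0, ∃ C : ℝ≥0∞, C ≠ ⊤ ∧ ball w₀ ρ ⊆ S0 b ∧
      ∀ (δ : ℝ) (η : ℝ → ℝ) (f : ℂ → ℂ), Cap b δ η → DifferentiableOn ℂ f (S η) →
        ∀ z ∈ ball w₀ ρ, ‖f z‖ₑ ^ 2 ≤ C * ∫⁻ w, ‖f w‖ₑ ^ 2 ∂(mu η) := by
  classical
  obtain ⟨t₀, ht₀, hd⟩ := hw
  have hmem : ((t₀, w₀) : ℝ × ℂ) ∈ tot0 b := ⟨ht₀, hd⟩
  obtain ⟨ε, hε, hsub⟩ := Metric.isOpen_iff.mp (isOpen_tot0 b) _ hmem
  have hprod : ∀ t ∈ Ioo (t₀ - ε) (t₀ + ε), ∀ w ∈ ball w₀ ε, (t, w) ∈ tot0 b := by
    intro t ht w hw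
    apply hsub
    rw [mem_ball, Prod.dist_eq, max_lt_iff]
    refine ⟨?_, hw⟩
    rw [Real.dist_eq, abs_lt]
    constructor <;> linarith [ht.1, ht.2]
  have hS0 : ball w₀ ε ⊆ S0 b := by
    intro w hw
    have := hprod t₀ ⟨by linarith, by linarith⟩ w hw
    exact ⟨t₀, this.1, this.2⟩
  -- lower bound for the density
  set c₁ : ℝ := Real.exp (-(|t₀| + ε)) * (2 * ε) with hc₁
  have hc₁0 : 0 < c₁ := by positivity
  have hom : ∀ w ∈ ball w₀ ε, ENNReal.ofReal c₁ ≤ om (tot0 b) w := by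
    intro w hw
    have h1 := expM_Ioo_ge (b := |t₀| + ε) (l := t₀ - ε) (u := t₀ + ε)
      (by linarith [neg_abs_le t₀])
    rw [show t₀ + ε - (t₀ - ε) = 2 * ε by ring] at h1
    exact h1.trans (measure_mono (fun t ht => hprod t ht w hw))
  set c₂ : ℝ := Real.exp (2 * (w₀.re - ε)) with hc₂
  have hc₂0 : 0 < c₂ := Real.exp_pos _
  have hvol : ∀ (g : ℂ → ℝ≥0∞), Measurable g →
      ENNReal.ofReal (c₁ * c₂) * ∫⁻ w in ball w₀ ε, g w ≤ ∫⁻ w in ball w₀ ε, g w ∂(mu0 b) := by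
    intro g hg
    have hB : MeasurableSet (ball w₀ ε) := isOpen_ball.measurableSet
    rw [← lintegral_indicator (μ := mu0 b) hB, mu0_eq,
      lintegral_muA (isOpen_tot0 b).measurableSet (hg.indicator hB)]
    have h1 : ∫⁻ w, om (tot0 b) w * (ball w₀ ε).indicator g w ∂areaM =
        ∫⁻ w in ball w₀ ε, om (tot0 b) w * g w ∂areaM := by
      rw [← lintegral_indicator hB]
      apply lintegral_congr
      intro w
      by_cases hw : w ∈ ball w₀ ε
      · rw [indicator_of_mem hw, indicator_of_mem hw]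
      · rw [indicator_of_notMem hw, indicator_of_notMem hw, mul_zero]
    have h1' := lintegral_areaM (f := fun w => om (tot0 b) w * g w)
      ((measurable_om (isOpen_tot0 b).measurableSet).mul hg) hB
    rw [h1, h1', ← lintegral_const_mul _ hg]
    apply setLIntegral_mono' hB
    intro w hw
    rw [ENNReal.ofReal_mul hc₁0.le]
    have h2 : w₀.re - ε < w.re := by
      have h3 : |w.re - w₀.re| ≤ ‖w - w₀‖ := by
        simpa using Complex.abs_re_le_norm (w - w₀)
      have h4 : ‖w - w₀‖ < ε := by simpa [dist_eq_norm] using hw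
      linarith [neg_abs_le (w.re - w₀.re)]
    calc ENNReal.ofReal c₁ * ENNReal.ofReal c₂ * g w
        ≤ om (tot0 b) w * ENNReal.ofReal (Real.exp (2 * w.re)) * g w := by
          gcongr
          · exact hom w hw
          · rw [hc₂]
            apply Real.exp_le_exp.mpr
            linarith
      _ = om (tot0 b) w * g w * ENNReal.ofReal (Real.exp (2 * w.re)) := by ring
  refine ⟨ε / 2, by positivity, (ENNReal.ofReal (c₁ * c₂ * (π * (ε / 2) ^ 2)))⁻¹, ?_,
    (ball_subset_ball (by linarith)).trans hS0, ?_⟩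
  · rw [Ne, ENNReal.inv_eq_top]
    exact (ENNReal.ofReal_pos.mpr (by positivity)).ne'
  intro δ η f hcap hf z hz
  have hSη : S0 b ⊆ S η := hcap.S0_subset
  have hzsub : ball z (ε / 2) ⊆ ball w₀ ε := by
    intro w hw
    rw [mem_ball] at *
    calc dist w w₀ ≤ dist w z + dist z w₀ := dist_triangle _ _ _
      _ < ε / 2 + ε / 2 := add_lt_add hw hz
      _ = ε := by ring
  have h1 := enorm_sq_le (f := f) (w₀ := z) (ρ := ε / 2) (by positivity)
    (hf.mono (hzsub.trans (hS0.trans hSη)))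
  set g : ℂ → ℝ≥0∞ := (S η).indicator (fun w => ‖f w‖ₑ ^ 2) with hg
  have hgm : Measurable g := by
    have h1 : ContinuousOn (fun z : ℂ => ‖f z‖ₑ ^ 2) (S η) := by
      have := continuous_enorm.comp_continuousOn hf.continuousOn
      exact (ENNReal.continuous_pow 2).comp_continuousOn this
    rw [hg, ← piecewise_eq_indicator]
    exact h1.measurable_piecewise continuousOn_const (isOpen_S η).measurableSet
  have h2 : ∫⁻ w in ball z (ε / 2), ‖f w‖ₑ ^ 2 ≤ ∫⁻ w in ball w₀ ε, g w := by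
    calc ∫⁻ w in ball z (ε / 2), ‖f w‖ₑ ^ 2 ≤ ∫⁻ w in ball w₀ ε, ‖f w‖ₑ ^ 2 :=
          lintegral_mono_set hzsub
      _ = ∫⁻ w in ball w₀ ε, g w := by
        apply setLIntegral_congr_fun isOpen_ball.measurableSet
        intro w hw
        simp only [hg]
        rw [indicator_of_mem (hSη (hS0 hw))]
  have h3 : ∫⁻ w in ball w₀ ε, g w ∂(mu0 b) ≤ ∫⁻ w, ‖f w‖ₑ ^ 2 ∂(mu η) := by
    calc ∫⁻ w in ball w₀ ε, g w ∂(mu0 b) ≤ ∫⁻ w, g w ∂(mu0 b) := setLIntegral_le_lintegral _ _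
      _ ≤ ∫⁻ w, g w ∂(mu η) := lintegral_mono' hcap.mu0_le le_rfl
      _ ≤ _ := by
        apply lintegral_mono
        intro w
        exact indicator_le_self _ _ _
  have h4 : ENNReal.ofReal (c₁ * c₂ * (π * (ε / 2) ^ 2)) * ‖f z‖ₑ ^ 2 ≤
      ∫⁻ w, ‖f w‖ₑ ^ 2 ∂(mu η) := by
    rw [ENNReal.ofReal_mul (by positivity), mul_assoc]
    calc ENNReal.ofReal (c₁ * c₂) * (ENNReal.ofReal (π * (ε / 2) ^ 2) * ‖f z‖ₑ ^ 2)
        ≤ ENNReal.ofReal (c₁ * c₂) * ∫⁻ w in ball w₀ ε, g w := by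
          gcongr
          exact h1.trans h2
      _ ≤ _ := (hvol g hgm).trans h3
  rw [← ENNReal.mul_le_iff_le_inv]
  · exact h4
  · exact (ENNReal.ofReal_pos.mpr (by positivity)).ne'
  · exact ENNReal.ofReal_ne_top

/-! ### Coefficients of an exponential polynomial -/

theorem integral_exp_int_lb (m : ℤ) :
    ∫ y in (-π)..π, Complex.exp ((m : ℂ) * ((y : ℂ) * Complex.I)) =
      if m = 0 then (2 * π : ℂ) else 0 := by
  by_cases hm : m = 0
  · subst hm
    simp
    ring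
  · rw [if_neg hm]
    have hc : (m : ℂ) * Complex.I ≠ 0 := mul_ne_zero (by exact_mod_cast hm) Complex.I_ne_zero
    have h1 : ∀ y : ℝ, Complex.exp ((m : ℂ) * ((y : ℂ) * Complex.I)) =
        Complex.exp ((m : ℂ) * Complex.I * y) := by
      intro y
      congr 1
      ring
    simp_rw [h1]
    rw [integral_exp_mul_complex hc, div_eq_zero_iff]
    left
    rw [sub_eq_zero]
    have h2 : (m : ℂ) * Complex.I * (π : ℝ) = (m : ℂ) * Complex.I * ((-π : ℝ) : ℂ) +
        m * (2 * π * Complex.I) := by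
      push_cast
      ring
    rw [h2, Complex.exp_add, Complex.exp_int_mul_two_pi_mul_I, mul_one]

theorem coeff_bound (N : ℕ) (c : ℕ → ℂ) (X A : ℝ)
    (h : ∀ y ∈ Icc (-π) π,
      ‖∑ j ∈ Finset.range N, c j * Complex.exp (j * (X + y * Complex.I))‖ ≤ A) :
    ∀ j < N, ‖c j‖ ≤ A * Real.exp (-(j * X)) := by
  intro j hj
  have hpi := Real.pi_pos
  set P : ℝ → ℂ := fun y => ∑ k ∈ Finset.range N, c k * Complex.exp (k * (X + y * Complex.I))
    with hP
  have h1 : ∫ y in (-π)..π, P y * Complex.exp (-(j : ℂ) * ((y : ℂ) * Complex.I)) =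
      c j * Complex.exp (j * X) * (2 * π) := by
    have h2 : ∀ y : ℝ, P y * Complex.exp (-(j : ℂ) * ((y : ℂ) * Complex.I)) =
        ∑ k ∈ Finset.range N, c k * Complex.exp (k * X) *
          Complex.exp ((((k : ℤ) - (j : ℤ) : ℤ) : ℂ) * ((y : ℂ) * Complex.I)) := by
      intro y
      simp only [hP]
      rw [Finset.sum_mul]
      apply Finset.sum_congr rfl
      intro k _
      rw [mul_assoc, mul_assoc, ← Complex.exp_add, ← Complex.exp_add]
      congr 2
      push_cast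
      ring
    simp_rw [h2]
    rw [intervalIntegral.integral_finsetSum]
    · simp_rw [intervalIntegral.integral_const_mul, integral_exp_int_lb]
      rw [Finset.sum_eq_single j]
      · simp
      · intro k _ hkj
        rw [if_neg (by omega), mul_zero]
      · intro hj'
        exact absurd (Finset.mem_range.mpr hj) hj'
    · intro k _
      apply Continuous.intervalIntegrable
      fun_prop
  have h3 : ‖∫ y in (-π)..π, P y * Complex.exp (-(j : ℂ) * ((y : ℂ) * Complex.I))‖ ≤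
      A * |π - (-π)| := by
    apply intervalIntegral.norm_integral_le_of_norm_le_const
    intro y hy
    rw [uIoc_of_le (by linarith)] at hy
    rw [norm_mul, Complex.norm_exp]
    have h4 : (-(j : ℂ) * ((y : ℂ) * Complex.I)).re = 0 := by simp
    rw [h4, Real.exp_zero, mul_one]
    exact h y ⟨hy.1.le, hy.2⟩
  rw [h1, norm_mul, norm_mul, Complex.norm_exp] at h3
  have h5 : ((j : ℂ) * (X : ℂ)).re = j * X := by simp
  have h6 : ‖(2 * π : ℂ)‖ = 2 * π := by
    rw [norm_mul, Complex.norm_ofNat, Complex.norm_real, Real.norm_of_nonneg hpi.le]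
  rw [h5, h6, show π - (-π) = 2 * π by ring, abs_of_pos (by positivity)] at h3
  have h7 : ‖c j‖ * Real.exp (j * X) ≤ A := by
    have : 0 < 2 * π := by positivity
    exact le_of_mul_le_mul_right h3 this
  rw [Real.exp_neg]
  rw [← div_eq_mul_inv, le_div_iff₀ (Real.exp_pos _)]
  exact h7

end Pool.Agent.Worm
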