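import Mathlib
import Pool.Agent.Worm.LimBase
import Pool.Agent.Worm.Coef

/-!
# Existence of a solution of the limit problem from the a priori bounds
-/

open MeasureTheory Set Filter Topology Metric
open scoped Real ENNReal ComplexConjugate

namespace Pool.Agent.Worm

theorem norm_le_sqrt_of_enorm_sq {x : ℂ} {A : ℝ≥0∞} (hA : A ≠ ⊤) (h : ‖x‖ₑ ^ 2 ≤ A) :
    ‖x‖ ≤ √(A.toReal) := by
  apply Real.le_sqrt_of_sq_le
  have h1 := ENNReal.toReal_mono hA h
  simpa using h1

theorem differentiable_expPoly (N : ℕ) (c : ℕ → ℂ) :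
    Differentiable ℂ (fun w : ℂ => ∑ j ∈ Finset.range N, c j * Complex.exp (j * w)) := by
  fun_prop

theorem coeff_uniform {b : ℝ} (hb : 0 < b) {N : ℕ} {r : ℝ} (hap : AprioriBound b N r) :
    ∃ δ₀ > 0, ∃ R : ℝ, ∀ δ ≤ δ₀, ∀ η F c, Cap b δ η → SolC η F c → ∀ j < N, ‖c j‖ ≤ R := by
  obtain ⟨δ₀, hδ₀, M, hM, hap⟩ := hap
  obtain ⟨K, hK, hK1⟩ := sol_sq_le hb.le
  obtain ⟨C, hC, X₀, h⟩ := coef_bound hb N r
  refine ⟨min δ₀ 1, by positivity, ∑ j ∈ Finset.range N,
    C * (Real.exp (-(j + 1) * X₀) * √K.toReal + Real.exp ((r - 1 - j) * X₀) * √M.toReal), ?_⟩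
  intro δ hδ η F c hcap hS j hj
  have h1 := h δ η F c K.toReal M.toReal ENNReal.toReal_nonneg ENNReal.toReal_nonneg
    (hδ.trans (min_le_right _ _)) hcap hS
    (by
      rw [ENNReal.ofReal_toReal hK]
      exact hK1 δ η F c (hδ.trans (min_le_right _ _)) hcap hS)
    (fun X => by
      rw [ENNReal.ofReal_toReal hM]
      exact hap δ (hδ.trans (min_le_left _ _)) η F c hcap hS X) X₀ le_rfl j hj
  refine h1.trans ?_
  exact Finset.single_le_sum (f := fun j : ℕ => C * (Real.exp (-(j + 1) * X₀) * √K.toReal +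
    Real.exp ((r - 1 - j) * X₀) * √M.toReal)) (fun i _ => by positivity) (Finset.mem_range.2 hj)

theorem window_fatou {b : ℝ} {η : ℕ → ℝ → ℝ} {δ : ℕ → ℝ} {F : ℕ → ℂ → ℂ} {c : ℕ → ℕ → ℂ}
    (hcap : ∀ k, Cap b (δ k) (η k)) (hF : ∀ k, DifferentiableOn ℂ (F k) (S (η k)))
    {f : ℂ → ℂ} {c' : ℕ → ℂ} (hlim : ∀ w ∈ S0 b, Tendsto (fun k => F k w) atTop (𝓝 (f w)))
    (hc : ∀ j, Tendsto (fun k => c k j) atTop (𝓝 (c' j)))
    {N : ℕ} {r : ℝ} {M : ℝ≥0∞}
    (hM : ∀ᶠ k in atTop, ∀ X, wmass (η k) (F k) (c k) N r X ≤ M) (X : ℝ) :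
    ∫⁻ w in {w : ℂ | |w.re - X| ≤ 1},
      ‖f w - ∑ j ∈ Finset.range N, c' j * Complex.exp (j * w)‖ₑ ^ 2 *
        ENNReal.ofReal (Real.exp (-2 * r * w.re)) ∂(mu0 b) ≤ M := by
  set W : Set ℂ := {w : ℂ | |w.re - X| ≤ 1} with hW
  set G : ℕ → ℂ → ℝ≥0∞ := fun k w =>
    ‖F k w - ∑ j ∈ Finset.range N, c k j * Complex.exp (j * w)‖ₑ ^ 2 *
        ENNReal.ofReal (Real.exp (-2 * r * w.re)) with hG
  have hGm : ∀ k, AEMeasurable (G k) ((mu0 b).restrict W) := by
    intro k
    apply AEMeasurable.restrict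
    have h1 : AEStronglyMeasurable
        (fun w => F k w - ∑ j ∈ Finset.range N, c k j * Complex.exp (j * w)) (mu0 b) := by
      apply aesm_mu0_of_hol
      exact ((hF k).mono (hcap k).S0_subset).sub (differentiable_expPoly N (c k)).differentiableOn
    exact (h1.enorm.pow_const 2).mul (by fun_prop)
  have hGlim : ∀ w ∈ S0 b, Tendsto (fun k => G k w) atTop
      (𝓝 (‖f w - ∑ j ∈ Finset.range N, c' j * Complex.exp (j * w)‖ₑ ^ 2 *
        ENNReal.ofReal (Real.exp (-2 * r * w.re)))) := by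
    intro w hw
    have h1 : Tendsto (fun k => F k w - ∑ j ∈ Finset.range N, c k j * Complex.exp (j * w)) atTop
        (𝓝 (f w - ∑ j ∈ Finset.range N, c' j * Complex.exp (j * w))) :=
      (hlim w hw).sub (tendsto_finsetSum _ (fun j _ => (hc j).mul_const _))
    have h2 := ((ENNReal.continuous_pow 2).tendsto _).comp h1.enorm
    exact ENNReal.Tendsto.mul_const h2 (Or.inr ENNReal.ofReal_ne_top)
  calc ∫⁻ w in W, ‖f w - ∑ j ∈ Finset.range N, c' j * Complex.exp (j * w)‖ₑ ^ 2 *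
        ENNReal.ofReal (Real.exp (-2 * r * w.re)) ∂(mu0 b)
      = ∫⁻ w in W, liminf (fun k => G k w) atTop ∂(mu0 b) := by
        apply lintegral_congr_ae
        filter_upwards [ae_restrict_of_ae (ae_mem_S0 b)] with w hw
        exact (hGlim w hw).liminf_eq.symm
    _ ≤ liminf (fun k => ∫⁻ w in W, G k w ∂(mu0 b)) atTop := lintegral_liminf_le' hGm
    _ ≤ M := by
        refine (liminf_le_limsup ?_ ?_).trans (limsup_le_of_le ?_ ?_)
        · isBoundedDefault
        · isBoundedDefault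
        · isBoundedDefault
        · filter_upwards [hM] with k hk
          refine le_trans ?_ (hk X)
          rw [wmass]
          exact lintegral_mono' (Measure.restrict_mono le_rfl (hcap k).mu0_le) le_rfl

instance sFinite_mu0 (b : ℝ) : SFinite (mu0 b) := by
  unfold mu0
  infer_instance

theorem total_of_window {b : ℝ} {G : ℂ → ℂ} (hG : DifferentiableOn ℂ G (S0 b)) {r r₀ : ℝ}
    (hr : r₀ < r) {M : ℝ≥0∞} (hM : M ≠ ⊤)
    (hw : ∀ X, ∫⁻ w in {w : ℂ | |w.re - X| ≤ 1},
      ‖G w‖ₑ ^ 2 * ENNReal.ofReal (Real.exp (-2 * r * w.re)) ∂(mu0 b) ≤ M) :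
    ∫⁻ w, ‖G w‖ₑ ^ 2 * ENNReal.ofReal (Real.exp (-2 * r₀ * w.re)) ∂(mu0 b) ≠ ⊤ := by
  set u : ℂ → ℝ≥0∞ := fun w => ‖G w‖ₑ ^ 2 * ENNReal.ofReal (Real.exp (-2 * r * w.re)) with hu
  have hum : AEMeasurable u (mu0 b) :=
    ((aesm_mu0_of_hol hG).enorm.pow_const 2).mul (by fun_prop)
  obtain ⟨K, hK, h1⟩ := window_bound (2 * (r - r₀)) (by linarith)
  have h2 := h1 ((mu0 b).withDensity u) M (by
    intro X
    rw [withDensity_apply _ (by
      apply measurableSet_le _ measurable_const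
      exact (Complex.measurable_re.sub_const _).abs)]
    exact hw X) (Real.log 2)
  rw [lintegral_withDensity_eq_lintegral_mul₀ hum (by fun_prop)] at h2
  have h3 : ∫⁻ w, ‖G w‖ₑ ^ 2 * ENNReal.ofReal (Real.exp (-2 * r₀ * w.re)) ∂(mu0 b) =
      ∫⁻ w, ENNReal.ofReal (Real.exp (2 * (r - r₀) * Real.log 2)) *
        (u * fun w : ℂ => ENNReal.ofReal (Real.exp (-(2 * (r - r₀)) * |w.re - Real.log 2|))) w
          ∂(mu0 b) := by
    apply lintegral_congr_ae
    filter_upwards [ae_mem_S0 b] with w hw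
    obtain ⟨t, ht, hd⟩ := hw
    have h4 : w.re < Real.log 2 := re_lt_of_mem_disc (η := fun _ => 0) le_rfl hd
    simp only [Pi.mul_apply, hu]
    have e1 : Real.exp (-2 * r₀ * w.re) = Real.exp (2 * (r - r₀) * Real.log 2) *
        (Real.exp (-2 * r * w.re) * Real.exp (-(2 * (r - r₀)) * |w.re - Real.log 2|)) := by
      rw [← Real.exp_add, ← Real.exp_add, abs_of_neg (by linarith)]
      congr 1
      ring
    rw [e1, ENNReal.ofReal_mul (Real.exp_pos _).le, ENNReal.ofReal_mul (Real.exp_pos _).le]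
    ring
  rw [h3, lintegral_const_mul' _ _ ENNReal.ofReal_ne_top]
  exact ENNReal.mul_ne_top ENNReal.ofReal_ne_top
    (ne_top_of_le_ne_top (ENNReal.mul_ne_top hK hM) h2)

theorem mem_of_window {b δ : ℝ} {η : ℝ → ℝ} (hcap : Cap b δ η) (hδ : δ ≤ 1) {f : ℂ → ℂ}
    (hf : DifferentiableOn ℂ f (S0 b)) {c : ℕ → ℂ} {N N₀ : ℕ} (hN : N₀ + 1 ≤ N) {r r₀ : ℝ}
    (hr : r₀ < N₀ + 1) (hrN : N < r) {M : ℝ≥0∞} (hM : M ≠ ⊤)
    (hw : ∀ X, ∫⁻ w in {w : ℂ | |w.re - X| ≤ 1},
      ‖f w - ∑ j ∈ Finset.range N, c j * Complex.exp (j * w)‖ₑ ^ 2 *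
        ENNReal.ofReal (Real.exp (-2 * r * w.re)) ∂(mu0 b) ≤ M) :
    ∫⁻ w, ‖f w - ∑ j ∈ Finset.range N₀, c j * Complex.exp (j * w)‖ₑ ^ 2 *
      ENNReal.ofReal (Real.exp (-2 * r₀ * w.re)) ∂(mu0 b) ≠ ⊤ := by
  have hN' : ((N₀ : ℝ) + 1) ≤ N := by exact_mod_cast hN
  set G : ℂ → ℂ := fun w => f w - ∑ j ∈ Finset.range N, c j * Complex.exp (j * w) with hG
  have hGd : DifferentiableOn ℂ G (S0 b) := hf.sub (differentiable_expPoly N c).differentiableOn
  have h1 := total_of_window hGd (r := r) (r₀ := r₀) (by linarith) hM hw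
  -- the tail polynomial
  set P : ℂ → ℂ := fun w => ∑ j ∈ Finset.Ico N₀ N, c j * Complex.exp (j * w) with hP
  have hPd : Continuous P := by fun_prop
  obtain ⟨K, hK, h2⟩ := mu_exp_le b (a := 2 * (N₀ - r₀)) (by linarith)
  have h2' := h2 δ η hδ hcap
  set D : ℝ := ∑ j ∈ Finset.Ico N₀ N, ‖c j‖ * Real.exp (j * Real.log 2) with hD
  have hD0 : 0 ≤ D := Finset.sum_nonneg (fun j _ => by positivity)
  have h3 : ∀ w ∈ S0 b, ‖P w‖ ≤ D * Real.exp (N₀ * w.re) * Real.exp (-(N₀ * Real.log 2)) := by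
    intro w hw
    obtain ⟨t, ht, hd⟩ := hw
    have h4 : w.re < Real.log 2 := re_lt_of_mem_disc (η := fun _ => 0) le_rfl hd
    rw [hD, Finset.sum_mul, Finset.sum_mul]
    apply norm_sum_le_of_le
    intro j hj
    rw [Finset.mem_Ico] at hj
    rw [norm_mul, Complex.norm_exp]
    have h5 : ((j : ℂ) * w).re = j * w.re := by simp
    rw [h5, mul_assoc, mul_assoc, ← Real.exp_add, ← Real.exp_add]
    gcongr
    have h6 : (N₀ : ℝ) ≤ j := by exact_mod_cast hj.1
    nlinarith
  have h4 : ∫⁻ w, ‖P w‖ₑ ^ 2 * ENNReal.ofReal (Real.exp (-2 * r₀ * w.re)) ∂(mu0 b) ≠ ⊤ := by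
    apply ne_top_of_le_ne_top
      (ENNReal.mul_ne_top (ENNReal.ofReal_ne_top (r := (D * Real.exp (-(N₀ * Real.log 2))) ^ 2)) hK)
    calc ∫⁻ w, ‖P w‖ₑ ^ 2 * ENNReal.ofReal (Real.exp (-2 * r₀ * w.re)) ∂(mu0 b)
        ≤ ∫⁻ w, ENNReal.ofReal ((D * Real.exp (-(N₀ * Real.log 2))) ^ 2) *
            ENNReal.ofReal (Real.exp (2 * (N₀ - r₀) * w.re)) ∂(mu0 b) := by
          apply lintegral_mono_ae
          filter_upwards [ae_mem_S0 b] with w hw
          have h5 := h3 w hw
          rw [← ofReal_norm, ← ENNReal.ofReal_pow (norm_nonneg _),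
            ← ENNReal.ofReal_mul (by positivity), ← ENNReal.ofReal_mul (by positivity)]
          apply ENNReal.ofReal_le_ofReal
          calc ‖P w‖ ^ 2 * Real.exp (-2 * r₀ * w.re)
              ≤ (D * Real.exp (N₀ * w.re) * Real.exp (-(N₀ * Real.log 2))) ^ 2 *
                  Real.exp (-2 * r₀ * w.re) := by gcongr
            _ = (D * Real.exp (-(N₀ * Real.log 2))) ^ 2 *
                  (Real.exp (N₀ * w.re) ^ 2 * Real.exp (-2 * r₀ * w.re)) := by ring
            _ = _ := by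
              rw [← Real.exp_nat_mul, ← Real.exp_add]
              congr 2
              push_cast
              ring
      _ ≤ ENNReal.ofReal ((D * Real.exp (-(N₀ * Real.log 2))) ^ 2) *
            ∫⁻ w, ENNReal.ofReal (Real.exp (2 * (N₀ - r₀) * w.re)) ∂(mu η) := by
          rw [lintegral_const_mul _ (by fun_prop)]
          gcongr
          exact hcap.mu0_le
      _ ≤ _ := by gcongr
  have h5 : ∀ w, f w - ∑ j ∈ Finset.range N₀, c j * Complex.exp (j * w) = G w + P w := by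
    intro w
    simp only [hG, hP]
    have h6 := Finset.sum_range_add_sum_Ico (fun j : ℕ => c j * Complex.exp (j * w))
      (show N₀ ≤ N by omega)
    rw [← h6]
    ring
  have h6 : ∫⁻ w, ‖f w - ∑ j ∈ Finset.range N₀, c j * Complex.exp (j * w)‖ₑ ^ 2 *
      ENNReal.ofReal (Real.exp (-2 * r₀ * w.re)) ∂(mu0 b) ≤
      2 * (∫⁻ w, ‖G w‖ₑ ^ 2 * ENNReal.ofReal (Real.exp (-2 * r₀ * w.re)) ∂(mu0 b)) +
      2 * ∫⁻ w, ‖P w‖ₑ ^ 2 * ENNReal.ofReal (Real.exp (-2 * r₀ * w.re)) ∂(mu0 b) := by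
    rw [← lintegral_const_mul' _ _ (by norm_num), ← lintegral_const_mul' _ _ (by norm_num),
      ← lintegral_add_right']
    · apply lintegral_mono
      intro w
      simp only
      rw [h5 w, ← mul_assoc, ← mul_assoc, ← add_mul]
      gcongr
      exact sq_add_enorm_le _ _
    · apply AEMeasurable.const_mul
      exact (hPd.aestronglyMeasurable.enorm.pow_const 2).mul (by fun_prop)
  refine ne_top_of_le_ne_top ?_ h6
  exact ENNReal.add_ne_top.mpr ⟨ENNReal.mul_ne_top (by norm_num) h1,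
    ENNReal.mul_ne_top (by norm_num) h4⟩

theorem ae_expM_ne (x : ℝ) : ∀ᵐ t ∂expM, t ≠ x := by
  have h1 : expM ≪ volume := withDensity_absolutelyContinuous _ _
  have h2 : ∀ᵐ t ∂(volume : Measure ℝ), t ≠ x := by
    rw [ae_iff]
    simp
  exact h1.ae_le h2

theorem exp_conj_bound {b : ℝ} (s : ℂ) {w : ℂ} (hw : w ∈ Q b) :
    ‖Complex.exp (s * conj w)‖ ≤ Real.exp (|s.im| * (b + 1 + π / 2)) * Real.exp (s.re * w.re) := by
  rw [Complex.norm_exp, ← Real.exp_add]
  apply Real.exp_le_exp.mpr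
  have h1 : (s * conj w).re = s.re * w.re + s.im * w.im := by simp
  rw [h1]
  have h2 : s.im * w.im ≤ |s.im| * (b + 1 + π / 2) := by
    calc s.im * w.im ≤ |s.im * w.im| := le_abs_self _
      _ = |s.im| * |w.im| := abs_mul _ _
      _ ≤ _ := by
        gcongr
        exact hw.2.le
  linarith

theorem orth_limit {b : ℝ} (hb : 0 ≤ b) {η : ℕ → ℝ → ℝ} {δ : ℕ → ℝ} (hδ1 : ∀ k, δ k ≤ 1)
    (hδ : Tendsto δ atTop (𝓝 0)) (hcap : ∀ k, Cap b (δ k) (η k)) {F : ℕ → ℂ → ℂ}
    (hhol : ∀ k, DifferentiableOn ℂ (F k) (S (η k))) (hmem : ∀ k, MemLp (F k) 2 (mu (η k)))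
    (horth : ∀ k, ∀ g : ℂ → ℂ, DifferentiableOn ℂ g (S (η k)) → MemLp g 2 (mu (η k)) →
      ∫ w, (conj w - F k w) * conj (g w) ∂(mu (η k)) = 0)
    {K : ℝ≥0∞} (hK : K ≠ ⊤) (hKn : ∀ k, ∫⁻ w, ‖F k w‖ₑ ^ 2 ∂(mu (η k)) ≤ K)
    {f : ℂ → ℂ} (hf : DifferentiableOn ℂ f (S0 b))
    (hlim : ∀ w ∈ S0 b, Tendsto (fun k => F k w) atTop (𝓝 (f w))) {s : ℂ} (hs : -1 < s.re) :
    ∫ w, (f w - conj w) * Complex.exp (s * conj w) ∂(mu0 b) = 0 := by
  classical
  obtain ⟨K', hK', hK'n⟩ := conj_sq_le hb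
  set B : Measure (ℝ × ℂ) := expM.prod areaM with hB
  set fk : ℕ → ℝ × ℂ → ℂ := fun k => (tot (η k)).indicator (fun p => F k p.2 - conj p.2) with hfk
  set g : ℝ × ℂ → ℂ := (tot0 b).indicator (fun p => f p.2 - conj p.2) with hg
  set R : Set (ℝ × ℂ) := {t : ℝ | |t| ≤ b + 1} ×ˢ Q b with hR
  set ψ : ℝ × ℂ → ℂ := R.indicator (fun p => Complex.exp (s * conj p.2)) with hψ
  have hAm : MeasurableSet {t : ℝ | |t| ≤ b + 1} :=
    measurableSet_le (continuous_abs.measurable) measurable_const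
  have hRm : MeasurableSet R := hAm.prod (isOpen_Q b).measurableSet
  have hconjm : ∀ μ : Measure ℂ, AEStronglyMeasurable (fun w : ℂ => conj w) μ := fun μ =>
    Complex.continuous_conj.aestronglyMeasurable
  have hexpm : ∀ μ : Measure ℂ, AEStronglyMeasurable (fun w : ℂ => Complex.exp (s * conj w)) μ :=
    fun μ => Continuous.aestronglyMeasurable (by fun_prop)
  have hFm : ∀ k, AEStronglyMeasurable (fun w => F k w - conj w) (mu (η k)) := fun k =>
    (hmem k).1.sub (hconjm _)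
  have hfm : AEStronglyMeasurable (fun w => f w - conj w) (mu0 b) :=
    (aesm_mu0_of_hol hf).sub (hconjm _)
  have hfkm : ∀ k, AEStronglyMeasurable (fk k) B := fun k =>
    aesm_base (isOpen_tot (hcap k).cont).measurableSet (hFm k)
  -- the test function
  have hψ2 : MemLp ψ 2 B := by
    refine ⟨?_, ?_⟩
    · rw [hψ, aestronglyMeasurable_indicator_iff hRm]
      exact Continuous.aestronglyMeasurable (by fun_prop)
    rw [eLpNorm_lt_top_iff_lintegral_rpow_enorm_lt_top (by norm_num) (by norm_num)]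
    simp only [ENNReal.toReal_ofNat]
    set D : ℝ := Real.exp (|s.im| * (b + 1 + π / 2)) with hD
    calc ∫⁻ p, ‖ψ p‖ₑ ^ (2 : ℝ) ∂B
        ≤ ∫⁻ p : ℝ × ℂ, {t : ℝ | |t| ≤ b + 1}.indicator (fun _ => (1 : ℝ≥0∞)) p.1 *
            (Q b).indicator (fun w => ENNReal.ofReal (D ^ 2) *
              ENNReal.ofReal (Real.exp (2 * s.re * w.re))) p.2 ∂B := by
          apply lintegral_mono
          intro p
          simp only
          by_cases hp : p ∈ R
          · rw [hψ, indicator_of_mem hp, indicator_of_mem (show p.1 ∈ _ from hp.1),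
              indicator_of_mem (show p.2 ∈ _ from hp.2), one_mul]
            have h3 := exp_conj_bound s (show p.2 ∈ Q b from hp.2)
            rw [← ofReal_norm, ENNReal.ofReal_rpow_of_nonneg (norm_nonneg _) (by norm_num),
              ← ENNReal.ofReal_mul (by positivity)]
            apply ENNReal.ofReal_le_ofReal
            rw [Real.rpow_two]
            calc ‖Complex.exp (s * conj p.2)‖ ^ 2 ≤ (D * Real.exp (s.re * p.2.re)) ^ 2 := by
                  gcongr
              _ = D ^ 2 * Real.exp (2 * s.re * p.2.re) := by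
                have e2 : Real.exp (s.re * p.2.re) ^ 2 = Real.exp (2 * s.re * p.2.re) := by
                  rw [← Real.exp_nat_mul]
                  congr 1
                  push_cast; ring
                rw [mul_pow, e2]
          · rw [hψ, indicator_of_notMem hp]
            simp
      _ = (∫⁻ t, {t : ℝ | |t| ≤ b + 1}.indicator (fun _ => (1 : ℝ≥0∞)) t ∂expM) *
            ∫⁻ w, (Q b).indicator (fun w => ENNReal.ofReal (D ^ 2) *
              ENNReal.ofReal (Real.exp (2 * s.re * w.re))) w ∂areaM := by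
          rw [hB]
          apply lintegral_prod_mul
          · exact (measurable_const.indicator hAm).aemeasurable
          · exact (Measurable.indicator (by fun_prop) (isOpen_Q b).measurableSet).aemeasurable
      _ < ⊤ := by
          apply ENNReal.mul_lt_top
          · rw [lintegral_indicator_const hAm, one_mul]
            exact expM_bdd_lt_top _
          · rw [lintegral_indicator (isOpen_Q b).measurableSet,
              lintegral_const_mul' _ _ ENNReal.ofReal_ne_top]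
            exact ENNReal.mul_lt_top ENNReal.ofReal_lt_top
              (lintegral_Q_exp_lt_top b (a := 2 * s.re) (by linarith))
  -- the bound
  have hbd : ∀ k, ∫⁻ p, ‖fk k p‖ₑ ^ 2 ∂B ≤ 2 * K + 2 * K' := by
    intro k
    have h1 : ∫⁻ p, ‖fk k p‖ₑ ^ 2 ∂B = ∫⁻ w, ‖F k w - conj w‖ₑ ^ 2 ∂(mu (η k)) := by
      rw [mu_eq, lintegral_muA_base_lb (isOpen_tot (hcap k).cont).measurableSet
        ((hFm k).enorm.pow_const 2)]
      apply lintegral_congr
      intro p
      by_cases hp : p ∈ tot (η k)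
      · simp only [hfk]
        rw [indicator_of_mem hp, indicator_of_mem hp]
      · simp only [hfk]
        rw [indicator_of_notMem hp, indicator_of_notMem hp]
        simp
    rw [h1]
    calc ∫⁻ w, ‖F k w - conj w‖ₑ ^ 2 ∂(mu (η k))
        ≤ ∫⁻ w, (2 * ‖F k w‖ₑ ^ 2 + 2 * ‖w‖ₑ ^ 2) ∂(mu (η k)) := by
          apply lintegral_mono
          intro w
          have h2 := sq_add_enorm_le (F k w) (-conj w)
          rw [enorm_neg, ← sub_eq_add_neg] at h2
          have h3 : ‖conj w‖ₑ = ‖w‖ₑ := by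
            rw [← ofReal_norm, ← ofReal_norm, RCLike.norm_conj]
          rw [h3] at h2
          exact h2
      _ = 2 * ∫⁻ w, ‖F k w‖ₑ ^ 2 ∂(mu (η k)) + 2 * ∫⁻ w, ‖w‖ₑ ^ 2 ∂(mu (η k)) := by
          rw [lintegral_add_right _ (by fun_prop), lintegral_const_mul' _ _ (by norm_num),
            lintegral_const_mul' _ _ (by norm_num)]
      _ ≤ 2 * K + 2 * K' := by
          gcongr
          · exact hKn k
          · exact hK'n (δ k) (η k) (hδ1 k) (hcap k)
  -- the pointwise limit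
  have hae : ∀ᵐ p ∂B, Tendsto (fun k => fk k p) atTop (𝓝 (g p)) := by
    have h1 : ∀ᵐ p ∂B, p.1 ≠ b :=
      (Measure.quasiMeasurePreserving_fst (μ := expM) (ν := areaM)).ae (ae_expM_ne b)
    have h2 : ∀ᵐ p ∂B, p.1 ≠ -b :=
      (Measure.quasiMeasurePreserving_fst (μ := expM) (ν := areaM)).ae (ae_expM_ne (-b))
    filter_upwards [h1, h2] with p hp1 hp2
    rcases lt_trichotomy |p.1| b with hlt | heq | hgt
    · by_cases hp : p.2 ∈ disc (fun _ => 0) p.1
      · have h3 : p ∈ tot0 b := ⟨hlt, hp⟩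
        have h4 : ∀ k, p ∈ tot (η k) := fun k => (hcap k).tot0_subset h3
        have h5 : p.2 ∈ S0 b := ⟨p.1, hlt, hp⟩
        simp only [hfk, hg]
        rw [indicator_of_mem h3]
        have h6 : (fun k => (tot (η k)).indicator (fun p : ℝ × ℂ => F k p.2 - conj p.2) p) =
            fun k => F k p.2 - conj p.2 := by
          ext k
          rw [indicator_of_mem (h4 k)]
        rw [h6]
        exact (hlim _ h5).sub tendsto_const_nhds
      · have h3 : p ∉ tot0 b := fun h => hp h.2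
        have h4 : ∀ k, p ∉ tot (η k) := by
          intro k hk
          change p.2 ∈ disc (η k) p.1 at hk
          rw [(hcap k).disc_eq hlt.le] at hk
          exact hp hk
        simp only [hfk, hg]
        rw [indicator_of_notMem h3]
        have h6 : (fun k => (tot (η k)).indicator (fun p : ℝ × ℂ => F k p.2 - conj p.2) p) =
            fun k => 0 := by
          ext k
          rw [indicator_of_notMem (h4 k)]
        rw [h6]
        exact tendsto_const_nhds
    · rcases eq_or_eq_neg_of_abs_eq heq with h | h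
      · exact absurd h hp1
      · exact absurd h hp2
    · have h3 : p ∉ tot0 b := fun h => by
        have := h.1
        linarith
      simp only [hfk, hg]
      rw [indicator_of_notMem h3]
      apply tendsto_const_nhds.congr'
      have h4 : ∀ᶠ k in atTop, δ k < |p.1| - b := by
        have := hδ.eventually (gt_mem_nhds (show (0 : ℝ) < |p.1| - b by linarith))
        exact this
      filter_upwards [h4] with k hk
      rw [indicator_of_notMem]
      intro h5
      have h6 := (hcap k).abs_lt (t := p.1) (w := p.2) h5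
      linarith
  have hmain := (tendsto_integral_of_bounded hfkm hψ2
    (ENNReal.add_ne_top.mpr ⟨ENNReal.mul_ne_top (by norm_num) hK,
      ENNReal.mul_ne_top (by norm_num) hK'⟩) hbd hae).2
  -- the integrals vanish
  have hzero : ∀ k, ∫ p, fk k p * ψ p ∂B = 0 := by
    intro k
    have h1 : ∫ p, fk k p * ψ p ∂B =
        ∫ w, (F k w - conj w) * Complex.exp (s * conj w) ∂(mu (η k)) := by
      rw [mu_eq, integral_muA_base_lb (f := fun w => (F k w - conj w) * Complex.exp (s * conj w))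
        (isOpen_tot (hcap k).cont).measurableSet ((hFm k).mul (hexpm _))]
      apply integral_congr_ae
      filter_upwards with p
      by_cases hp : p ∈ tot (η k)
      · have hpR : p ∈ R := by
          refine ⟨?_, ?_⟩
          · have := (hcap k).abs_lt (t := p.1) (w := p.2) hp
            have h3 := hδ1 k
            change |p.1| ≤ b + 1
            linarith
          · exact (hcap k).mem_Q (hδ1 k) (t := p.1) hp
        simp only [hfk, hψ]
        rw [indicator_of_mem hp, indicator_of_mem hpR, indicator_of_mem hp]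
      · simp only [hfk]
        rw [indicator_of_notMem hp, indicator_of_notMem hp, zero_mul]
    rw [h1]
    have h2 := horth k (fun w => Complex.exp (conj s * w))
      (Differentiable.differentiableOn (by fun_prop)) (by
        apply memLp_of_bound (C := Real.exp (|s.im| * (b + 1 + π / 2))) (a := s.re) (hcap k)
          (hδ1 k) _ hs
        · intro w hw
          have h3 := exp_conj_bound s hw
          refine le_trans (le_of_eq ?_) h3
          rw [Complex.norm_exp, Complex.norm_exp]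
          congr 1
          simp
        · exact Continuous.aestronglyMeasurable (by fun_prop))
    have h3 : ∫ w, (F k w - conj w) * Complex.exp (s * conj w) ∂(mu (η k)) =
        - ∫ w, (conj w - F k w) * conj (Complex.exp (conj s * w)) ∂(mu (η k)) := by
      rw [← integral_neg]
      apply integral_congr_ae
      filter_upwards with w
      have h4 : conj (Complex.exp (conj s * w)) = Complex.exp (s * conj w) := by
        rw [← Complex.exp_conj]
        congr 1
        simp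
      rw [h4]
      ring
    rw [h3, h2, neg_zero]
  have hg0 : ∫ p, g p * ψ p ∂B = 0 := by
    simp_rw [hzero] at hmain
    exact tendsto_nhds_unique hmain tendsto_const_nhds
  rw [mu0_eq, integral_muA_base_lb (f := fun w => (f w - conj w) * Complex.exp (s * conj w))
    (isOpen_tot0 b).measurableSet (hfm.mul (hexpm _)), ← hg0]
  apply integral_congr_ae
  filter_upwards with p
  by_cases hp : p ∈ tot0 b
  · have hpR : p ∈ R := by
      refine ⟨?_, mem_Q_of_S0 hp.1 hp.2⟩
      change |p.1| ≤ b + 1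
      linarith [hp.1]
    simp only [hg, hψ]
    rw [indicator_of_mem hp, indicator_of_mem hpR, indicator_of_mem hp]
  · simp only [hg]
    rw [indicator_of_notMem hp, indicator_of_notMem hp, zero_mul]

/-- Existence of the limit solution. -/
theorem lim_of_apriori {b : ℝ} (hb : 0 < b)
    (hap : ∀ N₀ : ℕ, ∃ N ≥ N₀, ∃ r : ℝ, N < r ∧ r < N + 1 ∧ AprioriBound b N r)
    (h : ∀ δ > 0, ∃ η F, Cap b δ η ∧ Sol η F) : ∃ F c, Lim b F c := by
  classical
  have hpi := Real.pi_pos
  have hb0 : 0 ≤ b := hb.le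
  have hδpos : ∀ n : ℕ, (0 : ℝ) < 1 / ((n : ℝ) + 1) := fun n => by positivity
  choose η₀ F₀ hcap hsol using fun n : ℕ => h (1 / ((n : ℝ) + 1)) (hδpos n)
  choose c₀ hc₀ using fun n => (hsol n).taylor
  have hS : ∀ n, SolC (η₀ n) (F₀ n) (c₀ n) := fun n =>
    ⟨(hsol n).hol, (hsol n).mem, (hsol n).orth, hc₀ n⟩
  have hδ1 : ∀ n : ℕ, 1 / ((n : ℝ) + 1) ≤ 1 := by
    intro n
    rw [div_le_one (by positivity)]
    have : (0 : ℝ) ≤ n := Nat.cast_nonneg n
    linarith
  have hδ0 : Tendsto (fun n : ℕ => 1 / ((n : ℝ) + 1)) atTop (𝓝 0) :=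
    tendsto_one_div_add_atTop_nhds_zero_nat
  obtain ⟨K, hK, hK1⟩ := sol_sq_le hb0
  have hKn : ∀ n, ∫⁻ w, ‖F₀ n w‖ₑ ^ 2 ∂(mu (η₀ n)) ≤ K := fun n =>
    hK1 _ _ _ _ (hδ1 n) (hcap n) (hS n)
  -- a convergent subsequence
  obtain ⟨f, φ₁, hφ₁, hf, hconv⟩ := montel_seq (isOpen_S0 b) (F := F₀) (by
    intro w₀ hw₀
    obtain ⟨ρ, hρ, C, hC, hsub, hbd⟩ := local_bound hw₀
    refine ⟨ρ, hρ, √((C * K).toReal), 0, fun k _ => ⟨?_, ?_⟩⟩
    · exact (hS k).hol.mono (hsub.trans (hcap k).S0_subset)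
    · intro z hz
      apply norm_le_sqrt_of_enorm_sq (ENNReal.mul_ne_top hC hK)
      refine (hbd _ _ _ (hcap k) (hS k).hol z hz).trans ?_
      gcongr
      exact hKn k)
  -- the coefficients
  have hbdd : ∀ j : ℕ, ∃ R : ℝ, ∀ n, ‖c₀ n j‖ ≤ R := by
    intro j
    obtain ⟨N, hN, r, -, -, hA⟩ := hap (j + 1)
    obtain ⟨δ₀, hδ₀, R, hR⟩ := coeff_uniform hb hA
    obtain ⟨n₀, hn₀⟩ := (hδ0.eventually (gt_mem_nhds hδ₀)).exists_forall_of_atTop
    refine ⟨|R| + ∑ n ∈ Finset.range n₀, ‖c₀ n j‖, fun n => ?_⟩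
    rcases lt_or_ge n n₀ with hn | hn
    · have h1 : ‖c₀ n j‖ ≤ ∑ n ∈ Finset.range n₀, ‖c₀ n j‖ :=
        Finset.single_le_sum (f := fun n => ‖c₀ n j‖) (fun i _ => norm_nonneg _)
          (Finset.mem_range.2 hn)
      linarith [abs_nonneg R]
    · have h1 := hR _ (hn₀ n hn).le _ _ _ (hcap n) (hS n) j (by omega)
      have h2 : 0 ≤ ∑ n ∈ Finset.range n₀, ‖c₀ n j‖ :=
        Finset.sum_nonneg (fun i _ => norm_nonneg _)
      linarith [le_abs_self R]
  choose R hR using hbdd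
  have hcomp : IsCompact (Set.pi Set.univ (fun j : ℕ => closedBall (0 : ℂ) (R j))) :=
    isCompact_univ_pi (fun j => isCompact_closedBall _ _)
  obtain ⟨c, -, φ₂, hφ₂, hc⟩ := hcomp.tendsto_subseq (x := fun k => c₀ (φ₁ k))
    (fun k j _ => by
      rw [mem_closedBall, dist_zero_right]
      exact hR j _)
  rw [tendsto_pi_nhds] at hc
  set ψ : ℕ → ℕ := fun k => φ₁ (φ₂ k) with hψ
  have hψm : StrictMono ψ := hφ₁.comp hφ₂
  have hlim : ∀ w ∈ S0 b, Tendsto (fun k => F₀ (ψ k) w) atTop (𝓝 (f w)) := by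
    intro w hw
    exact (hconv.tendsto_at hw).comp hφ₂.tendsto_atTop
  refine ⟨f, c, hf, ?_, ?_⟩
  · intro N₀ r₀ hr₀
    obtain ⟨N, hN, r, hNr, -, δ₀, hδ₀, M, hM, hA⟩ := hap (N₀ + 1)
    have h1 : ∀ᶠ k in atTop, ∀ X, wmass (η₀ (ψ k)) (F₀ (ψ k)) (c₀ (ψ k)) N r X ≤ M := by
      have h2 := (hδ0.comp hψm.tendsto_atTop).eventually (gt_mem_nhds hδ₀)
      filter_upwards [h2] with k hk X
      exact hA _ hk.le _ _ _ (hcap _) (hS _) X
    have h3 := window_fatou (fun k => hcap (ψ k)) (fun k => (hS (ψ k)).hol) hlim hc h1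
    exact mem_of_window (hcap 0) (hδ1 0) hf hN hr₀ hNr hM h3
  · intro s hs
    exact orth_limit hb0 (fun k => hδ1 (ψ k)) (hδ0.comp hψm.tendsto_atTop)
      (fun k => hcap (ψ k)) (fun k => (hS (ψ k)).hol) (fun k => (hS (ψ k)).mem)
      (fun k => (hS (ψ k)).orth) hK (fun k => hKn (ψ k)) hf hlim hs

end Pool.Agent.Worm
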