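import Mathlib

/-! Two number lemmas for the upgrade to all angles beta > 3pi/2. -/

open Real

namespace Pool.Agent.Worm

theorem exists_magic {b : ℝ} (hb : 0 < b) (N₀ : ℕ) : ∃ N ≥ N₀, ∃ r : ℝ, (N : ℝ) < r ∧ r < N + 1 ∧
    Real.sin (2 * r * (b + π / 2)) = 0 ∧ Real.sin (2 * r * b) ≠ 0 := by
  have hpi := Real.pi_pos
  set α : ℝ := π / (2 * b + π) with hα
  have hden : 0 < 2 * b + π := by linarith
  have hα0 : 0 < α := div_pos hpi hden
  have hα1 : α < 1 := by
    rw [hα, div_lt_one hden]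
    linarith
  have key : ∀ k : ℕ, (N₀ : ℝ) ≤ k * α → (∀ n : ℕ, (k : ℝ) * α ≠ n) →
      ∃ N ≥ N₀, ∃ r : ℝ, (N : ℝ) < r ∧ r < N + 1 ∧
      Real.sin (2 * r * (b + π / 2)) = 0 ∧ Real.sin (2 * r * b) ≠ 0 := by
    intro k hk hn
    have hr0 : 0 ≤ (k : ℝ) * α := by positivity
    have e1 : (k : ℝ) * α * (2 * b + π) = k * π := by
      rw [hα]
      field_simp
    refine ⟨⌊(k : ℝ) * α⌋₊, Nat.le_floor hk, (k : ℝ) * α, ?_, Nat.lt_floor_add_one _, ?_, ?_⟩
    · exact lt_of_le_of_ne (Nat.floor_le hr0) (fun h => hn _ h.symm)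
    · have : 2 * ((k : ℝ) * α) * (b + π / 2) = k * π := by
        rw [← e1]
        ring
      rw [this]
      exact Real.sin_nat_mul_pi k
    · have : 2 * ((k : ℝ) * α) * b = k * π - (k : ℝ) * α * π := by
        rw [← e1]
        ring
      rw [this, Real.sin_sub, Real.sin_nat_mul_pi, zero_mul, zero_sub, neg_ne_zero]
      apply mul_ne_zero
      · intro h
        have h2 := Real.sin_sq_add_cos_sq ((k : ℝ) * π)
        rw [Real.sin_nat_mul_pi, h] at h2
        norm_num at h2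
      · intro h
        rw [Real.sin_eq_zero_iff] at h
        obtain ⟨n, hn'⟩ := h
        have h3 : (n : ℝ) = k * α := mul_right_cancel₀ hpi.ne' hn'
        have h4 : (0 : ℤ) ≤ n := by
          have : (0 : ℝ) ≤ (n : ℝ) := by
            rw [h3]
            exact hr0
          exact_mod_cast this
        apply hn n.toNat
        rw [← h3]
        have : ((n.toNat : ℤ) : ℝ) = (n : ℝ) := by
          rw [Int.toNat_of_nonneg h4]
        rw [← this]
        norm_cast
  set k₁ : ℕ := ⌈(N₀ : ℝ) / α⌉₊ with hk₁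
  have hk : (N₀ : ℝ) ≤ k₁ * α := by
    rw [← div_le_iff₀ hα0]
    exact Nat.le_ceil _
  by_cases h1 : ∀ n : ℕ, (k₁ : ℝ) * α ≠ n
  · exact key k₁ hk h1
  · push Not at h1
    obtain ⟨m, hm⟩ := h1
    apply key (k₁ + 1)
    · push_cast
      nlinarith
    · intro n hn
      push_cast at hn
      have h2 : (n : ℝ) - m = α := by linarith
      have h3 : (0 : ℝ) < (n : ℝ) - m := by linarith
      have h4 : (n : ℝ) - m < 1 := by linarith
      have h5 : m < n := by
        have : (m : ℝ) < n := by linarith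
        exact_mod_cast this
      have h6 : n < m + 1 := by
        have : (n : ℝ) < m + 1 := by linarith
        exact_mod_cast this
      omega

theorem exists_R {b : ℝ} (hb : π < b) : ∃ R : ℕ → ℝ, ∀ N : ℕ,
    (N : ℝ) + 1 / 4 ≤ R N ∧ R N ≤ N + 1 - 1 / 4 ∧ 1 / 4 ≤ |Real.sin (2 * R N * b)| := by
  have hpi := Real.pi_pos
  have hb0 : 0 < b := by linarith
  have main : ∀ N : ℕ, ∃ R : ℝ, (N : ℝ) + 1 / 4 ≤ R ∧ R ≤ N + 1 - 1 / 4 ∧
      1 / 4 ≤ |Real.sin (2 * R * b)| := by
    intro N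
    set y : ℝ := (2 * ((N : ℝ) + 1 / 4) * b - π / 2) / π with hy
    set m : ℤ := ⌈y⌉ with hm
    have h1 : y ≤ m := Int.le_ceil y
    have h2 : (m : ℝ) < y + 1 := Int.ceil_lt_add_one y
    have hy' : y * π = 2 * ((N : ℝ) + 1 / 4) * b - π / 2 := by
      rw [hy]
      field_simp
    have h3 : 2 * ((N : ℝ) + 1 / 4) * b ≤ π / 2 + m * π := by nlinarith
    have h4 : π / 2 + m * π ≤ 2 * ((N : ℝ) + 1 / 4) * b + π := by nlinarith
    have hR : 2 * ((π / 2 + m * π) / (2 * b)) * b = π / 2 + m * π := by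
      field_simp
    refine ⟨(π / 2 + m * π) / (2 * b), ?_, ?_, ?_⟩
    · rw [le_div_iff₀ (by positivity)]
      linarith
    · rw [div_le_iff₀ (by positivity)]
      linarith
    · rw [hR, Real.sin_add, Real.sin_pi_div_two, Real.cos_pi_div_two, Real.sin_int_mul_pi,
        mul_zero, add_zero, one_mul]
      have h5 := Real.sin_sq_add_cos_sq ((m : ℝ) * π)
      rw [Real.sin_int_mul_pi] at h5
      have h6 : |Real.cos ((m : ℝ) * π)| = 1 := by
        rw [← sq_eq_sq₀ (abs_nonneg _) (by norm_num), sq_abs]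
        linarith
      rw [h6]
      norm_num
  choose R hR using main
  exact ⟨R, hR⟩

end Pool.Agent.Worm
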