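import Mathlib
import Pool.Agent.Worm.BlowLimit3
import Pool.Agent.Worm.Edge
import Pool.Agent.Worm.LimExist
import Pool.Agent.Worm.Magic

/-!
# The limit problem is solvable if solutions smooth at the singular point exist for short caps
-/

open MeasureTheory Set Metric Filter Topology
open scoped Real ENNReal ComplexConjugate

namespace Pool.Agent.Worm

/-- The uniform a priori bound at the special exponents. -/
theorem apriori {b : ℝ} (hb : 0 < b) {N : ℕ} {r : ℝ} (hr : N < r) (hr1 : r < N + 1)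
    (hmag : Real.sin (2 * r * (b + π / 2)) = 0) (hnc : Real.sin (2 * r * b) ≠ 0) :
    AprioriBound b N r := by
  by_contra hcon
  obtain ⟨B⟩ := exists_bseq hr1 hcon
  obtain ⟨B', hB'⟩ := BSeq.exists_core hb hr hr1 hnc B
  exact edge_contra hb hr hr1 hmag B' hB'

theorem lim_exists {b : ℝ} (hb : 0 < b)
    (h : ∀ δ > 0, ∃ η F, Cap b δ η ∧ Sol η F) : ∃ F c, Lim b F c := by
  refine lim_of_apriori hb ?_ h
  intro N₀
  obtain ⟨N, hN, r, h1, h2, h3, h4⟩ := exists_magic hb N₀
  exact ⟨N, hN, r, h1, h2, apriori hb h1 h2 h3 h4⟩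

end Pool.Agent.Worm
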