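import Pool.Agent.Worm.Defs
import Pool.Agent.H62.Area

/-!
# Module R2: the one-dimensional Bergman projection
-/

open MeasureTheory Set Filter Metric
open scoped Real ENNReal NNReal ComplexConjugate ContDiff Topology

namespace Pool.Agent.Worm

namespace R2

/-- Mean value inequality on circles. -/
theorem circle_ineq {f : ℂ → ℂ} {c : ℂ} {r s : ℝ} (hf : DifferentiableOn ℂ f (ball c r))
    (hs0 : 0 < s) (hsr : s < r) :
    ENNReal.ofReal (2 * π) * ‖f c‖ₑ ≤ ∫⁻ θ in Ioo (-π) π, ‖f (circleMap c s θ)‖ₑ := by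
  have h1 : DiffContOnCl ℂ f (ball c |s|) := by
    rw [abs_of_pos hs0]
    apply DifferentiableOn.diffContOnCl
    apply hf.mono
    rw [closure_ball c hs0.ne']
    exact closedBall_subset_ball hsr
  have h2 := h1.circleAverage
  rw [Real.circleAverage_def] at h2
  have h3 : ∫ θ in (0 : ℝ)..2 * π, f (circleMap c s θ) = ∫ θ in (-π)..π, f (circleMap c s θ) := by
    have h4 : Function.Periodic (fun θ => f (circleMap c s θ)) (2 * π) := by
      intro θ
      simp only [periodic_circleMap c s θ]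
    have h5 := h4.intervalIntegral_add_eq 0 (-π)
    rw [zero_add] at h5
    rw [h5]
    congr 1
    ring
  rw [h3, intervalIntegral.integral_of_le (by linarith [Real.pi_pos]),
    integral_Ioc_eq_integral_Ioo] at h2
  have h6 : ∫ θ in Ioo (-π) π, f (circleMap c s θ) = (2 * π : ℝ) • f c := by
    rw [← h2, smul_smul, mul_inv_cancel₀ (by positivity), one_smul]
  have h7 := enorm_integral_le_lintegral_enorm (μ := volume.restrict (Ioo (-π) π))
    (fun θ => f (circleMap c s θ))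
  rw [h6, enorm_smul, Real.enorm_eq_ofReal (by positivity)] at h7
  exact h7

/-- Mean value inequality on discs. -/
theorem disc_ineq {f : ℂ → ℂ} {c : ℂ} {r : ℝ} (hr : 0 < r)
    (hf : DifferentiableOn ℂ f (ball c r)) :
    ENNReal.ofReal (π * r ^ 2) * ‖f c‖ₑ ≤ ∫⁻ z in ball c r, ‖f z‖ₑ := by
  classical
  set g : ℂ → ℝ≥0∞ := (ball (0 : ℂ) r).piecewise (fun z => ‖f (c + z)‖ₑ) (fun _ => 0) with hg
  have hmaps : MapsTo (fun z => c + z) (ball (0 : ℂ) r) (ball c r) := by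
    intro z hz
    rw [mem_ball_zero_iff] at hz
    rw [mem_ball, dist_eq_norm]
    simpa using hz
  have hgm : Measurable g := by
    refine ContinuousOn.measurable_piecewise ?_ continuousOn_const measurableSet_ball
    have h1 : ContinuousOn (fun z => f (c + z)) (ball (0 : ℂ) r) :=
      hf.continuousOn.comp (by fun_prop) hmaps
    exact h1.enorm
  have h1 : ∫⁻ z in ball c r, ‖f z‖ₑ = ∫⁻ z, g z := by
    have h2 : g = (ball (0 : ℂ) r).indicator (fun z => ‖f (c + z)‖ₑ) := by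
      rw [hg, ← Set.piecewise_eq_indicator]
      rfl
    rw [h2, lintegral_indicator measurableSet_ball]
    have h3 : (fun z => c + z) ⁻¹' (ball c r) = ball (0 : ℂ) r := by
      ext z
      simp [mem_ball, dist_eq_norm]
    rw [← h3, (measurePreserving_add_left volume c).setLIntegral_comp_preimage_emb
      (MeasurableEquiv.addLeft c).measurableEmbedding (fun z => ‖f z‖ₑ) (ball c r)]
  rw [h1, Pool.Agent.H62.lintegral_polar hgm]
  have h2 : ∫⁻ s in Ioo (0 : ℝ) r, ENNReal.ofReal s * (ENNReal.ofReal (2 * π) * ‖f c‖ₑ) ≤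
      ∫⁻ s in Ioi (0 : ℝ), ENNReal.ofReal s *
        ∫⁻ θ in Ioo (-π) π, g (circleMap 0 s θ) := by
    refine le_trans ?_ (lintegral_mono_set (Ioo_subset_Ioi_self : Ioo (0 : ℝ) r ⊆ Ioi 0))
    refine setLIntegral_mono' measurableSet_Ioo fun s hs => ?_
    gcongr
    have h3 := circle_ineq hf hs.1 hs.2
    refine h3.trans (le_of_eq ?_)
    apply lintegral_congr
    intro θ
    have h4 : circleMap 0 s θ ∈ ball (0 : ℂ) r := by
      rw [mem_ball_zero_iff, norm_circleMap_zero, abs_of_pos hs.1]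
      exact hs.2
    simp only [hg, Set.piecewise_eq_of_mem _ _ _ h4]
    congr 2
    simp [circleMap]
  refine le_trans (le_of_eq ?_) h2
  rw [lintegral_mul_const _ (by fun_prop)]
  have h5 : ∫⁻ s in Ioo (0 : ℝ) r, ENNReal.ofReal s = ENNReal.ofReal (r ^ 2 / 2) := by
    rw [← ofReal_integral_eq_lintegral_ofReal]
    · rw [← integral_Ioc_eq_integral_Ioo, ← intervalIntegral.integral_of_le hr.le, integral_id]
      congr 1
      ring
    · exact (continuous_id.integrableOn_Icc (μ := volume) (a := 0) (b := r)).mono_set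
        Ioo_subset_Icc_self
    · filter_upwards [ae_restrict_mem measurableSet_Ioo] with s hs
      exact hs.1.le
  rw [h5, ← mul_assoc, ← ENNReal.ofReal_mul (by positivity)]
  congr 2
  ring

/-- Local estimate in `L²(μ)`. -/
theorem local_est {S : Set ℂ} {μ : Measure ℂ} {w₀ : ℂ} {r a : ℝ} (hr : 0 < r) (ha : 0 < a)
    (hS : ball w₀ r ⊆ S) (hμ : ENNReal.ofReal a • volume.restrict (ball w₀ r) ≤ μ) :
    ∃ K : ℝ≥0, ∀ g : ℂ → ℂ, DifferentiableOn ℂ g S → ∀ w ∈ ball w₀ (r / 2),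
      ‖g w‖ₑ ≤ K * eLpNorm g 2 μ := by
  set A : ℝ≥0∞ := ENNReal.ofReal (π * (r / 2) ^ 2) with hA
  set Vv : ℝ≥0∞ := (volume.restrict (ball w₀ r)) univ ^ (1 / (1 : ℝ≥0∞).toReal -
    1 / (2 : ℝ≥0∞).toReal) with hV
  set B : ℝ≥0∞ := ENNReal.ofReal a ^ (1 / (2 : ℝ≥0∞)).toReal with hB
  have hA0 : A ≠ 0 := by
    rw [hA]
    simp only [ne_eq, ENNReal.ofReal_eq_zero, not_le]
    positivity
  have hAt : A ≠ ⊤ := ENNReal.ofReal_ne_top
  have hB0 : B ≠ 0 := by
    rw [hB]
    simp only [ne_eq, ENNReal.rpow_eq_zero_iff, ENNReal.ofReal_eq_zero, not_or, not_and_or, not_le]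
    constructor
    · left; exact ha
    · left; exact ENNReal.ofReal_ne_top
  have hBt : B ≠ ⊤ := by
    rw [hB]
    exact ENNReal.rpow_ne_top_of_nonneg (by simp) ENNReal.ofReal_ne_top
  have hVt : Vv ≠ ⊤ := by
    rw [hV]
    apply ENNReal.rpow_ne_top_of_nonneg
    · norm_num
    · rw [Measure.restrict_apply_univ]
      exact measure_ball_lt_top.ne
  have hK : A⁻¹ * (B⁻¹ * Vv) ≠ ⊤ :=
    ENNReal.mul_ne_top (ENNReal.inv_ne_top.mpr hA0) (ENNReal.mul_ne_top
      (ENNReal.inv_ne_top.mpr hB0) hVt)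
  refine ⟨(A⁻¹ * (B⁻¹ * Vv)).toNNReal, fun g hg w hw => ?_⟩
  rw [ENNReal.coe_toNNReal hK]
  have hsub : ball w (r / 2) ⊆ ball w₀ r := by
    intro z hz
    rw [mem_ball] at *
    calc dist z w₀ ≤ dist z w + dist w w₀ := dist_triangle _ _ _
      _ < r := by linarith
  have h1 := disc_ineq (f := g) (c := w) (r := r / 2) (by positivity)
    (hg.mono (hsub.trans hS))
  have h2 : ∫⁻ z in ball w (r / 2), ‖g z‖ₑ ≤ eLpNorm g 1 (volume.restrict (ball w₀ r)) := by
    rw [eLpNorm_one_eq_lintegral_enorm]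
    exact lintegral_mono_set hsub
  have hmeas : AEStronglyMeasurable g (volume.restrict (ball w₀ r)) :=
    (hg.continuousOn.mono hS).aestronglyMeasurable measurableSet_ball
  have h3 := eLpNorm_le_eLpNorm_mul_rpow_measure_univ (p := 1) (q := 2) (by norm_num) hmeas
  have h4 : B * eLpNorm g 2 (volume.restrict (ball w₀ r)) ≤ eLpNorm g 2 μ := by
    have h5 := eLpNorm_mono_measure (p := 2) g hμ
    rw [eLpNorm_smul_measure_of_ne_zero] at h5
    · exact h5
    · simp only [ne_eq, ENNReal.ofReal_eq_zero, not_le]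
      exact ha
  have h5 : eLpNorm g 2 (volume.restrict (ball w₀ r)) ≤ B⁻¹ * eLpNorm g 2 μ := by
    calc eLpNorm g 2 (volume.restrict (ball w₀ r))
        = B⁻¹ * (B * eLpNorm g 2 (volume.restrict (ball w₀ r))) := by
          rw [← mul_assoc, ENNReal.inv_mul_cancel hB0 hBt, one_mul]
      _ ≤ _ := by gcongr
  have h6 : A * ‖g w‖ₑ ≤ (B⁻¹ * eLpNorm g 2 μ) * Vv :=
    (h1.trans (h2.trans h3)).trans (mul_le_mul_left h5 _)
  calc ‖g w‖ₑ = A⁻¹ * (A * ‖g w‖ₑ) := by
        rw [← mul_assoc, ENNReal.inv_mul_cancel hA0 hAt, one_mul]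
    _ ≤ A⁻¹ * ((B⁻¹ * eLpNorm g 2 μ) * Vv) := mul_le_mul_right h6 _
    _ = A⁻¹ * (B⁻¹ * Vv) * eLpNorm g 2 μ := by ring

/-- The Bergman space. -/
def bergman (S : Set ℂ) (μ : Measure ℂ) : Submodule ℂ (Lp ℂ 2 μ) where
  carrier := {f | ∃ g : ℂ → ℂ, DifferentiableOn ℂ g S ∧ f =ᵐ[μ] g}
  add_mem' := by
    rintro f f' ⟨g, hg, hfg⟩ ⟨g', hg', hfg'⟩
    exact ⟨g + g', hg.add hg', (Lp.coeFn_add f f').trans (hfg.add hfg')⟩
  zero_mem' := ⟨0, differentiableOn_const 0, Lp.coeFn_zero ℂ 2 μ⟩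
  smul_mem' := by
    rintro c f ⟨g, hg, hfg⟩
    exact ⟨c • g, hg.const_smul c, (Lp.coeFn_smul c f).trans (hfg.const_smul c)⟩

theorem isClosed_bergman {S : Set ℂ} (hS : IsOpen S) {μ : Measure ℂ} (hμ : μ Sᶜ = 0)
    (hloc : ∀ w₀ ∈ S, ∃ r > 0, ∃ a : ℝ, 0 < a ∧ ball w₀ r ⊆ S ∧
      ENNReal.ofReal a • volume.restrict (ball w₀ r) ≤ μ) :
    IsClosed (bergman S μ : Set (Lp ℂ 2 μ)) := by
  apply IsSeqClosed.isClosed
  intro u f hu huf
  choose g hg hgu using hu
  -- the local uniform Cauchy property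
  have hC : ∀ w₀ ∈ S, ∃ r > 0, ball w₀ r ⊆ S ∧ UniformCauchySeqOn g atTop (ball w₀ r) := by
    intro w₀ hw₀
    obtain ⟨r, hr, a, ha, h1, h2⟩ := hloc w₀ hw₀
    obtain ⟨K, hK⟩ := local_est hr ha h1 h2
    refine ⟨r / 2, by positivity, (ball_subset_ball (by linarith)).trans h1, ?_⟩
    rw [Metric.uniformCauchySeqOn_iff]
    intro ε hε
    have hcau := huf.cauchySeq
    rw [Metric.cauchySeq_iff] at hcau
    obtain ⟨N, hN⟩ := hcau (ε / (K + 1)) (by positivity)
    refine ⟨N, fun m hm n hn w hw => ?_⟩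
    have h3 := hN m hm n hn
    have h4 := hK (g m - g n) ((hg m).sub (hg n)) w hw
    have h5 : eLpNorm (g m - g n) 2 μ = edist (u m) (u n) := by
      rw [Lp.edist_def]
      exact eLpNorm_congr_ae ((hgu m).symm.sub (hgu n).symm)
    rw [h5, Pi.sub_apply] at h4
    have h6 : ‖g m w - g n w‖ₑ = ENNReal.ofReal (dist (g m w) (g n w)) := by
      rw [dist_eq_norm, ofReal_norm]
    rw [h6, edist_dist, ← ENNReal.ofReal_coe_nnreal, ← ENNReal.ofReal_mul (NNReal.coe_nonneg K),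
      ENNReal.ofReal_le_ofReal_iff (by positivity)] at h4
    calc dist (g m w) (g n w) ≤ K * dist (u m) (u n) := h4
      _ ≤ K * (ε / (K + 1)) := by gcongr
      _ < (K + 1) * (ε / (K + 1)) := by
          have : 0 < ε / ((K : ℝ) + 1) := by positivity
          nlinarith
      _ = ε := by
          field_simp
  -- pointwise limit
  have hP : ∀ w, ∃ L : ℂ, w ∈ S → Tendsto (fun n => g n w) atTop (𝓝 L) := by
    intro w
    by_cases hw : w ∈ S
    · obtain ⟨r, hr, -, h2⟩ := hC w hw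
      obtain ⟨L, hL⟩ := cauchySeq_tendsto_of_complete (h2.cauchySeq (mem_ball_self hr))
      exact ⟨L, fun _ => hL⟩
    · exact ⟨0, fun h => absurd h hw⟩
  choose G hG using hP
  have hloc2 : TendstoLocallyUniformlyOn g G atTop S := by
    intro U hU w hw
    obtain ⟨r, hr, h1, h2⟩ := hC w hw
    have h3 := h2.tendstoUniformlyOn_of_tendsto (fun x hx => hG x (h1 hx))
    exact ⟨ball w r, mem_nhdsWithin_of_mem_nhds (ball_mem_nhds w hr), h3 U hU⟩
  refine ⟨G, hloc2.differentiableOn (Eventually.of_forall hg) hS, ?_⟩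
  obtain ⟨ns, hns, hae⟩ := (tendstoInMeasure_of_tendsto_Lp huf).exists_seq_tendsto_ae
  have hae2 : ∀ᵐ w ∂μ, ∀ n, u n w = g n w := by
    rw [ae_all_iff]
    exact hgu
  have hae3 : ∀ᵐ w ∂μ, w ∈ S := hμ
  filter_upwards [hae, hae2, hae3] with w h1 h2 h3
  have h4 := (hG w h3).comp hns.tendsto_atTop
  refine tendsto_nhds_unique h1 (h4.congr fun n => ?_)
  simp only [Function.comp_apply, h2]

/-- Bergman projection, general form. -/
theorem exists_projection_gen {S : Set ℂ} (hS : IsOpen S) {μ : Measure ℂ} (hμ : μ Sᶜ = 0)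
    (hloc : ∀ w₀ ∈ S, ∃ r > 0, ∃ a : ℝ, 0 < a ∧ ball w₀ r ⊆ S ∧
      ENNReal.ofReal a • volume.restrict (ball w₀ r) ≤ μ) {φ : ℂ → ℂ} (hφ : MemLp φ 2 μ) :
    ∃ F : ℂ → ℂ, DifferentiableOn ℂ F S ∧ MemLp F 2 μ ∧
      ∀ g : ℂ → ℂ, DifferentiableOn ℂ g S → MemLp g 2 μ →
        ∫ w, (φ w - F w) * conj (g w) ∂μ = 0 := by
  set A := bergman S μ with hA
  have hcl : IsClosed (A : Set (Lp ℂ 2 μ)) := isClosed_bergman hS hμ hloc
  have : CompleteSpace A := hcl.completeSpace_coe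
  set φ' : Lp ℂ 2 μ := hφ.toLp φ with hφ'
  set P : Lp ℂ 2 μ := A.starProjection φ' with hP
  have hPA : P ∈ A := A.starProjection_apply_mem φ'
  have horth : φ' - P ∈ Aᗮ := A.sub_starProjection_mem_orthogonal φ'
  obtain ⟨F, hF, hPF⟩ := hPA
  have hFL : MemLp F 2 μ := (memLp_congr_ae hPF).mp (Lp.memLp P)
  refine ⟨F, hF, hFL, fun g hg hg2 => ?_⟩
  have hgA : hg2.toLp g ∈ A := ⟨g, hg, hg2.coeFn_toLp⟩
  have h1 := (A.mem_orthogonal _).mp horth _ hgA
  rw [L2.inner_def] at h1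
  rw [← h1]
  apply integral_congr_ae
  filter_upwards [hg2.coeFn_toLp, hφ.coeFn_toLp, hPF, Lp.coeFn_sub φ' P] with w h2 h3 h4 h5
  rw [h2, h5, Pi.sub_apply, h4, hφ', h3]
  simp [RCLike.inner_apply]

instance : SFinite expM := by unfold expM; infer_instance

instance : SFinite areaM := by unfold areaM; infer_instance

theorem isOpen_tot {η : ℝ → ℝ} (hc : Continuous η) : IsOpen (tot η) := by
  have h1 : IsOpen {p : ℝ × ℂ | |p.2.im - p.1| < π / 2} := by
    apply isOpen_lt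
    · exact ((Complex.continuous_im.comp continuous_snd).sub continuous_fst).abs
    · exact continuous_const
  have h2 : IsOpen {p : ℝ × ℂ | Real.exp p.2.re + η p.1 * Real.exp (-p.2.re) <
      2 * Real.cos (p.2.im - p.1)} := by
    apply isOpen_lt
    · have hre : Continuous (fun p : ℝ × ℂ => p.2.re) := Complex.continuous_re.comp continuous_snd
      exact (Real.continuous_exp.comp hre).add
        ((hc.comp continuous_fst).mul (Real.continuous_exp.comp hre.neg))
    · exact continuous_const.mul (Real.continuous_cos.comp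
        ((Complex.continuous_im.comp continuous_snd).sub continuous_fst))
  exact h1.inter h2

theorem isOpen_S {η : ℝ → ℝ} (hc : Continuous η) : IsOpen (S η) := by
  have h := isOpenMap_snd (X := ℝ) (Y := ℂ) (tot η) (isOpen_tot hc)
  have e : Prod.snd '' tot η = S η := by
    ext w
    constructor
    · rintro ⟨⟨t, w'⟩, h1, rfl⟩
      exact ⟨t, h1⟩
    · rintro ⟨t, h1⟩
      exact ⟨(t, w), h1, rfl⟩
  rwa [e] at h

/-- `map snd` of a restriction of the product measure. -/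
theorem map_apply' (T : Set (ℝ × ℂ)) {E : Set ℂ} (hE : MeasurableSet E) :
    (((expM.prod areaM).restrict T).map Prod.snd) E = (expM.prod areaM) (Prod.snd ⁻¹' E ∩ T) := by
  rw [Measure.map_apply measurable_snd hE, Measure.restrict_apply (measurable_snd hE)]

/-- Lower bound for the projected measure near a point. -/
theorem map_lower {T : Set (ℝ × ℂ)} (hT : IsOpen T) {t₀ : ℝ} {w₀ : ℂ} (h : (t₀, w₀) ∈ T) :
    ∃ r > 0, ∃ a : ℝ, 0 < a ∧ ball w₀ r ⊆ Prod.snd '' T ∧
      ENNReal.ofReal a • volume.restrict (ball w₀ r) ≤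
        ((expM.prod areaM).restrict T).map Prod.snd := by
  obtain ⟨ε, hε, hball⟩ := Metric.isOpen_iff.mp hT _ h
  rw [← ball_prod_same] at hball
  refine ⟨ε, hε, Real.exp (t₀ - ε) * (2 * ε) * Real.exp (2 * (w₀.re - ε)), by positivity, ?_, ?_⟩
  · intro w hw
    exact ⟨(t₀, w), hball ⟨mem_ball_self hε, hw⟩, rfl⟩
  · rw [Measure.le_iff]
    intro E hE
    rw [map_apply' T hE, Measure.smul_apply, Measure.restrict_apply hE, smul_eq_mul]
    have h1 : ball t₀ ε ×ˢ (E ∩ ball w₀ ε) ⊆ Prod.snd ⁻¹' E ∩ T := by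
      rintro ⟨t, w⟩ ⟨h1, h2, h3⟩
      exact ⟨h2, hball ⟨h1, h3⟩⟩
    refine le_trans ?_ (measure_mono h1)
    rw [Measure.prod_prod]
    have hm : MeasurableSet (E ∩ ball w₀ ε) := hE.inter measurableSet_ball
    have h2 : ENNReal.ofReal (Real.exp (t₀ - ε)) * ENNReal.ofReal (2 * ε) ≤ expM (ball t₀ ε) := by
      unfold expM
      rw [withDensity_apply _ measurableSet_ball, ← Real.volume_ball t₀ ε, ← setLIntegral_const]
      refine setLIntegral_mono' measurableSet_ball fun t ht => ?_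
      apply ENNReal.ofReal_le_ofReal
      apply Real.exp_le_exp.mpr
      rw [Real.ball_eq_Ioo] at ht
      exact ht.1.le
    have h3 : ENNReal.ofReal (Real.exp (2 * (w₀.re - ε))) * volume (E ∩ ball w₀ ε) ≤
        areaM (E ∩ ball w₀ ε) := by
      unfold areaM
      rw [withDensity_apply _ hm, ← setLIntegral_const]
      refine setLIntegral_mono' hm fun w hw => ?_
      apply ENNReal.ofReal_le_ofReal
      apply Real.exp_le_exp.mpr
      have h4 : |(w - w₀).re| ≤ ‖w - w₀‖ := Complex.abs_re_le_norm _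
      have h5 : ‖w - w₀‖ < ε := by
        rw [← dist_eq_norm]
        exact hw.2
      rw [Complex.sub_re] at h4
      have h6 := neg_abs_le (w.re - w₀.re)
      linarith
    rw [ENNReal.ofReal_mul (by positivity), ENNReal.ofReal_mul (by positivity), mul_assoc]
    exact mul_le_mul' h2 h3

theorem mu_compl (η : ℝ → ℝ) (hc : Continuous η) : mu η (S η)ᶜ = 0 := by
  unfold mu
  rw [map_apply' _ (isOpen_S hc).measurableSet.compl]
  have : Prod.snd ⁻¹' (S η)ᶜ ∩ tot η = (∅ : Set (ℝ × ℂ)) := by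
    ext ⟨t, w⟩
    simp only [mem_inter_iff, mem_preimage, mem_compl_iff, mem_empty_iff_false, iff_false,
      not_and]
    intro h1 h2
    exact h1 ⟨t, h2⟩
  rw [this, measure_empty]

theorem mu_lower {η : ℝ → ℝ} (hc : Continuous η) {w₀ : ℂ} (hw : w₀ ∈ S η) :
    ∃ r > 0, ∃ a : ℝ, 0 < a ∧ ball w₀ r ⊆ S η ∧
      ENNReal.ofReal a • volume.restrict (ball w₀ r) ≤ mu η := by
  obtain ⟨t, ht⟩ := hw
  obtain ⟨r, hr, a, ha, h1, h2⟩ := map_lower (isOpen_tot hc) (t₀ := t) (w₀ := w₀) ht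
  refine ⟨r, hr, a, ha, h1.trans ?_, h2⟩
  rintro w ⟨⟨t', w'⟩, h3, rfl⟩
  exact ⟨t', h3⟩

end R2

theorem exists_projection1 {η : ℝ → ℝ} (hc : Continuous η) {φ : ℂ → ℂ} (hφ : MemLp φ 2 (mu η)) :
    ∃ F : ℂ → ℂ, DifferentiableOn ℂ F (S η) ∧ MemLp F 2 (mu η) ∧
      ∀ g : ℂ → ℂ, DifferentiableOn ℂ g (S η) → MemLp g 2 (mu η) →
        ∫ w, (φ w - F w) * conj (g w) ∂(mu η) = 0 :=
  R2.exists_projection_gen (R2.isOpen_S hc) (R2.mu_compl η hc) (fun _ hw => R2.mu_lower hc hw) hφ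

end Pool.Agent.Worm
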