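import Pool.Agent.Worm.Defs

/-!
# Module R5: complete asymptotic expansion from bounded derivatives
-/

open MeasureTheory Set Filter
open scoped Real ENNReal ComplexConjugate ContDiff Topology

namespace Pool.Agent.Worm

namespace R5

theorem isOpen_tot {η : ℝ → ℝ} (hc : Continuous η) : IsOpen (tot η) := by
  have h1 : IsOpen {p : ℝ × ℂ | |p.2.im - p.1| < π / 2} := by
    apply isOpen_lt
    · exact ((Complex.continuous_im.comp continuous_snd).sub continuous_fst).abs
    · exact continuous_const
  have h2 : IsOpen {p : ℝ × ℂ | Real.exp p.2.re + η p.1 * Real.exp (-p.2.re) <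
      2 * Real.cos (p.2.im - p.1)} := by
    apply isOpen_lt
    · have hre : Continuous (fun p : ℝ × ℂ => p.2.re) := Complex.continuous_re.comp continuous_snd
      exact (Real.continuous_exp.comp hre).add
        ((hc.comp continuous_fst).mul (Real.continuous_exp.comp hre.neg))
    · exact continuous_const.mul (Real.continuous_cos.comp
        ((Complex.continuous_im.comp continuous_snd).sub continuous_fst))
  exact h1.inter h2

theorem isOpen_S {η : ℝ → ℝ} (hc : Continuous η) : IsOpen (S η) := by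
  have h := isOpenMap_snd (X := ℝ) (Y := ℂ) (tot η) (isOpen_tot hc)
  have e : Prod.snd '' tot η = S η := by
    ext w
    constructor
    · rintro ⟨⟨t, w'⟩, h1, rfl⟩
      exact ⟨t, h1⟩
    · rintro ⟨t, h1⟩
      exact ⟨(t, w), h1, rfl⟩
  rwa [e] at h

variable {b δ : ℝ} {η : ℝ → ℝ}

theorem exp_re_lt {w : ℂ} (h : Cap b δ η) (hw : w ∈ S η) : Real.exp w.re < 2 := by
  obtain ⟨t, h1, h2⟩ := hw
  have h3 := h.nonneg t
  have h4 := Real.exp_pos (-w.re)
  have h5 := Real.cos_le_one (w.im - t)
  have h6 : 0 ≤ η t * Real.exp (-w.re) := mul_nonneg h3 h4.le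
  linarith

theorem abs_im_le {w : ℂ} (h : Cap b δ η) (hw : w ∈ S η) : |w.im| ≤ b + δ + π / 2 := by
  obtain ⟨t, h1, h2⟩ := hw
  have h7 : |t| < b + δ := by
    by_contra hcon
    push Not at hcon
    have h3 := h.big t hcon
    have h4 := Real.exp_pos (-w.re)
    have h5 := Real.cos_le_one (w.im - t)
    have h8 : Real.exp w.re * Real.exp (-w.re) = 1 := by rw [← Real.exp_add]; simp
    have h9 := Real.exp_pos w.re
    nlinarith [sq_nonneg (Real.exp w.re - Real.exp (-w.re)), sq_nonneg (Real.exp w.re - 1)]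
  have h8 : |w.im| ≤ |w.im - t| + |t| := by
    have := abs_add_le (w.im - t) t
    simpa using this
  linarith

/-- Vertical segments to the real axis stay in `S`. -/
theorem vert_mem {x y : ℝ} (h : Cap b δ η) (hw : (x + y * Complex.I : ℂ) ∈ S η) {s : ℝ}
    (hs0 : 0 ≤ s) (hs1 : s ≤ 1) : (x + (s * y : ℝ) * Complex.I : ℂ) ∈ S η := by
  have hx := exp_re_lt h hw
  obtain ⟨t, h1, h2⟩ := hw
  have e1 : (x + y * Complex.I : ℂ).re = x := by simp
  have e2 : (x + y * Complex.I : ℂ).im = y := by simp
  rw [e1] at hx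
  rw [e1, e2] at h2
  rw [e2] at h1
  by_cases hc : |s * y - t| ≤ |y - t|
  · refine ⟨t, ?_, ?_⟩
    · simp only [Complex.add_im, Complex.ofReal_im, Complex.mul_im, Complex.ofReal_re,
        Complex.I_re, Complex.I_im, mul_zero, mul_one, zero_add, add_zero]
      linarith
    · simp only [Complex.add_im, Complex.ofReal_im, Complex.mul_im, Complex.ofReal_re,
        Complex.I_re, Complex.I_im, mul_zero, mul_one, zero_add, add_zero, Complex.add_re,
        Complex.mul_re, sub_zero]
      have h3 : Real.cos |y - t| ≤ Real.cos |s * y - t| :=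
        Real.cos_le_cos_of_nonneg_of_le_pi (abs_nonneg _) (by linarith [Real.pi_pos]) hc
      rw [Real.cos_abs, Real.cos_abs] at h3
      linarith
  · push Not at hc
    have h4 : |s * y| ≤ |t| := by
      rcases le_total 0 y with hy | hy
      · have h5 : s * y ≤ y := by nlinarith
        have h6 : 0 ≤ s * y := mul_nonneg hs0 hy
        have h7 : s * y < t := by
          by_contra hcon
          push Not at hcon
          rw [abs_of_nonneg (by linarith), abs_of_nonneg (by linarith)] at hc
          linarith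
        rw [abs_of_nonneg h6, abs_of_nonneg (by linarith)]
        exact h7.le
      · have h5 : y ≤ s * y := by nlinarith
        have h6 : s * y ≤ 0 := mul_nonpos_of_nonneg_of_nonpos hs0 hy
        have h7 : t < s * y := by
          by_contra hcon
          push Not at hcon
          rw [abs_of_nonpos (by linarith), abs_of_nonpos (by linarith)] at hc
          linarith
        rw [abs_of_nonpos h6, abs_of_nonpos (by linarith)]
        linarith
    refine ⟨s * y, ?_, ?_⟩
    · simp only [Complex.add_im, Complex.ofReal_im, Complex.mul_im, Complex.ofReal_re,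
        Complex.I_re, Complex.I_im, mul_zero, mul_one, zero_add, add_zero, sub_self, abs_zero]
      linarith [Real.pi_pos]
    · simp only [Complex.add_im, Complex.ofReal_im, Complex.mul_im, Complex.ofReal_re,
        Complex.I_re, Complex.I_im, mul_zero, mul_one, zero_add, add_zero, Complex.add_re,
        Complex.mul_re, sub_self, Real.cos_zero]
      have h5 := h.mono _ _ h4
      have h6 := Real.exp_pos (-x)
      have h7 := Real.cos_le_one (y - t)
      nlinarith

theorem real_mem (hb : 0 < b) (h : Cap b δ η) {x : ℝ} (hx : Real.exp x < 2) :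
    (x : ℂ) ∈ S η := by
  refine ⟨0, ?_, ?_⟩
  · simp only [Complex.ofReal_im, sub_self, abs_zero]
    linarith [Real.pi_pos]
  · rw [h.zero 0 (by rw [abs_zero]; exact hb.le)]
    simp only [Complex.ofReal_re, zero_mul, add_zero, Complex.ofReal_im, sub_self, Real.cos_zero,
      mul_one]
    exact hx

/-- vertical estimate -/
theorem vert_est (h : Cap b δ η) {f : ℂ → ℂ} (hf : DifferentiableOn ℂ f (S η)) {C M : ℝ}
    (hC : ∀ w ∈ S η, ‖deriv f w‖ ≤ C * Real.exp (M * w.re)) {w : ℂ} (hw : w ∈ S η) :
    ‖f w - f w.re‖ ≤ C * (b + δ + π / 2) * Real.exp (M * w.re) := by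
  set x := w.re with hx
  set y := w.im with hy
  have hwxy : w = x + y * Complex.I := (Complex.re_add_im w).symm
  have hmem : ∀ s ∈ Icc (0 : ℝ) 1, (x + (s * y : ℝ) * Complex.I : ℂ) ∈ S η := fun s hs =>
    vert_mem h (hwxy ▸ hw) hs.1 hs.2
  have hopen := isOpen_S h.cont
  have hd : ∀ s ∈ Icc (0 : ℝ) 1, HasDerivWithinAt
      (fun s : ℝ => f (x + (s * y : ℝ) * Complex.I))
      (deriv f (x + (s * y : ℝ) * Complex.I) * (y * Complex.I)) (Icc 0 1) s := by
    intro s hs
    have h1 : HasDerivAt f (deriv f (x + (s * y : ℝ) * Complex.I))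
        (x + (s * y : ℝ) * Complex.I) :=
      (hf.differentiableAt (hopen.mem_nhds (hmem s hs))).hasDerivAt
    have h2 : HasDerivAt (fun s : ℝ => (x + (s * y : ℝ) * Complex.I : ℂ)) (y * Complex.I) s := by
      have h3 : HasDerivAt (fun s : ℝ => s * y) (1 * y) s := (hasDerivAt_id s).mul_const y
      have h4 := h3.ofReal_comp
      have h5 := (h4.mul_const Complex.I).const_add (x : ℂ)
      simpa using h5
    exact (h1.comp_of_eq s h2 rfl).hasDerivWithinAt
  have hbd : ∀ s ∈ Ico (0 : ℝ) 1, ‖deriv f (x + (s * y : ℝ) * Complex.I) * (y * Complex.I)‖ ≤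
      C * (b + δ + π / 2) * Real.exp (M * x) := by
    intro s hs
    have h1 := hC _ (hmem s ⟨hs.1, hs.2.le⟩)
    have e1 : (x + (s * y : ℝ) * Complex.I : ℂ).re = x := by simp
    rw [e1] at h1
    rw [norm_mul, norm_mul, Complex.norm_I, mul_one, Complex.norm_real, Real.norm_eq_abs]
    have h2 : |y| ≤ b + δ + π / 2 := abs_im_le h hw
    calc ‖deriv f (x + (s * y : ℝ) * Complex.I)‖ * |y|
        ≤ (C * Real.exp (M * x)) * (b + δ + π / 2) :=
          mul_le_mul h1 h2 (abs_nonneg _) ((norm_nonneg _).trans h1)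
      _ = _ := by ring
  have key := norm_image_sub_le_of_norm_deriv_le_segment_01' hd hbd
  have e0 : (x + (1 * y : ℝ) * Complex.I : ℂ) = w := by
    rw [one_mul, ← hwxy]
  have e1 : (x + (0 * y : ℝ) * Complex.I : ℂ) = x := by
    simp
  rw [e0, e1] at key
  exact key

/-- horizontal estimate -/
theorem horiz_est (hb : 0 < b) (h : Cap b δ η) {f : ℂ → ℂ} (hf : DifferentiableOn ℂ f (S η))
    {C M : ℝ} (hM : 1 ≤ M) (hC : ∀ w ∈ S η, ‖deriv f w‖ ≤ C * Real.exp (M * w.re)) {x₁ x₂ : ℝ}
    (h12 : x₁ ≤ x₂) (hx : Real.exp x₂ < 2) :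
    ‖f x₂ - f x₁‖ ≤ C * Real.exp (M * x₂) := by
  have hopen := isOpen_S h.cont
  set s₁ := Real.exp x₁ with hs1
  set s₂ := Real.exp x₂ with hs2
  have hs10 : 0 < s₁ := Real.exp_pos _
  have hs12 : s₁ ≤ s₂ := Real.exp_le_exp.mpr h12
  have hC0 : 0 ≤ C := by
    have h1 := hC x₂ (real_mem hb h hx)
    have h2 := (norm_nonneg _).trans h1
    have h3 := Real.exp_pos (M * (x₂ : ℂ).re)
    by_contra hcon
    push Not at hcon
    nlinarith
  have hmem : ∀ s ∈ Icc s₁ s₂, ((Real.log s : ℝ) : ℂ) ∈ S η := by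
    intro s hs
    apply real_mem hb h
    rw [Real.exp_log (by linarith [hs.1])]
    linarith [hs.2]
  have hd : ∀ s ∈ Icc s₁ s₂, HasDerivWithinAt (fun s : ℝ => f (Real.log s : ℝ))
      (deriv f (Real.log s : ℝ) * ((s⁻¹ : ℝ) : ℂ)) (Icc s₁ s₂) s := by
    intro s hs
    have hs0 : s ≠ 0 := by linarith [hs.1]
    have h1 : HasDerivAt f (deriv f (Real.log s : ℝ)) (Real.log s : ℝ) :=
      (hf.differentiableAt (hopen.mem_nhds (hmem s hs))).hasDerivAt
    have h2 : HasDerivAt (fun s : ℝ => ((Real.log s : ℝ) : ℂ)) ((s⁻¹ : ℝ) : ℂ) s :=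
      (Real.hasDerivAt_log hs0).ofReal_comp
    exact (h1.comp_of_eq s h2 rfl).hasDerivWithinAt
  have hbd : ∀ s ∈ Ico s₁ s₂, ‖deriv f (Real.log s : ℝ) * ((s⁻¹ : ℝ) : ℂ)‖ ≤
      C * Real.exp ((M - 1) * x₂) := by
    intro s hs
    have hs0 : 0 < s := by linarith [hs.1]
    have h1 := hC _ (hmem s ⟨hs.1, hs.2.le⟩)
    rw [Complex.ofReal_re] at h1
    rw [norm_mul, Complex.norm_real, Real.norm_eq_abs, abs_of_pos (inv_pos.mpr hs0)]
    have h2 : Real.log s ≤ x₂ := by
      rw [Real.log_le_iff_le_exp hs0]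
      exact hs.2.le
    have h3 : s⁻¹ = Real.exp (-Real.log s) := by rw [Real.exp_neg, Real.exp_log hs0]
    calc ‖deriv f (Real.log s : ℝ)‖ * s⁻¹
        ≤ (C * Real.exp (M * Real.log s)) * s⁻¹ :=
          mul_le_mul_of_nonneg_right h1 (inv_pos.mpr hs0).le
      _ = C * Real.exp ((M - 1) * Real.log s) := by
          rw [h3, mul_assoc, ← Real.exp_add]
          congr 2
          ring
      _ ≤ C * Real.exp ((M - 1) * x₂) := by
          apply mul_le_mul_of_nonneg_left _ hC0
          apply Real.exp_le_exp.mpr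
          exact mul_le_mul_of_nonneg_left h2 (by linarith)
  have key := norm_image_sub_le_of_norm_deriv_le_segment' hd hbd s₂ ⟨hs12, le_rfl⟩
  simp only [hs1, hs2, Real.log_exp] at key
  refine key.trans ?_
  calc C * Real.exp ((M - 1) * x₂) * (Real.exp x₂ - Real.exp x₁)
      ≤ C * Real.exp ((M - 1) * x₂) * Real.exp x₂ := by
        apply mul_le_mul_of_nonneg_left _ (mul_nonneg hC0 (Real.exp_pos _).le)
        linarith
    _ = C * Real.exp (M * x₂) := by
        rw [mul_assoc, ← Real.exp_add]
        congr 2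
        ring

theorem tendsto_exp_neg_nat {M : ℝ} (hM : 1 ≤ M) (C : ℝ) :
    Tendsto (fun n : ℕ => C * Real.exp (M * (-(n : ℝ)))) atTop (𝓝 0) := by
  have h1 : Tendsto (fun n : ℕ => M * (-(n : ℝ))) atTop atBot := by
    have h2 : Tendsto (fun n : ℕ => -(n : ℝ)) atTop atBot :=
      tendsto_neg_atTop_atBot.comp tendsto_natCast_atTop_atTop
    exact h2.const_mul_atBot (by linarith)
  have h2 := Real.tendsto_exp_atBot.comp h1
  have h3 := h2.const_mul C
  simpa using h3

/-- The key lemma. -/
theorem key_limit (hb : 0 < b) (h : Cap b δ η) {f : ℂ → ℂ}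
    (hf : DifferentiableOn ℂ f (S η)) {C M : ℝ} (hM : 1 ≤ M)
    (hC : ∀ w ∈ S η, ‖deriv f w‖ ≤ C * Real.exp (M * w.re)) :
    ∃ L : ℂ, Tendsto (fun n : ℕ => f (-(n : ℝ) : ℝ)) atTop (𝓝 L) ∧
      ∀ w ∈ S η, ‖f w - L‖ ≤ C * (b + δ + π / 2 + 1) * Real.exp (M * w.re) := by
  have hneg : ∀ n : ℕ, Real.exp (-(n : ℝ)) < 2 := by
    intro n
    have : Real.exp (-(n : ℝ)) ≤ 1 := by
      rw [Real.exp_le_one_iff]
      simp
    linarith
  have hcau : CauchySeq (fun n : ℕ => f (-(n : ℝ) : ℝ)) := by
    refine cauchySeq_of_le_tendsto_0 (fun n : ℕ => C * Real.exp (M * (-(n : ℝ)))) ?_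
      (tendsto_exp_neg_nat hM C)
    intro n m N hn hm
    have aux : ∀ n m : ℕ, N ≤ n → n ≤ m →
        dist (f (-(n : ℝ) : ℝ)) (f (-(m : ℝ) : ℝ)) ≤ C * Real.exp (M * (-(N : ℝ))) := by
      intro n m hn hnm
      have h1 := horiz_est hb h hf hM hC (x₁ := -(m : ℝ)) (x₂ := -(n : ℝ))
        (by simpa using hnm) (hneg n)
      rw [dist_eq_norm]
      refine h1.trans ?_
      have hC0 : 0 ≤ C := by
        by_contra hcon
        push Not at hcon
        have h3 := Real.exp_pos (M * -(n : ℝ))
        have h4 := (norm_nonneg _).trans h1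
        nlinarith
      apply mul_le_mul_of_nonneg_left _ hC0
      apply Real.exp_le_exp.mpr
      apply mul_le_mul_of_nonneg_left _ (by linarith)
      simpa using hn
    rcases le_total n m with hnm | hnm
    · exact aux n m hn hnm
    · rw [dist_comm]
      exact aux m n hm hnm
  obtain ⟨L, hL⟩ := cauchySeq_tendsto_of_complete hcau
  refine ⟨L, hL, ?_⟩
  intro w hw
  have hx := exp_re_lt h hw
  have h1 := vert_est h hf hC hw
  have h2 : ‖f w.re - L‖ ≤ C * Real.exp (M * w.re) := by
    have h3 : Tendsto (fun n : ℕ => ‖f w.re - f (-(n : ℝ) : ℝ)‖) atTop (𝓝 ‖f w.re - L‖) :=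
      (tendsto_const_nhds.sub hL).norm
    refine le_of_tendsto h3 ?_
    obtain ⟨N, hN⟩ := exists_nat_ge (-w.re)
    filter_upwards [eventually_ge_atTop N] with n hn
    have h4 : (N : ℝ) ≤ n := by exact_mod_cast hn
    exact horiz_est hb h hf hM hC (by linarith) hx
  calc ‖f w - L‖ = ‖(f w - f w.re) + (f w.re - L)‖ := by congr 1; ring
    _ ≤ ‖f w - f w.re‖ + ‖f w.re - L‖ := norm_add_le _ _
    _ ≤ C * (b + δ + π / 2) * Real.exp (M * w.re) + C * Real.exp (M * w.re) := add_le_add h1 h2
    _ = _ := by ring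

end R5

open R5

theorem taylor_of_bounded {b δ : ℝ} (hb : 0 < b) (_hδ : 0 < δ) {η : ℝ → ℝ} (h : Cap b δ η)
    {F : ℂ → ℂ} (hF : DifferentiableOn ℂ F (S η))
    (hbd : ∀ k : ℕ, ∃ C : ℝ, ∀ w ∈ S η,
      ‖((fun (f : ℂ → ℂ) (w : ℂ) => Complex.exp (-w) * deriv f w)^[k] F) w‖ ≤ C) :
    ∃ c : ℕ → ℂ, ∀ N : ℕ, ∃ C : ℝ, ∀ w ∈ S η,
      ‖F w - ∑ j ∈ Finset.range N, c j * Complex.exp (j * w)‖ ≤ C * Real.exp (N * w.re) := by
  classical
  have hopen := isOpen_S h.cont
  set D : (ℂ → ℂ) → ℂ → ℂ := fun (f : ℂ → ℂ) (w : ℂ) => Complex.exp (-w) * deriv f w with hD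
  set G : ℕ → ℂ → ℂ := fun k => D^[k] F with hG
  have hG0 : G 0 = F := rfl
  have hGs : ∀ k, G (k + 1) = D (G k) := fun k => by
    simp only [hG, Function.iterate_succ_apply']
  have hGd : ∀ k, DifferentiableOn ℂ (G k) (S η) := by
    intro k
    induction k with
    | zero => exact hF
    | succ k ih =>
      rw [hGs]
      exact (Complex.differentiable_exp.comp differentiable_neg).differentiableOn.mul
        (ih.deriv hopen)
  have hderiv : ∀ k w, deriv (G k) w = Complex.exp w * G (k + 1) w := by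
    intro k w
    rw [hGs]
    simp only [hD]
    rw [← mul_assoc, ← Complex.exp_add]
    simp
  choose B hB using hbd
  have hB' : ∀ k, ∀ w ∈ S η, ‖G k w‖ ≤ B k := hB
  have hexp : ∀ w : ℂ, ‖Complex.exp w‖ = Real.exp w.re := Complex.norm_exp
  -- the limits at -∞
  have hlim : ∀ k, ∃ L : ℂ, Tendsto (fun n : ℕ => G k (-(n : ℝ) : ℝ)) atTop (𝓝 L) := by
    intro k
    obtain ⟨L, hL, -⟩ := key_limit hb h (hGd k) (C := B (k + 1)) (M := 1) le_rfl (by
      intro w hw
      rw [hderiv, norm_mul, hexp, one_mul, mul_comm]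
      exact mul_le_mul_of_nonneg_right (hB' _ w hw) (Real.exp_pos _).le)
    exact ⟨L, hL⟩
  choose L hL using hlim
  refine ⟨fun j => L j / (j.factorial : ℂ), ?_⟩
  have main : ∀ N k : ℕ, ∃ C : ℝ, ∀ w ∈ S η,
      ‖G k w - ∑ j ∈ Finset.range N, L (k + j) / (j.factorial : ℂ) * Complex.exp (j * w)‖ ≤
        C * Real.exp (N * w.re) := by
    intro N
    induction N with
    | zero =>
      intro k
      refine ⟨B k, fun w hw => ?_⟩
      simp only [Finset.range_zero, Finset.sum_empty, sub_zero, Nat.cast_zero, zero_mul,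
        Real.exp_zero, mul_one]
      exact hB' k w hw
    | succ N ih =>
      intro k
      obtain ⟨C, hC⟩ := ih (k + 1)
      set E : ℂ → ℂ := fun w => G k w - ∑ j ∈ Finset.range (N + 1),
        L (k + j) / (j.factorial : ℂ) * Complex.exp (j * w) with hE
      have hEd : DifferentiableOn ℂ E (S η) := by
        apply (hGd k).sub
        apply DifferentiableOn.fun_sum
        intro j _
        apply DifferentiableOn.const_mul
        exact (Complex.differentiable_exp.comp (differentiable_id.const_mul (j : ℂ))).differentiableOn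
      have hEderiv : ∀ w ∈ S η, deriv E w = Complex.exp w * (G (k + 1) w -
          ∑ j ∈ Finset.range N, L (k + 1 + j) / (j.factorial : ℂ) * Complex.exp (j * w)) := by
        intro w hw
        have h1 : HasDerivAt (G k) (Complex.exp w * G (k + 1) w) w := by
          rw [← hderiv]
          exact ((hGd k).differentiableAt (hopen.mem_nhds hw)).hasDerivAt
        have h2 : ∀ j ∈ Finset.range (N + 1), HasDerivAt (fun w => L (k + j) / (j.factorial : ℂ) *
            Complex.exp (j * w)) (L (k + j) / (j.factorial : ℂ) * (Complex.exp (j * w) * j)) w := by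
          intro j _
          apply HasDerivAt.const_mul
          have h3 : HasDerivAt (fun w : ℂ => (j : ℂ) * w) (j : ℂ) w := by
            simpa using (hasDerivAt_id w).const_mul (j : ℂ)
          exact h3.cexp
        have h3 := (h1.sub (HasDerivAt.fun_sum h2)).deriv
        have h4 : deriv E w = Complex.exp w * G (k + 1) w - ∑ j ∈ Finset.range (N + 1),
            L (k + j) / (j.factorial : ℂ) * (Complex.exp (j * w) * j) := h3
        rw [h4, mul_sub, Finset.mul_sum]
        congr 1
        rw [Finset.sum_range_succ']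
        simp only [Nat.cast_zero, mul_zero, add_zero]
        apply Finset.sum_congr rfl
        intro j _
        have h5 : ((j + 1 : ℕ).factorial : ℂ) = (j + 1 : ℂ) * (j.factorial : ℂ) := by
          rw [Nat.factorial_succ]; push_cast; ring
        have h6 : (j.factorial : ℂ) ≠ 0 := by exact_mod_cast j.factorial_ne_zero
        have h7 : (j + 1 : ℂ) ≠ 0 := by exact_mod_cast Nat.succ_ne_zero j
        have h8 : Complex.exp (((j + 1 : ℕ) : ℂ) * w) = Complex.exp w * Complex.exp (j * w) := by
          rw [← Complex.exp_add]; congr 1; push_cast; ring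
        rw [h5, h8, show k + (j + 1) = k + 1 + j by ring]
        push_cast
        field_simp
      obtain ⟨L', hL', hest⟩ := key_limit hb h hEd (C := C) (M := (N + 1 : ℕ)) (by
        push_cast
        linarith [(Nat.cast_nonneg N : (0 : ℝ) ≤ N)]) (by
        intro w hw
        rw [hEderiv w hw, norm_mul, hexp]
        calc Real.exp w.re * _ ≤ Real.exp w.re * (C * Real.exp (N * w.re)) :=
              mul_le_mul_of_nonneg_left (hC w hw) (Real.exp_pos _).le
          _ = C * Real.exp ((N + 1 : ℕ) * w.re) := by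
              rw [mul_left_comm, ← Real.exp_add]
              congr 2
              push_cast
              ring)
      have hL0 : L' = 0 := by
        refine tendsto_nhds_unique hL' ?_
        have h1 : Tendsto (fun n : ℕ => G k (-(n : ℝ) : ℝ) - ∑ j ∈ Finset.range (N + 1),
            L (k + j) / (j.factorial : ℂ) * Complex.exp (j * ((-(n : ℝ) : ℝ) : ℂ))) atTop
            (𝓝 (L k - ∑ j ∈ Finset.range (N + 1),
              if j = 0 then L k else 0)) := by
          apply (hL k).sub
          apply tendsto_finsetSum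
          intro j _
          rcases Nat.eq_zero_or_pos j with rfl | hj
          · simp
          · rw [if_neg hj.ne']
            have h2 : Tendsto (fun n : ℕ => Complex.exp (j * ((-(n : ℝ) : ℝ) : ℂ))) atTop
                (𝓝 0) := by
              rw [tendsto_zero_iff_norm_tendsto_zero]
              have h3 := tendsto_exp_neg_nat (M := j) (by exact_mod_cast hj) 1
              refine h3.congr fun n => ?_
              rw [hexp, one_mul]
              congr 1
              rw [← Complex.ofReal_natCast, ← Complex.ofReal_mul, Complex.ofReal_re]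
            have h3 := h2.const_mul (L (k + j) / (j.factorial : ℂ))
            simpa using h3
        have h2 : (L k - ∑ j ∈ Finset.range (N + 1), if j = 0 then L k else 0) = 0 := by
          rw [Finset.sum_ite_eq' (Finset.range (N + 1)) 0 (fun _ => L k)]
          simp
        rw [h2] at h1
        exact h1
      refine ⟨C * (b + δ + π / 2 + 1), fun w hw => ?_⟩
      have := hest w hw
      rw [hL0, sub_zero] at this
      exact this
  intro N
  obtain ⟨C, hC⟩ := main N 0
  refine ⟨C, fun w hw => ?_⟩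
  have := hC w hw
  simp only [zero_add] at this
  exact this

end Pool.Agent.Worm
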