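import Pool.Agent.Worm.Average
import Pool.Agent.Worm.Proj1
import Pool.Agent.Worm.Taylor
import Pool.Agent.Worm.QInt

/-!
# Reduction of the Bergman projection of `log (conj z₁)` to one variable
-/

open MeasureTheory Set Metric
open scoped Real ENNReal ComplexConjugate ContDiff Topology

namespace Pool.Agent.Worm

theorem memLp_conj_gen {b δ : ℝ} (hb : 0 ≤ b) (hδ : 0 ≤ δ) {η : ℝ → ℝ} (h : Cap b δ η) :
    MemLp (fun w : ℂ => conj w) 2 (mu η) := by
  have hm : AEStronglyMeasurable (fun w : ℂ => conj w) (mu η) :=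
    Complex.continuous_conj.aestronglyMeasurable
  rw [memLp_two_iff' hm, mu_eq, lintegral_muA (isOpen_tot h.cont).measurableSet (by fun_prop)]
  have hQ : ∀ t w, w ∈ disc η t → w ∈ Q (b + δ) := by
    intro t w hw
    refine ⟨re_lt_of_mem_disc (h.nonneg t) hw, ?_⟩
    have h1 := h.abs_lt hw
    have h2 := hw.1
    have h3 : |w.im| ≤ |w.im - t| + |t| := by
      have := abs_add_le (w.im - t) t
      simpa using this
    linarith
  have hle : ∀ w : ℂ, om (tot η) w * ‖conj w‖ₑ ^ 2 ≤ (Q (b + δ)).indicator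
      (fun w => expM {t : ℝ | |t| ≤ b + δ} * (ENNReal.ofReal ((2 * (b + δ + 8)) ^ 2) *
        ENNReal.ofReal (Real.exp (-1 * w.re)))) w := by
    intro w
    by_cases hw : w ∈ Q (b + δ)
    · rw [indicator_of_mem hw]
      gcongr
      · exact measure_mono fun t ht => (h.abs_lt (t := t) (w := w) ht).le
      · rw [RCLike.enorm_conj, ← ENNReal.ofReal_mul (by positivity)]
        have h1 := norm_le_on_Q (by positivity) hw
        rw [← ofReal_norm, ← ENNReal.ofReal_pow (norm_nonneg _)]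
        apply ENNReal.ofReal_le_ofReal
        calc ‖w‖ ^ 2 ≤ (2 * (b + δ + 8) * Real.exp (-(1 / 2) * w.re)) ^ 2 := by gcongr
          _ = (2 * (b + δ + 8)) ^ 2 * Real.exp (-1 * w.re) := by
            rw [mul_pow, ← Real.exp_nat_mul]
            congr 2
            push_cast
            ring
    · have h2 : om (tot η) w = 0 := by
        have : {t | (t, w) ∈ tot η} = ∅ := by
          ext t
          simp only [mem_ofPred_eq, mem_empty_iff_false, iff_false]
          intro ht
          exact hw (hQ t w ht)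
        rw [om, this, measure_empty]
      rw [h2, zero_mul]
      exact zero_le
  refine lt_of_le_of_lt (lintegral_mono hle) ?_
  rw [lintegral_indicator (isOpen_Q _).measurableSet,
    lintegral_const_mul' _ _ (expM_bdd_lt_top _).ne, lintegral_const_mul' _ _ ENNReal.ofReal_ne_top]
  exact ENNReal.mul_lt_top (expM_bdd_lt_top _)
    (ENNReal.mul_lt_top ENNReal.ofReal_lt_top (lintegral_Q_exp_lt_top _ (by norm_num)))

/-- composition with `wc` -/
theorem memLp_comp_wc {η : ℝ → ℝ} (hc : Continuous η) (h0 : ∀ t, 0 ≤ η t) {u : ℂ → ℂ}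
    (hu : MemLp u 2 (mu η)) : MemLp (fun z => u (wc z)) 2 (volume.restrict (worm η)) := by
  have h1 : MemLp u 2 (Measure.map wc (volume.restrict (worm η))) := by
    rw [map_wc hc h0]
    exact hu.smul_measure (by simp)
  exact h1.comp_of_map measurable_wc.aemeasurable

theorem memLp_conj' {α : Type*} [MeasurableSpace α] {μ : Measure α} {g : α → ℂ}
    (hg : MemLp g 2 μ) : MemLp (fun z => conj (g z)) 2 μ := by
  rw [memLp_two_iff' (Complex.continuous_conj.comp_aestronglyMeasurable hg.1)]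
  have h1 := (memLp_two_iff' hg.1).1 hg
  refine lt_of_eq_of_lt (lintegral_congr fun z => ?_) h1
  rw [RCLike.enorm_conj]

/-- the first complex derivative of `wc` -/
theorem hasDerivAt_wc {η : ℝ → ℝ} (hc : Continuous η) (h0 : ∀ t, 0 ≤ η t) {z : ℂ × ℂ}
    (hz : z ∈ worm η) :
    HasDerivAt (fun ζ => wc (ζ, z.2)) (-Complex.exp (-wc z)) z.1 := by
  have hd : DifferentiableAt ℂ (fun ζ => wc (ζ, z.2)) z.1 := by
    have h1 : DifferentiableAt ℂ wc (z.1, z.2) :=
      (differentiableOn_wc hc h0).differentiableAt ((isOpen_worm hc).mem_nhds hz)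
    exact DifferentiableAt.comp (f := fun ζ : ℂ => (ζ, z.2)) z.1 h1 (by fun_prop)
  have hev : (fun ζ => Complex.exp (wc (ζ, z.2))) =ᶠ[𝓝 z.1] fun ζ => -ζ := by
    have h2 : ContinuousAt (fun ζ : ℂ => (ζ, z.2)) z.1 := by fun_prop
    have h3 : ∀ᶠ ζ in 𝓝 z.1, (ζ, z.2) ∈ worm η := h2.eventually ((isOpen_worm hc).mem_nhds hz)
    filter_upwards [h3] with ζ hζ
    exact exp_wc h0 hζ
  have h4 := hd.hasDerivAt.cexp
  have h5 : HasDerivAt (fun ζ => Complex.exp (wc (ζ, z.2))) (-1) z.1 :=
    (hasDerivAt_neg z.1).congr_of_eventuallyEq hev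
  have h6 := h4.unique h5
  have h7 : deriv (fun ζ => wc (ζ, z.2)) z.1 = -Complex.exp (-wc z) := by
    have h8 : Complex.exp (wc z) * Complex.exp (-wc z) = 1 := by
      rw [← Complex.exp_add, add_neg_cancel, Complex.exp_zero]
    have h9 : Complex.exp (wc z) * deriv (fun ζ => wc (ζ, z.2)) z.1 = -1 := h6
    linear_combination Complex.exp (-wc z) * h9 - deriv (fun ζ => wc (ζ, z.2)) z.1 * h8
  rw [← h7]
  exact hd.hasDerivAt

/-- the operator `e^{-w} d/dw` -/
noncomputable def Dop (f : ℂ → ℂ) (w : ℂ) : ℂ := Complex.exp (-w) * deriv f w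

theorem differentiableOn_Dop {U : Set ℂ} (hU : IsOpen U) {f : ℂ → ℂ} (hf : DifferentiableOn ℂ f U) :
    DifferentiableOn ℂ (Dop f) U := by
  unfold Dop
  exact (by fun_prop : DifferentiableOn ℂ (fun w : ℂ => Complex.exp (-w)) U).mul (hf.deriv hU)

theorem differentiableOn_Dop_iter {U : Set ℂ} (hU : IsOpen U) {f : ℂ → ℂ}
    (hf : DifferentiableOn ℂ f U) (k : ℕ) : DifferentiableOn ℂ (Dop^[k] f) U := by
  induction k with
  | zero => exact hf
  | succ k ih =>
    rw [Function.iterate_succ_apply']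
    exact differentiableOn_Dop hU ih

/-- iterated `z₁`-derivatives of a function of `wc` -/
theorem d1_iter_comp {η : ℝ → ℝ} (hc : Continuous η) (h0 : ∀ t, 0 ≤ η t) {F : ℂ → ℂ}
    (hF : DifferentiableOn ℂ F (S η)) {f : ℂ × ℂ → ℂ} {a : ℂ}
    (hf : ∀ z ∈ worm η, f z = F (wc z) + a) (k : ℕ) :
    ∀ z ∈ worm η, (d1^[k] f) z = (-1) ^ k * (Dop^[k] F) (wc z) + (if k = 0 then a else 0) := by
  induction k with
  | zero =>
    intro z hz
    simp [hf z hz]
  | succ k ih =>
    intro z hz
    rw [Function.iterate_succ_apply', Function.iterate_succ_apply', d1]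
    have h2 : ContinuousAt (fun ζ : ℂ => (ζ, z.2)) z.1 := by fun_prop
    have h3 : ∀ᶠ ζ in 𝓝 z.1, (ζ, z.2) ∈ worm η := h2.eventually ((isOpen_worm hc).mem_nhds hz)
    have h4 : (fun ζ => (d1^[k] f) (ζ, z.2)) =ᶠ[𝓝 z.1] fun ζ =>
        (-1) ^ k * (Dop^[k] F) (wc (ζ, z.2)) + (if k = 0 then a else 0) := by
      filter_upwards [h3] with ζ hζ
      exact ih (ζ, z.2) hζ
    rw [h4.deriv_eq]
    have hw : wc z ∈ S η := ⟨_, wc_mem h0 hz⟩
    have h5 : HasDerivAt (Dop^[k] F) (deriv (Dop^[k] F) (wc z)) (wc z) :=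
      ((differentiableOn_Dop_iter (isOpen_S η) hF k).differentiableAt
        ((isOpen_S η).mem_nhds hw)).hasDerivAt
    have h6 : HasDerivAt (fun ζ => (Dop^[k] F) (wc (ζ, z.2)))
        (deriv (Dop^[k] F) (wc z) * -Complex.exp (-wc z)) z.1 :=
      HasDerivAt.comp (h := fun ζ => wc (ζ, z.2)) z.1 h5 (hasDerivAt_wc hc h0 hz)
    have h7 := (h6.const_mul ((-1 : ℂ) ^ k)).add_const (if k = 0 then a else 0)
    rw [h7.deriv]
    simp only [Nat.add_eq_zero_iff, one_ne_zero, and_false, if_false, add_zero]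
    rw [Dop, pow_succ]
    ring

theorem reduction {β : ℝ} {η : ℝ → ℝ} (hβ : π / 2 < β) (h : Profile β η) {L : ℂ × ℂ → ℂ}
    (hL : IsLogBranch η L) :
    (∃ f, IsBergmanProjection (worm η) (fun z => conj (L z)) f) ∧
    ∀ f, IsBergmanProjection (worm η) (fun z => conj (L z)) f → BoundedDerivs (worm η) f →
      ∃ F, Sol η F := by
  have hc : Continuous η := h.smooth.continuous
  have h0 := h.nonneg
  have ho := isOpen_worm hc
  have hm := ho.measurableSet
  obtain ⟨δ, hδ, hcap⟩ := cap_of_profile' hβ h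
  have hb : 0 < β - π / 2 := by linarith
  have hconj : MemLp (fun w : ℂ => conj w) 2 (mu η) := memLp_conj_gen hb.le hδ.le hcap
  obtain ⟨F, hF1, hF2, hF3⟩ := exists_projection1 hc hconj
  set f₀ : ℂ × ℂ → ℂ := fun z => F (wc z) - π * Complex.I with hf₀
  have hfin : IsFiniteMeasure (volume.restrict (worm η)) :=
    ⟨by rw [Measure.restrict_apply_univ]; exact (isBounded_worm hβ h).measure_lt_top⟩
  have hf₀d : DifferentiableOn ℂ f₀ (worm η) := by
    have hcomp : DifferentiableOn ℂ (fun z => F (wc z)) (worm η) :=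
      DifferentiableOn.comp (f := wc) hF1 (differentiableOn_wc hc h0)
        fun z hz => ⟨_, wc_mem h0 hz⟩
    exact hcomp.sub_const _
  have hf₀m : MemLp f₀ 2 (volume.restrict (worm η)) :=
    (memLp_comp_wc hc h0 hF2).sub (memLp_const _)
  -- `conj L`
  have hLeq : ∀ z ∈ worm η, conj (L z) = conj (wc z) - π * Complex.I := by
    intro z hz
    rw [logBranch_eq h0 hL hz, map_add, map_mul, Complex.conj_I, Complex.conj_ofReal]
    ring
  have hLm : MemLp (fun z => conj (L z)) 2 (volume.restrict (worm η)) := by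
    have h1 : MemLp (fun z => conj (wc z) - π * Complex.I) 2 (volume.restrict (worm η)) :=
      (memLp_comp_wc hc h0 hconj).sub (memLp_const _)
    refine h1.ae_eq ?_
    filter_upwards [ae_restrict_mem hm] with z hz
    exact (hLeq z hz).symm
  have hproj : IsBergmanProjection (worm η) (fun z => conj (L z)) f₀ := by
    refine ⟨hf₀d, hf₀m, ?_⟩
    intro g hg hg2
    obtain ⟨G, hG1, hG2, hG3⟩ := exists_average hβ h hg hg2
    have h1 := hG3 (fun w => conj w - F w) (hconj.sub hF2)
    rw [hF3 G hG1 hG2, mul_zero] at h1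
    rw [← h1]
    apply setIntegral_congr_fun hm
    intro z hz
    simp only
    rw [hLeq z hz, hf₀]
    ring
  refine ⟨⟨f₀, hproj⟩, ?_⟩
  intro f hf hbd
  -- uniqueness of the projection
  have huniq : ∀ z ∈ worm η, f z = F (wc z) + (-(π * Complex.I)) := by
    have hdd : DifferentiableOn ℂ (fun z => f z - f₀ z) (worm η) := hf.1.sub hf₀d
    have hdm : MemLp (fun z => f z - f₀ z) 2 (volume.restrict (worm η)) := hf.2.1.sub hf₀m
    have h1 := hf.2.2 _ hdd hdm
    have h2 := hproj.2.2 _ hdd hdm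
    have hi1 : Integrable (fun z => (conj (L z) - f z) * conj (f z - f₀ z))
        (volume.restrict (worm η)) := (hLm.sub hf.2.1).integrable_mul (memLp_conj' hdm)
    have hi2 : Integrable (fun z => (conj (L z) - f₀ z) * conj (f z - f₀ z))
        (volume.restrict (worm η)) := (hLm.sub hf₀m).integrable_mul (memLp_conj' hdm)
    have h3 : ∫ z in worm η, ((‖f z - f₀ z‖ ^ 2 : ℝ) : ℂ) = 0 := by
      have h4 : ∫ z in worm η, ((‖f z - f₀ z‖ ^ 2 : ℝ) : ℂ)
          = (∫ z in worm η, (conj (L z) - f₀ z) * conj (f z - f₀ z))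
            - ∫ z in worm η, (conj (L z) - f z) * conj (f z - f₀ z) := by
        rw [← integral_sub hi2 hi1]
        apply integral_congr_ae
        filter_upwards with z
        have h5 : ((‖f z - f₀ z‖ ^ 2 : ℝ) : ℂ) = (f z - f₀ z) * conj (f z - f₀ z) := by
          rw [Complex.mul_conj, Complex.normSq_eq_norm_sq]
        rw [h5]
        ring
      rw [h4, h1, h2, sub_zero]
    have h6 : ∫ z in worm η, ‖f z - f₀ z‖ ^ 2 = 0 := by
      rw [integral_complex_ofReal] at h3
      exact_mod_cast h3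
    have hi3 : Integrable (fun z => ‖f z - f₀ z‖ ^ 2) (volume.restrict (worm η)) :=
      (memLp_two_iff_integrable_sq_norm hdm.1).1 hdm
    have h7 := (integral_eq_zero_iff_of_nonneg (fun z => by positivity) hi3).1 h6
    have h8 : (fun z => f z - f₀ z) =ᵐ[volume.restrict (worm η)] fun _ => 0 := by
      filter_upwards [h7] with z hz
      have : ‖f z - f₀ z‖ ^ 2 = 0 := hz
      simpa using this
    have h9 : EqOn (fun z => f z - f₀ z) (fun _ => 0) (worm η) :=
      Measure.eqOn_open_of_ae_eq h8 ho hdd.continuousOn continuousOn_const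
    intro z hz
    have := h9 hz
    simp only [hf₀] at this
    linear_combination this
  refine ⟨F, ⟨hF1, hF2, hF3, ?_⟩⟩
  refine taylor_of_bounded hb hδ hcap hF1 ?_
  intro k
  obtain ⟨C, hC⟩ := hbd k
  refine ⟨C + π, ?_⟩
  rintro w ⟨t, ht⟩
  have hp : (t, w) ∈ tot η := ht
  have h1 := coord_mem h0 (α := 0) hp
  have h2 := d1_iter_comp hc h0 hF1 huniq k _ h1
  rw [wc_coord h0 hp] at h2
  have h3 := hC _ h1
  have h4 : (-1 : ℂ) ^ k * (Dop^[k] F) w
      = (d1^[k] f) (coord (0, (t, w))) - (if k = 0 then -(π * Complex.I) else 0) := by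
    rw [h2]
    ring
  have h5 : ‖(Dop^[k] F) w‖ = ‖(-1 : ℂ) ^ k * (Dop^[k] F) w‖ := by
    rw [norm_mul, norm_pow, norm_neg, norm_one, one_pow, one_mul]
  change ‖(Dop^[k] F) w‖ ≤ _
  rw [h5, h4]
  refine (norm_sub_le _ _).trans (add_le_add h3 ?_)
  split_ifs
  · rw [norm_neg, norm_mul, Complex.norm_I, mul_one, Complex.norm_real, Real.norm_eq_abs,
      abs_of_pos Real.pi_pos]
  · rw [norm_zero]
    exact Real.pi_pos.le

/-- the slices of the iterated derivatives are holomorphic -/
theorem slice_hol {η : ℝ → ℝ} (hc : Continuous η) {f : ℂ × ℂ → ℂ}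
    (hf : DifferentiableOn ℂ f (worm η)) (z₂ : ℂ) (k : ℕ) :
    DifferentiableOn ℂ (fun ζ => (d1^[k] f) (ζ, z₂)) {ζ | (ζ, z₂) ∈ worm η} := by
  have ho : IsOpen {ζ : ℂ | (ζ, z₂) ∈ worm η} :=
    (isOpen_worm hc).preimage (by fun_prop : Continuous fun ζ : ℂ => (ζ, z₂))
  induction k with
  | zero =>
    exact DifferentiableOn.comp (f := fun ζ : ℂ => (ζ, z₂)) hf (by fun_prop) fun ζ hζ => hζ
  | succ k ih =>
    have h1 : (fun ζ => (d1^[k + 1] f) (ζ, z₂)) = deriv fun ζ => (d1^[k] f) (ζ, z₂) := by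
      funext ζ
      rw [Function.iterate_succ_apply']
      rfl
    rw [h1]
    exact ih.deriv ho

theorem boundedDerivs_of_smoothUpTo {β : ℝ} {η : ℝ → ℝ} (hβ : π / 2 < β) (h : Profile β η)
    {f : ℂ × ℂ → ℂ} (hf : DifferentiableOn ℂ f (worm η)) (hs : SmoothUpTo (worm η) f) :
    BoundedDerivs (worm η) f := by
  have hc : Continuous η := h.smooth.continuous
  have ho := isOpen_worm hc
  have key : ∀ k : ℕ, ∃ g : ℂ × ℂ → ℂ, ContDiff ℝ ∞ g ∧ EqOn g (d1^[k] f) (worm η) := by
    intro k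
    induction k with
    | zero => exact hs
    | succ k ih =>
      obtain ⟨g, hg, hgf⟩ := ih
      refine ⟨fun z => fderiv ℝ g z (1, 0), ?_, ?_⟩
      · exact (hg.fderiv_right (m := ∞) (by simp)).clm_apply contDiff_const
      · intro z hz
        have h1 : DifferentiableAt ℂ (fun ζ => (d1^[k] f) (ζ, z.2)) z.1 :=
          (slice_hol hc hf z.2 k).differentiableAt
            ((ho.preimage (by fun_prop : Continuous fun ζ : ℂ => (ζ, z.2))).mem_nhds hz)
        have h2 : (d1^[k + 1] f) z = deriv (fun ζ => (d1^[k] f) (ζ, z.2)) z.1 := by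
          rw [Function.iterate_succ_apply']
          rfl
        rw [h2]
        have hcv : HasDerivAt (fun s : ℝ => z.1 + (s : ℂ)) 1 0 := by
          simpa using (Complex.ofRealCLM.hasDerivAt (x := (0 : ℝ))).const_add z.1
        have h3 : HasDerivAt (fun s : ℝ => (d1^[k] f) (z.1 + (s : ℂ), z.2))
            (deriv (fun ζ => (d1^[k] f) (ζ, z.2)) z.1) 0 := by
          have h4 : HasFDerivAt (fun ζ => (d1^[k] f) (ζ, z.2))
              ((ContinuousLinearMap.smulRight (1 : ℂ →L[ℂ] ℂ)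
                (deriv (fun ζ => (d1^[k] f) (ζ, z.2)) z.1)).restrictScalars ℝ :
                ℂ →L[ℝ] ℂ) (z.1 + ((0 : ℝ) : ℂ)) := by
            rw [Complex.ofReal_zero, add_zero]
            exact h1.hasDerivAt.hasFDerivAt.restrictScalars ℝ
          have h5 := h4.comp_hasDerivAt (0 : ℝ) hcv
          have h5' : (((ContinuousLinearMap.smulRight (1 : ℂ →L[ℂ] ℂ)
                (deriv (fun ζ => (d1^[k] f) (ζ, z.2)) z.1)).restrictScalars ℝ :
                ℂ →L[ℝ] ℂ)) 1 = deriv (fun ζ => (d1^[k] f) (ζ, z.2)) z.1 := by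
            simp
          rw [h5'] at h5
          exact h5
        have h6 : HasDerivAt (fun s : ℝ => g (z.1 + (s : ℂ), z.2)) (fderiv ℝ g z (1, 0)) 0 := by
          have h7 : HasFDerivAt g (fderiv ℝ g z) (z.1 + ((0 : ℝ) : ℂ), z.2) := by
            rw [Complex.ofReal_zero, add_zero]
            exact (hg.differentiable (by simp) z).hasFDerivAt
          have h8 : HasDerivAt (fun s : ℝ => (z.1 + (s : ℂ), z.2)) ((1 : ℂ), (0 : ℂ)) 0 :=
            hcv.prodMk (hasDerivAt_const _ _)
          exact h7.comp_hasDerivAt (0 : ℝ) h8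
        have h9 : (fun s : ℝ => g (z.1 + (s : ℂ), z.2)) =ᶠ[𝓝 0]
            fun s : ℝ => (d1^[k] f) (z.1 + (s : ℂ), z.2) := by
          have h10 : ContinuousAt (fun s : ℝ => (z.1 + (s : ℂ), z.2)) 0 := by fun_prop
          have h11 : worm η ∈ 𝓝 (z.1 + ((0 : ℝ) : ℂ), z.2) := by
            rw [Complex.ofReal_zero, add_zero]
            exact ho.mem_nhds hz
          filter_upwards [h10.eventually h11] with s hs'
          exact hgf hs'
        exact (h6.congr_of_eventuallyEq h9.symm).unique h3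
  intro k
  obtain ⟨g, hg, hgf⟩ := key k
  have hcpt : IsCompact (closure (worm η)) := (isBounded_worm hβ h).isCompact_closure
  obtain ⟨C, hC⟩ := hcpt.exists_bound_of_continuousOn hg.continuous.continuousOn
  refine ⟨C, fun z hz => ?_⟩
  rw [← hgf hz]
  exact hC z (subset_closure hz)

end Pool.Agent.Worm
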