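import Mathlib
import Pool.Agent.Worm.MainA
import Pool.Agent.Worm.Borel
import Pool.Agent.Worm.BorelPer
import Pool.Agent.Worm.BorelContra
import Pool.Agent.Worm.Levi
import Pool.Agent.Worm.Reduction

/-!
# Main theorem on the Bergman projection of `log (conj z₁)` on smooth worm domains
-/

open MeasureTheory Set Metric Filter Topology
open scoped Real ENNReal ComplexConjugate

namespace Pool.Agent.Worm

/-- There is no solution of the limit problem on the truncated worm. -/
theorem no_lim {b : ℝ} (hb : π < b) {F : ℂ → ℂ} {c : ℕ → ℂ} (h : Lim b F c) : False := by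
  obtain ⟨Ψ, γ, hΨ⟩ := borel_exists0 hb h
  obtain ⟨R, hR⟩ := exists_R hb
  refine borel_contra hb hΨ (borel_periodic hb (κ := 1 / 4) (by norm_num) R ?_ ?_ ?_ hΨ)
  · intro N
    exact (hR N).1
  · intro N
    exact (hR N).2.1
  · intro N
    exact (hR N).2.2

/-- For short caps the one-dimensional reduction is not smooth at the singular point. -/
theorem main1 {b : ℝ} (hb : π < b) : ∃ δ > 0, ∀ η F, Cap b δ η → Sol η F → False := by
  by_contra hcon
  push Not at hcon
  obtain ⟨F, c, hF⟩ : ∃ F c, Lim b F c := by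
    refine lim_exists (by linarith [Real.pi_pos]) ?_
    intro δ hδ
    obtain ⟨η, F, h1, h2, -⟩ := hcon δ hδ
    exact ⟨η, F, h1, h2⟩
  exact no_lim hb hF

/-- Any branch of the logarithm is holomorphic and its conjugate is square integrable. -/
theorem logBranch_props {β : ℝ} {η : ℝ → ℝ} (hβ : π / 2 < β) (h : Profile β η) {L : ℂ × ℂ → ℂ}
    (hL : IsLogBranch η L) : DifferentiableOn ℂ L (worm η) ∧
      MemLp (fun z => conj (L z)) 2 (volume.restrict (worm η)) := by
  have hc : Continuous η := h.smooth.continuous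
  have h0 := h.nonneg
  have ho := isOpen_worm hc
  obtain ⟨δ, hδ, hcap⟩ := cap_of_profile' hβ h
  have hb : 0 < β - π / 2 := by linarith
  have hfin : IsFiniteMeasure (volume.restrict (worm η)) :=
    ⟨by rw [Measure.restrict_apply_univ]; exact (isBounded_worm hβ h).measure_lt_top⟩
  refine ⟨?_, ?_⟩
  · refine ((differentiableOn_wc hc h0).add_const ((π : ℂ) * Complex.I)).congr ?_
    intro z hz
    exact logBranch_eq h0 hL hz
  · have hconj : MemLp (fun w : ℂ => conj w) 2 (mu η) := memLp_conj_gen hb.le hδ.le hcap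
    have h1 : MemLp (fun z => conj (wc z) - π * Complex.I) 2 (volume.restrict (worm η)) :=
      (memLp_comp_wc hc h0 hconj).sub (memLp_const _)
    refine h1.ae_eq ?_
    filter_upwards [ae_restrict_mem ho.measurableSet] with z hz
    rw [logBranch_eq h0 hL hz, map_add, map_mul, Complex.conj_I, Complex.conj_ofReal]
    ring

/-- Large multiples of a profile are profiles with short caps. -/
theorem profile_mul {β δ : ℝ} {η : ℝ → ℝ} (hβ : π / 2 < β) (hδ : 0 < δ) (h : Profile β η) :
    ∃ K₀ : ℝ, ∀ K ≥ K₀, Profile β (fun t => K * η t) ∧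
      ∀ t, β - π / 2 + δ ≤ |t| → 1 < K * η t := by
  have hb : 0 < β - π / 2 := by linarith
  have hpos : 0 < η (β - π / 2 + δ) := by
    rcases (h.nonneg (β - π / 2 + δ)).lt_or_eq with h1 | h1
    · exact h1
    · have h2 := (h.zero_iff _).1 h1.symm
      rw [abs_of_pos (by linarith)] at h2
      linarith
  refine ⟨max 1 (2 / η (β - π / 2 + δ)), fun K hK => ?_⟩
  have hK1 : 1 ≤ K := (le_max_left _ _).trans hK
  have hK2 : 2 / η (β - π / 2 + δ) ≤ K := (le_max_right _ _).trans hK
  have hK0 : 0 < K := by linarith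
  refine ⟨⟨?_, ?_, ?_, ?_, ?_, ?_⟩, ?_⟩
  · exact contDiff_const.mul h.smooth
  · intro t
    simp only [h.even t]
  · exact h.convex.smul hK0.le
  · intro t
    exact mul_nonneg hK0.le (h.nonneg t)
  · intro t
    rw [← h.zero_iff t]
    constructor
    · intro h1
      rcases mul_eq_zero.1 h1 with h2 | h2
      · exact absurd h2 hK0.ne'
      · exact h2
    · intro h1
      simp [h1]
  · obtain ⟨T, hT⟩ := h.gt_one
    refine ⟨T, fun t ht => ?_⟩
    have h1 := hT t ht
    nlinarith
  · intro t ht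
    have h1 : η (β - π / 2 + δ) ≤ η t := by
      apply profile_mono h
      rw [abs_of_pos (by linarith)]
      exact ht
    have h2 : 2 ≤ K * η (β - π / 2 + δ) := by
      rwa [div_le_iff₀ hpos] at hK2
    have h3 : K * η (β - π / 2 + δ) ≤ K * η t := mul_le_mul_of_nonneg_left h1 hK0.le
    linarith

theorem main2 (β : ℝ) (hβ : 3 * π / 2 < β) : ∃ δ > 0,
    (∃ η, Profile β η ∧ ∀ t, β - π / 2 + δ ≤ |t| → 1 < η t) ∧
    (∀ η, Profile β η → ∃ K₀ : ℝ, ∀ K ≥ K₀, Profile β (fun t => K * η t) ∧
      ∀ t, β - π / 2 + δ ≤ |t| → 1 < K * η t) ∧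
    ∀ η, Profile β η → (∀ t, β - π / 2 + δ ≤ |t| → 1 < η t) →
      Admissible β η ∧ (∃ L, IsLogBranch η L) ∧ ∀ L, IsLogBranch η L →
        DifferentiableOn ℂ L (worm η) ∧
        MemLp (fun z => conj (L z)) 2 (volume.restrict (worm η)) ∧
        (∃ f, IsBergmanProjection (worm η) (fun z => conj (L z)) f) ∧
        ∀ f, IsBergmanProjection (worm η) (fun z => conj (L z)) f →
          ¬ BoundedDerivs (worm η) f ∧ ¬ SmoothUpTo (worm η) f := by
  have hpi := Real.pi_pos
  have hb : π < β - π / 2 := by linarith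
  obtain ⟨δ, hδ, h1⟩ := main1 hb
  have hβ' : π / 2 < β := by linarith
  refine ⟨δ, hδ, exists_profile β hβ' δ hδ, fun η hη => profile_mul hβ' hδ hη, ?_⟩
  intro η hη hcap
  have hcap' : Cap (β - π / 2) δ η := cap_of_profile hβ' hδ hη hcap
  refine ⟨⟨hη, isOpen_worm hη.smooth.continuous, isConnected_worm hβ' hη, isBounded_worm hβ' hη,
    smoothPseudoconvex_worm hβ' hη⟩, ⟨_, isLogBranch_wc hη.nonneg⟩, ?_⟩
  intro L hL
  obtain ⟨h2, h3⟩ := reduction hβ' hη hL
  refine ⟨(logBranch_props hβ' hη hL).1, (logBranch_props hβ' hη hL).2, h2, ?_⟩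
  intro f hf
  have key : ¬ BoundedDerivs (worm η) f := by
    intro hbd
    obtain ⟨F, hF⟩ := h3 f hf hbd
    exact h1 η F hcap' hF
  exact ⟨key, fun hs => key (boundedDerivs_of_smoothUpTo hβ' hη hf.1 hs)⟩

end Pool.Agent.Worm
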