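import Pool.Agent.Worm.Coord

/-!
# Averaging over the angle of the second variable
-/

open MeasureTheory Set Metric
open scoped Real ENNReal ComplexConjugate ContDiff Topology

namespace Pool.Agent.Worm

/-- the mean of `g(-e^w, ·)` over the circle `|z₂| = e^{t/2}` -/
noncomputable def avg (g : ℂ × ℂ → ℂ) (t : ℝ) (w : ℂ) : ℂ :=
  (2 * π : ℂ)⁻¹ * ∫ θ in (0 : ℝ)..2 * π, g (-Complex.exp w, circleMap 0 (Real.exp (t / 2)) θ)

theorem mem_worm_of_disc {η : ℝ → ℝ} {w ζ : ℂ} (hζ : ζ ≠ 0)
    (h : w ∈ disc η (Real.log (‖ζ‖ ^ 2))) : (-Complex.exp w, ζ) ∈ worm η :=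
  ⟨hζ, (mem_disc_iff_coord.1 h).2⟩

theorem log_norm_circleMap (t θ : ℝ) :
    Real.log (‖circleMap 0 (Real.exp (t / 2)) θ‖ ^ 2) = t := by
  rw [norm_circleMap_zero, abs_of_pos (Real.exp_pos _), ← Real.exp_nat_mul, Real.log_exp]
  push_cast
  ring

theorem circleMap_ne (t θ : ℝ) : circleMap 0 (Real.exp (t / 2)) θ ≠ 0 :=
  circleMap_ne_center (Real.exp_pos _).ne'

theorem mem_worm_circleMap {η : ℝ → ℝ} {t : ℝ} {w : ℂ} (h : w ∈ disc η t) (θ : ℝ) :
    (-Complex.exp w, circleMap 0 (Real.exp (t / 2)) θ) ∈ worm η :=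
  mem_worm_of_disc (circleMap_ne t θ) (by rwa [log_norm_circleMap])

/-- the set of `t` with `w ∈ D(t)` is convex -/
theorem disc_convex {η : ℝ → ℝ} (hη : ConvexOn ℝ univ η) {w : ℂ} {s t u : ℝ}
    (hs : w ∈ disc η s) (ht : w ∈ disc η t) (hsu : s ≤ u) (hut : u ≤ t) : w ∈ disc η u := by
  have hu : u ∈ segment ℝ s t := by
    rw [segment_eq_Icc (hsu.trans hut)]
    exact ⟨hsu, hut⟩
  obtain ⟨a, b, ha, hb, hab, rfl⟩ := hu
  obtain ⟨hs1, hs2⟩ := hs
  obtain ⟨ht1, ht2⟩ := ht
  simp only [smul_eq_mul] at hsu hut ⊢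
  have hs1' := abs_lt.1 hs1
  have ht1' := abs_lt.1 ht1
  have e1 : w.im - (a * s + b * t) = a * (w.im - s) + b * (w.im - t) := by
    linear_combination (-w.im) * hab
  refine ⟨?_, ?_⟩
  · rw [abs_lt]
    constructor <;> nlinarith [Real.pi_pos]
  · have h1 := strictConcaveOn_cos_Icc.concaveOn.2 (x := w.im - s) (y := w.im - t)
      ⟨by linarith [hs1'.1], by linarith [hs1'.2]⟩ ⟨by linarith [ht1'.1], by linarith [ht1'.2]⟩
      ha hb hab
    have h2 := hη.2 (mem_univ s) (mem_univ t) ha hb hab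
    simp only [smul_eq_mul] at h1 h2
    rw [e1]
    have hx := Real.exp_pos (-w.re)
    have h3 := mul_le_mul_of_nonneg_right h2 hx.le
    rcases ha.eq_or_lt with ha0 | ha0
    · subst ha0
      have hb1 : b = 1 := by linarith
      subst hb1
      simp only [zero_mul, zero_add, one_mul] at h1 h2 h3 ⊢
      linarith
    · have h4 := mul_lt_mul_of_pos_left hs2 ha0
      have h5 := mul_le_mul_of_nonneg_left ht2.le hb
      have h6 : Real.exp w.re + (a * η s + b * η t) * Real.exp (-w.re)
          = a * (Real.exp w.re + η s * Real.exp (-w.re))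
            + b * (Real.exp w.re + η t * Real.exp (-w.re)) := by
        linear_combination (-Real.exp w.re) * hab
      linarith

theorem avg_eq {η : ℝ → ℝ} (hη : ConvexOn ℝ univ η) (hc : Continuous η) {g : ℂ × ℂ → ℂ}
    (hg : DifferentiableOn ℂ g (worm η)) {w : ℂ} {s t : ℝ} (hs : w ∈ disc η s)
    (ht : w ∈ disc η t) : avg g s w = avg g t w := by
  wlog hst : s ≤ t generalizing s t
  · exact (this ht hs (le_of_not_ge hst)).symm
  have hle : Real.exp (s / 2) ≤ Real.exp (t / 2) := Real.exp_le_exp.2 (by linarith)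
  have hmem : ∀ z : ℂ, Real.exp (s / 2) ≤ ‖z‖ → ‖z‖ ≤ Real.exp (t / 2) →
      (-Complex.exp w, z) ∈ worm η := by
    intro z h1 h2
    have h0 : 0 < ‖z‖ := (Real.exp_pos _).trans_le h1
    refine mem_worm_of_disc (norm_pos_iff.1 h0) (disc_convex hη hs ht ?_ ?_)
    · rw [Real.log_pow]
      have := Real.log_le_log (Real.exp_pos _) h1
      rw [Real.log_exp] at this
      push_cast
      linarith
    · rw [Real.log_pow]
      have := Real.log_le_log h0 h2
      rw [Real.log_exp] at this
      push_cast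
      linarith
  have hopen := isOpen_worm hc
  have hdiff : ∀ z : ℂ, (-Complex.exp w, z) ∈ worm η →
      DifferentiableAt ℂ (fun ζ => g (-Complex.exp w, ζ)) z := by
    intro z hz
    have h1 : DifferentiableAt ℂ g (-Complex.exp w, z) := hg.differentiableAt (hopen.mem_nhds hz)
    have h2 : DifferentiableAt ℂ (fun ζ : ℂ => (-Complex.exp w, ζ)) z := by fun_prop
    exact DifferentiableAt.comp (f := fun ζ : ℂ => (-Complex.exp w, ζ)) z h1 h2
  have key := Complex.circleIntegral_sub_center_inv_smul_eq_of_differentiable_on_annulus_off_countable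
    (c := 0) (Real.exp_pos (s / 2)) hle (f := fun ζ => g (-Complex.exp w, ζ)) (s := ∅)
    countable_empty ?_ ?_
  · have hI : ∀ r : ℝ, 0 < r → (∮ z in C((0 : ℂ), r), (z - 0)⁻¹ • g (-Complex.exp w, z))
        = Complex.I * ∫ θ in (0 : ℝ)..2 * π, g (-Complex.exp w, circleMap 0 r θ) := by
      intro r hr
      rw [circleIntegral, ← intervalIntegral.integral_const_mul]
      apply intervalIntegral.integral_congr
      intro θ _
      simp only [deriv_circleMap, sub_zero, smul_eq_mul]
      have : circleMap 0 r θ ≠ 0 := circleMap_ne_center hr.ne'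
      field_simp
    rw [hI _ (Real.exp_pos _), hI _ (Real.exp_pos _)] at key
    have := mul_left_cancel₀ Complex.I_ne_zero key
    rw [avg, avg, this]
  · intro z hz
    apply ContinuousAt.continuousWithinAt
    refine (hdiff z (hmem z ?_ ?_)).continuousAt
    · simpa [mem_closedBall, mem_ball] using hz.2
    · simpa [mem_closedBall, mem_ball] using hz.1
  · intro z hz
    refine hdiff z (hmem z ?_ ?_)
    · have := hz.1.2
      simp only [mem_closedBall, dist_zero_right, not_le] at this
      exact this.le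
    · have := hz.1.1
      simp only [mem_ball, dist_zero_right] at this
      exact this.le

theorem differentiableOn_avg {η : ℝ → ℝ} (hc : Continuous η) {g : ℂ × ℂ → ℂ}
    (hg : DifferentiableOn ℂ g (worm η)) (t : ℝ) : DifferentiableOn ℂ (avg g t) (disc η t) := by
  intro w₀ hw₀
  apply DifferentiableAt.differentiableWithinAt
  have hopen := isOpen_worm hc
  set ζ : ℝ → ℂ := fun θ => circleMap 0 (Real.exp (t / 2)) θ with hζ
  have hζc : Continuous ζ := continuous_circleMap _ _
  obtain ⟨ε, hε, hball⟩ := Metric.isOpen_iff.1 (isOpen_disc η t) w₀ hw₀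
  set r : ℝ := ε / 3 with hr
  have hr0 : 0 < r := by positivity
  have hsub : closedBall w₀ (2 * r) ⊆ disc η t :=
    (closedBall_subset_ball (by rw [hr]; linarith)).trans hball
  have hmem : ∀ w ∈ disc η t, ∀ θ, (-Complex.exp w, ζ θ) ∈ worm η :=
    fun w hw θ => mem_worm_circleMap hw θ
  have hgd : ∀ w ∈ disc η t, ∀ θ, DifferentiableAt ℂ g (-Complex.exp w, ζ θ) :=
    fun w hw θ => hg.differentiableAt (hopen.mem_nhds (hmem w hw θ))
  have hder : ∀ w ∈ disc η t, ∀ θ, HasDerivAt (fun v => g (-Complex.exp v, ζ θ))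
      (fderiv ℂ g (-Complex.exp w, ζ θ) (-Complex.exp w, 0)) w := by
    intro w hw θ
    have h1 : HasDerivAt (fun v : ℂ => (-Complex.exp v, ζ θ)) (-Complex.exp w, 0) w :=
      (Complex.hasDerivAt_exp w).neg.prodMk (hasDerivAt_const w (ζ θ))
    exact (hgd w hw θ).hasFDerivAt.comp_hasDerivAt w h1
  -- bound on a compact set
  obtain ⟨M, hM⟩ : ∃ M, ∀ p ∈ closedBall w₀ (2 * r) ×ˢ Icc (0 : ℝ) (2 * π),
      ‖g (-Complex.exp p.1, ζ p.2)‖ ≤ M := by
    apply IsCompact.exists_bound_of_continuousOn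
      ((isCompact_closedBall w₀ (2 * r)).prod isCompact_Icc)
      (f := fun p : ℂ × ℝ => g (-Complex.exp p.1, ζ p.2))
    intro p hp
    apply ContinuousAt.continuousWithinAt
    have h1 : ContinuousAt g (-Complex.exp p.1, ζ p.2) :=
      (hgd p.1 (hsub hp.1) p.2).continuousAt
    exact ContinuousAt.comp (f := fun p : ℂ × ℝ => (-Complex.exp p.1, ζ p.2)) h1
      (by fun_prop : Continuous fun p : ℂ × ℝ => (-Complex.exp p.1, ζ p.2)).continuousAt
  have hcont : ∀ w ∈ disc η t, Continuous fun θ => g (-Complex.exp w, ζ θ) := by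
    intro w hw
    rw [continuous_iff_continuousAt]
    intro θ
    exact ContinuousAt.comp (f := fun θ : ℝ => (-Complex.exp w, ζ θ)) (hgd w hw θ).continuousAt
      (by fun_prop : Continuous fun θ : ℝ => (-Complex.exp w, ζ θ)).continuousAt
  have hmain := (hasDerivAt_integral_of_dominated_loc_of_deriv_le
    (μ := volume.restrict (Ioc (0 : ℝ) (2 * π))) (𝕜 := ℂ)
    (F := fun w θ => g (-Complex.exp w, ζ θ))
    (F' := fun w θ => fderiv ℂ g (-Complex.exp w, ζ θ) (-Complex.exp w, 0))
    (x₀ := w₀) (s := ball w₀ r) (bound := fun _ => M / r) (ball_mem_nhds w₀ hr0)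
    ?_ ?_ ?_ ?_ ?_ ?_).2
  · have h1 : avg g t = fun w => (2 * π : ℂ)⁻¹ *
        ∫ θ in Ioc (0 : ℝ) (2 * π), g (-Complex.exp w, ζ θ) := by
      funext w
      rw [avg, intervalIntegral.integral_of_le (by positivity)]
    rw [h1]
    exact hmain.differentiableAt.const_mul _
  · filter_upwards [(isOpen_disc η t).mem_nhds hw₀] with w hw
    exact (hcont w hw).aestronglyMeasurable
  · exact ((hcont w₀ hw₀).continuousOn.integrableOn_Icc).mono_set Ioc_subset_Icc_self
  · apply Measurable.aestronglyMeasurable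
    exact (measurable_fderiv_apply_const ℂ g (-Complex.exp w₀, 0)).comp
      (by fun_prop : Measurable fun θ : ℝ => (-Complex.exp w₀, ζ θ))
  · filter_upwards [ae_restrict_mem measurableSet_Ioc] with θ hθ w hw
    have hwd : w ∈ disc η t := hsub (ball_subset_closedBall.trans
      (closedBall_subset_closedBall (by linarith)) hw)
    rw [← (hder w hwd θ).deriv]
    have hcl : closedBall w r ⊆ closedBall w₀ (2 * r) := by
      apply closedBall_subset_closedBall'
      have := mem_ball.1 hw
      linarith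
    apply Complex.norm_deriv_le_of_forall_mem_sphere_norm_le hr0
    · constructor
      · intro v hv
        exact (hder v (hsub (hcl (ball_subset_closedBall hv))) θ).differentiableAt.differentiableWithinAt
      · rw [closure_ball w hr0.ne']
        intro v hv
        exact (hder v (hsub (hcl hv)) θ).continuousAt.continuousWithinAt
    · intro v hv
      exact hM (v, θ) ⟨hcl (sphere_subset_closedBall hv), Ioc_subset_Icc_self hθ⟩
  · exact integrable_const _
  · filter_upwards with θ w hw
    exact hder w (hsub (ball_subset_closedBall.trans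
      (closedBall_subset_closedBall (by linarith)) hw)) θ

/-! ### Transfer of measures -/

/-- the measure on the parameter space of `coord` -/
noncomputable def parM (η : ℝ → ℝ) : Measure (ℝ × (ℝ × ℂ)) :=
  (volume.restrict (Ioo (-π) π)).prod ((expM.prod areaM).restrict (tot η))

theorem measurable_wc : Measurable wc := by
  unfold wc theta
  fun_prop

theorem ae_tot {η : ℝ → ℝ} (hc : Continuous η) :
    ∀ᵐ q ∂((expM.prod areaM).restrict (tot η)), q ∈ tot η :=
  ae_restrict_mem (isOpen_tot hc).measurableSet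

theorem ae_parM {η : ℝ → ℝ} (hc : Continuous η) : ∀ᵐ p ∂(parM η), p.2 ∈ tot η :=
  (Measure.quasiMeasurePreserving_snd).ae (ae_tot hc)

theorem map_wc {η : ℝ → ℝ} (hc : Continuous η) (h0 : ∀ t, 0 ≤ η t) :
    Measure.map wc (volume.restrict (worm η)) = ENNReal.ofReal π • mu η := by
  have h1 : Measure.map wc (Measure.map coord (parM η)) = Measure.map (fun p => p.2.2) (parM η) := by
    rw [Measure.map_map measurable_wc measurable_coord]
    apply Measure.map_congr
    filter_upwards [ae_parM hc] with p hp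
    exact wc_coord h0 hp
  have h2 : Measure.map (fun p : ℝ × (ℝ × ℂ) => p.2.2) (parM η) = ENNReal.ofReal (2 * π) • mu η := by
    have h3 : (fun p : ℝ × (ℝ × ℂ) => p.2.2) = Prod.snd ∘ Prod.snd := rfl
    rw [h3, ← Measure.map_map measurable_snd measurable_snd, parM, Measure.map_snd_prod,
      Measure.map_smul, mu]
    congr 1
    rw [Measure.restrict_apply MeasurableSet.univ, univ_inter, Real.volume_Ioo]
    congr 1
    ring
  rw [parM, map_coord hc h0, Measure.map_smul] at h1
  rw [parM] at h2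
  rw [h2] at h1
  have h4 : (2 : ℝ≥0∞)⁻¹ • ((2 : ℝ≥0∞) • Measure.map wc (volume.restrict (worm η)))
      = (2 : ℝ≥0∞)⁻¹ • (ENNReal.ofReal (2 * π) • mu η) := by rw [h1]
  rw [smul_smul, smul_smul, ENNReal.inv_mul_cancel (by norm_num) (by norm_num), one_smul] at h4
  rw [h4]
  congr 1
  rw [ENNReal.ofReal_mul (by norm_num), ← mul_assoc]
  have : ENNReal.ofReal 2 = 2 := by simp
  rw [this, ENNReal.inv_mul_cancel (by norm_num) (by norm_num), one_mul]

theorem avg_eq_coord (g : ℂ × ℂ → ℂ) (t : ℝ) (w : ℂ) :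
    avg g t w = (2 * π : ℂ)⁻¹ * ∫ α in Ioo (-π) π, g (coord (α, (t, w))) := by
  rw [avg]
  congr 1
  have h1 : Function.Periodic (fun θ : ℝ => g (-Complex.exp w, circleMap 0 (Real.exp (t / 2)) θ))
      (2 * π) := by
    intro θ
    simp only
    rw [periodic_circleMap]
  have h2 := h1.intervalIntegral_add_eq 0 (-π)
  rw [zero_add] at h2
  rw [h2]
  have h3 : -π + 2 * π = π := by ring
  rw [h3, intervalIntegral.integral_of_le (by linarith [Real.pi_pos]), integral_Ioc_eq_integral_Ioo]
  apply integral_congr_ae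
  filter_upwards with α
  simp only [coord]
  congr 2
  rw [circleMap, zero_add, Complex.exp_add, Complex.ofReal_exp]

theorem memLp_two_iff' {α : Type*} [MeasurableSpace α] {μ : Measure α} {f : α → ℂ}
    (hf : AEStronglyMeasurable f μ) : MemLp f 2 μ ↔ ∫⁻ a, ‖f a‖ₑ ^ 2 ∂μ < ⊤ := by
  have h1 := eLpNorm_lt_top_iff_lintegral_rpow_enorm_lt_top (f := f) (μ := μ) (p := 2)
    (by norm_num) (by norm_num)
  have h2 : ∫⁻ a, ‖f a‖ₑ ^ (2 : ℝ≥0∞).toReal ∂μ = ∫⁻ a, ‖f a‖ₑ ^ 2 ∂μ := by
    apply lintegral_congr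
    intro a
    rw [ENNReal.toReal_ofNat, ← ENNReal.rpow_natCast]
    norm_num
  rw [h2] at h1
  constructor
  · exact fun h => h1.1 h.2
  · exact fun h => ⟨hf, h1.2 h⟩

/-- Cauchy-Schwarz -/
theorem enorm_integral_sq_le {f : ℝ → ℂ} {μ : Measure ℝ} (hf : AEMeasurable f μ) :
    ‖∫ a, f a ∂μ‖ₑ ^ 2 ≤ μ univ * ∫⁻ a, ‖f a‖ₑ ^ 2 ∂μ := by
  have h1 := enorm_integral_le_lintegral_enorm (μ := μ) f
  have h2 := ENNReal.lintegral_mul_le_Lp_mul_Lq μ (p := 2) (q := 2)
    (by constructor <;> norm_num) (f := fun a => ‖f a‖ₑ) (g := fun _ => 1) hf.enorm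
    aemeasurable_const
  simp only [Pi.mul_apply, mul_one, ENNReal.one_rpow, lintegral_const, one_mul] at h2
  have h3 := h1.trans h2
  have h4 := pow_le_pow_left' h3 2
  refine h4.trans (le_of_eq ?_)
  rw [mul_pow, ← ENNReal.rpow_natCast, ← ENNReal.rpow_natCast, ← ENNReal.rpow_mul,
    ← ENNReal.rpow_mul]
  norm_num
  rw [mul_comm]

theorem ae_mu_mem {η : ℝ → ℝ} (hc : Continuous η) : ∀ᵐ w ∂(mu η), w ∈ S η := by
  refine (ae_map_iff measurable_snd.aemeasurable (p := fun w => w ∈ S η)
    (isOpen_S η).measurableSet).2 ?_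
  filter_upwards [ae_tot hc] with q hq
  exact ⟨q.1, hq⟩

theorem aesm_of_hol {η : ℝ → ℝ} (hc : Continuous η) {G : ℂ → ℂ}
    (hG : DifferentiableOn ℂ G (S η)) : AEStronglyMeasurable G (mu η) := by
  have h1 := hG.continuousOn.aestronglyMeasurable (μ := mu η) (isOpen_S η).measurableSet
  rwa [Measure.restrict_eq_self_of_ae_mem (ae_mu_mem hc)] at h1

theorem integral_worm_eq {η : ℝ → ℝ} (hc : Continuous η) (h0 : ∀ t, 0 ≤ η t) {f : ℂ × ℂ → ℂ}
    (hf : AEStronglyMeasurable f (volume.restrict (worm η))) :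
    ∫ z in worm η, f z = (1 / 2 : ℂ) * ∫ p, f (coord p) ∂(parM η) := by
  have h1 : Measure.map coord (parM η) = (2 : ℝ≥0∞) • volume.restrict (worm η) := map_coord hc h0
  have h2 : ∫ p, f (coord p) ∂(parM η) = ∫ z, f z ∂(Measure.map coord (parM η)) := by
    rw [integral_map measurable_coord.aemeasurable]
    rw [h1]
    exact hf.smul_measure _
  rw [h2, h1, integral_smul_measure]
  simp

theorem exists_average {β : ℝ} {η : ℝ → ℝ} (_hβ : π / 2 < β) (h : Profile β η) {g : ℂ × ℂ → ℂ}
    (hg : DifferentiableOn ℂ g (worm η)) (hg2 : MemLp g 2 (volume.restrict (worm η))) :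
    ∃ G : ℂ → ℂ, DifferentiableOn ℂ G (S η) ∧ MemLp G 2 (mu η) ∧
      ∀ u : ℂ → ℂ, MemLp u 2 (mu η) →
        ∫ z in worm η, u (wc z) * conj (g z) = (π : ℂ) * ∫ w, u w * conj (G w) ∂(mu η) := by
  classical
  have hc : Continuous η := h.smooth.continuous
  have h0 := h.nonneg
  set G : ℂ → ℂ := fun w => if hw : ∃ t, w ∈ disc η t then avg g hw.choose w else 0 with hGdef
  have hG : ∀ t w, w ∈ disc η t → G w = avg g t w := by
    intro t w hw
    have hex : ∃ t, w ∈ disc η t := ⟨t, hw⟩
    rw [hGdef]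
    simp only [hex, dif_pos]
    exact avg_eq h.convex hc hg hex.choose_spec hw
  have hGd : DifferentiableOn ℂ G (S η) := by
    rintro w₀ ⟨t, ht⟩
    apply DifferentiableAt.differentiableWithinAt
    have h1 : DifferentiableAt ℂ (avg g t) w₀ :=
      (differentiableOn_avg hc hg t).differentiableAt ((isOpen_disc η t).mem_nhds ht)
    refine h1.congr_of_eventuallyEq ?_
    filter_upwards [(isOpen_disc η t).mem_nhds ht] with w hw
    exact hG t w hw
  have hGm := aesm_of_hol hc hGd
  -- the slices of `g ∘ coord`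
  have hslice : ∀ q ∈ tot η, Continuous fun α : ℝ => g (coord (α, q)) := by
    intro q hq
    rw [continuous_iff_continuousAt]
    intro α
    have h1 : ContinuousAt g (coord (α, q)) :=
      (hg.differentiableAt ((isOpen_worm hc).mem_nhds (coord_mem h0 hq))).continuousAt
    refine ContinuousAt.comp (f := fun α : ℝ => coord (α, q)) h1 ?_
    apply Continuous.continuousAt
    unfold coord
    fun_prop
  have hG2 : ∀ q ∈ tot η, G q.2 = (2 * π : ℂ)⁻¹ * ∫ α in Ioo (-π) π, g (coord (α, q)) := by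
    intro q hq
    rw [hG q.1 q.2 hq, avg_eq_coord]
  have hgc : AEStronglyMeasurable (fun p => g (coord p)) (parM η) := by
    have h1 : AEStronglyMeasurable g (Measure.map coord (parM η)) := by
      have h2 : Measure.map coord (parM η) = (2 : ℝ≥0∞) • volume.restrict (worm η) :=
        map_coord hc h0
      rw [h2]
      exact hg2.1.smul_measure _
    exact h1.comp_measurable measurable_coord
  have hgl : ∫⁻ p, ‖g (coord p)‖ₑ ^ 2 ∂(parM η) < ⊤ := by
    have h2 : Measure.map coord (parM η) = (2 : ℝ≥0∞) • volume.restrict (worm η) :=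
      map_coord hc h0
    have h3 : ∫⁻ p, ‖g (coord p)‖ₑ ^ 2 ∂(parM η)
        = ∫⁻ z, ‖g z‖ₑ ^ 2 ∂(Measure.map coord (parM η)) := by
      rw [lintegral_map' _ measurable_coord.aemeasurable]
      rw [h2]
      exact ((hg2.1.smul_measure _).enorm.pow_const 2)
    rw [h3, h2, lintegral_smul_measure]
    exact ENNReal.mul_lt_top (by norm_num) ((memLp_two_iff' hg2.1).1 hg2)
  have hGL : MemLp G 2 (mu η) := by
    rw [memLp_two_iff' hGm, mu, lintegral_map' (hGm.enorm.pow_const 2) measurable_snd.aemeasurable]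
    have h1 : ∫⁻ q, ‖G q.2‖ₑ ^ 2 ∂((expM.prod areaM).restrict (tot η))
        ≤ ∫⁻ q, ‖(2 * π : ℂ)⁻¹‖ₑ ^ 2 * (ENNReal.ofReal (2 * π) *
          ∫⁻ α in Ioo (-π) π, ‖g (coord (α, q))‖ₑ ^ 2) ∂((expM.prod areaM).restrict (tot η)) := by
      apply lintegral_mono_ae
      filter_upwards [ae_tot hc] with q hq
      rw [hG2 q hq, enorm_mul, mul_pow]
      gcongr
      have h2 := enorm_integral_sq_le (μ := volume.restrict (Ioo (-π) π))
        (f := fun α => g (coord (α, q))) (hslice q hq).aemeasurable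
      refine h2.trans (le_of_eq ?_)
      rw [Measure.restrict_apply MeasurableSet.univ, univ_inter, Real.volume_Ioo]
      congr 2
      ring
    refine h1.trans_lt ?_
    have h3 : ∫⁻ q, (∫⁻ α in Ioo (-π) π, ‖g (coord (α, q))‖ₑ ^ 2)
        ∂((expM.prod areaM).restrict (tot η)) = ∫⁻ p, ‖g (coord p)‖ₑ ^ 2 ∂(parM η) := by
      rw [parM, lintegral_prod_symm]
      exact hgc.enorm.pow_const 2
    rw [lintegral_const_mul' _ _ (ENNReal.pow_ne_top enorm_ne_top),
      lintegral_const_mul' _ _ ENNReal.ofReal_ne_top, h3]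
    exact ENNReal.mul_lt_top (ENNReal.pow_lt_top enorm_lt_top)
      (ENNReal.mul_lt_top ENNReal.ofReal_lt_top hgl)
  refine ⟨G, hGd, hGL, ?_⟩
  intro u hu
  -- `u ∘ wc` is square integrable
  have huw : MemLp (fun z => u (wc z)) 2 (volume.restrict (worm η)) := by
    have h1 : MemLp u 2 (Measure.map wc (volume.restrict (worm η))) := by
      rw [map_wc hc h0]
      exact hu.smul_measure (by simp)
    exact h1.comp_of_map measurable_wc.aemeasurable
  have hgconj : MemLp (fun z => conj (g z)) 2 (volume.restrict (worm η)) := by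
    rw [memLp_two_iff' (Complex.continuous_conj.comp_aestronglyMeasurable hg2.1)]
    have h1 := (memLp_two_iff' hg2.1).1 hg2
    refine lt_of_eq_of_lt (lintegral_congr fun z => ?_) h1
    rw [RCLike.enorm_conj]
  have hint : Integrable (fun z => u (wc z) * conj (g z)) (volume.restrict (worm η)) :=
    huw.integrable_mul hgconj
  rw [integral_worm_eq hc h0 hint.1]
  have hint2 : Integrable (fun p => u (wc (coord p)) * conj (g (coord p))) (parM η) := by
    have h2 : Measure.map coord (parM η) = (2 : ℝ≥0∞) • volume.restrict (worm η) :=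
      map_coord hc h0
    have h3 : Integrable (fun z => u (wc z) * conj (g z)) (Measure.map coord (parM η)) := by
      rw [h2]
      exact hint.smul_measure (by norm_num)
    exact h3.comp_measurable measurable_coord
  have h4 : ∫ p, u (wc (coord p)) * conj (g (coord p)) ∂(parM η)
      = ∫ q, (∫ α in Ioo (-π) π, u (wc (coord (α, q))) * conj (g (coord (α, q))))
        ∂((expM.prod areaM).restrict (tot η)) := by
    rw [parM] at hint2 ⊢
    exact integral_prod_symm _ hint2
  rw [h4]
  have h5 : ∫ q, (∫ α in Ioo (-π) π, u (wc (coord (α, q))) * conj (g (coord (α, q))))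
        ∂((expM.prod areaM).restrict (tot η))
      = ∫ q, (2 * π : ℂ) * (u q.2 * conj (G q.2)) ∂((expM.prod areaM).restrict (tot η)) := by
    apply integral_congr_ae
    filter_upwards [ae_tot hc] with q hq
    have h6 : ∀ α : ℝ, wc (coord (α, q)) = q.2 := fun α => wc_coord h0 hq
    simp_rw [h6]
    rw [integral_const_mul, integral_conj, hG2 q hq, map_mul, map_inv₀]
    have h7 : conj (2 * π : ℂ) = 2 * π := by
      have : (2 * π : ℂ) = ((2 * π : ℝ) : ℂ) := by push_cast; ring
      rw [this, Complex.conj_ofReal]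
    have h8 : (π : ℂ) ≠ 0 := by exact_mod_cast Real.pi_ne_zero
    rw [h7]
    field_simp
  rw [h5, integral_const_mul]
  have h9 : ∫ q, u q.2 * conj (G q.2) ∂((expM.prod areaM).restrict (tot η))
      = ∫ w, u w * conj (G w) ∂(mu η) := by
    rw [mu, integral_map measurable_snd.aemeasurable]
    rw [← mu]
    exact hu.1.mul (Complex.continuous_conj.comp_aestronglyMeasurable hGm)
  rw [h9]
  ring

end Pool.Agent.Worm
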