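import Pool.Agent.Worm.Slices

/-!
# The contradiction: cancellation over `m` turns
-/

open MeasureTheory Set Filter Topology Metric
open scoped Real ENNReal ComplexConjugate ContDiff

namespace Pool.Agent.Worm

theorem S0_bounds {b : ℝ} {w : ℂ} (hw : w ∈ S0 b) : w.re < 1 ∧ |w.im| < b + π / 2 := by
  obtain ⟨t, ht, h1, h2⟩ := hw
  constructor
  · have h3 : Real.exp w.re < 2 := by
      have := Real.cos_le_one (w.im - t)
      simp only [zero_mul, add_zero] at h2
      linarith
    by_contra hcon
    rw [not_lt] at hcon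
    have h4 : Real.exp 1 ≤ Real.exp w.re := Real.exp_le_exp.2 hcon
    have h5 := Real.add_one_lt_exp (one_ne_zero)
    linarith
  · have := abs_add_le (w.im - t) t
    rw [sub_add_cancel] at this
    linarith

theorem norm_exp_conj_mul (s w : ℂ) :
    ‖Complex.exp (s * conj w)‖ = Real.exp (s.re * w.re + s.im * w.im) := by
  rw [Complex.norm_exp]
  congr 1
  simp

theorem mu0_restrict (b : ℝ) : (mu0 b).restrict (S0 b) = mu0 b :=
  Measure.restrict_eq_self_of_ae_mem (ae_mem_S0_sl b)

theorem aesm_of_continuousOn {b : ℝ} {f : ℂ → ℂ} (h : ContinuousOn f (S0 b)) :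
    AEStronglyMeasurable f (mu0 b) := by
  rw [← mu0_restrict]
  exact h.aestronglyMeasurable (isOpen_S0_sl b).measurableSet

/-- integrability of `conj w * exp (s * conj w)` on the truncated worm -/
theorem integrable_conj_exp {b : ℝ} {s : ℂ} (hs : -1 < s.re) :
    Integrable (fun w : ℂ => conj w * Complex.exp (s * conj w)) (mu0 b) := by
  rcases le_or_gt b 0 with hb | hb
  · have : mu0 b = 0 := by
      have h1 : (fun w : ℂ => (1 : ℝ≥0∞)) = fun _ => 1 := rfl
      have h2 := lintegral_mu0 (b := b) (f := fun _ => 1) measurable_const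
      rw [Ioo_eq_empty (by linarith)] at h2
      simpa using h2
    rw [this]
    exact integrable_zero_measure
  set κ := s.re + 1 with hκ
  have hκ0 : 0 < κ := by linarith
  set B := b + π / 2 with hB
  have hB0 : 0 < B := by have := Real.pi_pos; positivity
  set D := |s.im| * B with hD
  have hD0 : 0 ≤ D := by positivity
  refine integrable_mu0_of_bound (C := Real.exp D * (κ⁻¹ + Real.exp κ + B * Real.exp κ)) ?_ ?_
  · exact Continuous.aestronglyMeasurable (by fun_prop)
  · intro w hw
    obtain ⟨h1, h2⟩ := S0_bounds hw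
    rw [norm_mul, RCLike.norm_conj, norm_exp_conj_mul]
    have h3 : s.im * w.im ≤ D := by
      calc s.im * w.im ≤ |s.im * w.im| := le_abs_self _
        _ = |s.im| * |w.im| := abs_mul _ _
        _ ≤ |s.im| * B := mul_le_mul_of_nonneg_left h2.le (abs_nonneg _)
    have h4 : Real.exp (s.re * w.re + s.im * w.im) ≤
        Real.exp D * (Real.exp (κ * w.re) * Real.exp (-w.re)) := by
      rw [← Real.exp_add, ← Real.exp_add]
      apply Real.exp_le_exp.2
      have : s.re * w.re = κ * w.re + -w.re := by rw [hκ]; ring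
      linarith
    have h5 : ‖w‖ ≤ |w.re| + B := (Complex.norm_le_abs_re_add_abs_im w).trans (by linarith)
    have h6 : |w.re| * Real.exp (κ * w.re) ≤ κ⁻¹ + Real.exp κ := by
      rcases le_or_gt w.re 0 with h0 | h0
      · rw [abs_of_nonpos h0]
        have h7 : κ * -w.re ≤ Real.exp (κ * -w.re) := by
          have := Real.add_one_le_exp (κ * -w.re); linarith
        have h8 : Real.exp (κ * -w.re) * Real.exp (κ * w.re) = 1 := by
          rw [← Real.exp_add]; simp
        have h9 : (κ * -w.re) * Real.exp (κ * w.re) ≤ 1 := by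
          calc (κ * -w.re) * Real.exp (κ * w.re)
              ≤ Real.exp (κ * -w.re) * Real.exp (κ * w.re) :=
                mul_le_mul_of_nonneg_right h7 (Real.exp_pos _).le
            _ = 1 := h8
        have h10 : -w.re * Real.exp (κ * w.re) ≤ κ⁻¹ := by
          rw [← one_div, le_div_iff₀ hκ0]
          linarith
        have := Real.exp_pos κ
        linarith
      · rw [abs_of_pos h0]
        have h7 : Real.exp (κ * w.re) ≤ Real.exp κ := Real.exp_le_exp.2 (by nlinarith)
        have h8 : 0 < κ⁻¹ := inv_pos.2 hκ0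
        have h9 := Real.exp_pos (κ * w.re)
        nlinarith
    have h7 : Real.exp (κ * w.re) ≤ Real.exp κ := Real.exp_le_exp.2 (by nlinarith)
    calc ‖w‖ * Real.exp (s.re * w.re + s.im * w.im)
        ≤ (|w.re| + B) * (Real.exp D * (Real.exp (κ * w.re) * Real.exp (-w.re))) :=
          mul_le_mul h5 h4 (Real.exp_pos _).le (by positivity)
      _ = Real.exp D * (|w.re| * Real.exp (κ * w.re) + B * Real.exp (κ * w.re)) *
            Real.exp (-w.re) := by ring
      _ ≤ _ := by
          refine mul_le_mul_of_nonneg_right (mul_le_mul_of_nonneg_left ?_ (Real.exp_pos _).le)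
            (Real.exp_pos _).le
          have := mul_le_mul_of_nonneg_left h7 hB0.le
          linarith

/-- integrability of `F w * exp (s * conj w)` on the truncated worm -/
theorem integrable_F_exp {b : ℝ} {F : ℂ → ℂ} {c : ℕ → ℂ} (h : Lim b F c) {s : ℂ}
    (hs : -1 < s.re) :
    Integrable (fun w : ℂ => F w * Complex.exp (s * conj w)) (mu0 b) := by
  have h0 := h.mem 0 (-s.re) (by simp; linarith)
  simp only [Finset.range_zero, Finset.sum_empty, sub_zero] at h0
  set B := b + π / 2 with hB
  set D := |s.im| * |B| with hD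
  have hmeasF : AEStronglyMeasurable F (mu0 b) := aesm_of_continuousOn h.hol.continuousOn
  have hint : Integrable (fun w : ℂ => ‖F w‖ ^ 2 * Real.exp (-2 * (-s.re) * w.re)) (mu0 b) := by
    refine ⟨(hmeasF.norm.pow 2).mul (Continuous.aestronglyMeasurable (by fun_prop)), ?_⟩
    unfold HasFiniteIntegral
    refine lt_of_le_of_lt (le_of_eq ?_) (lt_top_iff_ne_top.2 h0)
    refine lintegral_congr fun w => ?_
    rw [enorm_mul, enorm_pow, enorm_norm, Real.enorm_of_nonneg (Real.exp_pos _).le]
  have hint2 : Integrable (fun w : ℂ => Real.exp D * (1 +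
      ‖F w‖ ^ 2 * Real.exp (-2 * (-s.re) * w.re))) (mu0 b) :=
    ((integrable_const (1 : ℝ)).add hint).const_mul _
  refine hint2.mono' (hmeasF.mul (Continuous.aestronglyMeasurable (by fun_prop))) ?_
  filter_upwards [ae_mem_S0_sl b] with w hw
  obtain ⟨h1, h2⟩ := S0_bounds hw
  rw [norm_mul, norm_exp_conj_mul]
  have h3 : s.im * w.im ≤ D := by
    calc s.im * w.im ≤ |s.im * w.im| := le_abs_self _
      _ = |s.im| * |w.im| := abs_mul _ _
      _ ≤ |s.im| * |B| := mul_le_mul_of_nonneg_left (h2.le.trans (le_abs_self B)) (abs_nonneg _)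
  have h4 : Real.exp (s.re * w.re + s.im * w.im) ≤ Real.exp D * Real.exp (s.re * w.re) := by
    rw [← Real.exp_add]
    exact Real.exp_le_exp.2 (by linarith)
  have h5 : Real.exp (-2 * (-s.re) * w.re) = Real.exp (s.re * w.re) ^ 2 := by
    rw [← Real.exp_nat_mul]; congr 1; push_cast; ring
  rw [h5]
  set e := Real.exp (s.re * w.re)
  have he : 0 < e := Real.exp_pos _
  calc ‖F w‖ * Real.exp (s.re * w.re + s.im * w.im) ≤ ‖F w‖ * (Real.exp D * e) :=
        mul_le_mul_of_nonneg_left h4 (norm_nonneg _)
    _ = Real.exp D * (‖F w‖ * e) := by ring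
    _ ≤ Real.exp D * (1 + ‖F w‖ ^ 2 * e ^ 2) := by
        refine mul_le_mul_of_nonneg_left ?_ (Real.exp_pos _).le
        nlinarith [sq_nonneg (‖F w‖ * e - 1), sq_nonneg (‖F w‖ * e)]

theorem lg_add_two_pi (t : ℝ) (ζ : ℂ) : lg (t + 2 * π) ζ = lg t ζ + 2 * π * Complex.I := by
  simp only [lg]
  push_cast
  ring

theorem lim_contra (m : ℕ) (hm : 2 ≤ m) {F : ℂ → ℂ} {c : ℕ → ℂ} (h : Lim (m * π) F c)
    (hper : ∀ t : ℝ, |t| < m * π → |t + 2 * π| < m * π → ∀ w ∈ disc (fun _ => 0) t,
      F (w + 2 * π * Complex.I) = F w) : False := by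
  have hpi := Real.pi_pos
  have hm' : (2 : ℝ) ≤ m := by exact_mod_cast hm
  have hm0 : (0 : ℝ) < m := by linarith
  have hmC : (m : ℂ) ≠ 0 := by
    have : m ≠ 0 := by omega
    exact_mod_cast this
  set b : ℝ := m * π with hb
  have hb0 : 0 < b := by positivity
  set s : ℂ := 1 / m - 1 - Complex.I with hs
  have hsre : s.re = 1 / m - 1 := by
    have h1 : ((1 : ℂ) / m) = ((1 / m : ℝ) : ℂ) := by push_cast; rfl
    rw [hs, h1]
    simp
  have hsre' : -1 < s.re := by
    rw [hsre]
    have : 0 < 1 / (m : ℝ) := by positivity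
    linarith
  have i1 := integrable_F_exp h hsre'
  have i2 := integrable_conj_exp (b := b) hsre'
  obtain ⟨a1, a2, a3⟩ := integral_mu0 i1
  obtain ⟨b1, b2, b3⟩ := integral_mu0 i2
  have horth := h.orth s hsre'
  have hsplit : ∫ w, F w * Complex.exp (s * conj w) ∂(mu0 b) =
      ∫ w, conj w * Complex.exp (s * conj w) ∂(mu0 b) := by
    rw [← sub_eq_zero, ← integral_sub i1 i2, ← horth]
    refine integral_congr_ae (Eventually.of_forall fun w => ?_)
    simp only
    ring
  -- first integral vanishes
  set K : ℝ → ℂ := fun t => (Real.exp t : ℂ) *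
    ∫ w in disc (fun _ => 0) t, F w * Complex.exp (s * conj w) ∂areaM with hK
  set q : ℂ := (Complex.exp (2 * π * Complex.I / m))⁻¹ with hq
  have hshift : ∀ t : ℝ, |t| < b → |t + 2 * π| < b → K (t + 2 * π) = q * K t := by
    intro t ht ht2
    simp only [hK]
    rw [disc0_eq_image, disc0_eq_image,
      integral_lg (t + 2 * π) measurableSet_ball Subset.rfl
        (fun w => F w * Complex.exp (s * conj w)),
      integral_lg t measurableSet_ball Subset.rfl (fun w => F w * Complex.exp (s * conj w))]
    have e1 : ∀ ζ ∈ ball (1 : ℂ) 1,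
        F (lg (t + 2 * π) ζ) * Complex.exp (s * conj (lg (t + 2 * π) ζ)) =
        Complex.exp (-(2 * π * Complex.I * s)) *
          (F (lg t ζ) * Complex.exp (s * conj (lg t ζ))) := by
      intro ζ hζ
      rw [lg_add_two_pi, hper t ht ht2 (lg t ζ) (by rw [disc0_eq_image]; exact mem_image_of_mem _ hζ)]
      have e2 : s * conj (lg t ζ + 2 * π * Complex.I) =
          s * conj (lg t ζ) + -(2 * π * Complex.I * s) := by
        rw [map_add, map_mul, map_mul, Complex.conj_I, Complex.conj_ofReal, Complex.conj_ofNat]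
        ring
      rw [e2, Complex.exp_add]
      ring
    rw [setIntegral_congr_fun measurableSet_ball e1, integral_const_mul]
    have e3 : ((Real.exp (t + 2 * π) : ℝ) : ℂ) * Complex.exp (-(2 * π * Complex.I * s)) =
        q * (Real.exp t : ℂ) := by
      rw [hq, ← Complex.exp_neg, Complex.ofReal_exp, Complex.ofReal_exp, ← Complex.exp_add,
        ← Complex.exp_add]
      have e4 : ((t + 2 * π : ℝ) : ℂ) + -(2 * π * Complex.I * s) =
          (-(2 * π * Complex.I / m) + (t : ℂ)) + 2 * π * Complex.I := by
        rw [hs]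
        push_cast
        have : Complex.I * Complex.I = -1 := Complex.I_mul_I
        linear_combination (2 * (π : ℂ)) * this
      rw [e4, Complex.exp_add, Complex.exp_two_pi_mul_I, mul_one]
    rw [← mul_assoc, e3, mul_assoc]
  have hKint : IntervalIntegrable K volume (-b) b := by
    rw [intervalIntegrable_iff_integrableOn_Ioo_of_le (by linarith)]
    exact a2
  set a : ℕ → ℝ := fun k => -b + 2 * π * k with ha
  have ha0 : a 0 = -b := by simp [ha]
  have ham : a m = b := by simp only [ha, hb]; ring
  have hamono : ∀ i j : ℕ, i ≤ j → a i ≤ a j := by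
    intro i j hij
    simp only [ha]
    have : (i : ℝ) ≤ j := by exact_mod_cast hij
    nlinarith
  have hIk : ∀ k < m, IntervalIntegrable K volume (a k) (a (k + 1)) := by
    intro k hk
    refine hKint.mono_set ?_
    rw [uIcc_of_le (hamono k (k + 1) (by omega)), uIcc_of_le (by linarith)]
    refine Icc_subset_Icc ?_ ?_
    · rw [← ha0]; exact hamono 0 k (by omega)
    · rw [← ham]; exact hamono (k + 1) m (by omega)
  have hsum := intervalIntegral.sum_integral_adjacent_intervals (a := a) (n := m) hIk
  have hstep : ∀ k, k + 1 < m → ∫ t in a (k + 1)..a (k + 2), K t = q * ∫ t in a k..a (k + 1), K t := by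
    intro k hk
    have e1 : ∫ t in a (k + 1)..a (k + 2), K t = ∫ t in a k..a (k + 1), K (t + 2 * π) := by
      rw [intervalIntegral.integral_comp_add_right (fun t => K t)]
      congr 1 <;> simp only [ha] <;> push_cast <;> ring
    rw [e1, ← intervalIntegral.integral_const_mul]
    rw [intervalIntegral.integral_of_le (hamono k (k + 1) (by omega)),
      intervalIntegral.integral_of_le (hamono k (k + 1) (by omega)),
      integral_Ioc_eq_integral_Ioo, integral_Ioc_eq_integral_Ioo]
    refine setIntegral_congr_fun measurableSet_Ioo fun t ht => ?_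
    have g1 : -b ≤ a k := by rw [← ha0]; exact hamono 0 k (by omega)
    have g2 : a (k + 1) + 2 * π ≤ b := by
      have : a (k + 1) + 2 * π = a (k + 2) := by simp only [ha]; push_cast; ring
      rw [this, ← ham]; exact hamono _ _ (by omega)
    apply hshift t
    · rw [abs_lt]; exact ⟨by linarith [ht.1], by linarith [ht.2]⟩
    · rw [abs_lt]; exact ⟨by linarith [ht.1], by linarith [ht.2]⟩
  have hpow : ∀ k < m, ∫ t in a k..a (k + 1), K t = q ^ k * ∫ t in a 0..a 1, K t := by
    intro k
    induction k with
    | zero => intro _; simp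
    | succ k ih =>
      intro hk
      rw [hstep k hk, ih (by omega), pow_succ]
      ring
  have hprim : IsPrimitiveRoot q m := by
    have := (Complex.isPrimitiveRoot_exp m (by omega)).inv
    exact this
  have hzero : ∫ t in Ioo (-b) b, K t = 0 := by
    rw [← integral_Ioc_eq_integral_Ioo, ← intervalIntegral.integral_of_le (by linarith)]
    rw [ha0, ham] at hsum
    rw [← hsum, Finset.sum_congr rfl (fun k hk => hpow k (Finset.mem_range.1 hk)),
      ← Finset.sum_mul, hprim.geom_sum_eq_zero (by omega), zero_mul]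
  -- second integral
  set α : ℝ := 1 - 1 / m with hα
  have hα0 : 0 < α := by
    rw [hα, sub_pos, div_lt_one hm0]; linarith
  have hsecond : ∫ w, conj w * Complex.exp (s * conj w) ∂(mu0 b) =
      ∫ t in Ioo (-b) b, (-(π * Complex.I) : ℂ) * ((t : ℂ) * Complex.exp (Complex.I * α * t)) := by
    rw [b3]
    refine integral_congr_ae ?_
    filter_upwards [b1] with t ht
    have e1 : ∀ w : ℂ, conj w * Complex.exp (s * conj w) = conj (w * Complex.exp (conj s * w)) := by
      intro w
      rw [map_mul, ← Complex.exp_conj, map_mul, Complex.conj_conj]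
    have e2 : IntegrableOn (fun w => w * Complex.exp (conj s * w)) (disc (fun _ => 0) t) areaM := by
      refine Integrable.mono' ht.norm (Continuous.aestronglyMeasurable (by fun_prop)) ?_
      refine Eventually.of_forall fun w => ?_
      rw [e1, RCLike.norm_conj]
    have e3 : ∫ w in disc (fun _ => 0) t, conj w * Complex.exp (s * conj w) ∂areaM =
        π * conj ((t * Complex.I) * Complex.exp (conj s * (t * Complex.I))) := by
      simp_rw [e1]
      exact disc_mean t (by fun_prop) e2
    have e0 : conj ((t : ℂ) * Complex.I) = t * -Complex.I := by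
      rw [map_mul, Complex.conj_I, Complex.conj_ofReal]
    rw [e3, map_mul, e0, ← Complex.exp_conj, map_mul, Complex.conj_conj, e0, Complex.ofReal_exp]
    have e4 : Complex.exp t * (π * (t * -Complex.I * Complex.exp (s * (t * -Complex.I)))) =
        (-(π * Complex.I)) * (t * (Complex.exp t * Complex.exp (s * (t * -Complex.I)))) := by ring
    rw [e4, ← Complex.exp_add]
    have e5 : (t : ℂ) + s * (t * -Complex.I) = Complex.I * α * t := by
      rw [hs, hα]
      push_cast
      have : Complex.I * Complex.I = -1 := Complex.I_mul_I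
      linear_combination (t : ℂ) * this
    rw [e5]
  have hder : ∀ t : ℝ, HasDerivAt (fun t : ℝ => Complex.exp (Complex.I * α * t) *
      (1 / (α : ℂ) ^ 2 - Complex.I * t / α)) ((t : ℂ) * Complex.exp (Complex.I * α * t)) t := by
    intro t
    have hαC : (α : ℂ) ≠ 0 := by exact_mod_cast hα0.ne'
    have h1 : HasDerivAt (fun t : ℝ => Complex.I * α * (t : ℂ)) (Complex.I * α) t := by
      have := (Complex.ofRealCLM.hasDerivAt (x := t)).const_mul (Complex.I * α)
      simpa using this
    have h2 : HasDerivAt (fun t : ℝ => 1 / (α : ℂ) ^ 2 - Complex.I * (t : ℂ) / α)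
        (-(Complex.I / α)) t := by
      have := (((Complex.ofRealCLM.hasDerivAt (x := t)).const_mul Complex.I).div_const
        (α : ℂ)).const_sub (1 / (α : ℂ) ^ 2)
      simpa using this
    refine (h1.cexp.mul h2).congr_deriv ?_
    field_simp
    have : Complex.I ^ 2 = -1 := Complex.I_sq
    linear_combination (-(t : ℂ) * α) * this
  have hval : ∫ t in Ioo (-b) b, ((t : ℂ) * Complex.exp (Complex.I * α * t)) ≠ 0 := by
    have hαC : (α : ℂ) ≠ 0 := by exact_mod_cast hα0.ne'
    have hbC : (b : ℂ) ≠ 0 := by exact_mod_cast hb0.ne'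
    rw [← integral_Ioc_eq_integral_Ioo, ← intervalIntegral.integral_of_le (by linarith),
      intervalIntegral.integral_eq_sub_of_hasDerivAt (fun t _ => hder t)
        (Continuous.intervalIntegrable (by fun_prop) _ _)]
    have g1 : α * b = (m - 1 : ℕ) * π := by
      rw [hα, hb, Nat.cast_sub (by omega)]
      push_cast
      field_simp
    have g2 : Complex.exp (Complex.I * α * (b : ℝ)) = (-1) ^ (m - 1) := by
      have : Complex.I * α * (b : ℝ) = (m - 1 : ℕ) * (π * Complex.I) := by
        have g3 : ((α * b : ℝ) : ℂ) = ((m - 1 : ℕ) * π : ℝ) := by rw [g1]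
        push_cast at g3 ⊢
        linear_combination Complex.I * g3
      rw [this, Complex.exp_nat_mul, Complex.exp_pi_mul_I]
    have g4 : Complex.exp (Complex.I * α * ((-b : ℝ) : ℂ)) = (-1) ^ (m - 1) := by
      have : Complex.I * α * ((-b : ℝ) : ℂ) = -(Complex.I * α * (b : ℝ)) := by push_cast; ring
      rw [this, Complex.exp_neg, g2, ← inv_pow]
      norm_num
    rw [g2, g4]
    have g5 : (-1 : ℂ) ^ (m - 1) * (1 / (α : ℂ) ^ 2 - Complex.I * (b : ℝ) / α) -
        (-1) ^ (m - 1) * (1 / (α : ℂ) ^ 2 - Complex.I * ((-b : ℝ) : ℂ) / α) =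
        (-1) ^ (m - 1) * (-(2 * Complex.I * b / α)) := by
      push_cast; ring
    rw [g5]
    refine mul_ne_zero (pow_ne_zero _ (by norm_num)) (neg_ne_zero.2 ?_)
    exact div_ne_zero (mul_ne_zero (mul_ne_zero two_ne_zero Complex.I_ne_zero) hbC) hαC
  rw [hsecond, integral_const_mul, a3] at hsplit
  have hfinal : (-(π * Complex.I) : ℂ) *
      ∫ t in Ioo (-b) b, ((t : ℂ) * Complex.exp (Complex.I * α * t)) = 0 := by
    rw [← hsplit]
    exact hzero
  rcases mul_eq_zero.1 hfinal with h1 | h1
  · rw [neg_eq_zero, mul_eq_zero] at h1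
    rcases h1 with h1 | h1
    · exact Real.pi_ne_zero (by exact_mod_cast h1)
    · exact Complex.I_ne_zero h1
  · exact hval h1

end Pool.Agent.Worm
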