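import Pool.Agent.Worm.Profile
import Pool.Agent.Worm.Meas
import Pool.Agent.H62.Area

/-!
# Coordinates on the worm
-/

open MeasureTheory Set
open scoped Real ENNReal ComplexConjugate ContDiff Topology

namespace Pool.Agent.Worm

/-- the algebraic identity behind the coordinates -/
theorem normSq_exp_sub (x y t : ℝ) :
    ‖-Complex.exp (x + y * Complex.I) + Complex.exp (t * Complex.I)‖ ^ 2
      = Real.exp x ^ 2 - 2 * Real.exp x * Real.cos (y - t) + 1 := by
  rw [← Complex.normSq_eq_norm_sq, Complex.normSq_apply]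
  have h1 : Complex.exp (x + y * Complex.I)
      = ((Real.exp x * Real.cos y : ℝ) : ℂ) + ((Real.exp x * Real.sin y : ℝ) : ℂ) * Complex.I := by
    rw [Complex.exp_add, Complex.exp_mul_I, ← Complex.ofReal_exp, ← Complex.ofReal_cos,
      ← Complex.ofReal_sin]
    push_cast
    ring
  have h2 : Complex.exp (t * Complex.I)
      = ((Real.cos t : ℝ) : ℂ) + ((Real.sin t : ℝ) : ℂ) * Complex.I := by
    rw [Complex.exp_mul_I, ← Complex.ofReal_cos, ← Complex.ofReal_sin]
  rw [h1, h2]
  simp only [Complex.add_re, Complex.neg_re, Complex.add_im, Complex.neg_im, Complex.ofReal_re,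
    Complex.ofReal_im, Complex.mul_re, Complex.mul_im, Complex.I_re, Complex.I_im]
  rw [Real.cos_sub]
  nlinarith [Real.sin_sq_add_cos_sq y, Real.sin_sq_add_cos_sq t, Real.exp_pos x,
    congrArg (fun u => Real.exp x ^ 2 * u) (Real.sin_sq_add_cos_sq y)]

/-- membership in the slice in terms of `e^w` -/
theorem mem_disc_iff_coord {η : ℝ → ℝ} {t : ℝ} {w : ℂ} :
    w ∈ disc η t ↔ |w.im - t| < π / 2 ∧
      ‖-Complex.exp w + Complex.exp (t * Complex.I)‖ ^ 2 < 1 - η t := by
  have h1 := normSq_exp_sub w.re w.im t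
  rw [Complex.re_add_im] at h1
  rw [h1]
  simp only [disc, Set.mem_ofPred_eq]
  refine and_congr_right fun _ => ?_
  have hx := Real.exp_pos w.re
  have h2 : Real.exp w.re * Real.exp (-w.re) = 1 := by
    rw [← Real.exp_add, add_neg_cancel, Real.exp_zero]
  constructor
  · intro h
    have h3 := mul_lt_mul_of_pos_left h hx
    have h4 : Real.exp w.re * (Real.exp w.re + η t * Real.exp (-w.re))
        = Real.exp w.re ^ 2 + η t := by
      linear_combination η t * h2
    nlinarith
  · intro h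
    by_contra hcon
    push Not at hcon
    have h3 := mul_le_mul_of_nonneg_left hcon hx.le
    have h4 : Real.exp w.re * (Real.exp w.re + η t * Real.exp (-w.re))
        = Real.exp w.re ^ 2 + η t := by
      linear_combination η t * h2
    nlinarith

theorem norm_mul_unit (z : ℂ) (t : ℝ) :
    ‖-z * Complex.exp (-(t : ℂ) * Complex.I) - 1‖ = ‖z + Complex.exp (t * Complex.I)‖ := by
  have h1 : -z * Complex.exp (-(t : ℂ) * Complex.I) - 1
      = -(z + Complex.exp (t * Complex.I)) * Complex.exp (((-t : ℝ) : ℂ) * Complex.I) := by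
    have h2 : Complex.exp (t * Complex.I) * Complex.exp (((-t : ℝ) : ℂ) * Complex.I) = 1 := by
      rw [← Complex.exp_add]
      have : (t : ℂ) * Complex.I + ((-t : ℝ) : ℂ) * Complex.I = 0 := by
        push_cast
        ring
      rw [this, Complex.exp_zero]
    push_cast at h2 ⊢
    linear_combination h2
  rw [h1, norm_mul, Complex.norm_exp_ofReal_mul_I, mul_one, norm_neg]

/-- the normalised first coordinate has positive real part -/
theorem re_pos_of_worm {η : ℝ → ℝ} (h0 : ∀ t, 0 ≤ η t) {z : ℂ × ℂ} (hz : z ∈ worm η) :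
    0 < (-z.1 * Complex.exp (-(theta z : ℂ) * Complex.I)).re := by
  have h1 : ‖-z.1 * Complex.exp (-(theta z : ℂ) * Complex.I) - 1‖ ^ 2 < 1 := by
    rw [norm_mul_unit]
    linarith [hz.2, h0 (theta z)]
  have h2 : ‖-z.1 * Complex.exp (-(theta z : ℂ) * Complex.I) - 1‖ < 1 := by
    nlinarith [norm_nonneg (-z.1 * Complex.exp (-(theta z : ℂ) * Complex.I) - 1)]
  have h3 := (abs_le.1 (Complex.abs_re_le_norm
    (-z.1 * Complex.exp (-(theta z : ℂ) * Complex.I) - 1))).1
  rw [Complex.sub_re, Complex.one_re] at h3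
  linarith

theorem exp_wc {η : ℝ → ℝ} (h0 : ∀ t, 0 ≤ η t) {z : ℂ × ℂ} (hz : z ∈ worm η) :
    Complex.exp (wc z) = -z.1 := by
  have h1 := re_pos_of_worm h0 hz
  have h2 : -z.1 * Complex.exp (-(theta z : ℂ) * Complex.I) ≠ 0 := by
    intro h
    rw [h] at h1
    simp at h1
  rw [wc, Complex.exp_add, Complex.exp_log h2, mul_assoc, ← Complex.exp_add]
  have : -(theta z : ℂ) * Complex.I + theta z * Complex.I = 0 := by ring
  rw [this, Complex.exp_zero, mul_one]

theorem abs_im_wc_sub {η : ℝ → ℝ} (h0 : ∀ t, 0 ≤ η t) {z : ℂ × ℂ} (hz : z ∈ worm η) :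
    |(wc z).im - theta z| < π / 2 := by
  have h1 := re_pos_of_worm h0 hz
  have h2 : (wc z).im - theta z
      = (-z.1 * Complex.exp (-(theta z : ℂ) * Complex.I)).arg := by
    rw [wc]
    simp [Complex.log_im]
  rw [h2, Complex.abs_arg_lt_pi_div_two_iff]
  exact Or.inl h1

theorem wc_mem {η : ℝ → ℝ} (h0 : ∀ t, 0 ≤ η t) {z : ℂ × ℂ} (hz : z ∈ worm η) :
    wc z ∈ disc η (theta z) := by
  rw [mem_disc_iff_coord, exp_wc h0 hz, neg_neg]
  exact ⟨abs_im_wc_sub h0 hz, hz.2⟩

theorem neg_exp_wc {η : ℝ → ℝ} (h0 : ∀ t, 0 ≤ η t) {z : ℂ × ℂ} (hz : z ∈ worm η) :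
    -Complex.exp (wc z) = z.1 := by
  rw [exp_wc h0 hz, neg_neg]

theorem theta_coord (α : ℝ) (p : ℝ × ℂ) : theta (coord (α, p)) = p.1 := by
  simp only [theta, coord, Complex.norm_exp]
  have : (((p.1 / 2 : ℝ) : ℂ) + (α : ℂ) * Complex.I).re = p.1 / 2 := by simp
  rw [this, ← Real.exp_nat_mul, Real.log_exp]
  push_cast
  ring

theorem coord_mem_iff {η : ℝ → ℝ} {α : ℝ} {p : ℝ × ℂ} :
    coord (α, p) ∈ worm η ↔
      ‖-Complex.exp p.2 + Complex.exp (p.1 * Complex.I)‖ ^ 2 < 1 - η p.1 := by
  simp only [worm, Set.mem_ofPred_eq, theta_coord]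
  simp only [coord]
  constructor
  · exact fun h => h.2
  · exact fun h => ⟨Complex.exp_ne_zero _, h⟩

theorem coord_mem {η : ℝ → ℝ} (h0 : ∀ t, 0 ≤ η t) {α : ℝ} {p : ℝ × ℂ} (hp : p ∈ tot η) :
    coord (α, p) ∈ worm η :=
  have _ := h0
  coord_mem_iff.2 (mem_disc_iff_coord.1 hp).2

/-- two logarithms with close imaginary parts agree -/
theorem eq_of_exp_eq {a b : ℂ} (h : Complex.exp a = Complex.exp b) (hab : |a.im - b.im| < 2 * π) :
    a = b := by
  obtain ⟨n, hn⟩ := Complex.exp_eq_exp_iff_exists_int.1 h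
  have h1 : a.im - b.im = n * (2 * π) := by
    rw [hn]
    simp
  have hn0 : n = 0 := by
    by_contra hne
    have h2 : (1 : ℝ) ≤ |(n : ℝ)| := by exact_mod_cast Int.one_le_abs hne
    rw [h1, abs_mul, abs_of_pos (by positivity : (0 : ℝ) < 2 * π)] at hab
    nlinarith [Real.pi_pos]
  rw [hn, hn0]
  simp

theorem wc_coord {η : ℝ → ℝ} (h0 : ∀ t, 0 ≤ η t) {α : ℝ} {p : ℝ × ℂ} (hp : p ∈ tot η) :
    wc (coord (α, p)) = p.2 := by
  have h1 := coord_mem h0 (α := α) hp
  apply eq_of_exp_eq
  · rw [exp_wc h0 h1]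
    simp [coord]
  · have h2 := abs_im_wc_sub h0 h1
    rw [theta_coord] at h2
    have h3 : |p.2.im - p.1| < π / 2 := hp.1
    rw [abs_lt] at h2 h3 ⊢
    constructor <;> linarith [Real.pi_pos, h2.1, h2.2, h3.1, h3.2]

theorem logBranch_eq {η : ℝ → ℝ} (h0 : ∀ t, 0 ≤ η t) {L : ℂ × ℂ → ℂ} (hL : IsLogBranch η L)
    {z : ℂ × ℂ} (hz : z ∈ worm η) : L z = wc z + π * Complex.I := by
  obtain ⟨h1, h2⟩ := hL z hz
  apply eq_of_exp_eq
  · rw [h1, Complex.exp_add, Complex.exp_pi_mul_I, exp_wc h0 hz]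
    ring
  · have h3 := abs_im_wc_sub h0 hz
    have h4 : (wc z + π * Complex.I).im = (wc z).im + π := by simp
    rw [h4]
    rw [abs_lt] at h2 h3 ⊢
    constructor <;> linarith [Real.pi_pos, h2.1, h2.2, h3.1, h3.2]

theorem isLogBranch_wc {η : ℝ → ℝ} (h0 : ∀ t, 0 ≤ η t) :
    IsLogBranch η (fun z => wc z + π * Complex.I) := by
  intro z hz
  refine ⟨?_, ?_⟩
  · rw [Complex.exp_add, Complex.exp_pi_mul_I, exp_wc h0 hz]
    ring
  · have h3 := abs_im_wc_sub h0 hz
    have h4 : (wc z + π * Complex.I).im - (π + theta z) = (wc z).im - theta z := by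
      simp
      ring
    rwa [h4]

theorem differentiableOn_wc {η : ℝ → ℝ} (hc : Continuous η) (h0 : ∀ t, 0 ≤ η t) :
    DifferentiableOn ℂ wc (worm η) := by
  intro z₀ hz₀
  apply DifferentiableAt.differentiableWithinAt
  have ho : worm η ∈ 𝓝 z₀ := (isOpen_worm hc).mem_nhds hz₀
  set u : ℂ × ℂ → ℂ := fun z => -z.1 * Complex.exp (-(theta z₀ : ℂ) * Complex.I) with hu
  set g : ℂ × ℂ → ℂ := fun z => Complex.log (u z) + theta z₀ * Complex.I with hg
  have hud : DifferentiableAt ℂ u z₀ := by
    rw [hu]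
    fun_prop
  have hu0 : 0 < (u z₀).re := re_pos_of_worm h0 hz₀
  have hgd : DifferentiableAt ℂ g z₀ :=
    (hud.clog (Or.inl hu0)).add (differentiableAt_const _)
  refine hgd.congr_of_eventuallyEq ?_
  have h1 : ∀ᶠ z in 𝓝 z₀, 0 < (u z).re :=
    (Complex.continuous_re.continuousAt.comp hud.continuousAt).eventually (lt_mem_nhds hu0)
  have h2 : ∀ᶠ z in 𝓝 z₀, |theta z - theta z₀| < π := by
    have hct : ContinuousAt theta z₀ := continuousOn_theta.continuousAt (isOpen_ne.mem_nhds hz₀.1)
    have h3 := Metric.continuousAt_iff.1 hct π Real.pi_pos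
    obtain ⟨δ, hδ, h4⟩ := h3
    filter_upwards [Metric.ball_mem_nhds z₀ hδ] with z hz
    have := h4 hz
    rwa [Real.dist_eq] at this
  filter_upwards [h1, h2, ho] with z hz1 hz2 hz3
  have hne : u z ≠ 0 := by
    intro h
    rw [h] at hz1
    simp at hz1
  apply eq_of_exp_eq
  · rw [exp_wc h0 hz3, hg]
    simp only
    rw [Complex.exp_add, Complex.exp_log hne, hu]
    simp only
    rw [mul_assoc, ← Complex.exp_add]
    have : -(theta z₀ : ℂ) * Complex.I + theta z₀ * Complex.I = 0 := by ring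
    rw [this, Complex.exp_zero, mul_one]
  · have h5 := abs_im_wc_sub h0 hz3
    have h6 : |(g z).im - theta z₀| < π / 2 := by
      have h7 : (g z).im - theta z₀ = (u z).arg := by
        rw [hg]
        simp [Complex.log_im]
      rw [h7, Complex.abs_arg_lt_pi_div_two_iff]
      exact Or.inl hz1
    rw [abs_lt] at h5 h6 hz2 ⊢
    constructor <;> linarith [Real.pi_pos, h5.1, h5.2, h6.1, h6.2, hz2.1, hz2.2]

/-! ### The measure identity -/

theorem measurable_coord : Measurable coord := by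
  unfold coord
  fun_prop

theorem injOn_neg_exp_disc (η : ℝ → ℝ) (t : ℝ) :
    InjOn (fun w : ℂ => -Complex.exp w) (disc η t) := by
  intro a ha b hb hab
  apply eq_of_exp_eq (neg_injective hab)
  have h1 : |a.im - t| < π / 2 := ha.1
  have h2 : |b.im - t| < π / 2 := hb.1
  rw [abs_lt] at h1 h2 ⊢
  constructor <;> linarith [Real.pi_pos, h1.1, h1.2, h2.1, h2.2]

/-- the image of the slice is the round disc -/
theorem image_disc {η : ℝ → ℝ} (h0 : ∀ t, 0 ≤ η t) (t : ℝ) :
    (fun w : ℂ => -Complex.exp w) '' disc η t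
      = {z : ℂ | ‖z + Complex.exp (t * Complex.I)‖ ^ 2 < 1 - η t} := by
  ext z
  constructor
  · rintro ⟨w, hw, rfl⟩
    exact (mem_disc_iff_coord.1 hw).2
  · intro hz
    have hzw : (z, Complex.exp ((t / 2 : ℝ) + ((0 : ℝ) : ℂ) * Complex.I)) ∈ worm η := by
      refine ⟨Complex.exp_ne_zero _, ?_⟩
      have h1 : theta (z, Complex.exp ((t / 2 : ℝ) + ((0 : ℝ) : ℂ) * Complex.I)) = t := by
        have := theta_coord 0 (t, (0 : ℂ))
        simpa [theta, coord] using this
      rw [h1]
      exact hz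
    have h1 : theta (z, Complex.exp ((t / 2 : ℝ) + ((0 : ℝ) : ℂ) * Complex.I)) = t := by
      have := theta_coord 0 (t, (0 : ℂ))
      simpa [theta, coord] using this
    refine ⟨wc (z, Complex.exp ((t / 2 : ℝ) + ((0 : ℝ) : ℂ) * Complex.I)), ?_, ?_⟩
    · have := wc_mem h0 hzw
      rwa [h1] at this
    · exact neg_exp_wc h0 hzw

/-- change of variables `z₁ = -e^w` -/
theorem lintegral_slice {η : ℝ → ℝ} (h0 : ∀ t, 0 ≤ η t) (t : ℝ) (g : ℂ → ℝ≥0∞) :
    ∫⁻ z in {z : ℂ | ‖z + Complex.exp (t * Complex.I)‖ ^ 2 < 1 - η t}, g z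
      = ∫⁻ w in disc η t, ENNReal.ofReal (Real.exp (2 * w.re)) * g (-Complex.exp w) := by
  rw [← image_disc h0 t]
  have hd : ∀ w ∈ disc η t, HasFDerivWithinAt (fun w : ℂ => -Complex.exp w)
      ((ContinuousLinearMap.smulRight (1 : ℂ →L[ℂ] ℂ) (-Complex.exp w)).restrictScalars ℝ :
      ℂ →L[ℝ] ℂ) (disc η t) w := by
    intro w _
    have hd : HasDerivAt (fun w : ℂ => -Complex.exp w) (-Complex.exp w) w :=
      (Complex.hasDerivAt_exp w).neg
    exact (hd.hasFDerivAt.restrictScalars ℝ).hasFDerivWithinAt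
  rw [lintegral_image_eq_lintegral_abs_det_fderiv_mul volume (isOpen_disc η t).measurableSet hd
    (injOn_neg_exp_disc η t)]
  apply lintegral_congr
  intro w
  rw [Pool.Agent.H62.abs_det_mul_complex, norm_neg, Complex.norm_exp, ← Real.exp_nat_mul]
  norm_num

/-- the change of variables `s = e^{t/2}` -/
theorem lintegral_Ioi_exp (g : ℝ → ℝ≥0∞) :
    ∫⁻ s in Ioi (0 : ℝ), g s
      = ∫⁻ t : ℝ, ENNReal.ofReal (Real.exp (t / 2) / 2) * g (Real.exp (t / 2)) := by
  have himg : (fun t : ℝ => Real.exp (t / 2)) '' univ = Ioi 0 := by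
    ext s
    constructor
    · rintro ⟨t, -, rfl⟩
      exact Real.exp_pos _
    · intro hs
      refine ⟨2 * Real.log s, mem_univ _, ?_⟩
      simp only
      rw [mul_div_cancel_left₀ _ (by norm_num : (2 : ℝ) ≠ 0), Real.exp_log hs]
  have hd : ∀ t ∈ (univ : Set ℝ), HasDerivWithinAt (fun t : ℝ => Real.exp (t / 2))
      (Real.exp (t / 2) / 2) univ t := by
    intro t _
    have h1 : HasDerivAt (fun t : ℝ => t / 2) (1 / 2) t := (hasDerivAt_id t).div_const 2
    have h2 := h1.exp
    rw [mul_one_div] at h2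
    exact h2.hasDerivWithinAt
  have hinj : InjOn (fun t : ℝ => Real.exp (t / 2)) univ := by
    intro a _ b _ hab
    have := Real.exp_injective hab
    linarith
  rw [← himg, lintegral_image_eq_lintegral_abs_deriv_mul MeasurableSet.univ hd hinj,
    Measure.restrict_univ]
  apply lintegral_congr
  intro t
  rw [abs_of_pos (by positivity)]

theorem map_coord {η : ℝ → ℝ} (hc : Continuous η) (h0 : ∀ t, 0 ≤ η t) :
    Measure.map coord ((volume.restrict (Ioo (-π) π)).prod ((expM.prod areaM).restrict (tot η))) =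
      (2 : ℝ≥0∞) • volume.restrict (worm η) := by
  have hto := (isOpen_tot hc).measurableSet
  have hwo := (isOpen_worm hc).measurableSet
  refine Measure.ext_of_lintegral _ fun f hf => ?_
  rw [lintegral_map hf measurable_coord, lintegral_smul_measure]
  -- the function on the slices
  set J : ℝ → ℂ → ℝ≥0∞ := fun t ζ =>
    ∫⁻ w in disc η t, ENNReal.ofReal (Real.exp (2 * w.re)) * f (-Complex.exp w, ζ) with hJ
  -- left side
  have hL : ∫⁻ p, f (coord p)
      ∂((volume.restrict (Ioo (-π) π)).prod ((expM.prod areaM).restrict (tot η)))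
      = ∫⁻ α in Ioo (-π) π, ∫⁻ t : ℝ, ENNReal.ofReal (Real.exp t) *
          J t (Complex.exp ((t / 2 : ℝ) + (α : ℂ) * Complex.I)) := by
    rw [lintegral_prod (fun p => f (coord p)) (hf.comp measurable_coord).aemeasurable]
    apply lintegral_congr
    intro α
    rw [← lintegral_indicator hto, lintegral_prod]
    · rw [expM, lintegral_withDensity_eq_lintegral_mul₀ (by fun_prop)]
      · apply lintegral_congr
        intro t
        simp only [Pi.mul_apply]
        congr 1
        rw [hJ]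
        simp only
        rw [areaM, lintegral_withDensity_eq_lintegral_mul₀ (by fun_prop),
          ← lintegral_indicator (isOpen_disc η t).measurableSet]
        · apply lintegral_congr
          intro w
          simp only [Pi.mul_apply]
          by_cases hw : w ∈ disc η t
          · rw [indicator_of_mem (show (t, w) ∈ tot η from hw), indicator_of_mem hw]
            rfl
          · rw [indicator_of_notMem (show (t, w) ∉ tot η from hw), indicator_of_notMem hw,
              mul_zero]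
        · apply Measurable.aemeasurable
          apply Measurable.comp (g := (tot η).indicator fun p => f (coord (α, p)))
          · exact (hf.comp (measurable_coord.comp (by fun_prop))).indicator hto
          · fun_prop
      · apply Measurable.aemeasurable
        apply Measurable.lintegral_prod_right'
          (f := (tot η).indicator fun p => f (coord (α, p)))
        exact (hf.comp (measurable_coord.comp (by fun_prop))).indicator hto
    · apply Measurable.aemeasurable
      exact (hf.comp (measurable_coord.comp (by fun_prop))).indicator hto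
  rw [hL]
  -- right side
  have hR : ∫⁻ z in worm η, f z = ∫⁻ ζ : ℂ, J (Real.log (‖ζ‖ ^ 2)) ζ := by
    rw [← lintegral_indicator hwo, Measure.volume_eq_prod, lintegral_prod_symm]
    · apply lintegral_congr_ae
      have hne : ∀ᵐ ζ : ℂ, ζ ≠ 0 := by
        rw [ae_iff]
        simp
      filter_upwards [hne] with ζ hζ
      rw [hJ]
      simp only
      rw [← lintegral_slice h0 (Real.log (‖ζ‖ ^ 2)) (fun z => f (z, ζ)), ← lintegral_indicator]
      · apply lintegral_congr
        intro z
        by_cases hz : ‖z + Complex.exp ((Real.log (‖ζ‖ ^ 2) : ℝ) * Complex.I)‖ ^ 2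
            < 1 - η (Real.log (‖ζ‖ ^ 2))
        · rw [indicator_of_mem (show (z, ζ) ∈ worm η from ⟨hζ, hz⟩), indicator_of_mem (show z ∈ {z : ℂ | ‖z +
              Complex.exp ((Real.log (‖ζ‖ ^ 2) : ℝ) * Complex.I)‖ ^ 2
              < 1 - η (Real.log (‖ζ‖ ^ 2))} from hz)]
        · rw [indicator_of_notMem (show (z, ζ) ∉ worm η from fun h => hz h.2),
            indicator_of_notMem (show z ∉ {z : ℂ | ‖z +
              Complex.exp ((Real.log (‖ζ‖ ^ 2) : ℝ) * Complex.I)‖ ^ 2
              < 1 - η (Real.log (‖ζ‖ ^ 2))} from hz)]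
      · exact (isOpen_lt (by fun_prop) (by fun_prop)).measurableSet
    · exact (hf.indicator hwo).aemeasurable
  rw [hR]
  have hJ2 : Measurable fun q : ℝ × ℂ => J q.1 q.2 := by
    have h1 : (fun q : ℝ × ℂ => J q.1 q.2) = fun q : ℝ × ℂ =>
        ∫⁻ w : ℂ, (tot η).indicator (fun _ => (1 : ℝ≥0∞)) (q.1, w) *
          (ENNReal.ofReal (Real.exp (2 * w.re)) * f (-Complex.exp w, q.2)) := by
      funext q
      rw [hJ]
      simp only
      rw [← lintegral_indicator (isOpen_disc η _).measurableSet]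
      apply lintegral_congr
      intro w
      by_cases hw : w ∈ disc η q.1
      · rw [indicator_of_mem (show (q.1, w) ∈ tot η from hw),
          indicator_of_mem hw, one_mul]
      · rw [indicator_of_notMem (show (q.1, w) ∉ tot η from hw),
          indicator_of_notMem hw, zero_mul]
    rw [h1]
    apply Measurable.lintegral_prod_right'
      (f := fun p : (ℝ × ℂ) × ℂ => (tot η).indicator (fun _ => (1 : ℝ≥0∞)) (p.1.1, p.2) *
          (ENNReal.ofReal (Real.exp (2 * p.2.re)) * f (-Complex.exp p.2, p.1.2)))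
    refine Measurable.mul ?_ (Measurable.mul (by fun_prop) (hf.comp (by fun_prop)))
    exact (measurable_const.indicator hto).comp (by fun_prop)
  have hJm : Measurable fun ζ : ℂ => J (Real.log (‖ζ‖ ^ 2)) ζ :=
    hJ2.comp (f := fun ζ : ℂ => (Real.log (‖ζ‖ ^ 2), ζ)) (by fun_prop)
  rw [Pool.Agent.H62.lintegral_polar hJm, lintegral_Ioi_exp, smul_eq_mul,
    ← lintegral_const_mul' _ _ (by simp)]
  rw [lintegral_lintegral_swap]
  · apply lintegral_congr
    intro t
    have h1 : ∀ α : ℝ, circleMap 0 (Real.exp (t / 2)) α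
        = Complex.exp ((t / 2 : ℝ) + (α : ℂ) * Complex.I) := by
      intro α
      rw [circleMap, zero_add, Complex.exp_add, Complex.ofReal_exp]
    have h2 : ∀ α : ℝ, Real.log (‖Complex.exp ((t / 2 : ℝ) + (α : ℂ) * Complex.I)‖ ^ 2) = t := by
      intro α
      exact theta_coord α (t, 0)
    simp_rw [h1, h2]
    rw [lintegral_const_mul']
    · rw [← mul_assoc, ← mul_assoc]
      congr 1
      have h3 : (2 : ℝ≥0∞) = ENNReal.ofReal 2 := by simp
      rw [h3, ← ENNReal.ofReal_mul (by norm_num), ← ENNReal.ofReal_mul (by positivity)]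
      congr 1
      have h4 : Real.exp t = Real.exp (t / 2) * Real.exp (t / 2) := by
        rw [← Real.exp_add]
        congr 1
        ring
      rw [h4]
      ring
    · exact ENNReal.ofReal_ne_top
  · apply Measurable.aemeasurable
    refine Measurable.mul (by fun_prop) ?_
    exact hJ2.comp (f := fun q : ℝ × ℝ =>
      (q.2, Complex.exp ((q.2 / 2 : ℝ) + (q.1 : ℂ) * Complex.I))) (by fun_prop)

end Pool.Agent.Worm
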