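import Pool.Agent.Worm.Defs
import Pool.Agent.H62.Area

/-!
# Moments of holomorphic functions on round discs, and the change of variables `z = e^w`
-/

open MeasureTheory Set Filter Topology Metric
open scoped Real ENNReal ComplexConjugate ContDiff

namespace Pool.Agent.Worm

/-- Polar coordinates around `a`, for the Bochner integral. -/
theorem ball_polar {F : ℂ → ℂ} {a : ℂ} {R : ℝ} (hF : ContinuousOn F (ball a R))
    (hi : IntegrableOn F (ball a R)) :
    ∫ z in ball a R, F z =
      ∫ s in Ioo (0 : ℝ) R, ∫ θ in Ioo (-π) π, (s : ℂ) * F (circleMap a s θ) := by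
  classical
  set φ : ℂ → ℂ := (ball (0 : ℂ) R).piecewise (fun z => F (a + z)) (fun _ => 0) with hφ
  have hcont : ContinuousOn (fun z => F (a + z)) (ball (0 : ℂ) R) := by
    refine hF.comp (by fun_prop) ?_
    intro z hz
    simpa [mem_ball, dist_eq_norm] using hz
  have hmeas : Measurable φ :=
    ContinuousOn.measurable_piecewise hcont continuousOn_const measurableSet_ball
  have e1 : ∀ z, (ball a R).indicator F (a + z) = φ z := by
    intro z
    simp only [hφ, piecewise, indicator, mem_ball, dist_eq_norm, add_sub_cancel_left, sub_zero]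
  have hcm : Measurable (fun p : ℝ × ℝ => circleMap (0 : ℂ) p.1 p.2) := by
    unfold circleMap
    fun_prop
  have h1 : ∫ z in ball a R, F z = ∫ z, φ z := by
    rw [← integral_indicator measurableSet_ball, ← integral_add_left_eq_self _ a]
    exact integral_congr_ae (Eventually.of_forall e1)
  have hφi : Integrable φ := by
    have h2 : Integrable ((ball a R).indicator F) := hi.integrable_indicator measurableSet_ball
    have h3 := h2.comp_add_left a
    exact h3.congr (Eventually.of_forall e1)
  rw [h1, ← Complex.integral_comp_polarCoord_symm]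
  have h4 : (polarCoord.target : Set (ℝ × ℝ)) = Ioi (0 : ℝ) ×ˢ Ioo (-π) π := rfl
  simp_rw [Pool.Agent.H62.polarCoord_symm_eq_circleMap]
  have hint : IntegrableOn (fun p : ℝ × ℝ => p.1 • φ (circleMap 0 p.1 p.2))
      (Ioi (0 : ℝ) ×ˢ Ioo (-π) π) := by
    refine ⟨?_, ?_⟩
    · refine Measurable.aestronglyMeasurable ?_
      exact measurable_fst.smul (hmeas.comp hcm)
    · unfold HasFiniteIntegral
      have h5 := Complex.lintegral_comp_polarCoord_symm (fun z => ‖φ z‖ₑ)
      simp_rw [Pool.Agent.H62.polarCoord_symm_eq_circleMap] at h5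
      rw [h4] at h5
      have h6 : ∫⁻ p in Ioi (0 : ℝ) ×ˢ Ioo (-π) π, ‖p.1 • φ (circleMap 0 p.1 p.2)‖ₑ =
          ∫⁻ p in Ioi (0 : ℝ) ×ˢ Ioo (-π) π, ENNReal.ofReal p.1 • ‖φ (circleMap 0 p.1 p.2)‖ₑ := by
        refine setLIntegral_congr_fun (measurableSet_Ioi.prod measurableSet_Ioo) ?_
        intro p hp
        simp only
        rw [enorm_smul, Real.enorm_of_nonneg (le_of_lt hp.1), smul_eq_mul]
      rw [h6, h5]
      exact hφi.2
  rw [h4, Measure.volume_eq_prod, setIntegral_prod _ (by rwa [Measure.volume_eq_prod] at hint)]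
  have h7 : ∀ s : ℝ, ∫ θ in Ioo (-π) π, s • φ (circleMap 0 s θ) =
      (Iio R).indicator (fun s => ∫ θ in Ioo (-π) π, (s : ℂ) * F (circleMap a s θ)) s ∨ s ≤ 0 := by
    intro s
    rcases le_or_gt s 0 with h0 | h0
    · right; exact h0
    · left
      have hmem : ∀ θ, (circleMap 0 s θ ∈ ball (0 : ℂ) R ↔ s < R) := by
        intro θ
        simp [abs_of_pos h0]
      have hadd : ∀ θ, a + circleMap 0 s θ = circleMap a s θ := by
        intro θ; simp [circleMap]
      by_cases hs : s < R
      · rw [indicator_of_mem (by exact hs)]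
        refine integral_congr_ae (Eventually.of_forall fun θ => ?_)
        simp only [hφ]
        rw [piecewise_eq_of_mem _ _ _ ((hmem θ).2 hs), hadd, Complex.real_smul]
      · rw [indicator_of_notMem (by exact hs)]
        have : ∀ θ, s • φ (circleMap 0 s θ) = 0 := by
          intro θ
          simp only [hφ]
          rw [piecewise_eq_of_notMem _ _ _ (by rw [hmem]; exact hs), smul_zero]
        simp [this]
  have h8 : ∫ s in Ioi (0 : ℝ), ∫ θ in Ioo (-π) π, s • φ (circleMap 0 s θ) =
      ∫ s in Ioi (0 : ℝ), (Iio R).indicator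
        (fun s => ∫ θ in Ioo (-π) π, (s : ℂ) * F (circleMap a s θ)) s := by
    refine setIntegral_congr_fun measurableSet_Ioi ?_
    intro s hs
    exact (h7 s).resolve_right (not_le.2 hs)
  rw [h8, integral_indicator measurableSet_Iio, Measure.restrict_restrict measurableSet_Iio,
    Iio_inter_Ioi]

/-- Circle integrals written as integrals with respect to `dθ` over `(-π, π)`. -/
theorem circleIntegral_moment (g : ℂ → ℂ) (a : ℂ) (k : ℕ) {s : ℝ} (hs : 0 < s) :
    (∮ z in C(a, s), (z - a)⁻¹ • (((z - a)⁻¹) ^ k * g z)) =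
      Complex.I * ∫ θ in Ioo (-π) π, ((circleMap 0 s θ)⁻¹) ^ k * g (circleMap a s θ) := by
  have hpi := Real.pi_pos
  unfold circleIntegral
  have e1 : ∀ θ : ℝ, deriv (circleMap a s) θ •
      ((circleMap a s θ - a)⁻¹ • (((circleMap a s θ - a)⁻¹) ^ k * g (circleMap a s θ))) =
      Complex.I * (((circleMap 0 s θ)⁻¹) ^ k * g (circleMap a s θ)) := by
    intro θ
    have hne : circleMap 0 s θ ≠ 0 := circleMap_ne_center hs.ne'
    rw [deriv_circleMap]
    simp only [smul_eq_mul]
    have : circleMap a s θ - a = circleMap 0 s θ := by simp [circleMap]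
    rw [this]
    field_simp
  simp_rw [e1]
  rw [intervalIntegral.integral_const_mul]
  congr 1
  have hper : Function.Periodic
      (fun θ => ((circleMap 0 s θ)⁻¹) ^ k * g (circleMap a s θ)) (2 * π) := by
    intro θ
    simp only
    rw [periodic_circleMap 0 s θ, periodic_circleMap a s θ]
  have h1 := hper.intervalIntegral_add_eq 0 (-π)
  rw [zero_add] at h1
  rw [h1, show -π + 2 * π = π by ring, intervalIntegral.integral_of_le (by linarith),
    integral_Ioc_eq_integral_Ioo]

/-- The `k`-th Taylor coefficient computed on circles is independent of the radius. -/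
theorem circle_coeff {g : ℂ → ℂ} {a : ℂ} {R : ℝ} (hg : DifferentiableOn ℂ g (ball a R)) (k : ℕ) :
    ∃ c : ℂ, ∀ s ∈ Ioo 0 R,
      ∫ θ in Ioo (-π) π, ((circleMap 0 s θ)⁻¹) ^ k * g (circleMap a s θ) = 2 * π * c := by
  have hpi := Real.pi_pos
  rcases le_or_gt R 0 with hR | hR
  · refine ⟨0, fun s hs => ?_⟩
    exfalso
    linarith [hs.1, hs.2]
  set q : ℂ → ℂ := fun z => ((z - a)⁻¹) ^ k * g z with hq
  have key : ∀ s : ℝ, 0 < s → (∮ z in C(a, s), (z - a)⁻¹ • q z) =
      Complex.I * ∫ θ in Ioo (-π) π, ((circleMap 0 s θ)⁻¹) ^ k * g (circleMap a s θ) :=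
    fun s hs => circleIntegral_moment g a k hs
  have hdiff : ∀ z ∈ ball a R, z ≠ a → DifferentiableAt ℂ q z := by
    intro z hz hza
    have h1 : DifferentiableAt ℂ g z := hg.differentiableAt (isOpen_ball.mem_nhds hz)
    have h2 : DifferentiableAt ℂ (fun z => ((z - a)⁻¹) ^ k) z := by
      have : z - a ≠ 0 := sub_ne_zero.2 hza
      fun_prop (disch := assumption)
    exact h2.mul h1
  have hconst : ∀ s s' : ℝ, 0 < s → s ≤ s' → s' < R →
      (∮ z in C(a, s'), (z - a)⁻¹ • q z) = ∮ z in C(a, s), (z - a)⁻¹ • q z := by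
    intro s s' hs hss hs'
    refine Complex.circleIntegral_sub_center_inv_smul_eq_of_differentiable_on_annulus_off_countable
      hs hss (s := ∅) countable_empty ?_ ?_
    · intro z hz
      refine (hdiff z (closedBall_subset_ball hs' hz.1) ?_).continuousAt.continuousWithinAt
      rintro rfl
      exact hz.2 (mem_ball_self hs)
    · intro z hz
      refine hdiff z (ball_subset_ball hs'.le hz.1.1) ?_
      rintro rfl
      exact hz.1.2 (mem_closedBall_self hs.le)
  set s₀ := R / 2 with hs₀
  refine ⟨(2 * π : ℂ)⁻¹ * ∫ θ in Ioo (-π) π, ((circleMap 0 s₀ θ)⁻¹) ^ k * g (circleMap a s₀ θ), ?_⟩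
  intro s hs
  have h2pi : (2 * π : ℂ) ≠ 0 := by
    simp [Real.pi_ne_zero]
  rw [← mul_assoc, mul_inv_cancel₀ h2pi, one_mul]
  have hI : Complex.I ≠ 0 := Complex.I_ne_zero
  have h2 : (∮ z in C(a, s), (z - a)⁻¹ • q z) = ∮ z in C(a, s₀), (z - a)⁻¹ • q z := by
    rcases le_total s s₀ with h | h
    · exact (hconst s s₀ hs.1 h (by linarith)).symm
    · exact hconst s₀ s (by positivity) h hs.2
  rw [key s hs.1, key s₀ (by positivity)] at h2
  exact mul_left_cancel₀ hI h2

/-- Moments of (conjugates of) holomorphic functions over concentric discs. -/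
theorem ball_moment {g : ℂ → ℂ} {a : ℂ} {R : ℝ} (hg : DifferentiableOn ℂ g (ball a R))
    (hi : IntegrableOn g (ball a R)) (k : ℕ) {c : ℂ}
    (hc : ∀ s ∈ Ioo 0 R,
      ∫ θ in Ioo (-π) π, ((circleMap 0 s θ)⁻¹) ^ k * g (circleMap a s θ) = 2 * π * c)
    {r : ℝ} (hr0 : 0 ≤ r) (hr : r ≤ R) :
    ∫ z in ball a r, (z - a) ^ k * conj (g z) = π * conj c * r ^ (2 * k + 2) / (k + 1) := by
  have hsub : ball a r ⊆ ball a R := ball_subset_ball hr
  have hcont : ContinuousOn (fun z => (z - a) ^ k * conj (g z)) (ball a r) := by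
    have h1 : ContinuousOn g (ball a r) := hg.continuousOn.mono hsub
    exact (ContinuousOn.pow (by fun_prop) k).mul (Complex.continuous_conj.comp_continuousOn h1)
  have hint : IntegrableOn (fun z => (z - a) ^ k * conj (g z)) (ball a r) := by
    have h1 : IntegrableOn (fun z => conj (g z)) (ball a r) := by
      have := (hi.mono_set hsub)
      exact this.norm.mono' ((Complex.continuous_conj.comp_continuousOn
          (hg.continuousOn.mono hsub)).aestronglyMeasurable measurableSet_ball)
        (Eventually.of_forall fun z => by simp)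
    refine Integrable.bdd_mul h1 ?_ (c := |r| ^ k) ?_
    · exact (Continuous.aestronglyMeasurable (by fun_prop))
    · filter_upwards [ae_restrict_mem measurableSet_ball] with z hz
      rw [norm_pow]
      gcongr
      rw [mem_ball, dist_eq_norm] at hz
      exact hz.le.trans (le_abs_self r)
  rw [ball_polar hcont hint]
  have h1 : ∀ s ∈ Ioo (0 : ℝ) r, ∫ θ in Ioo (-π) π,
      (s : ℂ) * ((circleMap a s θ - a) ^ k * conj (g (circleMap a s θ))) =
      (s : ℂ) ^ (2 * k + 1) * (2 * π * conj c) := by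
    intro s hs
    have hsR : s ∈ Ioo 0 R := ⟨hs.1, hs.2.trans_le hr⟩
    have h2 : ∀ θ : ℝ, (s : ℂ) * ((circleMap a s θ - a) ^ k * conj (g (circleMap a s θ))) =
        (s : ℂ) ^ (2 * k + 1) * conj (((circleMap 0 s θ)⁻¹) ^ k * g (circleMap a s θ)) := by
      intro θ
      have e1 : circleMap a s θ - a = circleMap 0 s θ := by simp [circleMap]
      rw [e1, map_mul, map_pow, map_inv₀]
      have e2 : circleMap 0 s θ = (s : ℂ) ^ 2 * (conj (circleMap 0 s θ))⁻¹ := by
        have hne : conj (circleMap 0 s θ) ≠ 0 := by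
          rw [Ne, map_eq_zero]; exact circleMap_ne_center hs.1.ne'
        have : circleMap 0 s θ * conj (circleMap 0 s θ) = (s : ℂ) ^ 2 := by
          rw [Complex.mul_conj, Complex.normSq_eq_norm_sq, norm_circleMap_zero, sq_abs]
          push_cast; rfl
        rw [← this, mul_assoc, mul_inv_cancel₀ hne, mul_one]
      calc (s : ℂ) * (circleMap 0 s θ ^ k * conj (g (circleMap a s θ)))
          = (s : ℂ) * (((s : ℂ) ^ 2 * (conj (circleMap 0 s θ))⁻¹) ^ k
              * conj (g (circleMap a s θ))) := by rw [← e2]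
        _ = _ := by ring
    simp_rw [h2]
    rw [integral_const_mul]
    congr 1
    rw [integral_conj, hc s hsR, map_mul, map_mul, Complex.conj_ofReal, Complex.conj_ofNat]
  rw [setIntegral_congr_fun measurableSet_Ioo h1, integral_mul_const]
  have h3 : ∫ s in Ioo (0 : ℝ) r, (s : ℂ) ^ (2 * k + 1) = (r : ℂ) ^ (2 * k + 2) / (2 * k + 2) := by
    rw [← integral_Ioc_eq_integral_Ioo, ← intervalIntegral.integral_of_le hr0]
    have h4 : ∀ s : ℝ, (s : ℂ) ^ (2 * k + 1) = ((s ^ (2 * k + 1) : ℝ) : ℂ) := by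
      intro s; push_cast; rfl
    simp_rw [h4]
    rw [intervalIntegral.integral_ofReal, integral_pow]
    push_cast
    rw [zero_pow (by omega)]
    ring
  rw [h3]
  have hk : (k : ℂ) + 1 ≠ 0 := by exact_mod_cast Nat.succ_ne_zero k
  field_simp

end Pool.Agent.Worm
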