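import Pool.Agent.Worm.Defs

/-!
# Existence of profiles; elementary topology of the worm
-/

open MeasureTheory Set
open scoped Real ENNReal ComplexConjugate ContDiff Topology

namespace Pool.Agent.Worm

/-- first primitive of the smooth transition -/
noncomputable def prim1 (x : ℝ) : ℝ := ∫ s in (0:ℝ)..x, expNegInvGlue s

/-- second primitive of the smooth transition -/
noncomputable def prim2 (x : ℝ) : ℝ := ∫ s in (0:ℝ)..x, prim1 s

theorem continuous_glue : Continuous expNegInvGlue :=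
  (expNegInvGlue.contDiff (n := 0)).continuous

theorem hasDerivAt_prim1 (x : ℝ) : HasDerivAt prim1 (expNegInvGlue x) x :=
  intervalIntegral.integral_hasDerivAt_right (continuous_glue.intervalIntegrable _ _)
    (continuous_glue.stronglyMeasurableAtFilter _ _) continuous_glue.continuousAt

theorem continuous_prim1 : Continuous prim1 :=
  continuous_iff_continuousAt.2 fun x => (hasDerivAt_prim1 x).continuousAt

theorem hasDerivAt_prim2 (x : ℝ) : HasDerivAt prim2 (prim1 x) x :=
  intervalIntegral.integral_hasDerivAt_right (continuous_prim1.intervalIntegrable _ _)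
    (continuous_prim1.stronglyMeasurableAtFilter _ _) continuous_prim1.continuousAt

theorem contDiff_prim1 : ContDiff ℝ ∞ prim1 := by
  rw [contDiff_infty_iff_deriv]
  refine ⟨fun x => (hasDerivAt_prim1 x).differentiableAt, ?_⟩
  have : deriv prim1 = expNegInvGlue := funext fun x => (hasDerivAt_prim1 x).deriv
  rw [this]
  exact expNegInvGlue.contDiff

theorem contDiff_prim2 : ContDiff ℝ ∞ prim2 := by
  rw [contDiff_infty_iff_deriv]
  refine ⟨fun x => (hasDerivAt_prim2 x).differentiableAt, ?_⟩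
  have : deriv prim2 = prim1 := funext fun x => (hasDerivAt_prim2 x).deriv
  rw [this]
  exact contDiff_prim1

theorem prim1_zero {x : ℝ} (hx : x ≤ 0) : prim1 x = 0 := by
  rw [prim1, intervalIntegral.integral_congr (g := fun _ => 0)]
  · simp
  · intro s hs
    rw [uIcc_of_ge hx] at hs
    exact expNegInvGlue.zero_of_nonpos hs.2

theorem prim1_pos {x : ℝ} (hx : 0 < x) : 0 < prim1 x :=
  intervalIntegral.intervalIntegral_pos_of_pos_on (continuous_glue.intervalIntegrable _ _)
    (fun _ hs => expNegInvGlue.pos_of_pos hs.1) hx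

theorem prim1_nonneg (x : ℝ) : 0 ≤ prim1 x := by
  rcases le_or_gt x 0 with h | h
  · exact (prim1_zero h).ge
  · exact (prim1_pos h).le

theorem prim2_zero {x : ℝ} (hx : x ≤ 0) : prim2 x = 0 := by
  rw [prim2, intervalIntegral.integral_congr (g := fun _ => 0)]
  · simp
  · intro s hs
    rw [uIcc_of_ge hx] at hs
    exact prim1_zero hs.2

theorem prim2_pos {x : ℝ} (hx : 0 < x) : 0 < prim2 x :=
  intervalIntegral.intervalIntegral_pos_of_pos_on (continuous_prim1.intervalIntegrable _ _)
    (fun _ hs => prim1_pos hs.1) hx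

theorem prim2_nonneg (x : ℝ) : 0 ≤ prim2 x := by
  rcases le_or_gt x 0 with h | h
  · exact (prim2_zero h).ge
  · exact (prim2_pos h).le

theorem prim2_eq_zero_iff {x : ℝ} : prim2 x = 0 ↔ x ≤ 0 := by
  constructor
  · intro h
    by_contra h'
    exact (prim2_pos (not_le.1 h')).ne' h
  · exact prim2_zero

theorem monotone_prim1 : Monotone prim1 :=
  monotone_of_hasDerivAt_nonneg hasDerivAt_prim1 fun x => expNegInvGlue.nonneg x

theorem monotone_prim2 : Monotone prim2 :=
  monotone_of_hasDerivAt_nonneg hasDerivAt_prim2 fun x => prim1_nonneg x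

theorem convexOn_prim2 : ConvexOn ℝ univ prim2 := by
  have h : deriv prim2 = prim1 := funext fun x => (hasDerivAt_prim2 x).deriv
  refine Monotone.convexOn_univ_of_deriv (fun x => (hasDerivAt_prim2 x).differentiableAt) ?_
  rw [h]
  exact monotone_prim1

theorem exists_profile (β : ℝ) (hβ : π / 2 < β) (δ : ℝ) (hδ : 0 < δ) :
    ∃ η, Profile β η ∧ ∀ t, β - π / 2 + δ ≤ |t| → 1 < η t := by
  set b := β - π / 2 with hb
  have hb0 : 0 < b := by rw [hb]; linarith
  set K := 2 / prim2 δ with hK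
  have hp := prim2_pos hδ
  have hK0 : 0 < K := by rw [hK]; positivity
  set η : ℝ → ℝ := fun t => K * (prim2 (t - b) + prim2 (-t - b)) with hη
  have hbig : ∀ t, b + δ ≤ |t| → 1 < η t := by
    intro t ht
    have h1 : prim2 δ ≤ prim2 (t - b) + prim2 (-t - b) := by
      rcases le_abs.1 ht with h | h
      · have := monotone_prim2 (show δ ≤ t - b by linarith)
        have := prim2_nonneg (-t - b)
        linarith
      · have := monotone_prim2 (show δ ≤ -t - b by linarith)
        have := prim2_nonneg (t - b)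
        linarith
    have h2 : K * prim2 δ = 2 := by rw [hK]; field_simp
    calc (1:ℝ) < K * prim2 δ := by rw [h2]; norm_num
      _ ≤ η t := mul_le_mul_of_nonneg_left h1 hK0.le
  refine ⟨η, ⟨?_, ?_, ?_, ?_, ?_, ?_⟩, hbig⟩
  · have h1 : ContDiff ℝ ∞ (fun t : ℝ => prim2 (t - b)) :=
      contDiff_prim2.comp (contDiff_id.sub contDiff_const)
    have h2 : ContDiff ℝ ∞ (fun t : ℝ => prim2 (-t - b)) :=
      contDiff_prim2.comp (contDiff_id.neg.sub contDiff_const)
    exact contDiff_const.mul (h1.add h2)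
  · intro t
    simp only [hη, neg_neg]
    ring
  · have h1 : ConvexOn ℝ univ (fun t : ℝ => prim2 (t - b)) := by
      have := convexOn_prim2.comp_affineMap
        ((LinearMap.id : ℝ →ₗ[ℝ] ℝ).toAffineMap - AffineMap.const ℝ ℝ b)
      simpa [Function.comp_def] using this
    have h2 : ConvexOn ℝ univ (fun t : ℝ => prim2 (-t - b)) := by
      have := convexOn_prim2.comp_affineMap
        ((-LinearMap.id : ℝ →ₗ[ℝ] ℝ).toAffineMap - AffineMap.const ℝ ℝ b)
      simpa [Function.comp_def] using this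
    have := (h1.add h2).smul hK0.le
    simpa [hη, Pi.add_apply, smul_eq_mul] using this
  · intro t
    have := prim2_nonneg (t - b)
    have := prim2_nonneg (-t - b)
    positivity
  · intro t
    have h1 := prim2_nonneg (t - b)
    have h2 := prim2_nonneg (-t - b)
    constructor
    · intro h
      have h3 : prim2 (t - b) + prim2 (-t - b) = 0 := by
        rcases mul_eq_zero.1 h with h | h
        · exact absurd h hK0.ne'
        · exact h
      have h4 : prim2 (t - b) = 0 := by linarith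
      have h5 : prim2 (-t - b) = 0 := by linarith
      rw [prim2_eq_zero_iff] at h4 h5
      rw [abs_le]
      constructor <;> linarith
    · intro h
      rw [abs_le] at h
      simp only [hη]
      rw [prim2_zero (show t - b ≤ 0 by linarith [h.2]),
        prim2_zero (show -t - b ≤ 0 by linarith [h.1])]
      simp
  · exact ⟨b + δ, fun t ht => hbig t ht.le⟩

theorem profile_mono {β : ℝ} {η : ℝ → ℝ} (h : Profile β η) {s t : ℝ} (hst : |s| ≤ |t|) :
    η s ≤ η t := by
  have h1 : η |t| = η t := by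
    rcases abs_choice t with h' | h' <;> rw [h']
    exact h.even t
  have h2 : η (-|t|) = η t := by rw [h.even, h1]
  have hs : s ∈ segment ℝ (-|t|) |t| := by
    rw [segment_eq_Icc (by have := abs_nonneg t; linarith)]
    exact abs_le.1 hst
  have := h.convex.le_max_of_mem_segment (mem_univ _) (mem_univ _) hs
  rwa [h1, h2, max_self] at this

theorem cap_of_profile {β δ : ℝ} {η : ℝ → ℝ} (hβ : π / 2 < β) (hδ : 0 < δ) (h : Profile β η)
    (h1 : ∀ t, β - π / 2 + δ ≤ |t| → 1 < η t) : Cap (β - π / 2) δ η where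
  cont := h.smooth.continuous
  nonneg := h.nonneg
  zero t ht := (h.zero_iff t).2 ht
  mono s t hst := profile_mono h hst
  big t ht := (h1 t ht).le

theorem cap_of_profile' {β : ℝ} {η : ℝ → ℝ} (hβ : π / 2 < β) (h : Profile β η) :
    ∃ δ > 0, Cap (β - π / 2) δ η := by
  obtain ⟨T, hT⟩ := h.gt_one
  refine ⟨|T| + 1, by positivity, cap_of_profile hβ (by positivity) h fun t ht => hT t ?_⟩
  have := le_abs_self T
  linarith

theorem continuousOn_theta : ContinuousOn theta {z : ℂ × ℂ | z.2 ≠ 0} := by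
  unfold theta
  refine ContinuousOn.log (by fun_prop) ?_
  intro z hz
  have : ‖z.2‖ ≠ 0 := norm_ne_zero_iff.2 hz
  positivity

theorem isOpen_ne : IsOpen {z : ℂ × ℂ | z.2 ≠ 0} :=
  isOpen_ne_fun continuous_snd continuous_const

theorem isOpen_worm {η : ℝ → ℝ} (h : Continuous η) : IsOpen (worm η) := by
  have h1 : ContinuousOn (fun z : ℂ × ℂ =>
      1 - η (theta z) - ‖z.1 + Complex.exp ((theta z : ℂ) * Complex.I)‖ ^ 2)
      {z : ℂ × ℂ | z.2 ≠ 0} := by
    have h2 := continuousOn_theta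
    have h3 : ContinuousOn (fun z : ℂ × ℂ => η (theta z)) {z : ℂ × ℂ | z.2 ≠ 0} :=
      h.comp_continuousOn h2
    have h4 : ContinuousOn (fun z : ℂ × ℂ => (theta z : ℂ)) {z : ℂ × ℂ | z.2 ≠ 0} :=
      Complex.continuous_ofReal.comp_continuousOn h2
    fun_prop
  have h2 := h1.isOpen_inter_preimage isOpen_ne (isOpen_Ioi (a := (0:ℝ)))
  convert h2 using 1
  ext z
  simp only [worm, mem_setOf_eq, mem_inter_iff, mem_preimage, mem_Ioi]
  refine and_congr_right fun _ => ?_
  constructor <;> intro h <;> linarith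

theorem theta_exp (t α : ℝ) :
    theta (-Complex.exp (t * Complex.I), Complex.exp ((t / 2 : ℝ) + (α : ℂ) * Complex.I)) = t := by
  unfold theta
  simp only [Complex.norm_exp]
  rw [← Real.exp_nat_mul, Real.log_exp]
  simp
  ring

/-- the central part of the worm -/
theorem isConnected_worm {β : ℝ} {η : ℝ → ℝ} (hβ : π / 2 < β) (h : Profile β η) :
    IsConnected (worm η) := by
  set J : Set ℝ := {t | η t < 1} with hJ
  have h0 : (0:ℝ) ∈ J := by
    have : η 0 = 0 := (h.zero_iff 0).2 (by rw [abs_zero]; linarith)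
    simp [hJ, this]
  have hJc : IsPreconnected J := by
    have : Convex ℝ {t ∈ (univ : Set ℝ) | η t < 1} := h.convex.convex_lt 1
    simp only [mem_univ, true_and] at this
    exact this.isPreconnected
  set f : ℝ × ℝ → ℂ × ℂ := fun p =>
    (-Complex.exp (p.1 * Complex.I), Complex.exp ((p.1 / 2 : ℝ) + (p.2 : ℂ) * Complex.I)) with hf
  have hfc : Continuous f := by
    rw [hf]
    fun_prop
  set A : Set (ℂ × ℂ) := f '' (J ×ˢ univ) with hA
  have hAc : IsPreconnected A :=
    (hJc.prod isPreconnected_univ).image _ hfc.continuousOn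
  have hAw : A ⊆ worm η := by
    rintro _ ⟨⟨t, α⟩, ⟨ht, -⟩, rfl⟩
    refine ⟨Complex.exp_ne_zero _, ?_⟩
    rw [hf]
    simp only [theta_exp]
    rw [neg_add_cancel, norm_zero]
    have : η t < 1 := ht
    norm_num
    exact this
  have hx : f (0, 0) ∈ A := ⟨(0, 0), ⟨h0, mem_univ _⟩, rfl⟩
  refine ⟨⟨_, hAw hx⟩, ?_⟩
  refine isPreconnected_of_forall (f (0, 0)) ?_
  intro z hz
  obtain ⟨hz2, hz1⟩ := hz
  set t := theta z with ht
  have hnn : (0:ℝ) ≤ ‖z.1 + Complex.exp ((t : ℂ) * Complex.I)‖ ^ 2 := by positivity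
  have htJ : t ∈ J := by
    simp only [hJ, mem_setOf_eq]
    linarith
  -- the segment to the centre
  set g : ℝ → ℂ × ℂ := fun s => (z.1 + s * (-Complex.exp (t * Complex.I) - z.1), z.2) with hg
  have hgc : Continuous g := by
    rw [hg]; fun_prop
  have hth : ∀ s, theta (g s) = t := fun s => rfl
  have hseg : g '' (Icc 0 1) ⊆ worm η := by
    rintro _ ⟨s, hs, rfl⟩
    refine ⟨hz2, ?_⟩
    rw [hth]
    have : (g s).1 + Complex.exp ((t : ℂ) * Complex.I) =
        ((1 - s : ℝ) : ℂ) * (z.1 + Complex.exp ((t : ℂ) * Complex.I)) := by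
      simp only [hg]
      push_cast
      ring
    rw [this, norm_mul, mul_pow, Complex.norm_real, Real.norm_eq_abs, sq_abs]
    have h1 : (1 - s) ^ 2 ≤ 1 := by nlinarith [hs.1, hs.2]
    nlinarith
  have hg0 : g 0 = z := by simp [hg]
  have hg1 : g 1 ∈ A := by
    have hz2' : (0:ℝ) < ‖z.2‖ := norm_pos_iff.2 hz2
    refine ⟨(t, z.2.arg), ⟨htJ, mem_univ _⟩, ?_⟩
    simp only [hf, hg]
    refine Prod.ext ?_ ?_
    · simp
    · simp only
      have h1 : (t / 2 : ℝ) = Real.log ‖z.2‖ := by
        rw [ht, theta, Real.log_pow]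
        push_cast
        ring
      rw [h1, Complex.exp_add, ← Complex.ofReal_exp, Real.exp_log hz2']
      exact Complex.norm_mul_exp_arg_mul_I z.2
  refine ⟨A ∪ g '' Icc 0 1, union_subset hAw hseg, Or.inl hx,
    Or.inr ⟨0, ⟨le_rfl, zero_le_one⟩, hg0⟩, ?_⟩
  exact IsPreconnected.union (g 1) hg1 ⟨1, ⟨zero_le_one, le_rfl⟩, rfl⟩ hAc
    (isPreconnected_Icc.image _ hgc.continuousOn)

theorem theta_le_of_mem {β : ℝ} {η : ℝ → ℝ} (h : Profile β η) :
    ∃ T, ∀ z ∈ worm η, |theta z| ≤ T := by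
  obtain ⟨T, hT⟩ := h.gt_one
  refine ⟨T, fun z hz => ?_⟩
  by_contra hlt
  have h1 := hT _ (not_le.1 hlt)
  have h2 := hz.2
  have h3 : (0:ℝ) ≤ ‖z.1 + Complex.exp ((theta z : ℂ) * Complex.I)‖ ^ 2 := by positivity
  linarith

theorem norm_fst_le_of_mem {η : ℝ → ℝ} (h0 : ∀ t, 0 ≤ η t) {z : ℂ × ℂ} (hz : z ∈ worm η) :
    ‖z.1‖ ≤ 2 := by
  have h2 := hz.2
  have h3 := h0 (theta z)
  have h4 : ‖z.1 + Complex.exp ((theta z : ℂ) * Complex.I)‖ ≤ 1 := by
    have : ‖z.1 + Complex.exp ((theta z : ℂ) * Complex.I)‖ ^ 2 ≤ 1 := by linarith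
    nlinarith [norm_nonneg (z.1 + Complex.exp ((theta z : ℂ) * Complex.I))]
  have h5 : ‖Complex.exp ((theta z : ℂ) * Complex.I)‖ = 1 := Complex.norm_exp_ofReal_mul_I _
  calc ‖z.1‖ = ‖(z.1 + Complex.exp ((theta z : ℂ) * Complex.I)) -
        Complex.exp ((theta z : ℂ) * Complex.I)‖ := by ring_nf
    _ ≤ _ := norm_sub_le _ _
    _ ≤ 2 := by rw [h5]; linarith

theorem norm_snd_eq {z : ℂ × ℂ} (hz : z.2 ≠ 0) : ‖z.2‖ ^ 2 = Real.exp (theta z) := by
  unfold theta
  have : 0 < ‖z.2‖ := norm_pos_iff.2 hz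
  rw [Real.exp_log (by positivity)]

theorem isBounded_worm {β : ℝ} {η : ℝ → ℝ} (hβ : π / 2 < β) (h : Profile β η) :
    Bornology.IsBounded (worm η) := by
  obtain ⟨T, hT⟩ := theta_le_of_mem h
  rw [isBounded_iff_forall_norm_le]
  refine ⟨max 2 (Real.exp T + 1), fun z hz => ?_⟩
  rw [Prod.norm_def]
  refine max_le_max (norm_fst_le_of_mem h.nonneg hz) ?_
  have h1 := norm_snd_eq hz.1
  have h2 : Real.exp (theta z) ≤ Real.exp T :=
    Real.exp_le_exp.2 ((le_abs_self _).trans (hT z hz))
  nlinarith [norm_nonneg z.2, sq_nonneg (‖z.2‖ - 1)]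

end Pool.Agent.Worm
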