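import Pool.Agent.Worm.Disc

/-!
# Fubini for the measures `mu η`, `mu0 b`, `muI b`
-/

open MeasureTheory Set Filter Topology Metric
open scoped Real ENNReal ComplexConjugate ContDiff

namespace Pool.Agent.Worm

instance : SFinite expM := by unfold expM; infer_instance

instance : SFinite areaM := by unfold areaM; infer_instance

theorem expM_density_measurable :
    Measurable (fun t : ℝ => ENNReal.ofReal (Real.exp t)) := by fun_prop

/-- change of variables `w = log ζ + i t`, nonnegative functions -/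
theorem lintegral_lg (t : ℝ) {s : Set ℂ} (hs : MeasurableSet s) (hsub : s ⊆ ball (1 : ℂ) 1)
    {f : ℂ → ℝ≥0∞} (hf : Measurable f) :
    ∫⁻ w in lg t '' s, f w ∂areaM = ∫⁻ ζ in s, f (lg t ζ) := by
  have hm := measurableSet_lg_image t hs hsub
  unfold areaM
  rw [restrict_withDensity hm, lintegral_withDensity_eq_lintegral_mul _ areaM_density_measurable hf,
    lintegral_image_eq_lintegral_abs_det_fderiv_mul volume hs (hasFDerivWithinAt_lg t hsub)
      ((injOn_lg t).mono hsub)]
  refine setLIntegral_congr_fun hs ?_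
  intro ζ hζ
  simp only [Pi.mul_apply]
  have hne := ne_zero_of_mem_ball (hsub hζ)
  have hpos : 0 < ‖ζ‖ := norm_pos_iff.2 hne
  rw [Pool.Agent.H62.abs_det_mul_complex, ← mul_assoc, ← ENNReal.ofReal_mul (by positivity), lg_re,
    two_mul, Real.exp_add, Real.exp_log hpos, norm_inv]
  have : (‖ζ‖⁻¹ ^ 2 * (‖ζ‖ * ‖ζ‖)) = 1 := by
    field_simp
  rw [this, ENNReal.ofReal_one, one_mul]

/-- Fubini for nonnegative functions. -/
theorem lintegral_slices {T : Set (ℝ × ℂ)} (hT : MeasurableSet T) {f : ℂ → ℝ≥0∞}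
    (hf : Measurable f) :
    ∫⁻ w, f w ∂(((expM.prod areaM).restrict T).map Prod.snd) =
      ∫⁻ t, ENNReal.ofReal (Real.exp t) * ∫⁻ w in {w | (t, w) ∈ T}, f w ∂areaM := by
  have h0 : Measurable (T.indicator (fun p : ℝ × ℂ => f p.2)) :=
    (hf.comp measurable_snd).indicator hT
  rw [lintegral_map hf measurable_snd, ← lintegral_indicator hT, lintegral_prod _ h0.aemeasurable]
  have h1 : ∀ t : ℝ, ∫⁻ w, T.indicator (fun p => f p.2) (t, w) ∂areaM =
      ∫⁻ w in {w | (t, w) ∈ T}, f w ∂areaM := by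
    intro t
    rw [← lintegral_indicator (by exact measurable_prodMk_left hT)]
    rfl
  simp_rw [h1]
  unfold expM
  rw [lintegral_withDensity_eq_lintegral_mul _ expM_density_measurable]
  · rfl
  · have h2 := h0.lintegral_prod_right' (ν := areaM)
    simp_rw [h1] at h2
    exact h2

theorem integrable_expM_iff {g : ℝ → ℂ} :
    Integrable g expM ↔ Integrable (fun t => (Real.exp t : ℂ) * g t) := by
  unfold expM
  rw [integrable_withDensity_iff_integrable_smul' expM_density_measurable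
    (Eventually.of_forall fun _ => ENNReal.ofReal_lt_top)]
  refine integrable_congr (Eventually.of_forall fun t => ?_)
  simp only
  rw [ENNReal.toReal_ofReal (Real.exp_pos _).le, Complex.real_smul]

theorem integral_expM (g : ℝ → ℂ) :
    ∫ t, g t ∂expM = ∫ t, (Real.exp t : ℂ) * g t := by
  unfold expM
  rw [integral_withDensity_eq_integral_toReal_smul expM_density_measurable
    (Eventually.of_forall fun _ => ENNReal.ofReal_lt_top)]
  refine integral_congr_ae (Eventually.of_forall fun t => ?_)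
  simp only
  rw [ENNReal.toReal_ofReal (Real.exp_pos _).le, Complex.real_smul]

theorem volume_ac_expM : (volume : Measure ℝ) ≪ expM := by
  unfold expM
  refine withDensity_absolutelyContinuous' expM_density_measurable.aemeasurable ?_
  filter_upwards with t
  simp [Real.exp_pos]

/-- Fubini for integrable functions. -/
theorem integral_slices {T : Set (ℝ × ℂ)} (hT : MeasurableSet T) {φ : ℂ → ℂ}
    (hφ : Integrable φ (((expM.prod areaM).restrict T).map Prod.snd)) :
    (∀ᵐ t : ℝ, IntegrableOn φ {w | (t, w) ∈ T} areaM) ∧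
    Integrable (fun t : ℝ => (Real.exp t : ℂ) * ∫ w in {w | (t, w) ∈ T}, φ w ∂areaM) ∧
    ∫ w, φ w ∂(((expM.prod areaM).restrict T).map Prod.snd) =
      ∫ t : ℝ, (Real.exp t : ℂ) * ∫ w in {w | (t, w) ∈ T}, φ w ∂areaM := by
  have hmt : ∀ t : ℝ, MeasurableSet {w | (t, w) ∈ T} := fun t => measurable_prodMk_left hT
  have h0 : Integrable (fun p : ℝ × ℂ => φ p.2) ((expM.prod areaM).restrict T) :=
    (integrable_map_measure hφ.1 measurable_snd.aemeasurable).1 hφ
  have h1 : Integrable (T.indicator (fun p : ℝ × ℂ => φ p.2)) (expM.prod areaM) :=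
    (integrable_indicator_iff hT).2 h0
  have e1 : ∀ t : ℝ, (fun w => T.indicator (fun p : ℝ × ℂ => φ p.2) (t, w)) =
      {w | (t, w) ∈ T}.indicator φ := fun t => rfl
  have e2 : ∀ t : ℝ, ∫ w, T.indicator (fun p : ℝ × ℂ => φ p.2) (t, w) ∂areaM =
      ∫ w in {w | (t, w) ∈ T}, φ w ∂areaM := by
    intro t
    rw [e1, integral_indicator (hmt t)]
  refine ⟨?_, ?_, ?_⟩
  · have h2 := h1.prod_right_ae
    have h3 : ∀ᵐ t ∂expM, IntegrableOn φ {w | (t, w) ∈ T} areaM := by
      filter_upwards [h2] with t ht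
      rw [e1] at ht
      exact (integrable_indicator_iff (hmt t)).1 ht
    exact volume_ac_expM h3
  · have h2 := h1.integral_prod_left
    simp_rw [e2] at h2
    exact integrable_expM_iff.1 h2
  · rw [integral_map measurable_snd.aemeasurable hφ.1, ← integral_indicator hT,
      integral_prod _ h1]
    simp_rw [e2]
    exact integral_expM _

theorem isOpen_tot0_sl (b : ℝ) : IsOpen (tot0 b) := by
  have h1 : IsOpen {p : ℝ × ℂ | |p.1| < b} := isOpen_lt (by fun_prop) continuous_const
  have h2 : IsOpen {p : ℝ × ℂ | |p.2.im - p.1| < π / 2} := isOpen_lt (by fun_prop) continuous_const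
  have h3 : IsOpen {p : ℝ × ℂ | Real.exp p.2.re + 0 * Real.exp (-p.2.re) <
      2 * Real.cos (p.2.im - p.1)} := isOpen_lt (by fun_prop) (by fun_prop)
  exact h1.inter (h2.inter h3)

theorem isOpen_disc0 (t : ℝ) : IsOpen (disc (fun _ => 0) t) := by
  have h2 : IsOpen {w : ℂ | |w.im - t| < π / 2} := isOpen_lt (by fun_prop) continuous_const
  have h3 : IsOpen {w : ℂ | Real.exp w.re + 0 * Real.exp (-w.re) <
      2 * Real.cos (w.im - t)} := isOpen_lt (by fun_prop) (by fun_prop)
  exact h2.inter h3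

theorem isOpen_S0_sl (b : ℝ) : IsOpen (S0 b) := by
  have : S0 b = ⋃ t ∈ {t : ℝ | |t| < b}, disc (fun _ => 0) t := by
    ext w; simp [S0]
  rw [this]
  exact isOpen_biUnion fun t _ => isOpen_disc0 t

theorem slice_tot0 {b t : ℝ} (ht : |t| < b) :
    {w | (t, w) ∈ tot0 b} = disc (fun _ => 0) t := by
  ext w; simp [tot0, ht]

theorem slice_tot0' {b t : ℝ} (ht : ¬ |t| < b) :
    {w : ℂ | (t, w) ∈ tot0 b} = ∅ := by
  ext w; simp [tot0, ht]

theorem ae_mem_S0_sl (b : ℝ) : ∀ᵐ w ∂(mu0 b), w ∈ S0 b := by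
  unfold mu0
  have h : ∀ᵐ p ∂((expM.prod areaM).restrict (tot0 b)), p.2 ∈ S0 b := by
    filter_upwards [ae_restrict_mem (isOpen_tot0_sl b).measurableSet] with p hp
    exact ⟨p.1, hp.1, hp.2⟩
  exact (ae_map_iff measurable_snd.aemeasurable (isOpen_S0_sl b).measurableSet).2 h

/-- Fubini on the truncated worm. -/
theorem integral_mu0 {b : ℝ} {φ : ℂ → ℂ} (hφ : Integrable φ (mu0 b)) :
    (∀ᵐ t ∂(volume.restrict (Ioo (-b) b)), IntegrableOn φ (disc (fun _ => 0) t) areaM) ∧
    IntegrableOn (fun t : ℝ => (Real.exp t : ℂ) * ∫ w in disc (fun _ => 0) t, φ w ∂areaM)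
      (Ioo (-b) b) ∧
    ∫ w, φ w ∂(mu0 b) =
      ∫ t in Ioo (-b) b, (Real.exp t : ℂ) * ∫ w in disc (fun _ => 0) t, φ w ∂areaM := by
  obtain ⟨h1, h2, h3⟩ := integral_slices (isOpen_tot0_sl b).measurableSet hφ
  have e1 : (fun t : ℝ => (Real.exp t : ℂ) * ∫ w in {w | (t, w) ∈ tot0 b}, φ w ∂areaM) =
      (Ioo (-b) b).indicator
        (fun t : ℝ => (Real.exp t : ℂ) * ∫ w in disc (fun _ => 0) t, φ w ∂areaM) := by
    funext t
    by_cases ht : |t| < b
    · rw [indicator_of_mem (by exact abs_lt.1 ht), slice_tot0 ht]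
    · rw [indicator_of_notMem (by rw [mem_Ioo, ← abs_lt]; exact ht), slice_tot0' ht]
      simp
  rw [e1] at h2
  refine ⟨?_, (integrable_indicator_iff measurableSet_Ioo).1 h2, ?_⟩
  · filter_upwards [ae_restrict_of_ae h1, ae_restrict_mem measurableSet_Ioo] with t ht htb
    rwa [slice_tot0 (abs_lt.2 htb)] at ht
  · unfold mu0
    rw [h3, e1, integral_indicator measurableSet_Ioo]

theorem lintegral_mu0 {b : ℝ} {f : ℂ → ℝ≥0∞} (hf : Measurable f) :
    ∫⁻ w, f w ∂(mu0 b) = ∫⁻ t in Ioo (-b) b,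
      ENNReal.ofReal (Real.exp t) * ∫⁻ w in disc (fun _ => 0) t, f w ∂areaM := by
  unfold mu0
  rw [lintegral_slices (isOpen_tot0_sl b).measurableSet hf, ← lintegral_indicator measurableSet_Ioo]
  refine lintegral_congr fun t => ?_
  by_cases ht : |t| < b
  · rw [indicator_of_mem (by exact abs_lt.1 ht), slice_tot0 ht]
  · rw [indicator_of_notMem (by rw [mem_Ioo, ← abs_lt]; exact ht), slice_tot0' ht]
    simp

theorem disc0_eq_image (t : ℝ) : disc (fun _ => 0) t = lg t '' ball (1 : ℂ) 1 := by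
  have h := disc_eq_image (η := fun _ => 0) (t := t) le_rfl
  simpa using h

/-- `∫ |ζ|⁻¹ dA` over a ball is finite -/
theorem lintegral_inv_norm_ball :
    ∫⁻ ζ in ball (1 : ℂ) 1, ENNReal.ofReal (‖ζ‖⁻¹) ≤ ENNReal.ofReal (4 * π) := by
  have hpi := Real.pi_pos
  have hsub : ball (1 : ℂ) 1 ⊆ ball (0 : ℂ) 2 := by
    intro z hz
    rw [mem_ball, dist_eq_norm] at hz ⊢
    calc ‖z - 0‖ = ‖(z - 1) + 1‖ := by congr 1; ring
      _ ≤ ‖z - 1‖ + ‖(1 : ℂ)‖ := norm_add_le _ _
      _ < 2 := by rw [norm_one]; linarith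
  refine (lintegral_mono_set hsub).trans ?_
  have hm : Measurable (fun ζ : ℂ => ENNReal.ofReal (‖ζ‖⁻¹)) := by fun_prop
  rw [← lintegral_indicator measurableSet_ball,
    Pool.Agent.H62.lintegral_polar (hm.indicator measurableSet_ball)]
  have h1 : ∀ s ∈ Ioi (0 : ℝ), ENNReal.ofReal s * ∫⁻ θ in Ioo (-π) π,
      (ball (0 : ℂ) 2).indicator (fun ζ : ℂ => ENNReal.ofReal (‖ζ‖⁻¹)) (circleMap 0 s θ) =
      (Iio (2 : ℝ)).indicator (fun _ => ENNReal.ofReal (2 * π)) s := by
    intro s hs
    have hs' : (0 : ℝ) < s := hs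
    by_cases h2 : s < 2
    · rw [indicator_of_mem (by exact h2)]
      have : ∀ θ, (ball (0 : ℂ) 2).indicator (fun ζ : ℂ => ENNReal.ofReal (‖ζ‖⁻¹))
          (circleMap 0 s θ) = ENNReal.ofReal s⁻¹ := by
        intro θ
        rw [indicator_of_mem]
        · simp [abs_of_pos hs']
        · simp [abs_of_pos hs', h2]
      simp_rw [this]
      rw [lintegral_const, Measure.restrict_apply_univ, Real.volume_Ioo, ← mul_assoc,
        ← ENNReal.ofReal_mul hs'.le, mul_inv_cancel₀ hs'.ne', ENNReal.ofReal_one, one_mul]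
      congr 1; ring
    · rw [indicator_of_notMem (by exact h2)]
      have : ∀ θ, (ball (0 : ℂ) 2).indicator (fun ζ : ℂ => ENNReal.ofReal (‖ζ‖⁻¹))
          (circleMap 0 s θ) = 0 := by
        intro θ
        rw [indicator_of_notMem]
        simp [abs_of_pos hs']
        linarith
      simp [this]
  rw [setLIntegral_congr_fun measurableSet_Ioi h1, lintegral_indicator measurableSet_Iio,
    Measure.restrict_restrict measurableSet_Iio, Iio_inter_Ioi, lintegral_const,
    Measure.restrict_apply_univ, Real.volume_Ioo, ← ENNReal.ofReal_mul (by positivity)]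
  apply ENNReal.ofReal_le_ofReal
  linarith

/-- functions which are `O(e^{-x})` on `S0 b` are integrable -/
theorem integrable_mu0_of_bound {b : ℝ} {φ : ℂ → ℂ} (hφ : AEStronglyMeasurable φ (mu0 b)) {C : ℝ}
    (hb : ∀ w ∈ S0 b, ‖φ w‖ ≤ C * Real.exp (-w.re)) : Integrable φ (mu0 b) := by
  have h1 : Integrable (fun w : ℂ => C * Real.exp (-w.re)) (mu0 b) := by
    refine Integrable.const_mul ?_ C
    refine ⟨(Measurable.aestronglyMeasurable (by fun_prop)), ?_⟩
    unfold HasFiniteIntegral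
    have hm : Measurable (fun w : ℂ => ‖Real.exp (-w.re)‖ₑ) := by fun_prop
    rw [lintegral_mu0 hm]
    have h2 : ∀ t : ℝ, ∫⁻ w in disc (fun _ => 0) t, ‖Real.exp (-w.re)‖ₑ ∂areaM ≤
        ENNReal.ofReal (4 * π) := by
      intro t
      rw [disc0_eq_image, lintegral_lg t measurableSet_ball Subset.rfl hm]
      refine le_trans (le_of_eq ?_) lintegral_inv_norm_ball
      refine setLIntegral_congr_fun measurableSet_ball ?_
      intro ζ hζ
      simp only
      rw [Real.enorm_of_nonneg (Real.exp_pos _).le, lg_re, Real.exp_neg,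
        Real.exp_log (norm_pos_iff.2 (ne_zero_of_mem_ball hζ))]
    calc ∫⁻ t in Ioo (-b) b, ENNReal.ofReal (Real.exp t) *
          ∫⁻ w in disc (fun _ => 0) t, ‖Real.exp (-w.re)‖ₑ ∂areaM
        ≤ ∫⁻ t in Ioo (-b) b, ENNReal.ofReal (Real.exp b) * ENNReal.ofReal (4 * π) := by
          refine setLIntegral_mono' measurableSet_Ioo fun t ht => ?_
          exact mul_le_mul' (ENNReal.ofReal_le_ofReal (Real.exp_le_exp.2 ht.2.le)) (h2 t)
      _ < ⊤ := by
          rw [lintegral_const, Measure.restrict_apply_univ, Real.volume_Ioo]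
          exact ENNReal.mul_lt_top (ENNReal.mul_lt_top ENNReal.ofReal_lt_top ENNReal.ofReal_lt_top)
            ENNReal.ofReal_lt_top
  refine h1.mono' hφ ?_
  filter_upwards [ae_mem_S0_sl b] with w hw
  exact hb w hw

instance (b : ℝ) : IsFiniteMeasure (mu0 b) := by
  have h : Integrable (fun _ : ℂ => (1 : ℂ)) (mu0 b) := by
    refine integrable_mu0_of_bound (C := 2) aestronglyMeasurable_const ?_
    rintro w ⟨t, _, h1, h2⟩
    have h3 : Real.exp w.re < 2 := by
      have := Real.cos_le_one (w.im - t)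
      simp only [zero_mul, add_zero] at h2
      linarith
    rw [norm_one, Real.exp_neg]
    have := Real.exp_pos w.re
    rw [← div_eq_mul_inv, le_div_iff₀ this]
    linarith
  exact (integrable_const_iff_isFiniteMeasure one_ne_zero).1 h

end Pool.Agent.Worm
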